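import Pool.Agent.V11273.PV.G11

/-!
# Relations at algebraic points: one family
-/

set_option autoImplicit false

open Filter Topology NumberField

namespace Pool.Agent.V11273.PV

open Pool.Agent.Y890.MV
open Pool.Agent.Y890.SP (exists_omega Qbar)
open Pool.Agent.Y124 (Cov)

variable {X ι : Type} [Fintype X] [DecidableEq X] [Fintype ι] [DecidableEq ι]

/-- **All small relations are specializations of functional relations over the algebraic numbers**, one family. -/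
theorem main_Q1 [Nonempty X] {U : Set (X → ℂ)} {Y : (X → ℂ) → Matrix ι ι ℂ} (hU : IsPreconnected U) (hUo : IsOpen U)
    (hne : U.Nonempty) (hY : ∀ a b, AnalyticOnNhd ℂ (fun x => Y x a b) U)
    (hdet : ∀ x ∈ U, (Y x).det ≠ 0) {c : MvPolynomial X ℂ} (hc0 : c ≠ 0)
    {B : X → Matrix ι ι (MvPolynomial X ℂ)} (hc : Connection U Y c B)
    (hconn : Conn (Gal U Y)) :
    ∃ (ω : ℝ → ℕ) (T₀ : ℝ), Tendsto ω atTop atTop ∧ Monotone ω ∧ ∀ T, T₀ ≤ T → 0 < ω T ∧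
      ∀ (K : Type) [Field K] [NumberField K], Module.finrank ℚ K ≤ ω T → ∀ (io : K →+* ℂ),
        Cov ⌊T ^ ((ω T : ℝ)⁻¹)⌋₊ ⌊T ^ ((ω T : ℝ)⁻¹)⌋₊
          ((fun (s : X → K) i => io (s i)) '' ExcQ U (fun (v : ι × ι) x => Y x v.1 v.2) K io (ω T) T) ∧
        (ExcQ U (fun (v : ι × ι) x => Y x v.1 v.2) K io (ω T) T).Finite ∧
        ((ExcQ U (fun (v : ι × ι) x => Y x v.1 v.2) K io (ω T) T).ncard : ℝ) ≤
          T ^ ((ω T : ℝ)⁻¹) * ({x : K | Y120.HtLe K T x}.ncard : ℝ) ^ (Fintype.card X - 1) := by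
  have hreg : RegularM U (fun (v : ι × ι) x => Y x v.1 v.2) := reg hU hUo hY hdet hc0 hc hconn
  obtain ⟨ω, T₀, h1, h2, h3⟩ := excQ_omega (f := fun (v : ι × ι) x => Y x v.1 v.2) hU hUo hne
    (fun v => hY v.1 v.2) hreg
  exact ⟨ω, T₀, h1, h2, fun T hT => ⟨(h3 T hT).1, fun K _ _ hK io => (h3 T hT).2 K hK io fun _ => 0⟩⟩

end Pool.Agent.V11273.PV
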