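import Pool.Agent.V11273.PV.G9

/-!
# Independence of as many periods as the dimension of the Galois groups
-/

set_option autoImplicit false
set_option linter.unusedSectionVars false

open Filter Topology NumberField

namespace Pool.Agent.V11273.PV

open Pool.Agent.Y890.MV
open Pool.Agent.Y890.SP (exists_omega)
open Pool.Agent.Y124 (Cov)

/-- the diagonal argument -/
theorem omega_of_cov {X : Type} [Fintype X] [DecidableEq X] [Nonempty X]
    {E : ∀ (k : ℕ) (K : Type) [Field K] [NumberField K], (K →+* ℂ) → (Fin k → ℂ) → ℝ → Set (X → K)}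
    (hE : ∀ (k : ℕ) (K : Type) [Field K] [NumberField K] (io : K →+* ℂ) (ξ : Fin k → ℂ) (T : ℝ),
      ∀ s ∈ E k K io ξ T, ∀ i, Y120.HtLe K T (s i))
    (H : ∀ (k : ℕ) (ε : ℝ), 0 < ε → ∃ (D : ℕ) (C T₀ : ℝ), 0 ≤ C ∧ 2 ≤ T₀ ∧ ∀ (K : Type) [Field K] [NumberField K],
      Module.finrank ℚ K ≤ k + 1 → ∀ (io : K →+* ℂ) (ξ : Fin (k + 1) → ℂ) (T : ℝ), T₀ ≤ T →
        Cov D ⌊C * T ^ ε⌋₊ ((fun (s : X → K) i => io (s i)) '' E (k + 1) K io ξ T)) : OmegaStm E := by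
  classical
  let S : ℕ → ℝ → Prop := fun k T => ∀ (K : Type) [Field K] [NumberField K], Module.finrank ℚ K ≤ k →
    ∀ (io : K →+* ℂ) (ξ : Fin k → ℂ),
      Cov ⌊T ^ ((k : ℝ)⁻¹)⌋₊ ⌊T ^ ((k : ℝ)⁻¹)⌋₊
          ((fun (s : X → K) i => io (s i)) '' E k K io ξ T) ∧
        (E k K io ξ T).Finite ∧
        ((E k K io ξ T).ncard : ℝ) ≤
          T ^ ((k : ℝ)⁻¹) * ({x : K | Y120.HtLe K T x}.ncard : ℝ) ^ (Fintype.card X - 1)
  refine exists_omega S fun k => ?_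
  set τ : ℝ := ((k + 1 : ℕ) : ℝ)⁻¹ with hτ
  have hτ0 : 0 < τ := by positivity
  obtain ⟨D, C, T₀, hC, hT₀, H⟩ := H k (τ / 3) (by positivity)
  -- constants are powers of `T`
  have hpow : ∀ C : ℝ, 0 ≤ C → ∃ T₁ : ℝ, ∀ T, 1 ≤ T → T₁ ≤ T → C ≤ T ^ (τ / 3) := by
    intro C hC
    refine ⟨C ^ (3 * (k + 1)), fun T hT hT1 => ?_⟩
    have h4 : C = (C ^ (3 * (k + 1))) ^ (τ / 3) := by
      rw [← Real.rpow_natCast, ← Real.rpow_mul hC]
      have : ((3 * (k + 1) : ℕ) : ℝ) * (τ / 3) = 1 := by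
        rw [hτ]
        push_cast
        have : ((k : ℝ) + 1) ≠ 0 := by positivity
        field_simp
      rw [this, Real.rpow_one]
    rw [h4]
    exact Real.rpow_le_rpow (by positivity) hT1 (by positivity)
  obtain ⟨T₁, hT₁⟩ := hpow C hC
  obtain ⟨T₂, hT₂⟩ := hpow D (Nat.cast_nonneg _)
  refine ⟨max T₀ (max T₁ T₂), fun T hT K _ _ hK io ξ => ?_⟩
  have h0 : T₀ ≤ T := (le_max_left _ _).trans hT
  have h1 : T₁ ≤ T := ((le_max_left _ _).trans (le_max_right _ _)).trans hT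
  have h2 : T₂ ≤ T := ((le_max_right _ _).trans (le_max_right _ _)).trans hT
  have hT1 : 1 ≤ T := by linarith
  have hTp : 0 < T := by linarith
  have h3 := hT₁ T hT1 h1
  have h4 := hT₂ T hT1 h2
  have hcov := H K hK io ξ T h0
  have h5 : T ^ (τ / 3) * T ^ (τ / 3) ≤ T ^ τ := by
    rw [← Real.rpow_add hTp]
    exact Real.rpow_le_rpow_of_exponent_le hT1 (by linarith)
  have h6 : T ^ (τ / 3) ≤ T ^ τ := Real.rpow_le_rpow_of_exponent_le hT1 (by linarith)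
  have hm : C * T ^ (τ / 3) ≤ T ^ (τ / 3) * T ^ (τ / 3) := mul_le_mul_of_nonneg_right h3 (by positivity)
  refine ⟨hcov.mono ?_ ?_ (Set.Subset.refl _), ?_⟩
  · exact Nat.le_floor (h4.trans h6)
  · exact Nat.floor_mono (hm.trans h5)
  obtain ⟨h7, h8⟩ := cov_count io {x : K | Y120.HtLe K T x} (Y120.HtLe_fin K T) _ (fun s hs => hE _ K io ξ T s hs) hcov
  refine ⟨h7, ?_⟩
  have h9 : ((⌊C * T ^ (τ / 3)⌋₊ : ℕ) : ℝ) ≤ T ^ (τ / 3) * T ^ (τ / 3) :=
    (Nat.floor_le (by positivity)).trans hm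
  have h10 : ((E (k + 1) K io ξ T).ncard : ℝ) ≤
      (⌊C * T ^ (τ / 3)⌋₊ : ℝ) * (D * ({x : K | Y120.HtLe K T x}.ncard : ℝ) ^ (Fintype.card X - 1)) := by
    exact_mod_cast h8
  refine h10.trans ?_
  rw [← mul_assoc]
  refine mul_le_mul_of_nonneg_right ?_ (by positivity)
  calc (⌊C * T ^ (τ / 3)⌋₊ : ℝ) * (D : ℝ) ≤ (T ^ (τ / 3) * T ^ (τ / 3)) * T ^ (τ / 3) :=
        mul_le_mul h9 h4 (Nat.cast_nonneg _) (by positivity)
    _ = T ^ τ := by
        rw [← Real.rpow_add hTp, ← Real.rpow_add hTp]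
        congr 1
        ring

variable {κ : Type} [Fintype κ] [DecidableEq κ] {X ι : κ → Type} [∀ j, Fintype (X j)] [∀ j, DecidableEq (X j)]
  [∀ j, Fintype (ι j)] [∀ j, DecidableEq (ι j)]
  {U : ∀ j, Set (X j → ℂ)} {Y : ∀ j, (X j → ℂ) → Matrix (ι j) (ι j) ℂ}
  {V : κ → Type} [∀ j, Fintype (V j)] [∀ j, DecidableEq (V j)]

/-- **Independent functions of separate variables.** -/
theorem main_indep [Nonempty (Σ j, X j)] (hU : ∀ j, IsPreconnected (U j)) (hUo : ∀ j, IsOpen (U j))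
    (hne : ∀ j, (U j).Nonempty) (hY : ∀ j a b, AnalyticOnNhd ℂ (fun x => Y j x a b) (U j))
    {e : ∀ j, V j → ι j × ι j} (hV : ∀ j, Indep (U j) (Y j) (e j)) :
    OmegaStm (fun k K [Field K] [NumberField K] io ξ T => ExcB (UU U) (fV Y e) (fun _ P => P ≠ 0) K io k ξ T) := by
  classical
  have hfan : ∀ s, AnalyticOnNhd ℂ (fV Y e s) (UU U) := fun s => fE_an hY ⟨s.1, e s.1 s.2⟩
  obtain ⟨L, _, _, _, F, hz, hfrac⟩ := exists_fieldM (UU_preconn hU) (UU_open hUo) (UU_ne hne) hfan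
  have hind : AlgebraicIndependent (MvPolynomial (Σ j, X j) ℂ) (F ∘ id) := by
    rw [algebraicIndependent_iff]
    intro p hp
    exact indep_prod hV p ((hz p).1 hp)
  have hloc : ∀ t ∈ UU U, LocIndM (fV Y e) t := fun t ht => locIndM_of (UU_preconn hU) hfan F hz id hind t ht
  refine omega_of_cov (fun k K _ _ io ξ T s hs => hs.1) fun k ε hε => ?_
  -- the generic polynomial
  let Λ := (Σ j, V j) → Fin (k + 1 + 1)
  let 𝒢 : MvPolynomial (Σ j, V j) (MvPolynomial Λ (MvPolynomial (Σ j, X j) ℂ)) :=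
    ∑ l : Λ, MvPolynomial.C (MvPolynomial.X l) * ∏ v, MvPolynomial.X v ^ (l v : ℕ)
  have hspec : ∀ (t : (Σ j, X j) → ℂ) (P : Λ → ℂ), spec 𝒢 t P =
      ∑ l : Λ, MvPolynomial.C (P l) * ∏ v, MvPolynomial.X v ^ (l v : ℕ) := by
    intro t P
    simp only [spec, 𝒢, map_sum, map_mul, map_prod, map_pow, MvPolynomial.map_C, MvPolynomial.map_X,
      MvPolynomial.eval₂Hom_X']
  obtain ⟨D, C, T₀, hC, hT₀, H⟩ := covG (fV Y e) (InnerM (UU U) (k + 1)) (innerM_compact _ _)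
    (fun i t ht => hfan i t (innerM_sub _ (Nat.succ_pos k) ht)) (fun t ht => hloc t (innerM_sub _ (Nat.succ_pos k) ht))
    𝒢 (Fin (k + 1)) (k + 1) ((k + 1 : ℕ) : ℝ) ε hε
  refine ⟨D, C, T₀, hC, hT₀, fun K _ _ hK io ξ T hT => (H K hK io ξ T hT).mono le_rfl le_rfl (Set.image_mono ?_)⟩
  rintro s ⟨hs1, hs2, P, ⟨hdeg, hcoef⟩, hzero, hne'⟩
  choose c hc hc' using hcoef
  have hP : spec 𝒢 (fun i => io (s i)) (fun l => ∑ i, ξ i *
      io (c (Finsupp.equivFunOnFinite.symm fun y => (l y : ℕ)) i : K)) = P := by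
    rw [hspec]
    refine MvPolynomial.funext fun w => ?_
    rw [← sum_exp hdeg w]
    simp only [map_sum, map_mul, map_prod, map_pow, MvPolynomial.eval_C, MvPolynomial.eval_X]
    refine Finset.sum_congr rfl fun l _ => ?_
    rw [hc']
  refine ⟨hs1, hs2, fun l i => c (Finsupp.equivFunOnFinite.symm fun y => (l y : ℕ)) i, fun l i φ => hc _ _ φ, ?_, ?_⟩
  · rw [hP]
    exact hne'
  · rw [hP]
    exact hzero

/-- the dimension of a group of matrices -/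
noncomputable def gdim {ι : Type} [Fintype ι] [DecidableEq ι] (G : Subgroup (GL ι ℂ)) : ℕ :=
  sSup {n | ∃ V : Finset (ι × ι), V.card = n ∧ IndOn G V}

theorem gdim_exists {ι : Type} [Fintype ι] [DecidableEq ι] (G : Subgroup (GL ι ℂ)) :
    ∃ V : Finset (ι × ι), V.card = gdim G ∧ IndOn G V := by
  classical
  have h1 : {n | ∃ V : Finset (ι × ι), V.card = n ∧ IndOn G V}.Nonempty := by
    refine ⟨0, ∅, rfl, fun p hp => ?_⟩
    have h2 := hp 1 G.one_mem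
    have hemp : IsEmpty (∅ : Finset (ι × ι)) := inferInstance
    rw [MvPolynomial.eq_C_of_isEmpty p, MvPolynomial.eval_C] at h2
    rw [MvPolynomial.eq_C_of_isEmpty p, h2, map_zero]
  have h2 : BddAbove {n | ∃ V : Finset (ι × ι), V.card = n ∧ IndOn G V} := by
    refine ⟨Fintype.card (ι × ι), ?_⟩
    rintro n ⟨V, rfl, -⟩
    exact Finset.card_le_univ V
  exact Nat.sSup_mem h1 h2

/-- **As many independent periods as the dimension of the Galois groups.** -/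
theorem main_dim [Nonempty (Σ j, X j)] (hU : ∀ j, IsPreconnected (U j)) (hUo : ∀ j, IsOpen (U j))
    (hne : ∀ j, (U j).Nonempty) (hY : ∀ j a b, AnalyticOnNhd ℂ (fun x => Y j x a b) (U j))
    (hdet : ∀ j, ∀ x ∈ U j, (Y j x).det ≠ 0) {c : ∀ j, MvPolynomial (X j) ℂ} (hc0 : ∀ j, c j ≠ 0)
    {B : ∀ j, X j → Matrix (ι j) (ι j) (MvPolynomial (X j) ℂ)} (hc : ∀ j, Connection (U j) (Y j) (c j) (B j)) :
    ∃ V : ∀ j, Finset (ι j × ι j), (∀ j, (V j).card = gdim (Gal (U j) (Y j))) ∧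
      OmegaStm (fun k K [Field K] [NumberField K] io ξ T =>
        ExcB (UU U) (fV Y (V := fun j => V j) fun _ v => v.1) (fun _ P => P ≠ 0) K io k ξ T) := by
  classical
  choose V' hV'c hV' using fun j => gdim_exists (Gal (U j) (Y j))
  choose V hVc hV using fun j => exists_indep (hU j) (hUo j) (hne j) (hY j) (hdet j) (hc0 j) (hc j) (V' j) (hV' j)
  exact ⟨V, fun j => (hVc j).trans (hV'c j), main_indep (V := fun j => V j) (e := fun _ v => v.1) hU hUo hne hY hV⟩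

end Pool.Agent.V11273.PV
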