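import Pool.Agent.V11273.PV.G13

/-!
# Independent functions on products of domains and of curves
-/

set_option autoImplicit false
set_option linter.unusedSectionVars false

open Filter Topology NumberField

namespace Pool.Agent.V11273.PV

open Pool.Agent.Y890.MV
open Pool.Agent.Y124 (Cov)

/-- **Independent analytic functions.** -/
theorem main_indep1 {X S : Type} [Fintype X] [DecidableEq X] [Nonempty X] [Fintype S] [DecidableEq S]
    {U : Set (X → ℂ)} (hU : IsPreconnected U) (hUo : IsOpen U) (hne : U.Nonempty) {f : S → (X → ℂ) → ℂ}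
    (hfan : ∀ s, AnalyticOnNhd ℂ (f s) U)
    (hV : ∀ p : MvPolynomial S (MvPolynomial X ℂ), (∀ x ∈ U, evM f x p = 0) → p = 0) :
    OmegaStm (fun k K [Field K] [NumberField K] io ξ T => ExcB U f (fun _ P => P ≠ 0) K io k ξ T) := by
  classical
  obtain ⟨L, _, _, _, F, hz, hfrac⟩ := exists_fieldM hU hUo hne hfan
  have hind : AlgebraicIndependent (MvPolynomial X ℂ) (F ∘ id) := by
    rw [algebraicIndependent_iff]
    intro p hp
    exact hV p ((hz p).1 hp)
  have hloc : ∀ t ∈ U, LocIndM f t := fun t ht => locIndM_of hU hfan F hz id hind t ht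
  refine omega_of_cov (fun k K _ _ io ξ T s hs => hs.1) fun k ε hε => ?_
  -- the generic polynomial
  let Λ := S → Fin (k + 1 + 1)
  let 𝒢 : MvPolynomial S (MvPolynomial Λ (MvPolynomial X ℂ)) :=
    ∑ l : Λ, MvPolynomial.C (MvPolynomial.X l) * ∏ v, MvPolynomial.X v ^ (l v : ℕ)
  have hspec : ∀ (t : X → ℂ) (P : Λ → ℂ), spec 𝒢 t P =
      ∑ l : Λ, MvPolynomial.C (P l) * ∏ v, MvPolynomial.X v ^ (l v : ℕ) := by
    intro t P
    simp only [spec, 𝒢, map_sum, map_mul, map_prod, map_pow, MvPolynomial.map_C, MvPolynomial.map_X,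
      MvPolynomial.eval₂Hom_X']
  obtain ⟨D, C, T₀, hC, hT₀, H⟩ := covG f (InnerM U (k + 1)) (innerM_compact _ _)
    (fun i t ht => hfan i t (innerM_sub _ (Nat.succ_pos k) ht)) (fun t ht => hloc t (innerM_sub _ (Nat.succ_pos k) ht))
    𝒢 (Fin (k + 1)) (k + 1) ((k + 1 : ℕ) : ℝ) ε hε
  refine ⟨D, C, T₀, hC, hT₀, fun K _ _ hK io ξ T hT => (H K hK io ξ T hT).mono le_rfl le_rfl (Set.image_mono ?_)⟩
  rintro s ⟨hs1, hs2, P, ⟨hdeg, hcoef⟩, hzero, hne'⟩
  choose c hc hc' using hcoef
  have hP : spec 𝒢 (fun i => io (s i)) (fun l => ∑ i, ξ i *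
      io (c (Finsupp.equivFunOnFinite.symm fun y => (l y : ℕ)) i : K)) = P := by
    rw [hspec]
    refine MvPolynomial.funext fun w => ?_
    rw [← sum_exp hdeg w]
    simp only [map_sum, map_mul, map_prod, map_pow, MvPolynomial.eval_C, MvPolynomial.eval_X]
    refine Finset.sum_congr rfl fun l _ => ?_
    rw [hc']
  refine ⟨hs1, hs2, fun l i => c (Finsupp.equivFunOnFinite.symm fun y => (l y : ℕ)) i, fun l i φ => hc _ _ φ, ?_, ?_⟩
  · rw [hP]
    exact hne'
  · rw [hP]
    exact hzero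

section curves

variable {κ : Type} [Fintype κ] [DecidableEq κ] {S : κ → Type} [∀ c, Fintype (S c)] [∀ c, DecidableEq (S c)]

/-- the functions on the product of the curves -/
def fC (y : ∀ c, S c → ℂ → ℂ) (v : Σ c, S c) (z : κ → ℂ) : ℂ := y v.1 v.2 (z v.1)

/-- the product of the domains -/
def UC (U : κ → Set ℂ) : Set (κ → ℂ) := {z | ∀ c, z c ∈ U c}

theorem UC_eq (U : κ → Set ℂ) : UC U = Set.pi Set.univ U := by
  ext z
  simp [UC, Set.mem_pi]

theorem indep_curves {U : κ → Set ℂ} {y : ∀ c, S c → ℂ → ℂ}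
    (hV : ∀ c, ∀ P : MvPolynomial (Option (S c)) ℂ,
      (∀ t ∈ U c, MvPolynomial.eval (fun o : Option (S c) => o.elim t fun v => y c v t) P = 0) → P = 0)
    (p : MvPolynomial (Σ c, S c) (MvPolynomial κ ℂ)) (hp : ∀ z ∈ UC U, evM (fC y) z p = 0) : p = 0 := by
  classical
  let X : κ → Type := fun _ => Unit
  let U' : ∀ c, Set (X c → ℂ) := fun c => {x | x () ∈ U c}
  let Y : ∀ c, (X c → ℂ) → Matrix (S c) (S c) ℂ := fun c x a _ => y c a (x ())
  let e : ∀ c, S c → S c × S c := fun _ v => (v, v)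
  have hI : ∀ c, Indep (U' c) (Y c) (e c) := by
    intro c q hq
    obtain ⟨r, rfl⟩ := (MvPolynomial.sumAlgEquiv ℂ (S c) Unit).surjective q
    let g : S c ⊕ Unit → Option (S c) := Sum.elim some fun _ => none
    have hg : Function.Injective g := by
      rintro (a | a) (b | b) h
      · exact congrArg Sum.inl (Option.some_injective _ h)
      · exact absurd h (by simp [g])
      · exact absurd h (by simp [g])
      · rfl
    have h1 : MvPolynomial.rename g r = 0 := by
      refine hV c _ fun t ht => ?_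
      have h2 := hq (fun _ => t) ht
      rw [eval_sumAlg] at h2
      rw [MvPolynomial.eval_rename, ← h2]
      congr 2
      funext s
      rcases s with v | u <;> rfl
    rw [(map_eq_zero_iff _ (MvPolynomial.rename_injective g hg)).1 h1, map_zero]
  have hr : Function.Injective (fun c : κ => (⟨c, ()⟩ : Σ c, X c)) := by
    intro a b h
    exact congrArg Sigma.fst h
  have h1 : p.map (MvPolynomial.rename (fun c : κ => (⟨c, ()⟩ : Σ c, X c)) : MvPolynomial κ ℂ →ₐ[ℂ] _).toRingHom = 0 := by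
    refine indep_prod (U := U') (Y := Y) (e := e) hI _ fun z hz => ?_
    have h2 := hp (fun c => z ⟨c, ()⟩) fun c => hz c
    rw [← h2]
    unfold evM
    rw [MvPolynomial.eval₂_map]
    congr 1
    refine MvPolynomial.ringHom_ext (fun a => ?_) fun i => ?_
    · simp
    · simp
  exact (map_eq_zero_iff _ (MvPolynomial.map_injective _ (MvPolynomial.rename_injective _ hr))).1 h1

/-- **Independent functions on products of curves.** -/
theorem main_curves [Nonempty κ] {U : κ → Set ℂ} {y : ∀ c, S c → ℂ → ℂ} (hU : ∀ c, IsPreconnected (U c))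
    (hUo : ∀ c, IsOpen (U c)) (hne : ∀ c, (U c).Nonempty) (hy : ∀ c v, AnalyticOnNhd ℂ (y c v) (U c))
    (hV : ∀ c, ∀ P : MvPolynomial (Option (S c)) ℂ,
      (∀ t ∈ U c, MvPolynomial.eval (fun o : Option (S c) => o.elim t fun v => y c v t) P = 0) → P = 0) :
    OmegaStm (fun k K [Field K] [NumberField K] io ξ T => ExcB (UC U) (fC y) (fun _ P => P ≠ 0) K io k ξ T) := by
  classical
  refine main_indep1 ?_ ?_ ?_ ?_ (indep_curves hV)
  · rw [UC_eq]
    exact isPreconnected_univ_pi hU
  · rw [UC_eq]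
    exact isOpen_set_pi Set.finite_univ fun c _ => hUo c
  · exact ⟨fun c => (hne c).some, fun c => (hne c).some_mem⟩
  · intro v z hz
    exact AnalyticAt.fun_comp (g := y v.1 v.2) (f := fun z : κ → ℂ => z v.1) (hy v.1 v.2 (z v.1) (hz v.1))
      ((ContinuousLinearMap.proj (R := ℂ) (φ := fun _ : κ => ℂ) v.1).analyticAt z)

end curves

end Pool.Agent.V11273.PV
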