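import Pool.Agent.V11273.PV.G24

/-!
# A finite table of functional relations which decides equality
-/

set_option autoImplicit false
set_option linter.unusedSectionVars false

open Filter Topology NumberField

namespace Pool.Agent.V11273.PV

open Pool.Agent.Y890.MV
open Pool.Agent.Y890.SP (exists_omega Qbar)
open Pool.Agent.Y124 (Cov)

section one

variable {X : Type} [Fintype X] [DecidableEq X]

/-- the module of the functional relations, by their coefficients -/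
noncomputable def relMod {σ : Type} [Fintype σ] [DecidableEq σ] (U : Set (X → ℂ)) (f : σ → (X → ℂ) → ℂ) (k : ℕ) {n : ℕ}
    (ξ : Fin n → ℂ) : Submodule (MvPolynomial X Qbar) ((σ → Fin (k + 1)) × Fin n → MvPolynomial X Qbar) where
  carrier := {G | ∀ x ∈ U, ∑ l : σ → Fin (k + 1), (∑ i, ξ i * MvPolynomial.aeval x (G (l, i))) *
    ∏ y, f y x ^ (l y : ℕ) = 0}
  add_mem' := by
    intro G H hG hH x hx
    have h1 := hG x hx
    have h2 := hH x hx
    simp only [Pi.add_apply, map_add, mul_add, Finset.sum_add_distrib, add_mul]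
    rw [h1, h2, add_zero]
  zero_mem' := by
    intro x hx
    simp
  smul_mem' := by
    intro a G hG x hx
    have h1 := hG x hx
    simp only [Pi.smul_apply, smul_eq_mul, map_mul]
    have h2 : ∀ l : σ → Fin (k + 1), (∑ i, ξ i * (MvPolynomial.aeval x a * MvPolynomial.aeval x (G (l, i)))) *
        ∏ y, f y x ^ (l y : ℕ) = MvPolynomial.aeval x a * ((∑ i, ξ i * MvPolynomial.aeval x (G (l, i))) *
        ∏ y, f y x ^ (l y : ℕ)) := by
      intro l
      rw [← mul_assoc, Finset.mul_sum]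
      congr 1
      exact Finset.sum_congr rfl fun i _ => by ring
    simp only [h2, ← Finset.mul_sum, h1, mul_zero]

/-- **The finite table.** -/
theorem table {σ : Type} [Fintype σ] [DecidableEq σ] (U : Set (X → ℂ)) (f : σ → (X → ℂ) → ℂ) (k : ℕ) {n : ℕ}
    (ξ : Fin n → ℂ) : ∃ (m : ℕ) (R : Fin m → Fin n → MvPolynomial σ (MvPolynomial X Qbar)),
      (∀ a i y, (R a i).degreeOf y ≤ k) ∧
      (∀ a, ∀ x ∈ U, ∑ i, ξ i * MvPolynomial.eval₂ (MvPolynomial.aeval x : MvPolynomial X Qbar →ₐ[Qbar] ℂ).toRingHom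
        (fun y => f y x) (R a i) = 0) ∧
      ∀ (x₀ : X → ℂ) (P : Fin n → MvPolynomial σ ℂ), SpecX U f k ξ x₀ P → P ∈ Submodule.span ℂ (Set.range fun a i =>
        (R a i).map (MvPolynomial.aeval x₀ : MvPolynomial X Qbar →ₐ[Qbar] ℂ).toRingHom) := by
  classical
  have hfg : (relMod (σ := σ) U f k ξ).FG := IsNoetherian.noetherian _
  obtain ⟨m, g, hg⟩ := Submodule.fg_iff_exists_fin_generating_family.1 hfg
  have hmem : ∀ a, g a ∈ relMod (σ := σ) U f k ξ := fun a => by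
    rw [← hg]
    exact Submodule.subset_span ⟨a, rfl⟩
  refine ⟨m, fun a i => ∑ l : σ → Fin (k + 1), MvPolynomial.C (g a (l, i)) * ∏ y, MvPolynomial.X y ^ (l y : ℕ),
    fun a i y => mon_deg (fun l => g a (l, i)) y, fun a x hx => ?_, fun x₀ P hP => ?_⟩
  · have h2 := hmem a x hx
    rw [← h2]
    simp only [mon_eval (fun l => g a (l, _)) x]
    simp only [Finset.mul_sum, Finset.sum_mul]
    rw [Finset.sum_comm]
    refine Finset.sum_congr rfl fun l _ => Finset.sum_congr rfl fun i _ => ?_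
    ring
  · obtain ⟨R', hd, hf, hs⟩ := hP
    set G' : (σ → Fin (k + 1)) × Fin n → MvPolynomial X Qbar :=
      fun p => (R' p.2).coeff (Finsupp.equivFunOnFinite.symm fun y => (p.1 y : ℕ)) with hG'
    have hev : ∀ (x : X → ℂ) (w : σ → ℂ) (i : Fin n), MvPolynomial.eval₂
        (MvPolynomial.aeval x : MvPolynomial X Qbar →ₐ[Qbar] ℂ).toRingHom w (R' i) =
        ∑ l : σ → Fin (k + 1), MvPolynomial.aeval x (G' (l, i)) * ∏ y, w y ^ (l y : ℕ) := by
      intro x w i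
      have h1 := sum_exp (P := (R' i).map (MvPolynomial.aeval x : MvPolynomial X Qbar →ₐ[Qbar] ℂ).toRingHom) (k := k)
        (fun y => (degreeOf_map_le' _ (R' i) y).trans (hd i y)) w
      rw [MvPolynomial.eval_map] at h1
      rw [← h1]
      refine Finset.sum_congr rfl fun l _ => ?_
      rw [MvPolynomial.coeff_map]
      rfl
    have hGm : G' ∈ relMod (σ := σ) U f k ξ := by
      intro x hx
      rw [← hf x hx]
      simp only [hev]
      simp only [Finset.mul_sum, Finset.sum_mul]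
      rw [Finset.sum_comm]
      refine Finset.sum_congr rfl fun i _ => Finset.sum_congr rfl fun l _ => ?_
      ring
    rw [← hg, Submodule.mem_span_range_iff_exists_fun] at hGm
    obtain ⟨c, hc⟩ := hGm
    rw [Submodule.mem_span_range_iff_exists_fun]
    refine ⟨fun a => MvPolynomial.aeval x₀ (c a), ?_⟩
    funext i
    refine MvPolynomial.funext fun w => ?_
    rw [← hs i, MvPolynomial.eval_map, hev]
    rw [Finset.sum_apply, map_sum]
    simp only [Pi.smul_apply, MvPolynomial.smul_eval, MvPolynomial.eval_map, mon_eval (fun l => g _ (l, i))]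
    have h3 : ∀ l : σ → Fin (k + 1), MvPolynomial.aeval x₀ (G' (l, i)) =
        ∑ a, MvPolynomial.aeval x₀ (c a) * MvPolynomial.aeval x₀ (g a (l, i)) := by
      intro l
      rw [← hc, Finset.sum_apply, map_sum]
      simp only [Pi.smul_apply, smul_eq_mul, map_mul]
    simp only [h3, Finset.mul_sum, Finset.sum_mul]
    rw [Finset.sum_comm]
    refine Finset.sum_congr rfl fun l _ => Finset.sum_congr rfl fun a _ => ?_
    ring

/-- the value of an expression at `x` -/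
noncomputable def valX {σ : Type} (f : σ → (X → ℂ) → ℂ) {n : ℕ} (ξ : Fin n → ℂ) (x : X → ℂ)
    (P : Fin n → MvPolynomial σ ℂ) : ℂ := ∑ i, ξ i * MvPolynomial.eval (fun y => f y x) (P i)

/-- the test -/
noncomputable def tst {σ : Type} {n m : ℕ} (R : Fin m → Fin n → MvPolynomial σ (MvPolynomial X Qbar)) (x : X → ℂ)
    (P₁ P₂ : Fin n → MvPolynomial σ ℂ) (v₁ v₂ : ℂ) (δ : ℝ) : Option Bool := by
  classical
  exact if P₁ - P₂ ∈ Submodule.span ℂ (Set.range fun a i =>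
    (R a i).map (MvPolynomial.aeval x : MvPolynomial X Qbar →ₐ[Qbar] ℂ).toRingHom) then some true else
    if 2 * δ < ‖v₁ - v₂‖ then some false else none

theorem valX_sub {σ : Type} (f : σ → (X → ℂ) → ℂ) {n : ℕ} (ξ : Fin n → ℂ) (x : X → ℂ)
    (P₁ P₂ : Fin n → MvPolynomial σ ℂ) : valX f ξ x (P₁ - P₂) = valX f ξ x P₁ - valX f ξ x P₂ := by
  simp only [valX, Pi.sub_apply, map_sub, mul_sub, Finset.sum_sub_distrib]

theorem valX_add {σ : Type} (f : σ → (X → ℂ) → ℂ) {n : ℕ} (ξ : Fin n → ℂ) (x : X → ℂ)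
    (P₁ P₂ : Fin n → MvPolynomial σ ℂ) : valX f ξ x (P₁ + P₂) = valX f ξ x P₁ + valX f ξ x P₂ := by
  simp only [valX, Pi.add_apply, map_add, mul_add, Finset.sum_add_distrib]

theorem valX_smul {σ : Type} (f : σ → (X → ℂ) → ℂ) {n : ℕ} (ξ : Fin n → ℂ) (x : X → ℂ)
    (a : ℂ) (P : Fin n → MvPolynomial σ ℂ) : valX f ξ x (a • P) = a * valX f ξ x P := by
  simp only [valX, Pi.smul_apply, MvPolynomial.smul_eval, Finset.mul_sum]
  exact Finset.sum_congr rfl fun i _ => by ring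

/-- the test is never wrong -/
theorem tst_sound {σ : Type} {U : Set (X → ℂ)} {f : σ → (X → ℂ) → ℂ} {n m : ℕ} {ξ : Fin n → ℂ}
    {R : Fin m → Fin n → MvPolynomial σ (MvPolynomial X Qbar)}
    (hR : ∀ a, ∀ x ∈ U, ∑ i, ξ i * MvPolynomial.eval₂ (MvPolynomial.aeval x : MvPolynomial X Qbar →ₐ[Qbar] ℂ).toRingHom
        (fun y => f y x) (R a i) = 0) {x : X → ℂ} (hx : x ∈ U) {P₁ P₂ : Fin n → MvPolynomial σ ℂ} {v₁ v₂ : ℂ} {δ : ℝ}
    (h1 : ‖v₁ - valX f ξ x P₁‖ ≤ δ) (h2 : ‖v₂ - valX f ξ x P₂‖ ≤ δ) :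
    (tst R x P₁ P₂ v₁ v₂ δ = some true → valX f ξ x P₁ = valX f ξ x P₂) ∧
      (tst R x P₁ P₂ v₁ v₂ δ = some false → valX f ξ x P₁ ≠ valX f ξ x P₂) := by
  classical
  have hspan : ∀ P ∈ Submodule.span ℂ (Set.range fun a i =>
      (R a i).map (MvPolynomial.aeval x : MvPolynomial X Qbar →ₐ[Qbar] ℂ).toRingHom), valX f ξ x P = 0 := by
    intro P hP
    induction hP using Submodule.span_induction with
    | mem P h =>
      obtain ⟨a, rfl⟩ := h
      simp only [valX, MvPolynomial.eval_map]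
      exact hR a x hx
    | zero => simp [valX]
    | add P Q _ _ hP hQ => rw [valX_add, hP, hQ, add_zero]
    | smul a P _ hP => rw [valX_smul, hP, mul_zero]
  refine ⟨fun h => ?_, fun h => ?_⟩
  · unfold tst at h
    by_cases h3 : P₁ - P₂ ∈ Submodule.span ℂ (Set.range fun a i =>
        (R a i).map (MvPolynomial.aeval x : MvPolynomial X Qbar →ₐ[Qbar] ℂ).toRingHom)
    · have h5 := hspan _ h3
      rw [valX_sub, sub_eq_zero] at h5
      exact h5
    · rw [if_neg h3] at h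
      by_cases h4 : 2 * δ < ‖v₁ - v₂‖
      · rw [if_pos h4] at h
        exact absurd h (by simp)
      · rw [if_neg h4] at h
        exact absurd h (by simp)
  · unfold tst at h
    by_cases h3 : P₁ - P₂ ∈ Submodule.span ℂ (Set.range fun a i =>
        (R a i).map (MvPolynomial.aeval x : MvPolynomial X Qbar →ₐ[Qbar] ℂ).toRingHom)
    · rw [if_pos h3] at h
      exact absurd h (by simp)
    · rw [if_neg h3] at h
      by_cases h4 : 2 * δ < ‖v₁ - v₂‖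
      · intro h5
        have h6 : ‖v₁ - v₂‖ ≤ ‖v₁ - valX f ξ x P₁‖ + ‖v₂ - valX f ξ x P₂‖ := by
          have h7 : v₁ - v₂ = (v₁ - valX f ξ x P₁) - (v₂ - valX f ξ x P₂) := by rw [h5]; ring
          rw [h7]
          exact norm_sub_le _ _
        linarith
      · rw [if_neg h4] at h
        exact absurd h (by simp)

/-- the points at which the test never answers, for some pair of small expressions -/
def ExcTab {σ : Type} (U : Set (X → ℂ)) (f : σ → (X → ℂ) → ℂ) {m : ℕ} (k : ℕ) (ξ : Fin k → ℂ)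
    (R : Fin m → Fin k → MvPolynomial σ (MvPolynomial X Qbar)) (K : Type) [Field K] [NumberField K] (io : K →+* ℂ)
    (T : ℝ) : Set (X → K) :=
  {s | (∀ j, Y120.HtLe K T (s j)) ∧ (fun j => io (s j)) ∈ InnerM U k ∧ ∃ P₁ P₂ : Fin k → MvPolynomial σ (𝓞 K),
    (∀ i y, (P₁ i).degreeOf y ≤ k ∧ (P₂ i).degreeOf y ≤ k) ∧
    (∀ i m (φ : K →+* ℂ), ‖φ (((P₁ i).coeff m : 𝓞 K) : K)‖ ≤ T ^ (k : ℝ) / 2 ∧
      ‖φ (((P₂ i).coeff m : 𝓞 K) : K)‖ ≤ T ^ (k : ℝ) / 2) ∧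
    ∀ δ : ℝ, 0 < δ → ∃ v₁ v₂ : ℂ,
      ‖v₁ - valX f ξ (fun j => io (s j)) fun i => (P₁ i).map (io.comp (algebraMap (𝓞 K) K))‖ ≤ δ ∧
      ‖v₂ - valX f ξ (fun j => io (s j)) fun i => (P₂ i).map (io.comp (algebraMap (𝓞 K) K))‖ ≤ δ ∧
      tst R (fun j => io (s j)) (fun i => (P₁ i).map (io.comp (algebraMap (𝓞 K) K)))
        (fun i => (P₂ i).map (io.comp (algebraMap (𝓞 K) K))) v₁ v₂ δ = none}

theorem excTab_sub {σ : Type} [Fintype σ] [DecidableEq σ] {U : Set (X → ℂ)} {f : σ → (X → ℂ) → ℂ} {m k : ℕ} {ξ : Fin k → ℂ}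
    {R : Fin m → Fin k → MvPolynomial σ (MvPolynomial X Qbar)}
    (hR : ∀ (x₀ : X → ℂ) (P : Fin k → MvPolynomial σ ℂ), SpecX U f k ξ x₀ P →
      P ∈ Submodule.span ℂ (Set.range fun a i =>
        (R a i).map (MvPolynomial.aeval x₀ : MvPolynomial X Qbar →ₐ[Qbar] ℂ).toRingHom))
    {K : Type} [Field K] [NumberField K] (io : K →+* ℂ) {T : ℝ} :
    ExcTab U f k ξ R K io T ⊆ ExcX U f K io k ξ T := by
  classical
  rintro s ⟨hs, hin, P₁, P₂, hdeg, hcoef, hno⟩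
  set io' : 𝓞 K →+* ℂ := io.comp (algebraMap (𝓞 K) K) with hio'
  set x₀ : X → ℂ := fun j => io (s j) with hx₀
  set Q₁ : Fin k → MvPolynomial σ ℂ := fun i => (P₁ i).map io' with hQ₁
  set Q₂ : Fin k → MvPolynomial σ ℂ := fun i => (P₂ i).map io' with hQ₂
  have hQ : (fun i => (P₁ i - P₂ i).map io') = Q₁ - Q₂ := by
    funext i
    simp only [hQ₁, hQ₂, Pi.sub_apply, map_sub]
  -- the difference is not in the span
  have hns : Q₁ - Q₂ ∉ Submodule.span ℂ (Set.range fun a i =>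
      (R a i).map (MvPolynomial.aeval x₀ : MvPolynomial X Qbar →ₐ[Qbar] ℂ).toRingHom) := by
    intro h
    obtain ⟨v₁, v₂, -, -, h3⟩ := hno 1 one_pos
    unfold tst at h3
    rw [if_pos h] at h3
    exact absurd h3 (by simp)
  -- the values are equal
  have heq : valX f ξ x₀ Q₁ = valX f ξ x₀ Q₂ := by
    by_contra hne
    have hpos : 0 < ‖valX f ξ x₀ Q₁ - valX f ξ x₀ Q₂‖ := norm_pos_iff.2 (sub_ne_zero.2 hne)
    obtain ⟨v₁, v₂, h1, h2, h3⟩ := hno (‖valX f ξ x₀ Q₁ - valX f ξ x₀ Q₂‖ / 5) (by positivity)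
    unfold tst at h3
    rw [if_neg hns] at h3
    split_ifs at h3 with h4
    apply h4
    have h5 : ‖valX f ξ x₀ Q₁ - valX f ξ x₀ Q₂‖ ≤ ‖v₁ - v₂‖ + ‖v₁ - valX f ξ x₀ Q₁‖ + ‖v₂ - valX f ξ x₀ Q₂‖ := by
      have h6 : valX f ξ x₀ Q₁ - valX f ξ x₀ Q₂ = (v₁ - v₂) - (v₁ - valX f ξ x₀ Q₁) + (v₂ - valX f ξ x₀ Q₂) := by ring
      calc _ = ‖(v₁ - v₂) - (v₁ - valX f ξ x₀ Q₁) + (v₂ - valX f ξ x₀ Q₂)‖ := by rw [← h6]
        _ ≤ ‖(v₁ - v₂) - (v₁ - valX f ξ x₀ Q₁)‖ + ‖v₂ - valX f ξ x₀ Q₂‖ := norm_add_le _ _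
        _ ≤ _ := by
          have := norm_sub_le (v₁ - v₂) (v₁ - valX f ξ x₀ Q₁)
          linarith
    linarith
  refine ⟨hs, hin, fun i => P₁ i - P₂ i, fun i y => ?_, fun i m φ => ?_, ?_, ?_⟩
  · exact (MvPolynomial.degreeOf_sub_le y _ _).trans (max_le (hdeg i y).1 (hdeg i y).2)
  · have h1 := hcoef i m φ
    have h2 : φ (((P₁ i - P₂ i).coeff m : 𝓞 K) : K) = φ (((P₁ i).coeff m : 𝓞 K) : K) - φ (((P₂ i).coeff m : 𝓞 K) : K) := by
      rw [MvPolynomial.coeff_sub]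
      exact map_sub (φ.comp (algebraMap (𝓞 K) K)) _ _
    rw [h2]
    have := norm_sub_le (φ (((P₁ i).coeff m : 𝓞 K) : K)) (φ (((P₂ i).coeff m : 𝓞 K) : K))
    linarith [h1.1, h1.2]
  · have h1 := valX_sub f ξ x₀ Q₁ Q₂
    rw [heq, sub_self, ← hQ] at h1
    rw [← h1]
    simp only [valX, MvPolynomial.eval_map]
    rfl
  · intro h
    apply hns
    have h2 := hR x₀ _ h
    rw [hQ] at h2
    exact h2

end one

variable {κ : Type} [Fintype κ] [DecidableEq κ] {X ι : κ → Type} [∀ j, Fintype (X j)] [∀ j, DecidableEq (X j)]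
  [∀ j, Fintype (ι j)] [∀ j, DecidableEq (ι j)]
  {U : ∀ j, Set (X j → ℂ)} {Y : ∀ j, (X j → ℂ) → Matrix (ι j) (ι j) ℂ}

/-- **A finite table of functional relations decides equality at almost all points.** -/
theorem main_T [Nonempty (Σ j, X j)] (hU : ∀ j, IsPreconnected (U j)) (hUo : ∀ j, IsOpen (U j))
    (hne : ∀ j, (U j).Nonempty) (hY : ∀ j a b, AnalyticOnNhd ℂ (fun x => Y j x a b) (U j))
    (hdet : ∀ j, ∀ x ∈ U j, (Y j x).det ≠ 0) {c : ∀ j, MvPolynomial (X j) ℂ} (hc0 : ∀ j, c j ≠ 0)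
    {B : ∀ j, X j → Matrix (ι j) (ι j) (MvPolynomial (X j) ℂ)} (hc : ∀ j, Connection (U j) (Y j) (c j) (B j))
    (hconn : ∀ j, Conn (Gal (U j) (Y j))) (k : ℕ) (hk : 0 < k) (ε : ℝ) (hε : 0 < ε) :
    ∃ (D : ℕ) (C T₀ : ℝ), ∀ ξ : Fin k → ℂ,
      ∃ (m : ℕ) (R : Fin m → Fin k → MvPolynomial (Σ j, ι j × ι j) (MvPolynomial (Σ j, X j) Qbar)),
      (∀ x ∈ UU U, ∀ (P₁ P₂ : Fin k → MvPolynomial (Σ j, ι j × ι j) ℂ) (v₁ v₂ : ℂ) (δ : ℝ),
        ‖v₁ - valX (fE Y) ξ x P₁‖ ≤ δ → ‖v₂ - valX (fE Y) ξ x P₂‖ ≤ δ →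
        (tst R x P₁ P₂ v₁ v₂ δ = some true → valX (fE Y) ξ x P₁ = valX (fE Y) ξ x P₂) ∧
        (tst R x P₁ P₂ v₁ v₂ δ = some false → valX (fE Y) ξ x P₁ ≠ valX (fE Y) ξ x P₂)) ∧
      ∀ (K : Type) [Field K] [NumberField K], Module.finrank ℚ K ≤ k → ∀ (io : K →+* ℂ) (T : ℝ), T₀ ≤ T →
        Cov D ⌊C * T ^ ε⌋₊ ((fun (s : (Σ j, X j) → K) i => io (s i)) '' ExcTab (UU U) (fE Y) k ξ R K io T) ∧
        (ExcTab (UU U) (fE Y) k ξ R K io T).Finite ∧
        ((ExcTab (UU U) (fE Y) k ξ R K io T).ncard : ℝ) ≤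
          C * T ^ ε * ({x : K | Y120.HtLe K T x}.ncard : ℝ) ^ (Fintype.card (Σ j, X j) - 1) := by
  classical
  have hreg := reg_prod hU hUo hne hY hdet hc0 hc hconn
  have hreg' : RegularM (UU U) (fE Y) := by
    have h1 := RegularM_comp hreg (fun s : Σ j, ι j × ι j => (((⟨s.1, s.2.1⟩ : Σ j, ι j), (⟨s.1, s.2.2⟩ : Σ j, ι j))))
    have h2 : (fun (s : Σ j, ι j × ι j) (z : (Σ j, X j) → ℂ) => YY Y z ⟨s.1, s.2.1⟩ ⟨s.1, s.2.2⟩) = fE Y := by
      funext s z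
      exact YY_eq z s.1 s.2.1 s.2.2
    rw [← h2]
    exact h1
  obtain ⟨D, C, T₀, hC, hT₀, H⟩ := excM_cov stmZ stmClose stmCharts (UU_preconn hU) (UU_open hUo) (UU_ne hne) (fE_an hY)
    hreg' (InnerM (UU U) k) (innerM_compact _ _) (innerM_sub _ hk) k (((Σ j, ι j × ι j) → Fin (k + 1)) × Fin k) Unit k
    (k : ℝ) ε hε
  refine ⟨D, max C (C * D), T₀, fun ξ => ?_⟩
  obtain ⟨m, R, hR1, hR2, hR3⟩ := table (UU U) (fE Y) k ξ
  refine ⟨m, R, fun x hx P₁ P₂ v₁ v₂ δ hv1 hv2 => tst_sound hR2 hx hv1 hv2, fun K _ _ hK io T hT => ?_⟩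
  have hT1 : 1 ≤ T := by linarith
  have hsub : ExcTab (UU U) (fE Y) k ξ R K io T ⊆ ExcM (UU U) (fE Y) (InnerM (UU U) k) K io
      (XiX (Σ j, ι j × ι j) k ξ) k T := (excTab_sub hR3 io).trans (excX_sub io)
  have hcov := (H K hK io (XiX (Σ j, ι j × ι j) k ξ) T hT).mono le_rfl le_rfl (Set.image_mono hsub)
  obtain ⟨h7, h8⟩ := cov_count io {x : K | Y120.HtLe K T x} (Y120.HtLe_fin K T) _ (fun s hs => hs.1) hcov
  refine ⟨hcov.mono le_rfl (Nat.floor_mono (mul_le_mul_of_nonneg_right (le_max_left _ _) (by positivity))) subset_rfl,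
    h7, ?_⟩
  have h9 : ((⌊C * T ^ ε⌋₊ : ℕ) : ℝ) ≤ C * T ^ ε := Nat.floor_le (by positivity)
  have h10 : ((ExcTab (UU U) (fE Y) k ξ R K io T).ncard : ℝ) ≤
      (⌊C * T ^ ε⌋₊ : ℝ) * (D * ({x : K | Y120.HtLe K T x}.ncard : ℝ) ^ (Fintype.card (Σ j, X j) - 1)) := by
    exact_mod_cast h8
  refine h10.trans ?_
  rw [← mul_assoc]
  refine mul_le_mul_of_nonneg_right ?_ (by positivity)
  calc (⌊C * T ^ ε⌋₊ : ℝ) * (D : ℝ) ≤ C * T ^ ε * D := mul_le_mul_of_nonneg_right h9 (Nat.cast_nonneg _)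
    _ = C * D * T ^ ε := by ring
    _ ≤ max C (C * D) * T ^ ε := mul_le_mul_of_nonneg_right (le_max_right _ _) (by positivity)

end Pool.Agent.V11273.PV
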