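import Pool.Agent.V11273.PV.G16
import Pool.Agent.Y776.Cv.Fix

/-!
# Ax's theorem for analytic maps of several variables to products of fixed elliptic curves and tori
-/

set_option autoImplicit false
set_option linter.unusedSectionVars false

open Filter Topology NumberField
open scoped PeriodPair

namespace Pool.Agent.V11273.PV

open Pool.Agent.Y890.MV
open Pool.Agent.Y124 (Cov)
open H667R3 Pool.Agent.W245.EB Pool.Agent.TH813.Ell Pool.Agent.Y685 Pool.Agent.Y685.H2
open Pool.Agent.Y776.Cv Pool.Agent.Y776.Fam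
open Pool.Agent.TH813.G (NoHom)

variable {X : Type} [Fintype X] [DecidableEq X] {n s q : ℕ}

/-- an analytic map of several variables -/
structure FxD (U : Set (X → ℂ)) (Λ : Fin q → PeriodPair) (ty : Fin n → Fin q) (u : Fin n → (X → ℂ) → ℂ)
    (l : Fin s → (X → ℂ) → ℂ) : Prop where
  isOpen : IsOpen U
  conn : IsPreconnected U
  nonempty : U.Nonempty
  ni : ∀ c c', c ≠ c' → NoHom (Λ c) (Λ c')
  ua : ∀ i, AnalyticOnNhd ℂ (u i) U
  un : ∀ i, ∀ z ∈ U, u i z ∉ (Λ (ty i)).lattice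
  ui : ∀ (c : Fin q) (a : Fin n → ℂ) (b : ℂ), (∀ i, ∀ w ∈ (Λ c).lattice, a i * w ∈ (Λ c).lattice) →
    (∀ i, ty i ≠ c → a i = 0) → (∀ z ∈ U, ∑ i, a i * u i z = b) → a = 0
  la : ∀ k, AnalyticOnNhd ℂ (l k) U
  li : ∀ (m : Fin s → ℤ) (c : ℂ), (∀ z ∈ U, ∑ k, (m k : ℂ) * l k z = c) → m = 0

/-- the functions -/
noncomputable def yD (Λ : Fin q → PeriodPair) (ty : Fin n → Fin q) (u : Fin n → (X → ℂ) → ℂ) (l : Fin s → (X → ℂ) → ℂ) :
    Nf n s → (X → ℂ) → ℂ :=
  Sum.elim l (Sum.elim (fun k z => Complex.exp (l k z)) (Sum.elim u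
    (Sum.elim (fun i z => zeta (Λ (ty i)) (u i z)) (fun i z => ℘[Λ (ty i)] (u i z)))))

theorem mult_countable (L : PeriodPair) : {a : ℂ | ∀ w ∈ L.lattice, a * w ∈ L.lattice}.Countable := by
  refine (kL_countable L).mono fun a ha => ?_
  exact ⟨1, one_pos, fun w hw => by
    rw [Nat.cast_one, one_mul]
    exact ha w hw⟩

/-- the analytic curve on a line is a curve -/
theorem line_fx {U : Set (X → ℂ)} {Λ : Fin q → PeriodPair} {ty : Fin n → Fin q} {u : Fin n → (X → ℂ) → ℂ}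
    {l : Fin s → (X → ℂ) → ℂ} (h : FxD U Λ ty u l) (c : MvPolynomial X ℂ) (hc : c ≠ 0) :
    ∃ (v z₀ : X → ℂ) (r : ℝ), 0 < r ∧ (∀ t ∈ Metric.ball (0 : ℂ) r, z₀ + t • v ∈ U) ∧ MvPolynomial.eval z₀ c ≠ 0 ∧
      FxM (Metric.ball (0 : ℂ) r) Λ ty (fun i t => u i (z₀ + t • v)) (fun k t => l k (z₀ + t • v)) := by
  classical
  let S1 : Set (Fin q × (Fin n → ℂ)) := {p | (∀ i, ∀ w ∈ (Λ p.1).lattice, p.2 i * w ∈ (Λ p.1).lattice) ∧
    (∀ i, ty i ≠ p.1 → p.2 i = 0) ∧ p.2 ≠ 0}
  have hS1 : S1.Countable := by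
    have h1 : (⋃ c : Fin q, (fun a : Fin n → ℂ => (c, a)) '' (Set.pi Set.univ fun _ : Fin n =>
        {a : ℂ | ∀ w ∈ (Λ c).lattice, a * w ∈ (Λ c).lattice})).Countable := by
      refine Set.countable_iUnion fun c => Set.Countable.image ?_ _
      exact Set.countable_univ_pi fun _ => mult_countable (Λ c)
    refine h1.mono ?_
    rintro ⟨c, a⟩ ⟨ha, -, -⟩
    exact Set.mem_iUnion.2 ⟨c, a, fun i _ => ha i, rfl⟩
  have hS1' : Countable S1 := hS1.to_subtype
  let I : Type := S1 ⊕ {m : Fin s → ℤ // m ≠ 0}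
  let g : I → (X → ℂ) → ℂ := Sum.elim (fun p z => ∑ i, p.1.2 i * u i z) (fun m z => ∑ k, (m.1 k : ℂ) * l k z)
  have hgan : ∀ i, AnalyticOnNhd ℂ (g i) U := by
    rintro (p | m)
    · exact Finset.analyticOnNhd_fun_sum _ fun i _ => analyticOnNhd_const.mul (h.ua i)
    · exact Finset.analyticOnNhd_fun_sum _ fun k _ => analyticOnNhd_const.mul (h.la k)
  have hnc : ∀ i, ∀ a : ℂ, ∃ z ∈ U, g i z ≠ a := by
    rintro (p | m) b
    · by_contra hcon
      push Not at hcon
      exact p.2.2.2 (h.ui p.1.1 p.1.2 b p.2.1 p.2.2.1 hcon)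
    · by_contra hcon
      push Not at hcon
      exact m.2 (h.li m.1 b hcon)
  obtain ⟨v, z₀, r, hr, hrU, hz₀, hg⟩ := exists_line h.conn h.isOpen h.nonempty hgan hnc c hc
  have hline : ∀ t : ℂ, AnalyticAt ℂ (fun t : ℂ => z₀ + t • v) t := fun t =>
    analyticAt_const.add (analyticAt_id.smul analyticAt_const)
  refine ⟨v, z₀, r, hr, hrU, hz₀, Metric.isOpen_ball, (convex_ball _ _).isPreconnected, h.ni, ?_, ?_, ?_, ?_, ?_⟩
  · exact fun i t ht => AnalyticAt.fun_comp (g := u i) (f := fun t : ℂ => z₀ + t • v) (h.ua i _ (hrU t ht)) (hline t)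
  · exact fun i t ht => h.un i _ (hrU t ht)
  · intro c' a b ha hty hab
    by_contra hne
    obtain ⟨t, ht, hn⟩ := hg (Sum.inl ⟨(c', a), ha, hty, hne⟩) b
    exact hn (hab t ht)
  · exact fun k t ht => AnalyticAt.fun_comp (g := l k) (f := fun t : ℂ => z₀ + t • v) (h.la k _ (hrU t ht)) (hline t)
  · intro m b hm
    by_contra hne
    obtain ⟨t, ht, hn⟩ := hg (Sum.inr ⟨m, hne⟩) b
    exact hn (hm t ht)

theorem yD_an {U : Set (X → ℂ)} {Λ : Fin q → PeriodPair} {ty : Fin n → Fin q} {u : Fin n → (X → ℂ) → ℂ}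
    {l : Fin s → (X → ℂ) → ℂ} (h : FxD U Λ ty u l) (i : Nf n s) : AnalyticOnNhd ℂ (yD Λ ty u l i) U := by
  rcases i with k | k | i | i | i
  · exact h.la k
  · exact fun z hz => (h.la k z hz).cexp
  · exact h.ua i
  · intro z hz
    have h1 : AnalyticAt ℂ (fun w => zeta (Λ (ty i)) w) (u i z) := by
      have hop : IsOpen ((Λ (ty i)).lattice : Set ℂ)ᶜ := (Λ (ty i)).isClosed_lattice.isOpen_compl
      refine DifferentiableOn.analyticAt (s := ((Λ (ty i)).lattice : Set ℂ)ᶜ) (fun w hw => ?_)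
        (hop.mem_nhds (h.un i z hz))
      exact (hasDerivAt_zeta (Λ (ty i)) hw).differentiableAt.differentiableWithinAt
    exact AnalyticAt.fun_comp (g := fun w => zeta (Λ (ty i)) w) (f := u i) h1 (h.ua i z hz)
  · intro z hz
    have h1 : AnalyticAt ℂ (fun w => ℘[Λ (ty i)] w) (u i z) :=
      (Λ (ty i)).analyticOnNhd_weierstrassP _ (h.un i z hz)
    exact AnalyticAt.fun_comp (g := fun w => ℘[Λ (ty i)] w) (f := u i) h1 (h.ua i z hz)

/-- **`s + 2 n` independent functions** -/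
theorem choose_fx {U : Set (X → ℂ)} {Λ : Fin q → PeriodPair} {ty : Fin n → Fin q} {u : Fin n → (X → ℂ) → ℂ}
    {l : Fin s → (X → ℂ) → ℂ} (h : FxD U Λ ty u l) (hns : 0 < s + n) :
    ∃ A : Finset (Nf n s), A.card = s + 2 * n ∧ ∀ p : MvPolynomial A (MvPolynomial X ℂ),
      (∀ x ∈ U, evM (fun a : A => yD Λ ty u l a.1) x p = 0) → p = 0 := by
  refine choose_multi fun c hc => ?_
  obtain ⟨v, z₀, r, hr, hrU, hz₀, hF⟩ := line_fx h c hc
  obtain ⟨e, he, hL⟩ := fix_sub hF hns ⟨0, Metric.mem_ball_self hr⟩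
  refine ⟨v, z₀, r, hr, hrU, hz₀, e, he, ?_⟩
  have h1 := hL 0 (Metric.mem_ball_self hr)
  have h2 : (fun k => yf Λ ty (fun i t => u i (z₀ + t • v)) (fun k t => l k (z₀ + t • v)) (e k)) =
      fun k (t : ℂ) => yD Λ ty u l (e k) (z₀ + t • v) := by
    funext k t
    rcases e k with k | k | i | i | i <;> rfl
  rw [← h2]
  exact h1

/-- **Ax's theorem and algebraic points.** -/
theorem main_fx [Nonempty X] {U : Set (X → ℂ)} {Λ : Fin q → PeriodPair} {ty : Fin n → Fin q} {u : Fin n → (X → ℂ) → ℂ}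
    {l : Fin s → (X → ℂ) → ℂ} (h : FxD U Λ ty u l) (hns : 0 < s + n) :
    ∃ A : Finset (Nf n s), A.card = s + 2 * n ∧
      OmegaStm (fun k K [Field K] [NumberField K] io ξ T =>
        ExcB U (fun a : A => yD Λ ty u l a.1) (fun _ P => P ≠ 0) K io k ξ T) := by
  classical
  obtain ⟨A, hA, hAi⟩ := choose_fx h hns
  exact ⟨A, hA, main_indep1 h.conn h.isOpen h.nonempty (fun a => yD_an h a.1) hAi⟩

/-- the functions and their exponentials -/
noncomputable def se (l : Fin s → (X → ℂ) → ℂ) : Fin s ⊕ Fin s → (X → ℂ) → ℂ :=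
  Sum.elim l fun k z => Complex.exp (l k z)

/-- the names in the case of a torus -/
def cv : Nf 0 s → Fin s ⊕ Fin s
  | Sum.inl k => Sum.inl k
  | Sum.inr (Sum.inl k) => Sum.inr k
  | Sum.inr (Sum.inr (Sum.inl i)) => i.elim0
  | Sum.inr (Sum.inr (Sum.inr (Sum.inl i))) => i.elim0
  | Sum.inr (Sum.inr (Sum.inr (Sum.inr i))) => i.elim0

theorem cv_inj : Function.Injective (cv (s := s)) := by
  rintro (k | k | i | i | i) (k' | k' | i' | i' | i') h
  · exact congrArg Sum.inl (Sum.inl_injective h)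
  · exact absurd h (by simp [cv])
  · exact i'.elim0
  · exact i'.elim0
  · exact i'.elim0
  · exact absurd h (by simp [cv])
  · exact congrArg (fun k => Sum.inr (Sum.inl k)) (Sum.inr_injective h)
  · exact i'.elim0
  · exact i'.elim0
  · exact i'.elim0
  · exact i.elim0
  · exact i.elim0
  · exact i.elim0
  · exact i.elim0
  · exact i.elim0
  · exact i.elim0
  · exact i.elim0
  · exact i.elim0
  · exact i.elim0
  · exact i.elim0
  · exact i.elim0
  · exact i.elim0
  · exact i.elim0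
  · exact i.elim0
  · exact i.elim0

/-- **Ax's theorem for the exponential function, several variables.** -/
theorem choose_exp {U : Set (X → ℂ)} (hU : IsPreconnected U) (hUo : IsOpen U) (hne : U.Nonempty)
    {l : Fin s → (X → ℂ) → ℂ} (hl : ∀ k, AnalyticOnNhd ℂ (l k) U)
    (hli : ∀ (m : Fin s → ℤ) (c : ℂ), (∀ z ∈ U, ∑ k, (m k : ℂ) * l k z = c) → m = 0) (hs : 0 < s) :
    ∃ A : Finset (Fin s ⊕ Fin s), A.card = s ∧ ∀ p : MvPolynomial A (MvPolynomial X ℂ),
      (∀ x ∈ U, evM (fun a : A => se l a.1) x p = 0) → p = 0 := by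
  refine choose_multi fun c hc => ?_
  have h : FxD U (fun i : Fin 0 => i.elim0) (fun i : Fin 0 => i) (fun i : Fin 0 => i.elim0) l := by
    refine ⟨hUo, hU, hne, fun c => c.elim0, fun i => i.elim0, fun i => i.elim0, fun c => c.elim0, hl, hli⟩
  obtain ⟨v, z₀, r, hr, hrU, hz₀, hF⟩ := line_fx h c hc
  obtain ⟨e, he, hL⟩ := fix_sub hF (by omega) ⟨0, Metric.mem_ball_self hr⟩
  refine ⟨v, z₀, r, hr, hrU, hz₀, fun k => cv (e (Fin.cast (by ring) k)), fun a b hab => ?_, ?_⟩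
  · exact Fin.cast_injective _ (he (cv_inj hab))
  · have h1 := hL 0 (Metric.mem_ball_self hr)
    have hcard : s + 2 * 0 = s := by ring
    intro P hP
    have hQ := h1 (MvPolynomial.rename (Option.map (Fin.cast hcard.symm)) P) (by
      filter_upwards [hP] with t ht
      rw [MvPolynomial.eval_rename, ← ht]
      congr 2
      funext o
      rcases o with _ | k
      · rfl
      · change yf _ _ _ _ (e (Fin.cast hcard.symm k)) t = se l (cv (e (Fin.cast _ k))) (z₀ + t • v)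
        generalize e (Fin.cast hcard.symm k) = o'
        rcases o' with k | k | i | i | i
        · rfl
        · rfl
        · exact i.elim0
        · exact i.elim0
        · exact i.elim0)
    exact (map_eq_zero_iff _ (MvPolynomial.rename_injective _ (Option.map_injective (Fin.cast_injective _)))).1 hQ

/-- **Schanuel's conjecture and algebraic points.** -/
theorem main_exp [Nonempty X] {U : Set (X → ℂ)} (hU : IsPreconnected U) (hUo : IsOpen U) (hne : U.Nonempty)
    {l : Fin s → (X → ℂ) → ℂ} (hl : ∀ k, AnalyticOnNhd ℂ (l k) U)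
    (hli : ∀ (m : Fin s → ℤ) (c : ℂ), (∀ z ∈ U, ∑ k, (m k : ℂ) * l k z = c) → m = 0) (hs : 0 < s) :
    ∃ A : Finset (Fin s ⊕ Fin s), A.card = s ∧
      OmegaStm (fun k K [Field K] [NumberField K] io ξ T =>
        ExcB U (fun a : A => se l a.1) (fun _ P => P ≠ 0) K io k ξ T) := by
  classical
  obtain ⟨A, hA, hAi⟩ := choose_exp hU hUo hne hl hli hs
  refine ⟨A, hA, main_indep1 hU hUo hne (fun a => ?_) hAi⟩
  rcases a with ⟨k | k, ha⟩
  · exact hl k
  · exact fun z hz => (hl k z hz).cexp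

end Pool.Agent.V11273.PV
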