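import Pool.Agent.V11273.PV.G13
import Pool.Agent.V11273.PV.G14
import Pool.Agent.W175.GF.Final
import Pool.Agent.W253.GF.GTD

/-!
# Values of the Gamma function on arbitrary varieties
-/

set_option autoImplicit false
set_option linter.unusedSectionVars false

open Filter Topology NumberField

namespace Pool.Agent.V11273.PV

open Pool.Agent.Y890.MV

theorem gamma_an {X : Type} [Fintype X] {U : Set (X → ℂ)} {g : (X → ℂ) → ℂ} (hg : AnalyticOnNhd ℂ g U)
    (hp : ∀ z ∈ U, ∀ m : ℕ, g z ≠ -m) : AnalyticOnNhd ℂ (fun z => Complex.Gamma (g z)) U := by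
  intro z hz
  have h1 : AnalyticAt ℂ (fun s : ℂ => (Complex.Gamma s)⁻¹) (g z) :=
    Complex.differentiable_one_div_Gamma.analyticAt (g z)
  have h2 : AnalyticAt ℂ (fun z => (Complex.Gamma (g z))⁻¹) z :=
    AnalyticAt.fun_comp (g := fun s : ℂ => (Complex.Gamma s)⁻¹) (f := g) h1 (hg z hz)
  have h3 := h2.inv (inv_ne_zero (Complex.Gamma_ne_zero (hp z hz)))
  have h4 : (fun z => (Complex.Gamma (g z))⁻¹)⁻¹ = fun z => Complex.Gamma (g z) := by
    funext z
    simp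
  rwa [h4] at h3

theorem gamma_ind {d n : ℕ} {U : Set (Fin d → ℂ)} {y : Fin n → (Fin d → ℂ) → ℂ} (hUo : IsOpen U)
    (hU : IsPreconnected U) (hne : U.Nonempty) (hy : ∀ i, AnalyticOnNhd ℂ (y i) U)
    (halg : ∀ i, ∃ Q : Polynomial (MvPolynomial (Fin d) ℂ), Q ≠ 0 ∧
      ∀ t ∈ U, Q.eval₂ (MvPolynomial.eval t) (y i t) = 0)
    (hnc : ∀ i, ∀ v : ℂ, ∃ t ∈ U, y i t ≠ v)
    (hH : ∀ i j, i ≠ j → ∀ p q : ℚ, ∃ t ∈ U, y i t ≠ p * y j t + q)
    (p : MvPolynomial (Fin n) (MvPolynomial (Fin d) ℂ))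
    (hp : ∀ x ∈ U, evM (fun i z => Complex.Gamma (y i z)) x p = 0) : p = 0 := by
  by_contra hp0
  obtain ⟨t, ht, -, h1⟩ := (Pool.Agent.W253.GF.gtd Pool.Agent.W175.GF.gtF) d n U y hUo hU hne hy
    (fun i => by
      obtain ⟨Q, hQ, h⟩ := halg i
      exact ⟨Q, hQ, fun t ht => by rw [Polynomial.eval_map]; exact h t ht⟩)
    (fun i v hcon => by
      obtain ⟨t, ht, htn⟩ := hnc i v
      exact htn (hcon t ht))
    (fun i j hij a b hcon => by
      obtain ⟨t, ht, htn⟩ := hH i j hij a b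
      exact htn (hcon t ht)) p hp0
  apply h1
  rw [← hp t ht]
  unfold evM
  rw [MvPolynomial.eval_map]

end Pool.Agent.V11273.PV
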