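import Pool.Agent.V11273.PV.G14

/-!
# Choosing independent functions on curves
-/

set_option autoImplicit false
set_option linter.unusedSectionVars false

open Filter Topology NumberField

namespace Pool.Agent.V11273.PV

open Pool.Agent.Y890.MV
open Pool.Agent.Y124 (Cov)

variable {κ : Type} [Fintype κ] [DecidableEq κ] {N : κ → Type} [∀ c, Fintype (N c)] [∀ c, DecidableEq (N c)]

/-- independence near a point gives independence on the chosen set -/
theorem ind_of_loc {N : Type} [Fintype N] [DecidableEq N] {U : Set ℂ} (hUo : IsOpen U) (hne : U.Nonempty)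
    {y : N → ℂ → ℂ} {m : ℕ} {e : Fin m → N} (he : Function.Injective e)
    (hL : ∀ t ∈ U, Y124.LocInd (fun k => y (e k)) t) :
    ∃ A : Finset N, A.card = m ∧ ∀ P : MvPolynomial (Option A) ℂ,
      (∀ t ∈ U, MvPolynomial.eval (fun o : Option A => o.elim t fun v => y v.1 t) P = 0) → P = 0 := by
  classical
  refine ⟨Finset.univ.map ⟨e, he⟩, by rw [Finset.card_map, Finset.card_univ, Fintype.card_fin], fun P hP => ?_⟩
  have hmem : ∀ a : {a // a ∈ Finset.univ.map ⟨e, he⟩}, ∃ k, e k = a.1 := fun a => by
    obtain ⟨k, -, hk⟩ := Finset.mem_map.1 a.2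
    exact ⟨k, hk⟩
  choose g hg using hmem
  have hgi : Function.Injective g := by
    intro a b hab
    refine Subtype.ext ?_
    rw [← hg a, ← hg b, hab]
  obtain ⟨t₀, ht₀⟩ := hne
  have h1 : MvPolynomial.rename (Option.map g) P = 0 := by
    refine hL t₀ ht₀ _ ?_
    filter_upwards [hUo.mem_nhds ht₀] with t ht
    rw [MvPolynomial.eval_rename, ← hP t ht]
    congr 2
    funext o
    rcases o with _ | a
    · rfl
    · change y (e (g a)) t = y a.1 t
      rw [hg a]
  exact (map_eq_zero_iff _ (MvPolynomial.rename_injective _ (Option.map_injective hgi))).1 h1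

/-- **Independent functions can be chosen on products of curves.** -/
theorem main_choose [Nonempty κ] {U : κ → Set ℂ} {y : ∀ c, N c → ℂ → ℂ} (hU : ∀ c, IsPreconnected (U c))
    (hUo : ∀ c, IsOpen (U c)) (hne : ∀ c, (U c).Nonempty) (hy : ∀ c v, AnalyticOnNhd ℂ (y c v) (U c)) {m : κ → ℕ}
    (he : ∀ c, ∃ e : Fin (m c) → N c, Function.Injective e ∧ ∀ t ∈ U c, Y124.LocInd (fun k => y c (e k)) t) :
    ∃ A : ∀ c, Finset (N c), (∀ c, (A c).card = m c) ∧
      OmegaStm (fun k K [Field K] [NumberField K] io ξ T =>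
        ExcB (UC U) (fC fun c (a : A c) => y c a.1) (fun _ P => P ≠ 0) K io k ξ T) := by
  classical
  choose e he1 he2 using he
  choose A hA1 hA2 using fun c => ind_of_loc (hUo c) (hne c) (he1 c) (he2 c)
  exact ⟨A, hA1, main_curves hU hUo hne (fun c a => hy c a.1) hA2⟩

end Pool.Agent.V11273.PV
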