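import Mathlib
import Pool.Agent.Y685.Hol2

/-!
# Osgood's lemma for functions of two variables
-/

set_option autoImplicit false

open Filter Topology Metric
open scoped Real

namespace Pool.Agent.V11273.PV

open Pool.Agent.Y685.H2 (SH)

section

variable (c : ℂ) (R : ℝ)

/-- continuous functions on the circle -/
abbrev CS : Type := C(Metric.sphere c R, ℂ)

/-- the Cauchy functional -/
noncomputable def cauchyL (hR : 0 ≤ R) : CS c R →L[ℂ] ℂ :=
  LinearMap.mkContinuous
    { toFun := fun φ => (2 * π * Complex.I : ℂ)⁻¹ • ∫ θ in (0 : ℝ)..2 * π,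
        deriv (circleMap c R) θ * φ ⟨circleMap c R θ, circleMap_mem_sphere c hR θ⟩
      map_add' := by
        intro φ ψ
        have hc : ∀ φ : CS c R, Continuous fun θ : ℝ =>
            deriv (circleMap c R) θ * φ ⟨circleMap c R θ, circleMap_mem_sphere c hR θ⟩ := by
          intro φ
          have h0 : deriv (circleMap c R) = fun θ => circleMap 0 R θ * Complex.I := funext fun θ => deriv_circleMap c R θ
          rw [h0]
          exact ((continuous_circleMap 0 R).mul continuous_const).mul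
            (φ.continuous.comp ((continuous_circleMap c R).subtype_mk _))
        simp only [ContinuousMap.add_apply, mul_add]
        rw [intervalIntegral.integral_add ((hc φ).intervalIntegrable _ _) ((hc ψ).intervalIntegrable _ _), smul_add]
      map_smul' := by
        intro a φ
        have h0 : ∀ θ : ℝ, deriv (circleMap c R) θ * (a • φ) ⟨circleMap c R θ, circleMap_mem_sphere c hR θ⟩ =
            a * (deriv (circleMap c R) θ * φ ⟨circleMap c R θ, circleMap_mem_sphere c hR θ⟩) := fun θ => by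
          rw [ContinuousMap.smul_apply, smul_eq_mul]
          ring
        simp only [h0, intervalIntegral.integral_const_mul, smul_eq_mul, RingHom.id_apply]
        ring }
    (‖(2 * π * Complex.I : ℂ)⁻¹‖ * (R * (2 * π))) (by
      intro φ
      change ‖(2 * π * Complex.I : ℂ)⁻¹ • ∫ θ in (0 : ℝ)..2 * π,
        deriv (circleMap c R) θ * φ ⟨circleMap c R θ, circleMap_mem_sphere c hR θ⟩‖ ≤ _
      rw [norm_smul, mul_assoc ‖(2 * π * Complex.I : ℂ)⁻¹‖ (R * (2 * π)) ‖φ‖]
      refine mul_le_mul_of_nonneg_left ?_ (norm_nonneg _)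
      have h1 := intervalIntegral.norm_integral_le_of_norm_le_const (a := (0 : ℝ)) (b := 2 * π) (C := R * ‖φ‖)
        (f := fun θ => deriv (circleMap c R) θ * φ ⟨circleMap c R θ, circleMap_mem_sphere c hR θ⟩) (by
          intro θ _
          rw [norm_mul]
          refine mul_le_mul ?_ (φ.norm_coe_le_norm _) (norm_nonneg _) hR
          rw [deriv_circleMap, norm_mul, Complex.norm_I, mul_one, circleMap_zero, norm_mul, Complex.norm_real]
          rw [Complex.norm_exp_ofReal_mul_I, mul_one, Real.norm_eq_abs, abs_of_nonneg hR])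
      refine h1.trans (le_of_eq ?_)
      rw [sub_zero, abs_of_pos Real.two_pi_pos]
      ring)

end

theorem osgood {f : ℂ → ℂ → ℂ} {p : ℂ × ℂ} (h : SH f p) : AnalyticAt ℂ (fun q : ℂ × ℂ => f q.1 q.2) p := by
  obtain ⟨r, hr, hb⟩ := h.ball
  set R : ℝ := r / 2 with hRdef
  have hR : 0 < R := half_pos hr
  have hRr : R < r := half_lt_self hr
  have hsub : ∀ x y : ℂ, x ∈ closedBall y R → x ∈ ball y r := fun x y hx => closedBall_subset_ball hRr hx
  have hsphere : ∀ x y : ℂ, x ∈ sphere y R → x ∈ closedBall y R := fun x y hx => sphere_subset_closedBall hx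
  -- the function on the product
  have hcont : ∀ s ∈ closedBall p.1 R, ∀ t ∈ closedBall p.2 R,
      ContinuousAt (fun q : ℂ × ℂ => f q.1 q.2) (s, t) := fun s hs t ht =>
    (hb s (hsub _ _ hs) t (hsub _ _ ht)).cont
  let g : C(sphere p.1 R × sphere p.2 R, ℂ) := ⟨fun q => f q.1.1 q.2.1, by
    rw [continuous_iff_continuousAt]
    intro q
    exact ContinuousAt.comp (f := fun q : sphere p.1 R × sphere p.2 R => ((q.1.1, q.2.1) : ℂ × ℂ))
      (g := fun q : ℂ × ℂ => f q.1 q.2) (hcont _ (hsphere _ _ q.1.2) _ (hsphere _ _ q.2.2))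
      (by fun_prop)⟩
  classical
  let F : ℂ → CS p.2 R := fun s => if hs : s ∈ sphere p.1 R then g.curry ⟨s, hs⟩ else 0
  have hFc : ContinuousOn F (sphere p.1 R) := by
    rw [continuousOn_iff_continuous_domRestrict]
    have h1 : (sphere p.1 R).domRestrict F = g.curry := by
      funext s
      simp only [Set.domRestrict_apply, F, dif_pos s.2]
    rw [h1]
    exact g.curry.continuous
  have hFv : ∀ s ∈ sphere p.1 R, ∀ t : sphere p.2 R, F s t = f s t.1 := by
    intro s hs t
    simp only [F, dif_pos hs]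
    rfl
  have hFi : CircleIntegrable F p.1 R := hFc.circleIntegrable hR.le
  let Ft : ℂ → CS p.2 R := fun s => (2 * π * Complex.I : ℂ)⁻¹ • ∮ z in C(p.1, R), (z - s)⁻¹ • F z
  have hFt : AnalyticAt ℂ Ft p.1 := by
    have h1 := hasFPowerSeriesOn_cauchy_integral (R := ⟨R, hR.le⟩) (c := p.1) (f := F) hFi hR
    exact h1.analyticAt
  have hdiff1 : ∀ t ∈ closedBall p.2 R, DiffContOnCl ℂ (fun s => f s t) (ball p.1 R) := by
    intro t ht
    refine ⟨fun s hs => ?_, fun s hs => ?_⟩
    · exact ((hb s (hsub _ _ (ball_subset_closedBall hs)) t (hsub _ _ ht)).d1).differentiableWithinAt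
    · rw [closure_ball _ hR.ne'] at hs
      exact ((hb s (hsub _ _ hs) t (hsub _ _ ht)).d1).continuousAt.continuousWithinAt
  have hdiff2 : ∀ s ∈ closedBall p.1 R, DiffContOnCl ℂ (f s) (ball p.2 R) := by
    intro s hs
    refine ⟨fun t ht => ?_, fun t ht => ?_⟩
    · exact ((hb s (hsub _ _ hs) t (hsub _ _ (ball_subset_closedBall ht))).d2).differentiableWithinAt
    · rw [closure_ball _ hR.ne'] at ht
      exact ((hb s (hsub _ _ hs) t (hsub _ _ ht)).d2).continuousAt.continuousWithinAt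
  have hFtv : ∀ s ∈ ball p.1 R, ∀ t : sphere p.2 R, Ft s t = f s t.1 := by
    intro s hs t
    have h1 := (hdiff1 t.1 (hsphere _ _ t.2)).two_pi_i_inv_smul_circleIntegral_sub_inv_smul hs
    rw [← h1]
    have hint : CircleIntegrable (fun z => (z - s)⁻¹ • F z) p.1 R := by
      have h3 : ContinuousOn (fun z : ℂ => (z - s)⁻¹) (sphere p.1 R) := by
        refine ContinuousOn.inv₀ (by fun_prop) fun z hz => ?_
        rw [sub_ne_zero]
        rintro rfl
        rw [mem_sphere] at hz
        rw [mem_ball] at hs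
        exact absurd hz hs.ne
      exact ContinuousOn.circleIntegrable hR.le (h3.smul hFc)
    change (ContinuousMap.evalCLM ℂ t) ((2 * π * Complex.I : ℂ)⁻¹ • ∮ z in C(p.1, R), (z - s)⁻¹ • F z) = _
    rw [map_smul]
    congr 1
    simp only [circleIntegral]
    rw [← ContinuousLinearMap.intervalIntegral_comp_comm _ hint.out]
    refine intervalIntegral.integral_congr fun θ _ => ?_
    simp only [map_smul]
    change _ • _ • (F (circleMap p.1 R θ) t) = _
    rw [hFv _ (circleMap_mem_sphere p.1 hR.le θ) t]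
  -- the inverse
  let ι : CS p.2 R := ⟨fun t => t.1, continuous_subtype_val⟩
  let G : ℂ → CS p.2 R := fun w => Ring.inverse (ι - algebraMap ℂ (CS p.2 R) w)
  have hunit : ∀ w ∈ ball p.2 R, ∃ u : (CS p.2 R)ˣ, (u : CS p.2 R) = ι - algebraMap ℂ (CS p.2 R) w ∧
      ∀ t : sphere p.2 R, ((u⁻¹ : (CS p.2 R)ˣ) : CS p.2 R) t = (t.1 - w)⁻¹ := by
    intro w hw
    have hne : ∀ t : sphere p.2 R, t.1 - w ≠ 0 := by
      intro t
      rw [sub_ne_zero]
      rintro h0
      have h1 := t.2
      rw [h0, mem_sphere] at h1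
      rw [mem_ball] at hw
      exact absurd h1 hw.ne
    refine ⟨⟨ι - algebraMap ℂ (CS p.2 R) w, ⟨fun t => (t.1 - w)⁻¹, ?_⟩, ?_, ?_⟩, rfl, fun t => rfl⟩
    · exact Continuous.inv₀ (by fun_prop) hne
    · ext t
      exact mul_inv_cancel₀ (hne t)
    · ext t
      exact inv_mul_cancel₀ (hne t)
  have hG : AnalyticAt ℂ G p.2 := by
    obtain ⟨u, hu, -⟩ := hunit p.2 (mem_ball_self hR)
    have h1 : AnalyticAt ℂ (Ring.inverse : CS p.2 R → CS p.2 R) (ι - algebraMap ℂ (CS p.2 R) p.2) := by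
      rw [← hu]
      exact analyticAt_inverse (𝕜 := ℂ) u
    have h2 : AnalyticAt ℂ (fun w : ℂ => ι - algebraMap ℂ (CS p.2 R) w) p.2 :=
      analyticAt_const.sub ((Algebra.linearMap ℂ (CS p.2 R)).toContinuousLinearMap.analyticAt p.2)
    exact AnalyticAt.fun_comp (g := Ring.inverse) (f := fun w : ℂ => ι - algebraMap ℂ (CS p.2 R) w) h1 h2
  have hGv : ∀ w ∈ ball p.2 R, ∀ t : sphere p.2 R, G w t = (t.1 - w)⁻¹ := by
    intro w hw t
    obtain ⟨u, hu, huv⟩ := hunit w hw
    simp only [G]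
    rw [← hu, Ring.inverse_unit]
    exact huv t
  -- the formula
  have hform : ∀ s ∈ ball p.1 R, ∀ w ∈ ball p.2 R, f s w = cauchyL p.2 R hR.le (G w * Ft s) := by
    intro s hs w hw
    have h1 := (hdiff2 s (ball_subset_closedBall hs)).two_pi_i_inv_smul_circleIntegral_sub_inv_smul hw
    rw [← h1]
    change _ = (2 * π * Complex.I : ℂ)⁻¹ • ∫ θ in (0 : ℝ)..2 * π,
        deriv (circleMap p.2 R) θ * (G w * Ft s) ⟨circleMap p.2 R θ, circleMap_mem_sphere p.2 hR.le θ⟩
    congr 1
    simp only [circleIntegral]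
    refine intervalIntegral.integral_congr fun θ _ => ?_
    simp only [ContinuousMap.mul_apply, smul_eq_mul]
    rw [hGv w hw, hFtv s hs]
  have hmain : AnalyticAt ℂ (fun q : ℂ × ℂ => cauchyL p.2 R hR.le (G q.2 * Ft q.1)) p := by
    have h1 : AnalyticAt ℂ (fun q : ℂ × ℂ => G q.2) p :=
      AnalyticAt.fun_comp (g := G) (f := fun q : ℂ × ℂ => q.2) hG analyticAt_snd
    have h2 : AnalyticAt ℂ (fun q : ℂ × ℂ => Ft q.1) p :=
      AnalyticAt.fun_comp (g := Ft) (f := fun q : ℂ × ℂ => q.1) hFt analyticAt_fst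
    exact AnalyticAt.fun_comp (g := fun φ => cauchyL p.2 R hR.le φ) (f := fun q : ℂ × ℂ => G q.2 * Ft q.1)
      ((cauchyL p.2 R hR.le).analyticAt _) (h1.mul h2)
  refine hmain.congr ?_
  have h1 : ball p.1 R ×ˢ ball p.2 R ∈ 𝓝 p := by
    rw [nhds_prod_eq]
    exact prod_mem_prod (ball_mem_nhds _ hR) (ball_mem_nhds _ hR)
  filter_upwards [h1] with q hq
  exact (hform q.1 hq.1 q.2 hq.2).symm

/-- composition with a function of two variables -/
theorem SH_comp {E : Type*} [NormedAddCommGroup E] [NormedSpace ℂ E] {f : ℂ → ℂ → ℂ} {a b : E → ℂ} {z₀ : E}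
    (hf : SH f (a z₀, b z₀)) (ha : AnalyticAt ℂ a z₀) (hb : AnalyticAt ℂ b z₀) :
    AnalyticAt ℂ (fun z => f (a z) (b z)) z₀ :=
  AnalyticAt.fun_comp (g := fun q : ℂ × ℂ => f q.1 q.2) (f := fun z => (a z, b z)) (osgood hf) (ha.prod hb)

end Pool.Agent.V11273.PV
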