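import Pool.Agent.V11273.PV.G16
import Pool.Agent.V11273.PV.G21
import Pool.Agent.Y776.Cv.Var

/-!
# Analytic families of lattices with points and exponents over a base of several variables
-/

set_option autoImplicit false
set_option linter.unusedSectionVars false

open Filter Topology NumberField
open scoped PeriodPair

namespace Pool.Agent.V11273.PV

open Pool.Agent.Y890.MV
open H667R3 Pool.Agent.W245.EB Pool.Agent.TH813.Ell Pool.Agent.Y685 Pool.Agent.Y685.H2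
open Pool.Agent.Y776.Cv Pool.Agent.Y776.Fam

variable {X : Type} [Fintype X] [DecidableEq X] {r s : ℕ}

section Analytic

variable {E : Type*} [NormedAddCommGroup E] [NormedSpace ℂ E] {Λ : E → PeriodPair} {z₀ : E}

theorem mnt_an (h1 : AnalyticAt ℂ (fun z => (Λ z).ω₁) z₀) (h2 : AnalyticAt ℂ (fun z => (Λ z).ω₂) z₀) (ε : ℂ) :
    AnalyticAt ℂ (fun z => nt ε (Λ z)) z₀ := by
  unfold nt
  exact analyticAt_const.mul (h2.div h1 (ω₁_ne_zero _))

theorem mexists_norm (h1 : AnalyticAt ℂ (fun z => (Λ z).ω₁) z₀) (h2 : AnalyticAt ℂ (fun z => (Λ z).ω₂) z₀) :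
    ∃ ε : ℂ, (ε = 1 ∨ ε = -1) ∧ ∀ᶠ z in 𝓝 z₀, 0 < (nt ε (Λ z)).im := by
  have hc : ∀ ε : ℂ, ContinuousAt (fun z => (nt ε (Λ z)).im) z₀ := fun ε =>
    ContinuousAt.comp (f := fun z => nt ε (Λ z)) (g := Complex.im) Complex.continuous_im.continuousAt
      (mnt_an h1 h2 ε).continuousAt
  rcases lt_or_gt_of_ne (im_ne (Λ z₀)) with h3 | h3
  · refine ⟨-1, Or.inr rfl, (hc (-1)).eventually (lt_mem_nhds ?_)⟩
    simp only [nt, neg_mul, one_mul, Complex.neg_im]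
    linarith
  · refine ⟨1, Or.inl rfl, (hc 1).eventually (lt_mem_nhds ?_)⟩
    simp only [nt, one_mul]
    exact h3

theorem man_of_diff {f : ℂ → ℂ} {a : E → ℂ} (hf : ∀ᶠ t in 𝓝 (a z₀), DifferentiableAt ℂ f t)
    (ha : AnalyticAt ℂ a z₀) : AnalyticAt ℂ (fun z => f (a z)) z₀ :=
  AnalyticAt.fun_comp (g := f) (f := a) (Complex.analyticAt_iff_eventually_differentiableAt.2 hf) ha

theorem m_g₂ (a1 : AnalyticAt ℂ (fun z => (Λ z).ω₁) z₀) (a2 : AnalyticAt ℂ (fun z => (Λ z).ω₂) z₀) :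
    AnalyticAt ℂ (fun z => (Λ z).g₂) z₀ := by
  obtain ⟨ε, hε, hev⟩ := mexists_norm a1 a2
  have h1 : AnalyticAt ℂ (fun z => (LC (nt ε (Λ z))).g₂ / (Λ z).ω₁ ^ 4) z₀ := by
    refine AnalyticAt.div ?_ (a1.pow 4) (pow_ne_zero _ (ω₁_ne_zero _))
    refine man_of_diff (f := fun s => (LC s).g₂) ?_ (mnt_an a1 a2 ε)
    filter_upwards [ev_im hev.self_of_nhds] with s hs
    exact (diff_g hs).1
  refine h1.congr ?_
  filter_upwards [hev] with z hz'
  exact ((Hm_nt (Λ z) hε hz').g₂).symm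

theorem m_g₃ (a1 : AnalyticAt ℂ (fun z => (Λ z).ω₁) z₀) (a2 : AnalyticAt ℂ (fun z => (Λ z).ω₂) z₀) :
    AnalyticAt ℂ (fun z => (Λ z).g₃) z₀ := by
  obtain ⟨ε, hε, hev⟩ := mexists_norm a1 a2
  have h1 : AnalyticAt ℂ (fun z => (LC (nt ε (Λ z))).g₃ / (Λ z).ω₁ ^ 6) z₀ := by
    refine AnalyticAt.div ?_ (a1.pow 6) (pow_ne_zero _ (ω₁_ne_zero _))
    refine man_of_diff (f := fun s => (LC s).g₃) ?_ (mnt_an a1 a2 ε)
    filter_upwards [ev_im hev.self_of_nhds] with s hs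
    exact (diff_g hs).2
  refine h1.congr ?_
  filter_upwards [hev] with z hz'
  exact ((Hm_nt (Λ z) hε hz').g₃).symm

theorem m_eta (a1 : AnalyticAt ℂ (fun z => (Λ z).ω₁) z₀) (a2 : AnalyticAt ℂ (fun z => (Λ z).ω₂) z₀) :
    AnalyticAt ℂ (fun z => eta (Λ z) (Λ z).ω₁) z₀ := by
  obtain ⟨ε, hε, hev⟩ := mexists_norm a1 a2
  have h1 : AnalyticAt ℂ (fun z => h1 (nt ε (Λ z)) / (Λ z).ω₁) z₀ := by
    refine AnalyticAt.div ?_ a1 (ω₁_ne_zero _)
    refine man_of_diff ?_ (mnt_an a1 a2 ε)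
    filter_upwards [ev_im hev.self_of_nhds] with s hs
    exact diff_h1 hs
  refine h1.congr ?_
  filter_upwards [hev] with z hz'
  have := (Hm_nt (Λ z) hε hz').eta (one_mem hz')
  rw [mul_one] at this
  rw [this]
  rfl

theorem m_zeta (a1 : AnalyticAt ℂ (fun z => (Λ z).ω₁) z₀) (a2 : AnalyticAt ℂ (fun z => (Λ z).ω₂) z₀)
    {p : E → ℂ} (hp : AnalyticAt ℂ p z₀) (hpn : p z₀ ∉ (Λ z₀).lattice) :
    AnalyticAt ℂ (fun z => zeta (Λ z) (p z)) z₀ := by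
  obtain ⟨ε, hε, hev⟩ := mexists_norm a1 a2
  have hq : AnalyticAt ℂ (fun z => p z / (Λ z).ω₁) z₀ := hp.div a1 (ω₁_ne_zero _)
  have hn : p z₀ / (Λ z₀).ω₁ ∉ (LC (nt ε (Λ z₀))).lattice := by
    rw [← (Hm_nt (Λ z₀) hε hev.self_of_nhds).notMem, mul_div_cancel₀ _ (ω₁_ne_zero _)]
    exact hpn
  have h1 : AnalyticAt ℂ (fun z => zeta (LC (nt ε (Λ z))) (p z / (Λ z).ω₁) / (Λ z).ω₁) z₀ :=
    (SH_comp (f := fun t z => zeta (LC t) z) (a := fun z => nt ε (Λ z)) (b := fun z => p z / (Λ z).ω₁)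
      (SH_zeta hev.self_of_nhds hn) (mnt_an a1 a2 ε) hq).div a1 (ω₁_ne_zero _)
  refine h1.congr ?_
  filter_upwards [hev] with z hz'
  have := (Hm_nt (Λ z) hε hz').zeta (p z / (Λ z).ω₁)
  rw [mul_div_cancel₀ _ (ω₁_ne_zero _)] at this
  exact this.symm

theorem m_wp (a1 : AnalyticAt ℂ (fun z => (Λ z).ω₁) z₀) (a2 : AnalyticAt ℂ (fun z => (Λ z).ω₂) z₀)
    {p : E → ℂ} (hp : AnalyticAt ℂ p z₀) (hpn : p z₀ ∉ (Λ z₀).lattice) :
    AnalyticAt ℂ (fun z => ℘[Λ z] (p z)) z₀ := by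
  obtain ⟨ε, hε, hev⟩ := mexists_norm a1 a2
  have hq : AnalyticAt ℂ (fun z => p z / (Λ z).ω₁) z₀ := hp.div a1 (ω₁_ne_zero _)
  have hn : p z₀ / (Λ z₀).ω₁ ∉ (LC (nt ε (Λ z₀))).lattice := by
    rw [← (Hm_nt (Λ z₀) hε hev.self_of_nhds).notMem, mul_div_cancel₀ _ (ω₁_ne_zero _)]
    exact hpn
  have h1 : AnalyticAt ℂ (fun z => ℘[LC (nt ε (Λ z))] (p z / (Λ z).ω₁) / (Λ z).ω₁ ^ 2) z₀ :=
    (SH_comp (f := fun t z => ℘[LC t] z) (a := fun z => nt ε (Λ z)) (b := fun z => p z / (Λ z).ω₁)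
      (SH_wp hev.self_of_nhds hn) (mnt_an a1 a2 ε) hq).div (a1.pow 2) (pow_ne_zero _ (ω₁_ne_zero _))
  refine h1.congr ?_
  filter_upwards [hev] with z hz'
  have := (Hm_nt (Λ z) hε hz').wp (p z / (Λ z).ω₁)
  rw [mul_div_cancel₀ _ (ω₁_ne_zero _)] at this
  exact this.symm

end Analytic

/-- a family of lattices with points and exponents over a base of several variables -/
structure FxL (U : Set (X → ℂ)) (Λ : (X → ℂ) → PeriodPair) (u : Fin r → (X → ℂ) → ℂ) (l : Fin s → (X → ℂ) → ℂ) :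
    Prop where
  isOpen : IsOpen U
  conn : IsPreconnected U
  nonempty : U.Nonempty
  an₁ : AnalyticOnNhd ℂ (fun z => (Λ z).ω₁) U
  an₂ : AnalyticOnNhd ℂ (fun z => (Λ z).ω₂) U
  nr : ∀ c : ℂ, ∃ z ∈ U, (Λ z).ω₂ / (Λ z).ω₁ ≠ c
  ua : ∀ i, AnalyticOnNhd ℂ (u i) U
  un : ∀ i, ∀ z ∈ U, u i z ∉ (Λ z).lattice
  ui : ∀ n : Fin r → ℤ, (∀ z ∈ U, ∑ i, (n i : ℂ) * u i z ∈ (Λ z).lattice) → n = 0
  la : ∀ k, AnalyticOnNhd ℂ (l k) U
  li : ∀ (m : Fin s → ℤ) (c : ℂ), (∀ z ∈ U, ∑ k, (m k : ℂ) * l k z = c) → m = 0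

/-- the functions -/
noncomputable def yL (Λ : (X → ℂ) → PeriodPair) (u : Fin r → (X → ℂ) → ℂ) (l : Fin s → (X → ℂ) → ℂ) :
    Nv r s → (X → ℂ) → ℂ :=
  Sum.elim (fun j z => ![(Λ z).ω₁, (Λ z).ω₂, eta (Λ z) (Λ z).ω₁, (Λ z).g₂, (Λ z).g₃] j)
    (Sum.elim u (Sum.elim (fun i z => zeta (Λ z) (u i z)) (Sum.elim (fun i z => ℘[Λ z] (u i z))
      (Sum.elim l (fun k z => Complex.exp (l k z))))))

variable {U : Set (X → ℂ)} {Λ : (X → ℂ) → PeriodPair} {u : Fin r → (X → ℂ) → ℂ} {l : Fin s → (X → ℂ) → ℂ}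

theorem yL_an (h : FxL U Λ u l) (i : Nv r s) : AnalyticOnNhd ℂ (yL Λ u l i) U := by
  rcases i with j | i | i | i | k | k
  · fin_cases j
    · exact h.an₁
    · exact h.an₂
    · exact fun z hz => m_eta (h.an₁ z hz) (h.an₂ z hz)
    · exact fun z hz => m_g₂ (h.an₁ z hz) (h.an₂ z hz)
    · exact fun z hz => m_g₃ (h.an₁ z hz) (h.an₂ z hz)
  · exact h.ua i
  · exact fun z hz => m_zeta (h.an₁ z hz) (h.an₂ z hz) (h.ua i z hz) (h.un i z hz)
  · exact fun z hz => m_wp (h.an₁ z hz) (h.an₂ z hz) (h.ua i z hz) (h.un i z hz)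
  · exact h.la k
  · exact fun z hz => (h.la k z hz).cexp

/-- **a generic line through a generic point** -/
theorem exists_line' {U : Set (X → ℂ)} (hU : IsPreconnected U) (hUo : IsOpen U) (hne : U.Nonempty)
    {I J : Type} [Countable I] [Countable J] {g : I → (X → ℂ) → ℂ} (hg : ∀ i, AnalyticOnNhd ℂ (g i) U)
    (hnc : ∀ i, ∀ c : ℂ, ∃ z ∈ U, g i z ≠ c) {q : J → (X → ℂ) → ℂ} (hq : ∀ j, AnalyticOnNhd ℂ (q j) U)
    (hqz : ∀ j, ∃ z ∈ U, q j z ≠ 0) :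
    ∃ (v z₀ : X → ℂ) (r : ℝ), 0 < r ∧ (∀ t ∈ Metric.ball (0 : ℂ) r, z₀ + t • v ∈ U) ∧ (∀ j, q j z₀ ≠ 0) ∧
      ∀ i, ∀ a : ℂ, ∃ t ∈ Metric.ball (0 : ℂ) r, g i (z₀ + t • v) ≠ a := by
  obtain ⟨v, hv⟩ := exists_direction hU hUo hne hg hnc
  let G : J ⊕ I → (X → ℂ) → ℂ := Sum.elim q fun i z => fderiv ℂ (g i) z v
  have hGan : ∀ o, AnalyticOnNhd ℂ (G o) U := by
    rintro (j | i)
    · exact hq j
    · intro z hz
      exact ((ContinuousLinearMap.apply ℂ ℂ v).analyticAt _).comp ((hg i).fderiv z hz)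
  obtain ⟨z₀, hz₀, hz₀'⟩ := exists_point (G := G) hU hUo hne hGan (by
    rintro (j | i)
    · exact hqz j
    · exact hv i)
  have hcont : Continuous fun t : ℂ => z₀ + t • v := by fun_prop
  have hpre : IsOpen ((fun t : ℂ => z₀ + t • v) ⁻¹' U) := hUo.preimage hcont
  obtain ⟨r, hr, hrU⟩ := Metric.isOpen_iff.1 hpre 0 (by
    change z₀ + (0 : ℂ) • v ∈ U
    rw [zero_smul, add_zero]
    exact hz₀)
  refine ⟨v, z₀, r, hr, fun t ht => hrU ht, fun j => hz₀' (Sum.inl j), fun i a => ?_⟩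
  by_contra hcon
  push Not at hcon
  have h1 : HasDerivAt (fun t : ℂ => z₀ + t • v) v 0 := by
    have h2 := ((hasDerivAt_id (0 : ℂ)).smul_const v).const_add z₀
    simpa using h2
  have h2 : HasFDerivAt (g i) (fderiv ℂ (g i) z₀) (z₀ + (0 : ℂ) • v) := by
    rw [zero_smul, add_zero]
    exact ((hg i) z₀ hz₀).differentiableAt.hasFDerivAt
  have h3 : HasDerivAt (fun t : ℂ => g i (z₀ + t • v)) (fderiv ℂ (g i) z₀ v) 0 := h2.comp_hasDerivAt 0 h1
  have h4 : HasDerivAt (fun t : ℂ => g i (z₀ + t • v)) 0 0 := by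
    refine (hasDerivAt_const (0 : ℂ) a).congr_of_eventuallyEq ?_
    filter_upwards [Metric.ball_mem_nhds (0 : ℂ) hr] with t ht
    exact hcon t ht
  exact hz₀' (Sum.inr i) (h3.unique h4)

theorem poly_an (c : MvPolynomial X ℂ) (z : X → ℂ) : AnalyticAt ℂ (fun x => MvPolynomial.eval x c) z := by
  have h1 := AnalyticAt.aeval_mvPolynomial (𝕜 := ℂ) (f := fun z : X → ℂ => z) (z := z)
    (fun i => (ContinuousLinearMap.proj (R := ℂ) (φ := fun _ : X => ℂ) i).analyticAt z) c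
  have h2 : (fun x : X → ℂ => MvPolynomial.aeval x c) = fun x => MvPolynomial.eval x c := by
    funext x
    rw [MvPolynomial.aeval_def, MvPolynomial.eval₂_eq_eval_map]
    simp
  rw [← h2]
  exact h1

/-- the family on a generic line -/
theorem line_fl (h : FxL U Λ u l) (c : MvPolynomial X ℂ) (hc : c ≠ 0) :
    ∃ (v z₀ : X → ℂ) (ρ : ℝ), 0 < ρ ∧ (∀ t ∈ Metric.ball (0 : ℂ) ρ, z₀ + t • v ∈ U) ∧ MvPolynomial.eval z₀ c ≠ 0 ∧
      FxV (Metric.ball (0 : ℂ) ρ) (fun t => Λ (z₀ + t • v)) (fun i t => u i (z₀ + t • v))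
        (fun k t => l k (z₀ + t • v)) := by
  classical
  let I : Type := Unit ⊕ {m : Fin s → ℤ // m ≠ 0}
  let g : I → (X → ℂ) → ℂ := Sum.elim (fun _ z => (Λ z).ω₂ / (Λ z).ω₁) (fun m z => ∑ k, (m.1 k : ℂ) * l k z)
  have hgan : ∀ i, AnalyticOnNhd ℂ (g i) U := by
    rintro (_ | m)
    · exact fun z hz => (h.an₂ z hz).div (h.an₁ z hz) (ω₁_ne_zero _)
    · exact Finset.analyticOnNhd_fun_sum _ fun k _ => analyticOnNhd_const.mul (h.la k)
  have hnc : ∀ i, ∀ a : ℂ, ∃ z ∈ U, g i z ≠ a := by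
    rintro (_ | m) b
    · exact h.nr b
    · by_contra hcon
      push Not at hcon
      exact m.2 (h.li m.1 b hcon)
  let J : Type := Unit ⊕ ({n : Fin r → ℤ // n ≠ 0} × ℤ × ℤ)
  let q : J → (X → ℂ) → ℂ := Sum.elim (fun _ z => MvPolynomial.eval z c)
    (fun n z => ∑ i, (n.1.1 i : ℂ) * u i z - ((n.2.1 : ℂ) * (Λ z).ω₁ + (n.2.2 : ℂ) * (Λ z).ω₂))
  have hqan : ∀ j, AnalyticOnNhd ℂ (q j) U := by
    rintro (_ | n)
    · exact fun z _ => poly_an c z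
    · exact (Finset.analyticOnNhd_fun_sum _ fun i _ => analyticOnNhd_const.mul (h.ua i)).sub
        ((analyticOnNhd_const.mul h.an₁).add (analyticOnNhd_const.mul h.an₂))
  have hqz : ∀ j, ∃ z ∈ U, q j z ≠ 0 := by
    rintro (_ | ⟨n, a, b⟩)
    · by_contra hcon
      push Not at hcon
      exact hc (poly_zero h.isOpen h.nonempty c fun z hz => hcon z hz)
    · by_contra hcon
      push Not at hcon
      refine n.2 (h.ui n.1 fun z hz => ?_)
      have h1 := hcon z hz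
      simp only [q, Sum.elim_inr, sub_eq_zero] at h1
      rw [h1, PeriodPair.mem_lattice]
      exact ⟨a, b, rfl⟩
  obtain ⟨v, z₀, ρ, hρ, hρU, hz₀, hg⟩ := exists_line' h.conn h.isOpen h.nonempty hgan hnc hqan hqz
  have hline : ∀ t : ℂ, AnalyticAt ℂ (fun t : ℂ => z₀ + t • v) t := fun t =>
    analyticAt_const.add (analyticAt_id.smul analyticAt_const)
  have hcomp : ∀ {f : (X → ℂ) → ℂ}, AnalyticOnNhd ℂ f U →
      AnalyticOnNhd ℂ (fun t : ℂ => f (z₀ + t • v)) (Metric.ball (0 : ℂ) ρ) := fun {f} hf t ht =>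
    AnalyticAt.fun_comp (g := f) (f := fun t : ℂ => z₀ + t • v) (hf _ (hρU t ht)) (hline t)
  refine ⟨v, z₀, ρ, hρ, hρU, hz₀ (Sum.inl ()), ?_⟩
  exact
    { isOpen := Metric.isOpen_ball
      conn := (convex_ball _ _).isPreconnected
      an₁ := hcomp h.an₁
      an₂ := hcomp h.an₂
      nr := fun a => hg (Sum.inl ()) a
      ua := fun i => hcomp (h.ua i)
      un := fun i t ht => h.un i _ (hρU t ht)
      ui := by
        intro n hn
        by_contra hne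
        have h1 := hn 0 (Metric.mem_ball_self hρ)
        simp only [zero_smul, add_zero] at h1
        rw [PeriodPair.mem_lattice] at h1
        obtain ⟨a, b, hab⟩ := h1
        refine hz₀ (Sum.inr (⟨n, hne⟩, a, b)) ?_
        simp only [q, Sum.elim_inr, sub_eq_zero]
        exact hab.symm
      la := fun k => hcomp (h.la k)
      li := by
        intro m b hm
        by_contra hne
        obtain ⟨t, ht, hn⟩ := hg (Sum.inr ⟨m, hne⟩) b
        exact hn (hm t ht) }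

/-- **`3 + s + 2 r` independent functions** -/
theorem choose_fl (h : FxL U Λ u l) :
    ∃ A : Finset (Nv r s), A.card = 3 + (s + 2 * r) ∧ ∀ p : MvPolynomial A (MvPolynomial X ℂ),
      (∀ x ∈ U, Pool.Agent.Y890.MV.evM (fun a : A => yL Λ u l a.1) x p = 0) → p = 0 := by
  refine choose_multi fun c hc => ?_
  obtain ⟨v, z₀, ρ, hρ, hρU, hz₀, hF⟩ := line_fl h c hc
  obtain ⟨e, he, hL⟩ := var_sub hF ⟨0, Metric.mem_ball_self hρ⟩
  refine ⟨v, z₀, ρ, hρ, hρU, hz₀, e, he, ?_⟩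
  have h1 := hL 0 (Metric.mem_ball_self hρ)
  have h2 : (fun k => yv (fun t => Λ (z₀ + t • v)) (fun i t => u i (z₀ + t • v)) (fun k t => l k (z₀ + t • v)) (e k)) =
      fun k (t : ℂ) => yL Λ u l (e k) (z₀ + t • v) := by
    funext k t
    rcases e k with k | i | i | i | k | k <;> rfl
  rw [← h2]
  exact h1

/-- **The values at algebraic points.** -/
theorem main_fl [Nonempty X] (h : FxL U Λ u l) :
    ∃ A : Finset (Nv r s), A.card = 3 + (s + 2 * r) ∧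
      OmegaStm (fun k K [Field K] [NumberField K] io ξ T =>
        ExcB U (fun a : A => yL Λ u l a.1) (fun _ P => P ≠ 0) K io k ξ T) := by
  classical
  obtain ⟨A, hA, hAi⟩ := choose_fl h
  exact ⟨A, hA, main_indep1 h.conn h.isOpen h.nonempty (fun a => yL_an h a.1) hAi⟩

end Pool.Agent.V11273.PV
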