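import Pool.Agent.V11273.PV.G17

/-!
# Algebraic functions are not among the independent functions
-/

set_option autoImplicit false
set_option linter.unusedSectionVars false

open Filter Topology NumberField
open scoped PeriodPair

namespace Pool.Agent.V11273.PV

open Pool.Agent.Y890.MV
open H667R3 Pool.Agent.W245.EB Pool.Agent.TH813.Ell Pool.Agent.Y685 Pool.Agent.Y685.H2
open Pool.Agent.Y776.Cv Pool.Agent.Y776.Fam

variable {X : Type} [Fintype X] [DecidableEq X]

/-- `g` is an algebraic function on `U` -/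
def AlgOn (U : Set (X → ℂ)) (g : (X → ℂ) → ℂ) : Prop :=
  ∃ Q : Polynomial (MvPolynomial X ℂ), Q ≠ 0 ∧ ∀ x ∈ U, Q.eval₂ (MvPolynomial.eval x) (g x) = 0

theorem not_mem_of_alg {N : Type} {U : Set (X → ℂ)} {F : N → (X → ℂ) → ℂ} {A : Finset N}
    (hA : ∀ p : MvPolynomial A (MvPolynomial X ℂ), (∀ x ∈ U, evM (fun a : A => F a.1) x p = 0) → p = 0)
    {a : N} (ha : AlgOn U (F a)) : a ∉ A := by
  intro haA
  obtain ⟨Q, hQ, hz⟩ := ha
  refine hQ ?_
  have h1 : Polynomial.aeval (MvPolynomial.X ⟨a, haA⟩ : MvPolynomial A (MvPolynomial X ℂ)) Q = 0 := by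
    refine hA _ fun x hx => ?_
    rw [← hz x hx]
    unfold Pool.Agent.Y890.MV.evM
    rw [Polynomial.aeval_def]
    change (MvPolynomial.eval₂Hom (MvPolynomial.eval x) fun a : A => F a.1 x) (Polynomial.eval₂ _ _ Q) = _
    rw [Polynomial.hom_eval₂]
    congr 1
    · ext1
      · simp
      · simp
    · simp
  exact (transcendental_iff.1 (MvPolynomial.transcendental_X (R := MvPolynomial X ℂ) _)) Q h1

/-- the complement of the algebraic functions is independent, if it has the right number of elements -/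
theorem ind_transfer {N S : Type} [Fintype S] {U : Set (X → ℂ)} {F : N → (X → ℂ) → ℂ} {A : Finset N}
    (hA : ∀ p : MvPolynomial A (MvPolynomial X ℂ), (∀ x ∈ U, evM (fun a : A => F a.1) x p = 0) → p = 0)
    {g : S → N} (hg : Function.Injective g) (hcard : Fintype.card S = A.card)
    (halg : ∀ a, a ∉ Set.range g → AlgOn U (F a)) :
    ∀ p : MvPolynomial S (MvPolynomial X ℂ), (∀ x ∈ U, evM (fun s => F (g s)) x p = 0) → p = 0 := by
  classical
  have h1 : A ⊆ Finset.univ.map ⟨g, hg⟩ := by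
    intro a ha
    by_contra hcon
    refine not_mem_of_alg hA (halg a ?_) ha
    rintro ⟨s, rfl⟩
    exact hcon (Finset.mem_map_of_mem ⟨g, hg⟩ (Finset.mem_univ s))
  have h2 : A = Finset.univ.map ⟨g, hg⟩ := Finset.eq_of_subset_of_card_le h1 (by
    rw [Finset.card_map, Finset.card_univ, hcard])
  have h3 : ∀ s, g s ∈ A := by
    intro s
    rw [h2]
    exact Finset.mem_map_of_mem ⟨g, hg⟩ (Finset.mem_univ s)
  intro p hp
  let e : S → A := fun s => ⟨g s, h3 s⟩
  have he : Function.Injective e := fun a b hab => hg (congrArg Subtype.val hab)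
  have h4 : MvPolynomial.rename e p = 0 := by
    refine hA _ fun x hx => ?_
    rw [← hp x hx]
    unfold Pool.Agent.Y890.MV.evM
    rw [MvPolynomial.eval₂_rename]
    rfl
  exact (map_eq_zero_iff _ (MvPolynomial.rename_injective _ he)).1 h4

/-- polynomials as functions on `U` -/
noncomputable def polyHom (U : Set (X → ℂ)) : MvPolynomial X ℂ →+* (U → ℂ) :=
  RingHom.pi fun x : U => MvPolynomial.eval x.1

theorem algOn_iff {U : Set (X → ℂ)} {g : (X → ℂ) → ℂ} : AlgOn U g ↔
    @IsAlgebraic (MvPolynomial X ℂ) (U → ℂ) _ _ (polyHom U).toAlgebra (fun x : U => g x.1) := by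
  let := (polyHom U).toAlgebra
  have h1 : ∀ (Q : Polynomial (MvPolynomial X ℂ)) (x : U),
      (Polynomial.aeval (fun x : U => g x.1) Q) x = Q.eval₂ (MvPolynomial.eval x.1) (g x.1) := by
    intro Q x
    rw [Polynomial.aeval_def]
    change Pi.evalRingHom (fun _ : U => ℂ) x (Polynomial.eval₂ _ _ Q) = _
    rw [Polynomial.hom_eval₂]
    rfl
  constructor
  · rintro ⟨Q, hQ, hz⟩
    refine ⟨Q, hQ, ?_⟩
    funext x
    rw [h1]
    exact hz x.1 x.2
  · rintro ⟨Q, hQ, hz⟩
    refine ⟨Q, hQ, fun x hx => ?_⟩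
    have h2 := congrFun hz ⟨x, hx⟩
    rw [h1] at h2
    exact h2

theorem AlgOn.mul {U : Set (X → ℂ)} {f g : (X → ℂ) → ℂ} (hf : AlgOn U f) (hg : AlgOn U g) :
    AlgOn U (fun x => f x * g x) := by
  let := (polyHom U).toAlgebra
  rw [algOn_iff] at hf hg ⊢
  exact hf.mul hg

theorem AlgOn.add {U : Set (X → ℂ)} {f g : (X → ℂ) → ℂ} (hf : AlgOn U f) (hg : AlgOn U g) :
    AlgOn U (fun x => f x + g x) := by
  let := (polyHom U).toAlgebra
  rw [algOn_iff] at hf hg ⊢
  exact hf.add hg

theorem AlgOn.const (U : Set (X → ℂ)) (c : ℂ) : AlgOn U (fun _ => c) := by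
  refine ⟨Polynomial.X - Polynomial.C (MvPolynomial.C c), Polynomial.X_sub_C_ne_zero _, fun x _ => ?_⟩
  simp

theorem AlgOn.pow {U : Set (X → ℂ)} {f : (X → ℂ) → ℂ} (hf : AlgOn U f) (k : ℕ) : AlgOn U (fun x => f x ^ k) := by
  let := (polyHom U).toAlgebra
  rw [algOn_iff] at hf ⊢
  exact hf.pow k

theorem AlgOn.inv {U : Set (X → ℂ)} {f : (X → ℂ) → ℂ} (hf : AlgOn U f) (hf0 : ∀ x ∈ U, f x ≠ 0) :
    AlgOn U (fun x => (f x)⁻¹) := by
  let := (polyHom U).toAlgebra
  rw [algOn_iff] at hf ⊢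
  let : Invertible (fun x : U => f x.1) := ⟨fun x => (f x.1)⁻¹, by
    funext x
    exact inv_mul_cancel₀ (hf0 x.1 x.2), by
    funext x
    exact mul_inv_cancel₀ (hf0 x.1 x.2)⟩
  exact hf.invOf

theorem AlgOn.zpow {U : Set (X → ℂ)} {f : (X → ℂ) → ℂ} (hf : AlgOn U f) (hf0 : ∀ x ∈ U, f x ≠ 0) (k : ℤ) :
    AlgOn U (fun x => f x ^ k) := by
  rcases k with k | k
  · have h1 : (fun x => f x ^ (Int.ofNat k)) = fun x => f x ^ k := by
      funext x
      simp
    rw [h1]
    exact hf.pow k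
  · have h1 : (fun x => f x ^ (Int.negSucc k)) = fun x => (f x ^ (k + 1))⁻¹ := by
      funext x
      exact zpow_negSucc _ _
    rw [h1]
    exact (hf.pow (k + 1)).inv fun x hx => pow_ne_zero _ (hf0 x hx)

theorem AlgOn.sum {U : Set (X → ℂ)} {ι : Type} (s : Finset ι) {f : ι → (X → ℂ) → ℂ} (hf : ∀ i, AlgOn U (f i)) :
    AlgOn U (fun x => ∑ i ∈ s, f i x) := by
  classical
  induction s using Finset.induction_on with
  | empty =>
    simp only [Finset.sum_empty]
    exact AlgOn.const U 0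
  | insert a s ha ih =>
    simp only [Finset.sum_insert ha]
    exact (hf a).add ih

theorem AlgOn.prod {U : Set (X → ℂ)} {ι : Type} (s : Finset ι) {f : ι → (X → ℂ) → ℂ} (hf : ∀ i, AlgOn U (f i)) :
    AlgOn U (fun x => ∏ i ∈ s, f i x) := by
  classical
  induction s using Finset.induction_on with
  | empty =>
    simp only [Finset.prod_empty]
    exact AlgOn.const U 1
  | insert a s ha ih =>
    simp only [Finset.prod_insert ha]
    exact (hf a).mul ih

theorem AlgOn.congr {U : Set (X → ℂ)} {f g : (X → ℂ) → ℂ} (hf : AlgOn U f) (h : ∀ x ∈ U, f x = g x) : AlgOn U g := by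
  obtain ⟨Q, hQ, hz⟩ := hf
  refine ⟨Q, hQ, fun x hx => ?_⟩
  rw [← h x hx]
  exact hz x hx

/-- a nonconstant algebraic function has a transcendental exponential -/
theorem const_of_alg {U : Set (X → ℂ)} (hU : IsPreconnected U) (hUo : IsOpen U) (hne : U.Nonempty)
    {B : (X → ℂ) → ℂ} (hB : AnalyticOnNhd ℂ B U) (h1 : AlgOn U B) (h2 : AlgOn U fun x => Complex.exp (B x)) :
    ∃ c, ∀ x ∈ U, B x = c := by
  classical
  by_contra hcon
  push Not at hcon
  obtain ⟨A, hA, hAi⟩ := choose_exp (s := 1) (l := fun _ => B) hU hUo hne (fun _ => hB) (fun m c hc => by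
    by_contra hm
    have hm0 : m 0 ≠ 0 := by
      intro h0
      refine hm (funext fun i => ?_)
      rw [Subsingleton.elim i 0, h0]
      rfl
    obtain ⟨x, hx, hxn⟩ := hcon (c / (m 0 : ℂ))
    have h3 := hc x hx
    simp only [Fin.sum_univ_one] at h3
    refine hxn ?_
    rw [eq_div_iff (by exact_mod_cast hm0), mul_comm]
    exact h3) one_pos
  have hne' : A.Nonempty := by
    rw [← Finset.card_pos, hA]
    exact one_pos
  obtain ⟨a, ha⟩ := hne'
  rcases a with k | k
  · exact not_mem_of_alg hAi (a := Sum.inl k) h1 ha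
  · exact not_mem_of_alg hAi (a := Sum.inr k) h2 ha

section Gelfond

variable {n m : ℕ} {U : Set (X → ℂ)} {α : Fin n → (X → ℂ) → ℂ} {L : Fin m → (X → ℂ) → ℂ}

theorem gel_mix (hU : IsPreconnected U) (hUo : IsOpen U) (hne : U.Nonempty)
    (hαa : ∀ i, AlgOn U (α i))
    (hαi : ∀ (c : Fin n → ℤ) (b : ℂ), (∀ z ∈ U, ∑ i, (c i : ℂ) * α i z = b) → c = 0)
    (hL : ∀ j, AnalyticOnNhd ℂ (L j) U) (hLa : ∀ j, AlgOn U fun z => Complex.exp (L j z))
    (hLi : ∀ (c : Fin m → ℤ) (b : ℂ), (∀ z ∈ U, ∑ j, (c j : ℂ) * L j z = b) → c = 0)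
    (c : Fin n → ℤ) (d : Fin m → ℤ) (b : ℂ)
    (h : ∀ z ∈ U, ∑ i, (c i : ℂ) * α i z + ∑ j, (d j : ℂ) * L j z = b) : c = 0 ∧ d = 0 := by
  have h1 : AlgOn U fun z => ∑ i, (c i : ℂ) * α i z := AlgOn.sum _ fun i => (AlgOn.const U _).mul (hαa i)
  have h2 : AlgOn U fun z => ∑ j, (d j : ℂ) * L j z := by
    refine ((AlgOn.const U b).add ((AlgOn.const U (-1)).mul h1)).congr fun z hz => ?_
    rw [← h z hz]
    ring
  have h3 : AlgOn U fun z => Complex.exp (∑ j, (d j : ℂ) * L j z) := by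
    refine (AlgOn.prod Finset.univ fun j => (hLa j).zpow (fun x _ => Complex.exp_ne_zero _) (d j)).congr fun z hz => ?_
    rw [Complex.exp_sum]
    refine Finset.prod_congr rfl fun j _ => ?_
    rw [Complex.exp_int_mul]
  obtain ⟨b', hb'⟩ := const_of_alg hU hUo hne
    (Finset.analyticOnNhd_fun_sum _ fun j _ => analyticOnNhd_const.mul (hL j)) h2 h3
  have hd : d = 0 := hLi d b' hb'
  refine ⟨hαi c (b - b') fun z hz => ?_, hd⟩
  rw [← h z hz, ← hb' z hz]
  ring

/-- **Exponentials of algebraic functions and logarithms of algebraic functions are independent.** -/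
theorem gel_ind (hU : IsPreconnected U) (hUo : IsOpen U) (hne : U.Nonempty)
    (hα : ∀ i, AnalyticOnNhd ℂ (α i) U) (hαa : ∀ i, AlgOn U (α i))
    (hαi : ∀ (c : Fin n → ℤ) (b : ℂ), (∀ z ∈ U, ∑ i, (c i : ℂ) * α i z = b) → c = 0)
    (hL : ∀ j, AnalyticOnNhd ℂ (L j) U) (hLa : ∀ j, AlgOn U fun z => Complex.exp (L j z))
    (hLi : ∀ (c : Fin m → ℤ) (b : ℂ), (∀ z ∈ U, ∑ j, (c j : ℂ) * L j z = b) → c = 0) (hnm : 0 < n + m) :
    ∀ p : MvPolynomial (Fin n ⊕ Fin m) (MvPolynomial X ℂ),
      (∀ x ∈ U, evM (Sum.elim (fun i z => Complex.exp (α i z)) L) x p = 0) → p = 0 := by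
  classical
  let l : Fin (n + m) → (X → ℂ) → ℂ := Fin.append α L
  have hl : ∀ k, AnalyticOnNhd ℂ (l k) U := by
    intro k
    refine Fin.addCases (fun i => ?_) (fun j => ?_) k
    · simp only [l, Fin.append_left]
      exact hα i
    · simp only [l, Fin.append_right]
      exact hL j
  obtain ⟨A, hA, hAi⟩ := choose_exp (l := l) hU hUo hne hl (fun c b hc => by
    have h1 := gel_mix hU hUo hne hαa hαi hL hLa hLi (fun i => c (Fin.castAdd m i)) (fun j => c (Fin.natAdd n j)) b
      (fun z hz => by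
        rw [← hc z hz, Fin.sum_univ_add]
        simp only [l, Fin.append_left, Fin.append_right])
    funext k
    refine Fin.addCases (fun i => ?_) (fun j => ?_) k
    · exact congrFun h1.1 i
    · exact congrFun h1.2 j) hnm
  let g : Fin n ⊕ Fin m → Fin (n + m) ⊕ Fin (n + m) :=
    Sum.elim (fun i => Sum.inr (Fin.castAdd m i)) fun j => Sum.inl (Fin.natAdd n j)
  have hg : Function.Injective g := by
    rintro (i | j) (i' | j') h
    · exact congrArg Sum.inl (Fin.castAdd_injective _ _ (Sum.inr_injective h))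
    · exact absurd h (by simp [g])
    · exact absurd h (by simp [g])
    · exact congrArg Sum.inr (Fin.natAdd_injective _ _ (Sum.inl_injective h))
  have h2 := ind_transfer hAi hg (by rw [hA, Fintype.card_sum, Fintype.card_fin, Fintype.card_fin]) (by
    rintro (k | k) hk
    · revert hk
      refine Fin.addCases (fun i hk => ?_) (fun j hk => ?_) k
      · change AlgOn U (l (Fin.castAdd m i))
        simp only [l, Fin.append_left]
        exact hαa i
      · exact absurd ⟨Sum.inr j, rfl⟩ hk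
    · revert hk
      refine Fin.addCases (fun i hk => ?_) (fun j hk => ?_) k
      · exact absurd ⟨Sum.inl i, rfl⟩ hk
      · change AlgOn U (fun z => Complex.exp (l (Fin.natAdd n j) z))
        simp only [l, Fin.append_right]
        exact hLa j)
  intro p hp
  refine h2 p fun x hx => ?_
  rw [← hp x hx]
  congr 1
  funext s
  rcases s with i | j
  · change (fun z => Complex.exp (l (Fin.castAdd m i) z)) = fun z => Complex.exp (α i z)
    simp only [l, Fin.append_left]
  · change l (Fin.natAdd n j) = L j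
    simp only [l, Fin.append_right]

end Gelfond

section Elliptic

variable {n s q : ℕ} {U : Set (X → ℂ)} {Λ : Fin q → PeriodPair} {ty : Fin n → Fin q} {u : Fin n → (X → ℂ) → ℂ}
    {l : Fin s → (X → ℂ) → ℂ}

/-- the other one of `ζ(u_i)`, `℘(u_i)` (`i ∈ M`: `ζ(u_i)`) -/
noncomputable def other (Λ : Fin q → PeriodPair) (ty : Fin n → Fin q) (u : Fin n → (X → ℂ) → ℂ) (M : Finset (Fin n))
    (i : Fin n) (z : X → ℂ) : ℂ :=
  if i ∈ M then zeta (Λ (ty i)) (u i z) else ℘[Λ (ty i)] (u i z)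

/-- the functions `l_k`, `u_i` and `other_i` -/
noncomputable def yOther (Λ : Fin q → PeriodPair) (ty : Fin n → Fin q) (u : Fin n → (X → ℂ) → ℂ)
    (l : Fin s → (X → ℂ) → ℂ) (M : Finset (Fin n)) : Fin s ⊕ Fin n ⊕ Fin n → (X → ℂ) → ℂ :=
  Sum.elim l (Sum.elim u (other Λ ty u M))

/-- **Logarithms, elliptic logarithms and inverse values of `ζ` of algebraic functions are independent.** -/
theorem ell_ind (h : FxD U Λ ty u l) (hns : 0 < s + n) (M : Finset (Fin n))
    (hl : ∀ k, AlgOn U fun z => Complex.exp (l k z))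
    (hM : ∀ i ∈ M, AlgOn U fun z => ℘[Λ (ty i)] (u i z))
    (hM' : ∀ i, i ∉ M → AlgOn U fun z => zeta (Λ (ty i)) (u i z)) :
    ∀ p : MvPolynomial (Fin s ⊕ Fin n ⊕ Fin n) (MvPolynomial X ℂ),
      (∀ x ∈ U, Pool.Agent.Y890.MV.evM (yOther Λ ty u l M) x p = 0) → p = 0 := by
  classical
  obtain ⟨A, hA, hAi⟩ := choose_fx h hns
  let g : Fin s ⊕ Fin n ⊕ Fin n → Nf n s := Sum.elim (fun k => Sum.inl k) (Sum.elim
    (fun i => Sum.inr (Sum.inr (Sum.inl i)))
    (fun i => if i ∈ M then Sum.inr (Sum.inr (Sum.inr (Sum.inl i))) else Sum.inr (Sum.inr (Sum.inr (Sum.inr i)))))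
  have hg : Function.Injective g := by
    rintro (i | i | i) (j | j | j) hij
    · exact congrArg Sum.inl (Sum.inl_injective hij)
    · simp [g] at hij
    · by_cases hj : j ∈ M <;> simp [g, hj] at hij
    · simp [g] at hij
    · have h1 : i = j := by simpa [g] using hij
      rw [h1]
    · by_cases hj : j ∈ M <;> simp [g, hj] at hij
    · by_cases hi : i ∈ M <;> simp [g, hi] at hij
    · by_cases hi : i ∈ M <;> simp [g, hi] at hij
    · have h1 : i = j := by
        by_cases hi : i ∈ M <;> by_cases hj : j ∈ M <;> simp [g, hi, hj] at hij <;> exact hij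
      rw [h1]
  have h2 := ind_transfer hAi hg (by
    rw [hA, Fintype.card_sum, Fintype.card_sum, Fintype.card_fin, Fintype.card_fin]
    omega) (by
    rintro (k | k | i | i | i) hk
    · exact absurd ⟨Sum.inl k, rfl⟩ hk
    · exact hl k
    · exact absurd ⟨Sum.inr (Sum.inl i), rfl⟩ hk
    · by_cases hi : i ∈ M
      · exact absurd ⟨Sum.inr (Sum.inr i), by simp [g, hi]⟩ hk
      · exact hM' i hi
    · by_cases hi : i ∈ M
      · exact hM i hi
      · exact absurd ⟨Sum.inr (Sum.inr i), by simp [g, hi]⟩ hk)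
  intro p hp
  refine h2 p fun x hx => ?_
  rw [← hp x hx]
  congr 1
  funext a z
  rcases a with k | i | i
  · rfl
  · rfl
  · by_cases hi : i ∈ M
    · simp [g, hi, yD, yOther, other]
    · simp [g, hi, yD, yOther, other]

end Elliptic

end Pool.Agent.V11273.PV
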