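import Pool.Agent.V11273.PV.G10
import Pool.Agent.V11273.PV.G19
import Pool.Agent.V11273.PV.G22

/-!
# Products of families of independent functions; algebraic families of 1-motives
-/

set_option autoImplicit false
set_option linter.unusedSectionVars false

open Filter Topology NumberField
open scoped PeriodPair

namespace Pool.Agent.V11273.PV

open Pool.Agent.Y890.MV
open H667R3 Pool.Agent.W245.EB Pool.Agent.TH813.Ell Pool.Agent.Y685 Pool.Agent.Y685.H2
open Pool.Agent.Y776.Cv Pool.Agent.Y776.Fam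

section Product

variable {κ : Type} [Fintype κ] [DecidableEq κ] {X V : κ → Type} [∀ j, Fintype (X j)] [∀ j, DecidableEq (X j)]
  [∀ j, Fintype (V j)] [∀ j, DecidableEq (V j)]

/-- the functions on the product -/
def fP (f : ∀ j, V j → (X j → ℂ) → ℂ) (s : Σ j, V j) (z : (Σ j, X j) → ℂ) : ℂ := f s.1 s.2 (pr z s.1)

/-- **Independent functions on a product.** -/
theorem main_prodF [Nonempty (Σ j, X j)] {U : ∀ j, Set (X j → ℂ)} (hU : ∀ j, IsPreconnected (U j))
    (hUo : ∀ j, IsOpen (U j)) (hne : ∀ j, (U j).Nonempty) {f : ∀ j, V j → (X j → ℂ) → ℂ}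
    (hf : ∀ j v, AnalyticOnNhd ℂ (f j v) (U j))
    (hi : ∀ j, ∀ p : MvPolynomial (V j) (MvPolynomial (X j) ℂ),
      (∀ x ∈ U j, Pool.Agent.Y890.MV.evM (f j) x p = 0) → p = 0) :
    OmegaStm (fun k K [Field K] [NumberField K] io ξ T =>
      ExcB (UU U) (fP f) (fun _ P => P ≠ 0) K io k ξ T) := by
  classical
  exact main_indep (ι := V) (Y := fun j z a _ => f j a z) (V := V) (e := fun _ v => (v, v)) hU hUo hne
    (fun j a _ => hf j a) hi

end Product

section Motives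

variable {X : Type} [Fintype X] [DecidableEq X] {r s : ℕ} {U : Set (X → ℂ)} {Λ : (X → ℂ) → PeriodPair}
  {u : Fin r → (X → ℂ) → ℂ} {l : Fin s → (X → ℂ) → ℂ}

/-- the functions `ω₁, ω₂, η₁`, `u_i`, `ζ(u_i)`, `l_k` -/
noncomputable def yA (Λ : (X → ℂ) → PeriodPair) (u : Fin r → (X → ℂ) → ℂ) (l : Fin s → (X → ℂ) → ℂ) :
    Fin 3 ⊕ (Fin r ⊕ (Fin r ⊕ Fin s)) → (X → ℂ) → ℂ :=
  Sum.elim (fun j z => ![(Λ z).ω₁, (Λ z).ω₂, eta (Λ z) (Λ z).ω₁] j)
    (Sum.elim u (Sum.elim (fun i z => zeta (Λ z) (u i z)) l))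

/-- the names -/
def gA : Fin 3 ⊕ (Fin r ⊕ (Fin r ⊕ Fin s)) → Nv r s :=
  Sum.elim (fun j => Sum.inl (Fin.castLE (by norm_num) j)) (Sum.elim (fun i => Sum.inr (Sum.inl i))
    (Sum.elim (fun i => Sum.inr (Sum.inr (Sum.inl i))) fun k => Sum.inr (Sum.inr (Sum.inr (Sum.inr (Sum.inl k))))))

theorem gA_inj : Function.Injective (gA (r := r) (s := s)) := by
  rintro (a | a | a | a) (b | b | b | b) h
  · have h1 : Fin.castLE (by norm_num : 3 ≤ 5) a = Fin.castLE (by norm_num) b := Sum.inl_injective h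
    exact congrArg Sum.inl (Fin.castLE_injective _ h1)
  all_goals simpa [gA] using h

theorem yL_gA (a : Fin 3 ⊕ (Fin r ⊕ (Fin r ⊕ Fin s))) : yL Λ u l (gA a) = yA Λ u l a := by
  rcases a with a | a | a | a
  · fin_cases a <;> rfl
  all_goals rfl

/-- **Periods of algebraic families of 1-motives are independent.** -/
theorem fl_alg (h : FxL U Λ u l) (h2 : AlgOn U fun z => (Λ z).g₂) (h3 : AlgOn U fun z => (Λ z).g₃)
    (hw : ∀ i, AlgOn U fun z => ℘[Λ z] (u i z)) (he : ∀ k, AlgOn U fun z => Complex.exp (l k z)) :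
    ∀ p : MvPolynomial (Fin 3 ⊕ (Fin r ⊕ (Fin r ⊕ Fin s))) (MvPolynomial X ℂ),
      (∀ x ∈ U, Pool.Agent.Y890.MV.evM (yA Λ u l) x p = 0) → p = 0 := by
  classical
  obtain ⟨A, hA, hAi⟩ := choose_fl h
  have h4 := ind_transfer hAi (gA_inj (r := r) (s := s)) (by
    rw [hA]
    simp only [Fintype.card_sum, Fintype.card_fin]
    ring) (by
    rintro (j | i | i | i | k | k) hj
    · fin_cases j
      · exact absurd ⟨Sum.inl 0, rfl⟩ hj
      · exact absurd ⟨Sum.inl 1, rfl⟩ hj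
      · exact absurd ⟨Sum.inl 2, rfl⟩ hj
      · exact h2
      · exact h3
    · exact absurd ⟨Sum.inr (Sum.inl i), rfl⟩ hj
    · exact absurd ⟨Sum.inr (Sum.inr (Sum.inl i)), rfl⟩ hj
    · exact hw i
    · exact absurd ⟨Sum.inr (Sum.inr (Sum.inr k)), rfl⟩ hj
    · exact he k)
  intro p hp
  refine h4 p fun x hx => ?_
  rw [← hp x hx]
  congr 1
  funext a
  exact yL_gA a

theorem yA_an (h : FxL U Λ u l) (a : Fin 3 ⊕ (Fin r ⊕ (Fin r ⊕ Fin s))) : AnalyticOnNhd ℂ (yA Λ u l a) U := by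
  rw [← yL_gA]
  exact yL_an h _

end Motives

end Pool.Agent.V11273.PV
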