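import Pool.Agent.V11273.PV.G15
import Pool.Agent.Y776.AxJ.Nome

/-!
# Points, nomes and values of `j`, `j'`, `j''` at arbitrary base points
-/

set_option autoImplicit false
set_option linter.unusedSectionVars false

open Filter Topology NumberField

namespace Pool.Agent.V11273.PV

open Pool.Agent.Y890.MV
open Pool.Agent.Y124 (Cov)
open Pool.Agent.Y776 (jf)

/-- the functions `j`, `j'`, `j''` and the nome -/
noncomputable def b4n (m : Fin 4) (t : ℂ) : ℂ :=
  ![jf t, deriv jf t, deriv (deriv jf) t, Complex.exp (2 * Real.pi * Complex.I * t)] m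

/-- **Mahler's theorem**, with the nome -/
theorem mahlerC (P : MvPolynomial (Option (Fin 4)) ℂ)
    (hP : ∀ t ∈ {t : ℂ | 0 < t.im}, MvPolynomial.eval (fun o : Option (Fin 4) => o.elim t fun m => b4n m t) P = 0) :
    P = 0 := by
  classical
  set U : Set ℂ := {t : ℂ | 0 < t.im} with hU
  let τ : Fin 1 → ℂ → ℂ := fun _ t => t
  have hI : Complex.I ∈ U := by simp [hU]
  have hI2 : (2 * Complex.I : ℂ) ∈ U := by simp [hU]
  have hF : Pool.Agent.Y776.AxJ.Fmj U τ (fun i z => 2 * Real.pi * Complex.I * τ i z) := by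
    refine ⟨Pool.Agent.Y776.AxJ.isOpen_H, Pool.Agent.Y776.AxJ.preconn_H, ⟨_, hI⟩, fun _ => analyticOnNhd_id,
      fun _ z hz => hz, fun _ c => ?_, fun i k hik => absurd (Subsingleton.elim i k) hik,
      fun _ z _ => analyticAt_const.mul analyticAt_id, fun m c hm => ?_⟩
    · by_contra hcon
      push Not at hcon
      have h1 := hcon _ hI
      have h2 := hcon _ hI2
      have h3 : (2 * Complex.I : ℂ) = Complex.I := h2.trans h1.symm
      have h4 := congrArg Complex.im h3
      norm_num at h4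
    · have h1 := hm _ hI
      have h2 := hm _ hI2
      rw [Fin.sum_univ_one] at h1 h2
      have h3 : (m 0 : ℂ) * (2 * Real.pi * Complex.I * Complex.I) = 0 := by
        have h4 : (m 0 : ℂ) * (2 * Real.pi * Complex.I * (2 * Complex.I)) -
          (m 0 : ℂ) * (2 * Real.pi * Complex.I * Complex.I) = 0 := sub_eq_zero.2 (h2.trans h1.symm)
        linear_combination h4
      funext i
      rw [Fin.fin_one_eq_zero i]
      have h5 : (2 * (Real.pi : ℂ) * Complex.I * Complex.I) ≠ 0 :=
        mul_ne_zero Complex.two_pi_I_ne_zero Complex.I_ne_zero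
      have h6 := (mul_eq_zero.1 h3).resolve_right h5
      exact_mod_cast h6
  obtain ⟨e, he, hL⟩ := Pool.Agent.Y776.AxJ.exists_loc_nome hF one_pos
  have hno : ∀ k, (e k).2 ≠ 0 := by
    intro k hk
    have hk' : e k = ((0 : Fin 1), (0 : Fin 5)) := Prod.ext (Subsingleton.elim _ _) hk
    have h1 := hL _ hI (MvPolynomial.X (some k) - MvPolynomial.X none) (by
      filter_upwards with t
      rw [map_sub, MvPolynomial.eval_X, MvPolynomial.eval_X]
      change Pool.Agent.Y776.AxJ.yn τ (e k) t - t = 0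
      rw [hk']
      simp [Pool.Agent.Y776.AxJ.yn, τ])
    have h2 : (MvPolynomial.X (some k) : MvPolynomial (Option (Fin (4 * 1))) ℂ) = MvPolynomial.X none := sub_eq_zero.1 h1
    have h3 := MvPolynomial.X_injective h2
    exact Option.some_ne_none k h3
  -- `e` hits all other names
  let g : Fin (4 * 1) → Fin 4 := fun k => ((e k).2).pred (hno k)
  have hg : Function.Injective g := by
    intro a b hab
    have h1 : (e a).2 = (e b).2 := Fin.pred_inj.1 hab
    exact he (Prod.ext (Subsingleton.elim _ _) h1)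
  have hgb : Function.Bijective g := (Fintype.bijective_iff_injective_and_card g).2 ⟨hg, by simp⟩
  let φ := Equiv.ofBijective g hgb
  have hval : ∀ k t, Pool.Agent.Y776.AxJ.yn τ (e k) t = b4n (g k) t := by
    intro k t
    have h1 : (e k).2 = (g k).succ := (Fin.succ_pred _ (hno k)).symm
    have h2 : e k = ((0 : Fin 1), (g k).succ) := Prod.ext (Subsingleton.elim _ _) h1
    rw [h2]
    generalize g k = m
    fin_cases m <;> rfl
  have h1 := hL _ hI (MvPolynomial.rename (Option.map φ.symm) P) (by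
    filter_upwards [Pool.Agent.Y776.AxJ.isOpen_H.mem_nhds hI] with t ht
    rw [MvPolynomial.eval_rename, ← hP t ht]
    congr 2
    funext o
    rcases o with _ | m
    · rfl
    · change Pool.Agent.Y776.AxJ.yn τ (e (φ.symm m)) t = b4n m t
      rw [hval]
      congr 1
      exact φ.apply_symm_apply m)
  exact (map_eq_zero_iff _ (MvPolynomial.rename_injective _ (Option.map_injective φ.symm.injective))).1 h1

theorem b4n_an (m : Fin 4) : AnalyticOnNhd ℂ (b4n m) {t : ℂ | 0 < t.im} := by
  fin_cases m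
  · exact Pool.Agent.Y776.AxJ.an_j
  · exact Pool.Agent.Y776.AxJ.an_dj
  · exact Pool.Agent.Y776.AxJ.an_ddj
  · exact fun t _ => (analyticAt_const.mul analyticAt_id).cexp

/-- the numbers `j(h_i)`, `j'(h_i)`, `j''(h_i)`, `exp(2 π i h_i)` and `h_i` -/
noncomputable def vJ {p : ℕ} (h : (Fin p → ℂ) → Fin p → ℂ) (z : Fin p → ℂ) : (Σ _ : Fin p, Fin 4) ⊕ Fin p → ℂ :=
  Sum.elim (fun v => b4n v.2 (h z v.1)) (h z)

/-- **Points, nomes and values of `j`, `j'`, `j''` at arbitrary base points** -/
theorem main_J {p : ℕ} [Nonempty (Fin p)] {D : Set (Fin p → ℂ)} (hD : IsPreconnected D) (hDo : IsOpen D)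
    (hDn : D.Nonempty) {h : (Fin p → ℂ) → Fin p → ℂ} (hh : AnalyticOnNhd ℂ h D)
    (him : ∀ z ∈ D, ∀ i, 0 < (h z i).im) (hint : (interior (h '' D)).Nonempty) :
    ∃ A : Finset ((Σ _ : Fin p, Fin 4) ⊕ Fin p), A.card = 4 * p ∧
      OmegaStm (fun k K [Field K] [NumberField K] io ξ T =>
        ExcB D (fun (a : A) z => vJ h z a.1) (fun _ P => P ≠ 0) K io k ξ T) := by
  classical
  obtain ⟨A, hA, hAi⟩ := exists_pull (X := Fin p) (V := Σ _ : Fin p, Fin 4) (U := UC fun _ : Fin p => {t : ℂ | 0 < t.im})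
    (U' := D) (f := fC fun (_ : Fin p) (m : Fin 4) => b4n m) (by
      rw [UC_eq]
      exact isPreconnected_univ_pi fun _ => Pool.Agent.Y776.AxJ.preconn_H) (by
      rintro ⟨i, m⟩ z hz
      exact AnalyticAt.fun_comp (g := b4n m) (f := fun z : Fin p → ℂ => z i) (b4n_an m (z i) (hz i))
        ((ContinuousLinearMap.proj (R := ℂ) (φ := fun _ : Fin p => ℂ) i).analyticAt z))
    (indep_curves fun _ => mahlerC) hD hDo hDn (h := h) hh (fun z hz i => him z hz i) hint
  refine ⟨A, ?_, main_indep1 hD hDo hDn ?_ hAi⟩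
  · rw [hA]
    simp [mul_comm]
  · rintro ⟨v | i, ha⟩
    · intro z hz
      exact AnalyticAt.fun_comp (g := b4n v.2) (f := fun z => h z v.1) (b4n_an v.2 _ (him z hz v.1))
        ((ContinuousLinearMap.proj (R := ℂ) (φ := fun _ : Fin p => ℂ) v.1).analyticAt (h z) |>.comp (hh z hz))
    · intro z hz
      exact ((ContinuousLinearMap.proj (R := ℂ) (φ := fun _ : Fin p => ℂ) i).analyticAt (h z)).comp (hh z hz)

end Pool.Agent.V11273.PV
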