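import Mathlib

/-!
# The identity component of an algebraic group of matrices
-/

set_option autoImplicit false
set_option linter.unusedSectionVars false

namespace Pool.Agent.V11273.PV

variable {ι : Type} [Fintype ι] [DecidableEq ι]

/-- value at a matrix -/
noncomputable def me (Z : Matrix ι ι ℂ) : MvPolynomial (ι × ι) ℂ →+* ℂ := MvPolynomial.eval (fun v => Z v.1 v.2)

/-- the subgroup `H` is defined by polynomial equations -/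
def ClosedIn {𝒢 : Subgroup (GL ι ℂ)} (H : Subgroup 𝒢) : Prop :=
  ∃ E : Set (MvPolynomial (ι × ι) ℂ), ∀ h : 𝒢, h ∈ H ↔
    ∀ e ∈ E, MvPolynomial.eval (fun v => ((h : GL ι ℂ) : Matrix ι ι ℂ) v.1 v.2) e = 0

/-- translation -/
noncomputable def tr (k : Matrix ι ι ℂ) : MvPolynomial (ι × ι) ℂ →+* MvPolynomial (ι × ι) ℂ :=
  (MvPolynomial.aeval (fun v : ι × ι => ∑ e, MvPolynomial.C (k v.1 e) * MvPolynomial.X (e, v.2)) :
    MvPolynomial (ι × ι) ℂ →ₐ[ℂ] MvPolynomial (ι × ι) ℂ).toRingHom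

theorem me_tr (k Z : Matrix ι ι ℂ) (p : MvPolynomial (ι × ι) ℂ) : me Z (tr k p) = me (k * Z) p := by
  have h1 : (me Z).comp (tr k) = me (k * Z) := by
    refine MvPolynomial.ringHom_ext (fun a => ?_) fun v => ?_
    · simp [me, tr]
    · rw [RingHom.comp_apply]
      simp only [me, tr, AlgHom.toRingHom_eq_coe, RingHom.coe_coe, MvPolynomial.aeval_X, map_sum, map_mul,
        MvPolynomial.eval_C, MvPolynomial.eval_X, Matrix.mul_apply]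
  exact RingHom.congr_fun h1 p

theorem tr_inv (k : GL ι ℂ) (p : MvPolynomial (ι × ι) ℂ) :
    tr (k : Matrix ι ι ℂ) (tr ((k⁻¹ : GL ι ℂ) : Matrix ι ι ℂ) p) = p := by
  refine MvPolynomial.funext fun z => ?_
  have h1 : ∀ q : MvPolynomial (ι × ι) ℂ, MvPolynomial.eval z q = me (Matrix.of fun a b => z (a, b)) q := fun _ => rfl
  rw [h1, h1, me_tr, me_tr, ← mul_assoc, ← Units.val_mul, inv_mul_cancel, Units.val_one, one_mul]

theorem tr_inv' (k : GL ι ℂ) (p : MvPolynomial (ι × ι) ℂ) :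
    tr ((k⁻¹ : GL ι ℂ) : Matrix ι ι ℂ) (tr (k : Matrix ι ι ℂ) p) = p := by
  have h1 := tr_inv k⁻¹ p
  rwa [inv_inv] at h1

theorem tr_surj (k : GL ι ℂ) : Function.Surjective (tr (k : Matrix ι ι ℂ)) := fun p => ⟨_, tr_inv k p⟩

/-- the ideal of the polynomials vanishing on a subgroup -/
def vI {𝒢 : Subgroup (GL ι ℂ)} (H : Subgroup 𝒢) : Ideal (MvPolynomial (ι × ι) ℂ) where
  carrier := {p | ∀ h ∈ H, me ((h : GL ι ℂ) : Matrix ι ι ℂ) p = 0}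
  zero_mem' := fun h _ => map_zero _
  add_mem' := fun {a b} ha hb h hh => by rw [map_add, ha h hh, hb h hh, add_zero]
  smul_mem' := fun c x hx h hh => by rw [smul_eq_mul, map_mul, hx h hh, mul_zero]

theorem mem_vI {𝒢 : Subgroup (GL ι ℂ)} {H : Subgroup 𝒢} {p : MvPolynomial (ι × ι) ℂ} :
    p ∈ vI H ↔ ∀ h ∈ H, me ((h : GL ι ℂ) : Matrix ι ι ℂ) p = 0 := Iff.rfl

/-- **The identity component**: the smallest closed subgroup of finite index; it is irreducible. -/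
theorem exists_idc (𝒢 : Subgroup (GL ι ℂ)) : ∃ H₀ : Subgroup 𝒢, H₀.FiniteIndex ∧ ClosedIn H₀ ∧
    (∀ H : Subgroup 𝒢, H.FiniteIndex → ClosedIn H → H₀ ≤ H) ∧
    ∀ p q : MvPolynomial (ι × ι) ℂ, (∀ h ∈ H₀, me ((h : GL ι ℂ) : Matrix ι ι ℂ) (p * q) = 0) →
      (∀ h ∈ H₀, me ((h : GL ι ℂ) : Matrix ι ι ℂ) p = 0) ∨ ∀ h ∈ H₀, me ((h : GL ι ℂ) : Matrix ι ι ℂ) q = 0 := by
  classical
  -- the smallest one
  obtain ⟨H₀, hH₀, hmin⟩ : ∃ H₀ : Subgroup 𝒢, (H₀.FiniteIndex ∧ ClosedIn H₀) ∧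
      ∀ H : Subgroup 𝒢, H.FiniteIndex → ClosedIn H → H₀ ≤ H := by
    let S : Set (Ideal (MvPolynomial (ι × ι) ℂ)) := {I | ∃ H : Subgroup 𝒢, (H.FiniteIndex ∧ ClosedIn H) ∧ vI H = I}
    have hS : S.Nonempty := ⟨vI (⊤ : Subgroup 𝒢), ⊤, ⟨inferInstance, ∅, fun h => by simp⟩, rfl⟩
    obtain ⟨_, ⟨H₀, hH₀, rfl⟩, hmax⟩ := set_has_maximal_iff_noetherian.2
      (inferInstance : IsNoetherian (MvPolynomial (ι × ι) ℂ) (MvPolynomial (ι × ι) ℂ)) S hS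
    refine ⟨H₀, hH₀, fun H hH hcl h hh => ?_⟩
    obtain ⟨E, hE⟩ := hcl
    obtain ⟨E₀, hE₀⟩ := hH₀.2
    have hE' : ∀ g : 𝒢, g ∈ H ⊓ H₀ ↔ ∀ e ∈ E ∪ E₀,
        MvPolynomial.eval (fun v => ((g : GL ι ℂ) : Matrix ι ι ℂ) v.1 v.2) e = 0 := by
      intro g
      rw [Subgroup.mem_inf, hE, hE₀]
      constructor
      · rintro ⟨h1, h2⟩ e (he | he)
        · exact h1 e he
        · exact h2 e he
      · intro h1
        exact ⟨fun e he => h1 e (Or.inl he), fun e he => h1 e (Or.inr he)⟩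
    have hH₀' := hH₀.1
    have hmem : vI (H ⊓ H₀) ∈ S := ⟨H ⊓ H₀, ⟨inferInstance, ⟨_, hE'⟩⟩, rfl⟩
    have hle : vI H₀ ≤ vI (H ⊓ H₀) := fun p hp g hg => hp g (Subgroup.mem_inf.1 hg).2
    have heq : vI H₀ = vI (H ⊓ H₀) := by
      by_contra hne
      exact hmax _ hmem (lt_of_le_of_ne hle hne)
    have h1 : h ∈ H ⊓ H₀ := by
      rw [hE']
      intro e he
      have h2 : e ∈ vI (H ⊓ H₀) := fun g hg => (hE' g).1 hg e he
      rw [← heq] at h2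
      exact h2 h hh
    exact (Subgroup.mem_inf.1 h1).1
  refine ⟨H₀, hH₀.1, hH₀.2, hmin, ?_⟩
  set 𝔞 := vI H₀ with h𝔞
  -- maximal ideals of points
  let m : 𝒢 → Ideal (MvPolynomial (ι × ι) ℂ) := fun h => RingHom.ker (me ((h : GL ι ℂ) : Matrix ι ι ℂ))
  have hmm : ∀ h p, p ∈ m h ↔ me ((h : GL ι ℂ) : Matrix ι ι ℂ) p = 0 := fun h p => RingHom.mem_ker
  have hmP : ∀ h, (m h).IsPrime := fun h => RingHom.ker_isPrime _
  have ham : ∀ h ∈ H₀, 𝔞 ≤ m h := fun h hh p hp => (hmm h p).2 (hp h hh)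
  -- translations
  let T : 𝒢 → Ideal (MvPolynomial (ι × ι) ℂ) → Ideal (MvPolynomial (ι × ι) ℂ) := fun k I =>
    I.comap (tr ((k : GL ι ℂ) : Matrix ι ι ℂ))
  have hTmono : ∀ k I J, I ≤ J → T k I ≤ T k J := fun k I J h => Ideal.comap_mono h
  have hTm : ∀ k h, T k (m h) = m (k * h) := by
    intro k h
    ext p
    rw [Ideal.mem_comap, hmm, hmm, me_tr]
    rfl
  have hTa : ∀ k ∈ H₀, T k 𝔞 = 𝔞 := by
    intro k hk
    ext p
    rw [Ideal.mem_comap, h𝔞, mem_vI, mem_vI]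
    constructor
    · intro h1 h hh
      have h2 := h1 (k⁻¹ * h) (H₀.mul_mem (H₀.inv_mem hk) hh)
      rw [me_tr] at h2
      have h3 : ((k : GL ι ℂ) : Matrix ι ι ℂ) * (((k⁻¹ * h : 𝒢) : GL ι ℂ) : Matrix ι ι ℂ) =
          ((h : GL ι ℂ) : Matrix ι ι ℂ) := by
        rw [← Units.val_mul, ← Subgroup.coe_mul, mul_inv_cancel_left]
      rwa [h3] at h2
    · intro h1 h hh
      rw [me_tr]
      exact h1 (k * h) (H₀.mul_mem hk hh)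
  have hTinv : ∀ k I, T k (T k⁻¹ I) = I := by
    intro k I
    ext p
    rw [Ideal.mem_comap, Ideal.mem_comap]
    have h1 : tr (((k⁻¹ : 𝒢) : GL ι ℂ) : Matrix ι ι ℂ) (tr ((k : GL ι ℂ) : Matrix ι ι ℂ) p) = p := tr_inv' (k : GL ι ℂ) p
    rw [h1]
  have hTinv' : ∀ k I, T k⁻¹ (T k I) = I := by
    intro k I
    have h1 := hTinv k⁻¹ I
    rwa [inv_inv] at h1
  have hTM : ∀ k ∈ H₀, ∀ 𝔭 ∈ 𝔞.minimalPrimes, T k 𝔭 ∈ 𝔞.minimalPrimes := by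
    intro k hk 𝔭 h𝔭
    have h1 := Ideal.comap_minimalPrimes_eq_of_surjective (tr_surj (k : GL ι ℂ)) 𝔞
    have h2 : 𝔞.comap (tr ((k : GL ι ℂ) : Matrix ι ι ℂ)) = 𝔞 := hTa k hk
    rw [h2] at h1
    rw [h1]
    exact ⟨𝔭, h𝔭, rfl⟩
  have hfin : 𝔞.minimalPrimes.Finite := Ideal.finite_minimalPrimes_of_isNoetherianRing _ _
  have hex : ∀ h ∈ H₀, ∃ 𝔭 ∈ 𝔞.minimalPrimes, 𝔭 ≤ m h := by
    intro h hh
    have := hmP h
    exact Ideal.exists_minimalPrimes_le (ham h hh)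
  -- a point in only one component
  obtain ⟨𝔭₁, h𝔭₁, h𝔭₁m⟩ := hex 1 H₀.one_mem
  obtain ⟨h₁, hh₁, huniq₁⟩ : ∃ h₁ ∈ H₀, ∀ 𝔭 ∈ 𝔞.minimalPrimes, 𝔭 ≤ m h₁ → 𝔭 = 𝔭₁ := by
    obtain ⟨p, hp, hp'⟩ : ∃ p, (∀ 𝔭 ∈ 𝔞.minimalPrimes, 𝔭 ≠ 𝔭₁ → p ∈ 𝔭) ∧ p ∉ 𝔭₁ := by
      by_contra hcon
      push Not at hcon
      have hprime : 𝔭₁.IsPrime := h𝔭₁.1.1
      have h1 : ((hfin.toFinset.erase 𝔭₁).inf id) ≤ 𝔭₁ := by
        intro p hp
        refine hcon p fun 𝔭 h𝔭 hne => ?_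
        have h2 : (hfin.toFinset.erase 𝔭₁).inf id ≤ 𝔭 :=
          Finset.inf_le (f := id) (Finset.mem_erase.2 ⟨hne, hfin.mem_toFinset.2 h𝔭⟩)
        exact h2 hp
      rw [Ideal.IsPrime.inf_le' hprime] at h1
      obtain ⟨𝔭, h𝔭, hle⟩ := h1
      rw [Finset.mem_erase, hfin.mem_toFinset] at h𝔭
      exact h𝔭.1 (le_antisymm hle (h𝔭₁.2 ⟨h𝔭.2.1.1, h𝔭.2.1.2⟩ hle))
    have hpa : p ∉ 𝔞 := fun h => hp' (h𝔭₁.1.2 h)
    rw [h𝔞, mem_vI] at hpa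
    push Not at hpa
    obtain ⟨h, hh, hph⟩ := hpa
    refine ⟨h, hh, fun 𝔭 h𝔭 hle => ?_⟩
    by_contra hne
    exact hph ((hmm h p).1 (hle (hp 𝔭 h𝔭 hne)))
  have huniq : ∀ h ∈ H₀, ∀ 𝔭 ∈ 𝔞.minimalPrimes, ∀ 𝔮 ∈ 𝔞.minimalPrimes, 𝔭 ≤ m h → 𝔮 ≤ m h → 𝔭 = 𝔮 := by
    intro h hh 𝔭 h𝔭 𝔮 h𝔮 h1 h2
    have hk : h₁ * h⁻¹ ∈ H₀ := H₀.mul_mem hh₁ (H₀.inv_mem hh)
    have e1 := hTmono (h₁ * h⁻¹) _ _ h1
    have e2 := hTmono (h₁ * h⁻¹) _ _ h2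
    rw [hTm, inv_mul_cancel_right] at e1 e2
    have e3 := (huniq₁ _ (hTM _ hk _ h𝔭) e1).trans (huniq₁ _ (hTM _ hk _ h𝔮) e2).symm
    have e4 := congrArg (T (h₁ * h⁻¹)⁻¹) e3
    rwa [hTinv', hTinv'] at e4
  -- the component of the identity
  have hCinv : ∀ h ∈ H₀, 𝔭₁ ≤ m h → T h⁻¹ 𝔭₁ = 𝔭₁ := by
    intro h hh hle
    have e1 := hTmono h⁻¹ _ _ hle
    rw [hTm, inv_mul_cancel] at e1
    exact huniq 1 H₀.one_mem _ (hTM _ (H₀.inv_mem hh) _ h𝔭₁) _ h𝔭₁ e1 h𝔭₁m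
  let C : Subgroup 𝒢 :=
    { carrier := {h | h ∈ H₀ ∧ 𝔭₁ ≤ m h}
      one_mem' := ⟨H₀.one_mem, h𝔭₁m⟩
      mul_mem' := by
        rintro h g ⟨hh, hh'⟩ ⟨hg, hg'⟩
        refine ⟨H₀.mul_mem hh hg, ?_⟩
        have e1 := hTmono h _ _ hg'
        rw [hTm] at e1
        have e2 : T h 𝔭₁ = 𝔭₁ := by
          have e3 := hCinv h hh hh'
          have e4 := congrArg (T h) e3
          rw [hTinv] at e4
          exact e4.symm
        rwa [e2] at e1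
      inv_mem' := by
        rintro h ⟨hh, hh'⟩
        refine ⟨H₀.inv_mem hh, ?_⟩
        have e1 := hTmono h⁻¹ _ _ h𝔭₁m
        rw [hTm, mul_one, hCinv h hh hh'] at e1
        exact e1 }
  have hCle : C ≤ H₀ := fun h hh => hh.1
  have hCcl : ClosedIn C := by
    obtain ⟨E₀, hE₀⟩ := hH₀.2
    refine ⟨E₀ ∪ (𝔭₁ : Set (MvPolynomial (ι × ι) ℂ)), fun h => ?_⟩
    constructor
    · rintro ⟨h1, h2⟩ e (he | he)
      · exact (hE₀ h).1 h1 e he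
      · exact (hmm h e).1 (h2 he)
    · intro h1
      exact ⟨(hE₀ h).2 fun e he => h1 e (Or.inl he), fun e he => (hmm h e).2 (h1 e (Or.inr he))⟩
  have hCfin : C.FiniteIndex := by
    choose 𝔭 h𝔭M h𝔭m using hex
    have hq : Finite (H₀ ⧸ C.subgroupOf H₀) := by
      have : Finite (𝔞.minimalPrimes : Set (Ideal (MvPolynomial (ι × ι) ℂ))) := hfin.to_subtype
      refine Finite.of_injective (β := (𝔞.minimalPrimes : Set (Ideal (MvPolynomial (ι × ι) ℂ))))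
        (fun q => ⟨𝔭 (q.out : H₀) (q.out : H₀).2, h𝔭M _ _⟩) fun q q' h => ?_
      have h1 : 𝔭 (q.out : H₀) (q.out : H₀).2 = 𝔭 (q'.out : H₀) (q'.out : H₀).2 := congrArg Subtype.val h
      rw [← QuotientGroup.out_eq' q, ← QuotientGroup.out_eq' q', QuotientGroup.eq, Subgroup.mem_subgroupOf]
      set a := q.out with ha
      set b := q'.out with hb
      refine ⟨H₀.mul_mem (H₀.inv_mem a.2) b.2, ?_⟩
      have e1 := hTmono ((a : 𝒢)⁻¹) _ _ (h𝔭m a a.2)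
      rw [hTm, inv_mul_cancel] at e1
      have e2 := huniq 1 H₀.one_mem _ (hTM _ (H₀.inv_mem a.2) _ (h𝔭M a a.2)) _ h𝔭₁ e1 h𝔭₁m
      have e3 := hTmono ((a : 𝒢)⁻¹) _ _ (h𝔭m b b.2)
      rw [hTm, ← h1, e2] at e3
      exact e3
    have h1 : (C.subgroupOf H₀).index ≠ 0 := by
      have : (C.subgroupOf H₀).FiniteIndex := Subgroup.finiteIndex_of_finite_quotient
      exact this.index_ne_zero
    rw [Subgroup.finiteIndex_iff, ← Subgroup.relIndex_mul_index hCle]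
    exact mul_ne_zero h1 hH₀.1.index_ne_zero
  have hle := hmin C hCfin hCcl
  have heq : 𝔞 = 𝔭₁ := by
    refine le_antisymm h𝔭₁.1.2 fun p hp => ?_
    rw [h𝔞, mem_vI]
    intro h hh
    exact (hmm h p).1 ((hle hh).2 hp)
  have hprime : 𝔞.IsPrime := by
    rw [heq]
    exact h𝔭₁.1.1
  intro p q hpq
  exact hprime.mem_or_mem (show p * q ∈ 𝔞 from hpq)

end Pool.Agent.V11273.PV
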