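import Pool.Agent.Y890.SP.Field

/-!
# Characteristic polynomials of multiplications in a finitely generated field
-/

set_option autoImplicit false
set_option linter.unusedSectionVars false

open Polynomial

namespace Pool.Agent.V11273.PV

open Pool.Agent.Y890.SP (evI evI_rename)

/-- **Multiplication matrices over a polynomial ring in a transcendence basis.** -/
theorem exists_mult {A L : Type} [CommRing A] [IsDomain A] [Field L] [Algebra A L] [FaithfulSMul A L]
    {σ Λ : Type} [Fintype σ] [Fintype Λ] (f : σ → L)
    (hfrac : ∀ l : L, ∃ p q : MvPolynomial σ A, MvPolynomial.aeval f q ≠ 0 ∧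
      MvPolynomial.aeval f q * l = MvPolynomial.aeval f p) (w : Λ → L) :
    ∃ (I : Type) (_ : Fintype I) (_ : DecidableEq I) (ι : I → σ) (D : MvPolynomial I A) (e : ℕ)
      (N : Λ → Matrix (Fin e) (Fin e) (MvPolynomial I A)),
      AlgebraicIndependent A (f ∘ ι) ∧ D ≠ 0 ∧ ∀ c : Λ → A,
        eval₂ (evI (f ∘ ι)) (evI (f ∘ ι) D * ∑ l, algebraMap A L (c l) * w l)
          (∑ l, (MvPolynomial.C (c l) : MvPolynomial I A) • N l).charpoly = 0 := by
  classical
  have hAL : Function.Injective (algebraMap A L) := FaithfulSMul.algebraMap_injective A L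
  -- the transcendence basis
  have halg0 : Algebra.IsAlgebraic (Algebra.adjoin A (Set.range f)) L := by
    refine ⟨fun l => ?_⟩
    obtain ⟨p, q, hq, hl⟩ := hfrac l
    have hmem : ∀ p : MvPolynomial σ A, MvPolynomial.aeval f p ∈ Algebra.adjoin A (Set.range f) := by
      intro p
      rw [Algebra.adjoin_range_eq_range_aeval]
      exact ⟨p, rfl⟩
    refine ⟨C ⟨_, hmem q⟩ * X - C ⟨_, hmem p⟩, ?_, ?_⟩
    · intro h
      have h1 := congrArg (fun r => Polynomial.coeff r 1) h
      simp only [coeff_sub, coeff_C_mul, coeff_X_one, mul_one, coeff_C_succ, sub_zero, coeff_zero] at h1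
      exact hq (congrArg Subtype.val h1)
    · rw [map_sub, map_mul, aeval_C, aeval_X, aeval_C, sub_eq_zero]
      exact hl
  obtain ⟨t, ht, htb⟩ := exists_isTranscendenceBasis_subset (R := A) (Set.range f)
  have hfinI : Finite t := (Set.finite_range f).subset ht
  let finI : Fintype t := Fintype.ofFinite t
  choose ι hι using fun x : t => ht x.2
  have hfι : f ∘ ι = ((↑) : t → L) := funext hι
  rw [← hfι] at htb
  let S := MvPolynomial t A
  let algS : Algebra S L := (evI (f ∘ ι)).toAlgebra
  have hmapS : ∀ p : S, algebraMap S L p = evI (f ∘ ι) p := fun p => rfl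
  have hSinj : Function.Injective (algebraMap S L) := htb.1
  have : FaithfulSMul S L := (faithfulSMul_iff_algebraMap_injective S L).2 hSinj
  have htower : IsScalarTower A S L := IsScalarTower.of_algebraMap_eq fun a => by
    rw [hmapS]
    exact (MvPolynomial.aeval_C (f ∘ ι) a).symm
  -- algebraic
  have halg1 : Algebra.IsAlgebraic S L := by
    have h1 := htb.isAlgebraic
    refine ⟨fun l => ?_⟩
    have h2 : IsAlgebraic (Algebra.adjoin A (Set.range (f ∘ ι))) l := h1.isAlgebraic l
    exact h2.ringHom_of_comp_eq (htb.1.aevalEquiv.symm : _ →+* S) (RingHom.id L)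
      (htb.1.aevalEquiv.symm.injective) (by
        ext y
        obtain ⟨z, rfl⟩ := htb.1.aevalEquiv.surjective y
        simp only [RingHom.comp_apply]
        change algebraMap S L (htb.1.aevalEquiv.symm (htb.1.aevalEquiv z)) = _
        rw [AlgEquiv.symm_apply_apply, hmapS]
        exact (htb.1.algebraMap_aevalEquiv z).symm)
  -- the field of fractions
  let E₀ := FractionRing S
  let algE : Algebra E₀ L := FractionRing.liftAlgebra S L
  have htE : IsScalarTower S E₀ L := FractionRing.isScalarTower_liftAlgebra S L
  have halgE : Algebra.IsAlgebraic E₀ L := Algebra.IsAlgebraic.extendScalars (R := S) (S := E₀) (A := L)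
    (IsFractionRing.injective S E₀)
  have hadj : IntermediateField.adjoin E₀ (Set.range f) = ⊤ := by
    rw [eq_top_iff]
    intro l _
    obtain ⟨p, q, hq, hl⟩ := hfrac l
    have hmem : ∀ p : MvPolynomial σ A, MvPolynomial.aeval f p ∈ IntermediateField.adjoin E₀ (Set.range f) := by
      intro p
      induction p using MvPolynomial.induction_on with
      | C a =>
        rw [MvPolynomial.aeval_C, IsScalarTower.algebraMap_apply A S L, IsScalarTower.algebraMap_apply S E₀ L]
        exact IntermediateField.algebraMap_mem _ _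
      | add p q hp hq => rw [map_add]; exact add_mem hp hq
      | mul_X p i hp =>
        rw [map_mul, MvPolynomial.aeval_X]
        exact mul_mem hp (IntermediateField.subset_adjoin _ _ ⟨i, rfl⟩)
    have h1 : l = MvPolynomial.aeval f p / MvPolynomial.aeval f q := by
      rw [eq_div_iff hq, mul_comm]
      exact hl
    rw [h1]
    exact div_mem (hmem p) (hmem q)
  have hfinE : FiniteDimensional E₀ L := by
    have h1 : FiniteDimensional E₀ (IntermediateField.adjoin E₀ (Set.range f)) :=
      IntermediateField.finiteDimensional_adjoin (by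
        rintro _ ⟨i, rfl⟩
        exact Algebra.IsIntegral.isIntegral _)
    rw [hadj] at h1
    exact IntermediateField.topEquiv.toLinearEquiv.finiteDimensional
  -- the matrices
  let b := Module.finBasis E₀ L
  let e := Module.finrank E₀ L
  let M : Λ → Matrix (Fin e) (Fin e) E₀ := fun l => Algebra.leftMulMatrix b (w l)
  obtain ⟨D, hD⟩ := IsLocalization.exist_integer_multiples_of_finite (nonZeroDivisors S)
    (fun p : Λ × Fin e × Fin e => M p.1 p.2.1 p.2.2)
  choose N hN using hD
  let N' : Λ → Matrix (Fin e) (Fin e) S := fun l => Matrix.of fun i j => N (l, i, j)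
  have hN' : ∀ l, (N' l).map (algebraMap S E₀) = algebraMap S E₀ (D : S) • M l := by
    intro l
    ext i j
    rw [Matrix.map_apply, Matrix.smul_apply, smul_eq_mul]
    change algebraMap S E₀ (N (l, i, j)) = _
    rw [hN, Algebra.smul_def]
  refine ⟨t, finI, Classical.decEq t, ι, D, e, N', htb.1, nonZeroDivisors.ne_zero D.2, fun c => ?_⟩
  set Q : Matrix (Fin e) (Fin e) S := ∑ l, (MvPolynomial.C (c l) : S) • N' l with hQ
  set y : L := evI (f ∘ ι) (D : S) * ∑ l, algebraMap A L (c l) * w l with hy
  have hQy : Q.map (algebraMap S E₀) = Algebra.leftMulMatrix b y := by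
    have h1 : y = ∑ l, (algebraMap S E₀ (D : S) * algebraMap S E₀ (MvPolynomial.C (c l))) • w l := by
      rw [hy, Finset.mul_sum]
      refine Finset.sum_congr rfl fun l _ => ?_
      rw [Algebra.smul_def, map_mul, ← IsScalarTower.algebraMap_apply S E₀ L, ← IsScalarTower.algebraMap_apply S E₀ L,
        hmapS, hmapS, mul_assoc]
      congr 2
      exact (MvPolynomial.aeval_C (f ∘ ι) (c l)).symm
    rw [h1, map_sum]
    simp only [map_smul]
    rw [hQ]
    ext i j
    rw [Matrix.map_apply, Matrix.sum_apply, Matrix.sum_apply, map_sum]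
    refine Finset.sum_congr rfl fun l _ => ?_
    have h2 := congrFun (congrFun (hN' l) i) j
    rw [Matrix.map_apply, Matrix.smul_apply, smul_eq_mul] at h2
    rw [Matrix.smul_apply, smul_eq_mul, map_mul, h2, Matrix.smul_apply, smul_eq_mul]
    ring
  have h1 : aeval (Algebra.leftMulMatrix b y) (Algebra.leftMulMatrix b y).charpoly = 0 :=
    Matrix.aeval_self_charpoly _
  rw [Polynomial.aeval_algHom_apply, ← map_zero (Algebra.leftMulMatrix b)] at h1
  have h2 := Algebra.leftMulMatrix_injective b h1
  rw [← hQy, Matrix.charpoly_map, Polynomial.aeval_map_algebraMap] at h2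
  exact h2

end Pool.Agent.V11273.PV
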