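import Pool.Agent.V11273.PV.E6
import Pool.Agent.V11273.PV.G1
import Pool.Agent.V11273.PV.G2
import Pool.Agent.V11273.PV.G3

/-!
# A relation at a general point which does not come from the identity component of the Galois group
-/

set_option autoImplicit false
set_option linter.unusedSectionVars false

open Filter Topology

namespace Pool.Agent.V11273.PV

open Pool.Agent.Y890.MV (evX evM evM_eq evM_an poly_zero relM relM_prime exists_fieldM LocIndM locIndM_of)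
open Pool.Agent.Y890.SP (evI evI_rename)

/-- a point of the fibre over a general point of the base -/
theorem one_point {X σ : Type} [Fintype X] [Fintype σ] {U : Set (X → ℂ)} {f : σ → (X → ℂ) → ℂ}
    (hU : IsPreconnected U) (hUo : IsOpen U) (hne : U.Nonempty) (hf : ∀ i, AnalyticOnNhd ℂ (f i) U)
    (γ : MvPolynomial σ (MvPolynomial X ℂ)) (hγ : ¬ ∀ x ∈ U, evM f x γ = 0) :
    ∃ a : MvPolynomial X ℂ, a ≠ 0 ∧ ∀ x₀ : X → ℂ, MvPolynomial.eval x₀ a ≠ 0 → ∃ Z : σ → ℂ,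
      (∀ p : MvPolynomial σ (MvPolynomial X ℂ), (∀ x ∈ U, evM f x p = 0) → evX x₀ Z p = 0) ∧ evX x₀ Z γ ≠ 0 := by
  classical
  have hprime : (relM U f).IsPrime := relM_prime hU hUo hne hf
  have hdom : IsDomain (MvPolynomial σ (MvPolynomial X ℂ) ⧸ relM U f) := Ideal.Quotient.isDomain (relM U f)
  let g : MvPolynomial X ℂ →ₐ[ℂ] (MvPolynomial σ (MvPolynomial X ℂ) ⧸ relM U f) :=
    (Ideal.Quotient.mkₐ ℂ (relM U f)).comp (IsScalarTower.toAlgHom ℂ (MvPolynomial X ℂ) (MvPolynomial σ (MvPolynomial X ℂ)))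
  have hgmk : ∀ q, g q = Ideal.Quotient.mk (relM U f) (MvPolynomial.C q) := fun q => rfl
  have hmem : ∀ p : MvPolynomial σ (MvPolynomial X ℂ), p ∈ relM U f ↔ ∀ x ∈ U, evM f x p = 0 := fun p => Iff.rfl
  have hg : Function.Injective g := by
    rw [injective_iff_map_eq_zero]
    intro q hq
    rw [hgmk, Ideal.Quotient.eq_zero_iff_mem, hmem] at hq
    refine poly_zero hUo hne q fun x hx => ?_
    have h1 := hq x hx
    rwa [evM, MvPolynomial.eval₂_C] at h1
  have hft1 : Algebra.FiniteType ℂ (MvPolynomial σ (MvPolynomial X ℂ)) :=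
    Algebra.FiniteType.trans (S := MvPolynomial X ℂ) inferInstance inferInstance
  have hft : Algebra.FiniteType ℂ (MvPolynomial σ (MvPolynomial X ℂ) ⧸ relM U f) :=
    Algebra.FiniteType.of_surjective (Ideal.Quotient.mkₐ ℂ (relM U f)) (Ideal.Quotient.mkₐ_surjective _ _)
  obtain ⟨a, ha, hext⟩ := ext_point g hg (Ideal.Quotient.mk (relM U f) γ) (by
    rw [Ne, Ideal.Quotient.eq_zero_iff_mem, hmem]
    exact hγ)
  refine ⟨a, ha, fun x₀ hx₀ => ?_⟩
  obtain ⟨ψ, hψ1, hψ2⟩ := hext (MvPolynomial.aeval x₀) hx₀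
  have hev : ∀ p : MvPolynomial σ (MvPolynomial X ℂ), evX x₀ (fun s => ψ (Ideal.Quotient.mk (relM U f) (MvPolynomial.X s))) p =
      ψ (Ideal.Quotient.mk (relM U f) p) := by
    intro p
    have h1 : MvPolynomial.eval₂Hom (MvPolynomial.eval x₀)
        (fun s => ψ (Ideal.Quotient.mk (relM U f) (MvPolynomial.X s))) =
        (ψ : (MvPolynomial σ (MvPolynomial X ℂ) ⧸ relM U f) →+* ℂ).comp (Ideal.Quotient.mk (relM U f)) := by
      refine MvPolynomial.ringHom_ext (fun q => ?_) fun s => ?_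
      · rw [MvPolynomial.eval₂Hom_C, RingHom.comp_apply, ← hgmk]
        have h2 := hψ1 q
        exact h2.symm
      · rw [MvPolynomial.eval₂Hom_X', RingHom.comp_apply]
        rfl
    exact RingHom.congr_fun h1 p
  refine ⟨fun s => ψ (Ideal.Quotient.mk (relM U f) (MvPolynomial.X s)), fun p hp => ?_, ?_⟩
  · rw [hev, Ideal.Quotient.eq_zero_iff_mem.2 ((hmem p).2 hp), map_zero]
  · rw [hev]
    exact hψ2

variable {X ι : Type} [Fintype X] [DecidableEq X] [Fintype ι] [DecidableEq ι]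

/-- the identity component: the elements which lie in all closed subgroups of finite index -/
def IdComp (𝒢 : Subgroup (GL ι ℂ)) : Set (GL ι ℂ) :=
  {g | ∃ hg : g ∈ 𝒢, ∀ H : Subgroup 𝒢, H.FiniteIndex → ClosedIn H → (⟨g, hg⟩ : 𝒢) ∈ H}

/-- right translation -/
noncomputable def rtr (Z : Matrix ι ι ℂ) : MvPolynomial (ι × ι) ℂ →+* MvPolynomial (ι × ι) ℂ :=
  (MvPolynomial.aeval (fun v : ι × ι => ∑ e, MvPolynomial.X (v.1, e) * MvPolynomial.C (Z e v.2)) :
    MvPolynomial (ι × ι) ℂ →ₐ[ℂ] MvPolynomial (ι × ι) ℂ).toRingHom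

theorem me_rtr (g Z : Matrix ι ι ℂ) (p : MvPolynomial (ι × ι) ℂ) : me g (rtr Z p) = me (g * Z) p := by
  have h1 : (me g).comp (rtr Z) = me (g * Z) := by
    refine MvPolynomial.ringHom_ext (fun a => ?_) fun v => ?_
    · simp [me, rtr]
    · rw [RingHom.comp_apply]
      simp only [me, rtr, AlgHom.toRingHom_eq_coe, RingHom.coe_coe, MvPolynomial.aeval_X, map_sum, map_mul,
        MvPolynomial.eval_C, MvPolynomial.eval_X, Matrix.mul_apply]
  exact RingHom.congr_fun h1 p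

theorem bad_spec {U : Set (X → ℂ)} (hU : IsPreconnected U) (hUo : IsOpen U) (hne : U.Nonempty)
    {Y : (X → ℂ) → Matrix ι ι ℂ}
    (hY : ∀ a b, AnalyticOnNhd ℂ (fun x => Y x a b) U) (hdet : ∀ x ∈ U, (Y x).det ≠ 0) {c : MvPolynomial X ℂ}
    (hc0 : c ≠ 0) {B : X → Matrix ι ι (MvPolynomial X ℂ)} (hc : Connection U Y c B) (δ : ℕ) :
    ∃ (I : Type) (_ : Fintype I) (_ : DecidableEq I) (ι₀ : I → ι × ι) (e : ℕ)
      (𝒢 : ℕ → MvPolynomial I (MvPolynomial (ι × ι → Fin (δ + 1)) (MvPolynomial X ℂ))) (a : MvPolynomial X ℂ),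
      a ≠ 0 ∧ (∀ t ∈ U, LocIndM (fun i x => Y x (ι₀ i).1 (ι₀ i).2) t) ∧
      ∀ x₀ ∈ U, MvPolynomial.eval x₀ a ≠ 0 → ∀ P : (ι × ι → Fin (δ + 1)) → ℂ,
        ∑ l, P l * ∏ y : ι × ι, Y x₀ y.1 y.2 ^ (l y : ℕ) = 0 →
        (∃ g ∈ IdComp (Gal U Y), ∑ l, P l * ∏ y : ι × ι, ((g : Matrix ι ι ℂ) * Y x₀) y.1 y.2 ^ (l y : ℕ) ≠ 0) →
        ∃ k ∈ Finset.range (e + 1), spec (𝒢 k) x₀ P ≠ 0 ∧
          MvPolynomial.eval (fun i => Y x₀ (ι₀ i).1 (ι₀ i).2) (spec (𝒢 k) x₀ P) = 0 := by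
  classical
  obtain ⟨H₀, hfi, hcl, hmin, hirr⟩ := exists_idc (Gal U Y)
  set f : ι × ι → (X → ℂ) → ℂ := fun v x => Y x v.1 v.2 with hf
  have hfan : ∀ i, AnalyticOnNhd ℂ (f i) U := fun i => hY i.1 i.2
  obtain ⟨L, _, _, _, F, hz, hfrac⟩ := exists_fieldM hU hUo hne hfan
  have hz' : ∀ p : MvPolynomial (ι × ι) (MvPolynomial X ℂ), MvPolynomial.aeval F p = 0 ↔
      ∀ x ∈ U, rv x (Y x) p = 0 := hz
  let Λ := ι × ι → Fin (δ + 1)
  let lm : Λ → MvPolynomial (ι × ι) (MvPolynomial X ℂ) := fun l => ∏ y, MvPolynomial.X y ^ (l y : ℕ)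
  have hlm : ∀ l x (Z : Matrix ι ι ℂ), rv x Z (lm l) = ∏ y : ι × ι, Z y.1 y.2 ^ (l y : ℕ) := by
    intro l x Z
    rw [rv, MvPolynomial.eval₂_prod]
    refine Finset.prod_congr rfl fun y _ => ?_
    rw [MvPolynomial.eval₂_pow, MvPolynomial.eval₂_X]
  obtain ⟨I, fI, dI, ι₀, D, e, N, hind, hD, hN⟩ := exists_mult F hfrac (fun l : Λ => MvPolynomial.aeval F (lm l))
  -- the generic characteristic polynomial
  let R₁ := MvPolynomial Λ (MvPolynomial X ℂ)
  let cg : MvPolynomial I (MvPolynomial X ℂ) →+* MvPolynomial I R₁ := MvPolynomial.map MvPolynomial.C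
  let Qg : Matrix (Fin e) (Fin e) (MvPolynomial I R₁) :=
    ∑ l, (MvPolynomial.C (MvPolynomial.X l) : MvPolynomial I R₁) • (N l).map cg
  let 𝒢 : ℕ → MvPolynomial I R₁ := fun k => Qg.charpoly.coeff k
  let QP : (Λ → ℂ) → Matrix (Fin e) (Fin e) (MvPolynomial I (MvPolynomial X ℂ)) := fun P =>
    ∑ l, (MvPolynomial.C (MvPolynomial.C (P l)) : MvPolynomial I (MvPolynomial X ℂ)) • N l
  have hspec : ∀ (t : X → ℂ) (P : Λ → ℂ) k, spec (𝒢 k) t P =
      MvPolynomial.map (MvPolynomial.eval t) ((QP P).charpoly.coeff k) := by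
    intro t P k
    have h1 : Qg.map (MvPolynomial.map (σ := I) (MvPolynomial.eval₂Hom (MvPolynomial.eval t) P)) =
        (QP P).map (MvPolynomial.map (MvPolynomial.eval t)) := by
      have hQg : Qg = ∑ l, (MvPolynomial.C (MvPolynomial.X l) : MvPolynomial I R₁) • (N l).map cg := rfl
      have hQP : QP P = ∑ l, (MvPolynomial.C (MvPolynomial.C (P l)) : MvPolynomial I (MvPolynomial X ℂ)) • N l := rfl
      rw [hQg, hQP]
      refine Matrix.ext fun i j => ?_
      rw [Matrix.map_apply, Matrix.map_apply, Matrix.sum_apply i j Finset.univ, Matrix.sum_apply i j Finset.univ,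
        map_sum, map_sum]
      refine Finset.sum_congr rfl fun l _ => ?_
      rw [Matrix.smul_apply, Matrix.smul_apply, Matrix.map_apply, smul_eq_mul, smul_eq_mul, map_mul, map_mul,
        MvPolynomial.map_C, MvPolynomial.map_C, MvPolynomial.eval₂Hom_X', MvPolynomial.eval_C]
      congr 1
      simp only [cg]
      rw [MvPolynomial.map_map]
      congr 1
      congr 1
      refine RingHom.ext fun q => ?_
      rw [RingHom.comp_apply, MvPolynomial.eval₂Hom_C]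
    have h2 := Matrix.charpoly_map Qg (MvPolynomial.map (σ := I) (MvPolynomial.eval₂Hom (MvPolynomial.eval t) P))
    have h3 := Matrix.charpoly_map (QP P) (MvPolynomial.map (σ := I) (MvPolynomial.eval t))
    rw [h1, h3] at h2
    have h4 := congrArg (fun q => Polynomial.coeff q k) h2
    simp only [Polynomial.coeff_map] at h4
    exact h4.symm
  -- the relation
  let Dσ : MvPolynomial (ι × ι) (MvPolynomial X ℂ) := MvPolynomial.rename ι₀ D
  have hDσ : MvPolynomial.aeval F Dσ ≠ 0 := by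
    intro h0
    rw [MvPolynomial.aeval_rename] at h0
    exact hD (hind (h0.trans (map_zero _).symm))
  let ρ : (Λ → ℂ) → MvPolynomial (ι × ι) (MvPolynomial X ℂ) := fun P =>
    ∑ k ∈ Finset.range (e + 1), MvPolynomial.rename ι₀ ((QP P).charpoly.coeff k) *
      (Dσ * ∑ l, MvPolynomial.C (MvPolynomial.C (P l)) * lm l) ^ k
  have hρ : ∀ P, MvPolynomial.aeval F (ρ P) = 0 := by
    intro P
    have h1 := hN (fun l => MvPolynomial.C (P l))
    have hdeg : (QP P).charpoly.natDegree < e + 1 := by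
      rw [Matrix.charpoly_natDegree_eq_dim, Fintype.card_fin]
      exact Nat.lt_succ_self e
    have h2 : (∑ l, (MvPolynomial.C (MvPolynomial.C (P l)) : MvPolynomial I (MvPolynomial X ℂ)) • N l) = QP P := rfl
    rw [h2, Polynomial.eval₂_eq_sum_range' _ hdeg] at h1
    rw [← h1]
    simp only [ρ]
    rw [map_sum]
    refine Finset.sum_congr rfl fun k _ => ?_
    rw [map_mul, map_pow, map_mul, evI_rename, evI_rename, map_sum]
    congr 3
    refine Finset.sum_congr rfl fun l _ => ?_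
    rw [map_mul, MvPolynomial.aeval_C]
  have hlsub0 : ∀ (g : Gal U Y) (p : MvPolynomial (ι × ι) (MvPolynomial X ℂ)), MvPolynomial.aeval F p ≠ 0 →
      MvPolynomial.aeval F (lsub ((g : GL ι ℂ) : Matrix ι ι ℂ) p) ≠ 0 := by
    intro g p hp h0
    apply hp
    rw [hz'] at h0 ⊢
    intro x hx
    have h1 := (g⁻¹).2 (lsub ((g : GL ι ℂ) : Matrix ι ι ℂ) p) h0 x hx
    rw [rv_lsub, ← mul_assoc] at h1
    have h2 : ((g : GL ι ℂ) : Matrix ι ι ℂ) * (((g⁻¹ : Gal U Y) : GL ι ℂ) : Matrix ι ι ℂ) = 1 := by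
      rw [← Units.val_mul, Subgroup.coe_inv, mul_inv_cancel, Units.val_one]
    rwa [h2, one_mul] at h1
  set dt : MvPolynomial (ι × ι) (MvPolynomial X ℂ) := Matrix.det (fun a b => MvPolynomial.X (a, b)) with hdt
  have hdte : ∀ x (Z : Matrix ι ι ℂ), rv x Z dt = Z.det := by
    intro x Z
    rw [rv_hom, hdt, RingHom.map_det]
    congr 1
    ext a b
    rw [RingHom.mapMatrix_apply, Matrix.map_apply]
    exact MvPolynomial.eval₂Hom_X' _ _ _
  obtain ⟨x₁, hx₁⟩ := hne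
  have hdtF : MvPolynomial.aeval F dt ≠ 0 := by
    intro h
    have h1 := (hz' dt).1 h x₁ hx₁
    rw [hdte] at h1
    exact hdet x₁ hx₁ h1
  have hfinq : Finite (Gal U Y ⧸ H₀) := Subgroup.finite_quotient_of_finiteIndex
  let fq : Fintype (Gal U Y ⧸ H₀) := Fintype.ofFinite _
  let Δ : MvPolynomial (ι × ι) (MvPolynomial X ℂ) :=
    dt * ∏ q : Gal U Y ⧸ H₀, lsub (((q.out⁻¹ : Gal U Y) : GL ι ℂ) : Matrix ι ι ℂ) Dσ
  have hΔ : MvPolynomial.aeval F Δ ≠ 0 := by
    simp only [Δ]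
    rw [map_mul, map_prod]
    exact mul_ne_zero hdtF (Finset.prod_ne_zero_iff.2 fun q _ => hlsub0 _ _ hDσ)
  obtain ⟨a₁, ha₁, hpt⟩ := one_point hU hUo ⟨x₁, hx₁⟩ hfan Δ (fun h => hΔ ((hz Δ).2 h))
  refine ⟨I, fI, dI, ι₀, e, 𝒢, a₁ * c, mul_ne_zero ha₁ hc0,
    fun t ht => locIndM_of hU hfan F hz ι₀ hind t ht, ?_⟩
  intro x₀ hx₀ ha P hzero hbad
  rw [map_mul, mul_ne_zero_iff] at ha
  have hYu : IsUnit (Y x₀).det := isUnit_iff_ne_zero.2 (hdet x₀ hx₀)
  -- a point of the orbit of the identity component where the denominator is not zero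
  obtain ⟨h, hh, hDh⟩ : ∃ h ∈ H₀, rv x₀ (((h : GL ι ℂ) : Matrix ι ι ℂ) * Y x₀) Dσ ≠ 0 := by
    obtain ⟨Z, hZ, hZΔ⟩ := hpt x₀ ha.1
    let M : Matrix ι ι ℂ := Matrix.of fun a b => Z (a, b)
    have hevM : ∀ p, evX x₀ Z p = rv x₀ M p := fun p => rfl
    have hΔe : rv x₀ M Δ = M.det * ∏ q : Gal U Y ⧸ H₀,
        rv x₀ ((((q.out⁻¹ : Gal U Y) : GL ι ℂ) : Matrix ι ι ℂ) * M) Dσ := by
      simp only [Δ]
      rw [rv_hom, map_mul, map_prod, ← rv_hom, hdte]
      congr 1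
      refine Finset.prod_congr rfl fun q _ => ?_
      rw [← rv_hom, rv_lsub]
    rw [hevM, hΔe] at hZΔ
    have hMd : M.det ≠ 0 := left_ne_zero_of_mul hZΔ
    have hprod := Finset.prod_ne_zero_iff.1 (right_ne_zero_of_mul hZΔ)
    have hgd : (M * (Y x₀)⁻¹).det ≠ 0 := by
      rw [Matrix.det_mul, Matrix.det_nonsing_inv]
      exact mul_ne_zero hMd (IsUnit.ne_zero (by simpa using hYu.ringInverse))
    have hgY : (M * (Y x₀)⁻¹) * Y x₀ = M := by
      rw [mul_assoc, Matrix.nonsing_inv_mul _ hYu, mul_one]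
    have hpres : Pres U Y (M * (Y x₀)⁻¹) := by
      refine torsor hU hUo hY hc hx₀ ha.2 fun p hp => ?_
      rw [hgY, ← hevM]
      exact hZ p hp
    let g : Gal U Y := ⟨Matrix.GeneralLinearGroup.mkOfDetNeZero (M * (Y x₀)⁻¹) hgd, hpres⟩
    have hgM : ((g : GL ι ℂ) : Matrix ι ι ℂ) * Y x₀ = M := hgY
    let q : Gal U Y ⧸ H₀ := QuotientGroup.mk g
    refine ⟨q.out⁻¹ * g, QuotientGroup.eq.1 (QuotientGroup.out_eq' q), ?_⟩
    rw [Subgroup.coe_mul, Units.val_mul, mul_assoc, hgM]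
    exact hprod q (Finset.mem_univ q)
  obtain ⟨g, ⟨hgG, hgI⟩, hgne⟩ := hbad
  have hgH : (⟨g, hgG⟩ : Gal U Y) ∈ H₀ := hgI H₀ hfi hcl
  -- polynomials in the entries
  let pq : MvPolynomial (ι × ι) ℂ := ∑ l, MvPolynomial.C (P l) * ∏ y, MvPolynomial.X y ^ (l y : ℕ)
  have hpq : ∀ Z : Matrix ι ι ℂ, me Z pq = ∑ l, P l * ∏ y : ι × ι, Z y.1 y.2 ^ (l y : ℕ) := by
    intro Z
    simp only [pq, me, map_sum, map_mul, map_prod, map_pow, MvPolynomial.eval_C, MvPolynomial.eval_X]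
  let pD : MvPolynomial (ι × ι) ℂ := MvPolynomial.rename ι₀ (MvPolynomial.map (MvPolynomial.eval x₀) D)
  have hmer : ∀ (p : MvPolynomial I (MvPolynomial X ℂ)) (Z : Matrix ι ι ℂ),
      me Z (MvPolynomial.rename ι₀ (MvPolynomial.map (MvPolynomial.eval x₀) p)) =
        rv x₀ Z (MvPolynomial.rename ι₀ p) := by
    intro p Z
    rw [me, rv, MvPolynomial.eval₂_rename, MvPolynomial.eval_rename, MvPolynomial.eval_map]
  have hpD : ∀ Z : Matrix ι ι ℂ, me Z pD = rv x₀ Z Dσ := fun Z => hmer D Z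
  let pS : ℕ → MvPolynomial (ι × ι) ℂ := fun k => MvPolynomial.rename ι₀ (spec (𝒢 k) x₀ P)
  have hpS : ∀ k (Z : Matrix ι ι ℂ), me Z (pS k) = rv x₀ Z (MvPolynomial.rename ι₀ ((QP P).charpoly.coeff k)) := by
    intro k Z
    simp only [pS]
    rw [hspec]
    exact hmer _ Z
  have hrel : ∀ g' : Gal U Y, ∑ k ∈ Finset.range (e + 1), me (((g' : GL ι ℂ) : Matrix ι ι ℂ) * Y x₀) (pS k) *
      (me (((g' : GL ι ℂ) : Matrix ι ι ℂ) * Y x₀) (pD * pq)) ^ k = 0 := by
    intro g'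
    have h1 := g'.2 (ρ P) ((hz' _).1 (hρ P)) x₀ hx₀
    rw [← h1]
    simp only [ρ]
    rw [rv_hom, map_sum]
    refine Finset.sum_congr rfl fun k _ => ?_
    rw [map_mul (MvPolynomial.eval₂Hom (MvPolynomial.eval x₀)
      (fun v : ι × ι => (((g' : GL ι ℂ) : Matrix ι ι ℂ) * Y x₀) v.1 v.2)) (MvPolynomial.rename ι₀ _), map_pow,
      map_mul (MvPolynomial.eval₂Hom (MvPolynomial.eval x₀)
      (fun v : ι × ι => (((g' : GL ι ℂ) : Matrix ι ι ℂ) * Y x₀) v.1 v.2)) Dσ, ← rv_hom, ← rv_hom, hpS,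
      map_mul (me (((g' : GL ι ℂ) : Matrix ι ι ℂ) * Y x₀)) pD, hpD, hpq]
    congr 3
    rw [map_sum]
    refine Finset.sum_congr rfl fun l _ => ?_
    rw [map_mul, MvPolynomial.eval₂Hom_C, MvPolynomial.eval_C, ← rv_hom, hlm]
  -- the first nonzero coefficient
  have hex : ∃ k, spec (𝒢 k) x₀ P ≠ 0 := by
    refine ⟨e, ?_⟩
    rw [hspec]
    have h1 : (QP P).charpoly.coeff e = 1 := by
      have h2 := (QP P).charpoly_monic
      rw [Polynomial.Monic, Polynomial.leadingCoeff, Matrix.charpoly_natDegree_eq_dim, Fintype.card_fin] at h2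
      exact h2
    rw [h1, map_one]
    exact one_ne_zero
  let k₀ := Nat.find hex
  have hk₀ : spec (𝒢 k₀) x₀ P ≠ 0 := Nat.find_spec hex
  have hk₀e : k₀ ≤ e := by
    refine Nat.find_min' hex ?_
    rw [hspec]
    have h1 : (QP P).charpoly.coeff e = 1 := by
      have h2 := (QP P).charpoly_monic
      rw [Polynomial.Monic, Polynomial.leadingCoeff, Matrix.charpoly_natDegree_eq_dim, Fintype.card_fin] at h2
      exact h2
    rw [h1, map_one]
    exact one_ne_zero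
  have hklt : ∀ k < k₀, pS k = 0 := by
    intro k hk
    have h1 := Nat.find_min hex hk
    push Not at h1
    simp only [pS]
    rw [h1, map_zero]
  refine ⟨k₀, Finset.mem_range.2 (Nat.lt_succ_of_le hk₀e), hk₀, ?_⟩
  let W : MvPolynomial (ι × ι) ℂ := ∑ k ∈ Finset.Ico k₀ (e + 1), pS k * (pD * pq) ^ (k - k₀)
  have hsplit : ∀ Z : Matrix ι ι ℂ, ∑ k ∈ Finset.range (e + 1), me Z (pS k) * (me Z (pD * pq)) ^ k =
      me Z ((pD * pq) ^ k₀ * W) := by
    intro Z
    have e1 : me Z ((pD * pq) ^ k₀ * W) = (me Z (pD * pq)) ^ k₀ *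
        ∑ k ∈ Finset.Ico k₀ (e + 1), me Z (pS k) * (me Z (pD * pq)) ^ (k - k₀) := by
      simp only [W]
      rw [map_mul (me Z) ((pD * pq) ^ k₀), map_pow, map_sum]
      congr 1
      refine Finset.sum_congr rfl fun k _ => ?_
      rw [map_mul (me Z) (pS k), map_pow]
    rw [e1, Finset.mul_sum (Finset.Ico k₀ (e + 1)),
      ← Finset.sum_range_add_sum_Ico _ (show k₀ ≤ e + 1 by omega)]
    rw [Finset.sum_eq_zero (s := Finset.range k₀) (fun k hk => by
      rw [hklt k (Finset.mem_range.1 hk), map_zero, zero_mul]), zero_add]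
    refine Finset.sum_congr rfl fun k hk => ?_
    have hk' := (Finset.mem_Ico.1 hk).1
    have h2 : (me Z (pD * pq)) ^ k = (me Z (pD * pq)) ^ k₀ * (me Z (pD * pq)) ^ (k - k₀) := by
      rw [← pow_add, Nat.add_sub_cancel' hk']
    rw [h2]
    ring
  have hdich := hirr (rtr (Y x₀) ((pD * pq) ^ k₀)) (rtr (Y x₀) W) (fun h' _ => by
    rw [← map_mul, me_rtr, ← hsplit]
    exact hrel h')
  rcases hdich with h1 | h1
  · exfalso
    have h2 : ∀ h' ∈ H₀, me ((h' : GL ι ℂ) : Matrix ι ι ℂ) (rtr (Y x₀) pD * rtr (Y x₀) pq) = 0 := by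
      intro h' hh'
      have h3 := h1 h' hh'
      rw [map_pow, map_pow] at h3
      have h4 := eq_zero_of_pow_eq_zero h3
      rw [map_mul] at h4
      exact h4
    rcases hirr _ _ h2 with h3 | h3
    · apply hDh
      have h4 := h3 h hh
      rwa [me_rtr, hpD] at h4
    · apply hgne
      have h4 := h3 _ hgH
      rwa [me_rtr, hpq] at h4
  · have h2 := h1 1 H₀.one_mem
    rw [me_rtr] at h2
    have h3 : (((1 : Gal U Y) : GL ι ℂ) : Matrix ι ι ℂ) * Y x₀ = Y x₀ := by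
      rw [Subgroup.coe_one, Units.val_one, one_mul]
    rw [h3] at h2
    simp only [W] at h2
    rw [map_sum, Finset.sum_eq_single k₀] at h2
    · rw [Nat.sub_self, pow_zero, mul_one] at h2
      simp only [pS, me] at h2
      rw [MvPolynomial.eval_rename] at h2
      exact h2
    · intro k hk hne'
      have hk' := (Finset.mem_Ico.1 hk).1
      rw [map_mul, map_pow, map_mul, hpq, hzero, mul_zero, zero_pow (by omega), mul_zero]
    · intro hk
      exact absurd (Finset.mem_Ico.2 ⟨le_refl _, by omega⟩) hk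

end Pool.Agent.V11273.PV
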