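import Pool.Agent.V11273.PV.H1

/-!
# Hodge tensors and adapted unitary frames, several weights
-/

set_option autoImplicit false
set_option linter.unusedSectionVars false

open Filter Topology NumberField
open scoped ComplexConjugate Matrix

namespace Pool.Agent.V11273.PW

open Pool.Agent.V11273.PV (rt rt_apply rt_mul rt_one rt_conj tp_diag tp_transpose qf qf_inv bounded_finite orbit_fixed
  prod_zpow' IdComp tp tp_mul)

variable {I : Type} [Fintype I] [DecidableEq I]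

/-- an adapted unitary frame of the Hodge decomposition -/
def Frame (p w : I → ℤ) (S Y : Matrix I I ℂ) : Prop :=
  ∃ Z T M : Matrix I I ℂ, Z = Y * T ∧ (∀ a b, T a b ≠ 0 → w a = w b ∧ p b ≤ p a) ∧
    Z.map (starRingEnd ℂ) = Z * M ∧ (∀ a b, M a b ≠ 0 → w a = w b ∧ p a + p b = w b) ∧
    Zᵀ * S * Z.map (starRingEnd ℂ) = Matrix.diagonal fun b => Complex.I ^ (w b - 2 * p b)

/-- the tensor is orthogonal to the part of the Hodge filtration of level more than half of the weight -/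
def HodgeT (p w : I → ℤ) (Y : Matrix I I ℂ) {m : ℕ} (γ : (Fin m → I) → ℂ) : Prop :=
  ∀ J : Fin m → I, ∑ i, w (J i) < 2 * ∑ i, p (J i) → rt γ Y J = 0

theorem supp1 {p w : I → ℤ} {Y Z T : Matrix I I ℂ} (hZ : Z = Y * T) (hT : ∀ a b, T a b ≠ 0 → w a = w b ∧ p b ≤ p a)
    {m : ℕ} {γ : (Fin m → I) → ℂ} (hγ : HodgeT p w Y γ) (J : Fin m → I) (hJ : ∑ i, w (J i) < 2 * ∑ i, p (J i)) :
    rt γ Z J = 0 := by
  rw [hZ, rt_mul, rt_apply]
  refine Finset.sum_eq_zero fun a _ => ?_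
  by_cases h : ∀ i, T (a i) (J i) ≠ 0
  · have h1 : ∑ i, p (J i) ≤ ∑ i, p (a i) := Finset.sum_le_sum fun i _ => (hT _ _ (h i)).2
    have h2 : ∑ i, w (a i) = ∑ i, w (J i) := Finset.sum_congr rfl fun i _ => (hT _ _ (h i)).1
    rw [hγ a (by linarith), zero_mul]
  · push Not at h
    obtain ⟨i, hi⟩ := h
    rw [Finset.prod_eq_zero (Finset.mem_univ i) hi, mul_zero]

theorem supp2 {p w : I → ℤ} {Y Z T M : Matrix I I ℂ} (hZ : Z = Y * T)
    (hT : ∀ a b, T a b ≠ 0 → w a = w b ∧ p b ≤ p a)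
    (hM : Z.map (starRingEnd ℂ) = Z * M) (hM' : ∀ a b, M a b ≠ 0 → w a = w b ∧ p a + p b = w b) {m : ℕ}
    {γ : (Fin m → I) → ℂ} (hr : ∀ a, conj (γ a) = γ a) (hγ : HodgeT p w Y γ) (J : Fin m → I) (hJ : rt γ Z J ≠ 0) :
    2 * ∑ i, p (J i) = ∑ i, w (J i) := by
  by_contra hne
  rcases lt_or_gt_of_ne hne with h | h
  · apply hJ
    have h1 : conj (rt γ Z J) = 0 := by
      rw [← rt_conj hr, hM, rt_mul, rt_apply]
      refine Finset.sum_eq_zero fun a _ => ?_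
      by_cases h2 : ∀ i, M (a i) (J i) ≠ 0
      · have h3 : ∑ i, p (a i) + ∑ i, p (J i) = ∑ i, w (J i) := by
          rw [← Finset.sum_add_distrib, Finset.sum_congr rfl fun i _ => (hM' _ _ (h2 i)).2]
        have h4 : ∑ i, w (a i) = ∑ i, w (J i) := Finset.sum_congr rfl fun i _ => (hM' _ _ (h2 i)).1
        rw [supp1 hZ hT hγ a (by linarith), zero_mul]
      · push Not at h2
        obtain ⟨i, hi⟩ := h2
        rw [Finset.prod_eq_zero (Finset.mem_univ i) hi, mul_zero]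
    exact (map_eq_zero _).1 h1
  · exact hJ (supp1 hZ hT hγ J h)

/-- the frame gives the inverse of the polarization -/
theorem frame_inv {p w : I → ℤ} {S Z : Matrix I I ℂ}
    (h : Zᵀ * S * Z.map (starRingEnd ℂ) = Matrix.diagonal fun b => Complex.I ^ (w b - 2 * p b)) :
    S * (Z.map (starRingEnd ℂ) * Matrix.diagonal (fun b => Complex.I ^ (-(w b - 2 * p b))) * Zᵀ) = 1 := by
  have h1 : (Matrix.diagonal fun b => Complex.I ^ (w b - 2 * p b)) *
      Matrix.diagonal (fun b => Complex.I ^ (-(w b - 2 * p b))) = (1 : Matrix I I ℂ) := by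
    rw [Matrix.diagonal_mul_diagonal]
    rw [← Matrix.diagonal_one]
    congr 1
    funext b
    rw [← zpow_add₀ Complex.I_ne_zero, add_neg_cancel, zpow_zero]
  rw [← h] at h1
  have h2 : Zᵀ * (S * Z.map (starRingEnd ℂ) * Matrix.diagonal (fun b => Complex.I ^ (-(w b - 2 * p b)))) = 1 := by
    rw [← h1]
    simp only [Matrix.mul_assoc]
  have h3 := mul_eq_one_comm.1 h2
  rw [← h3]
  simp only [Matrix.mul_assoc]

/-- **Hodge tensors: the norm is the form.** -/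
theorem norm_eq {p w : I → ℤ} {S Y Z T M : Matrix I I ℂ} (hZ : Z = Y * T)
    (hT : ∀ a b, T a b ≠ 0 → w a = w b ∧ p b ≤ p a)
    (hM : Z.map (starRingEnd ℂ) = Z * M) (hM' : ∀ a b, M a b ≠ 0 → w a = w b ∧ p a + p b = w b)
    (hS : Zᵀ * S * Z.map (starRingEnd ℂ) = Matrix.diagonal fun b => Complex.I ^ (w b - 2 * p b)) {m : ℕ}
    {γ : (Fin m → I) → ℂ} (hr : ∀ a, conj (γ a) = γ a) (hγ : HodgeT p w Y γ) :
    qf S⁻¹ γ = ((∑ J, ‖rt γ Z J‖ ^ 2 : ℝ) : ℂ) := by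
  rw [Matrix.inv_eq_right_inv (frame_inv hS), qf, tp_mul, tp_mul, tp_diag, tp_transpose]
  have h1 : ((tp m (Z.map (starRingEnd ℂ)) *
      Matrix.diagonal (fun J : Fin m → I => ∏ i, Complex.I ^ (-(w (J i) - 2 * p (J i)))) *
      (tp m Z)ᵀ) *ᵥ γ) = tp m (Z.map (starRingEnd ℂ)) *ᵥ
        (Matrix.diagonal (fun J : Fin m → I => ∏ i, Complex.I ^ (-(w (J i) - 2 * p (J i)))) *ᵥ rt γ Z) := by
    rw [← Matrix.mulVec_mulVec, ← Matrix.mulVec_mulVec, Matrix.mulVec_transpose]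
    rfl
  rw [h1, Matrix.dotProduct_mulVec]
  have h2 : γ ᵥ* tp m (Z.map (starRingEnd ℂ)) = fun J => conj (rt γ Z J) := by
    funext J
    exact rt_conj hr Z J
  rw [h2, dotProduct, Complex.ofReal_sum]
  refine Finset.sum_congr rfl fun J _ => ?_
  rw [Matrix.mulVec_diagonal]
  by_cases hJ : rt γ Z J = 0
  · rw [hJ]
    simp
  · have h3 := supp2 hZ hT hM hM' hr hγ J hJ
    have h4 : ∏ i, Complex.I ^ (-(w (J i) - 2 * p (J i))) = 1 := by
      rw [prod_zpow' Complex.I_ne_zero]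
      have h5 : ∑ i, -(w (J i) - 2 * p (J i)) = 0 := by
        rw [Finset.sum_neg_distrib, Finset.sum_sub_distrib, ← Finset.mul_sum, h3]
        simp
      rw [h5, zpow_zero]
    rw [h4, one_mul, Complex.conj_mul']
    push_cast
    rfl

/-- **A tensor which is a Hodge tensor after all translations by the identity component is fixed by it.** -/
theorem hodge_fixed {𝒢 Γ : Subgroup (GL I ℂ)} (hΓ : Γ ≤ 𝒢)
    (hd : ∀ P : MvPolynomial (I × I) ℂ, (∀ g ∈ Γ, MvPolynomial.eval (fun v => (g : Matrix I I ℂ) v.1 v.2) P = 0) →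
      ∀ g ∈ 𝒢, MvPolynomial.eval (fun v => (g : Matrix I I ℂ) v.1 v.2) P = 0)
    (hint : ∀ g ∈ Γ, ∀ a b, ∃ n : ℤ, (g : Matrix I I ℂ) a b = n) {S : Matrix I I ℂ}
    (hpres : ∀ g ∈ Γ, (g : Matrix I I ℂ)ᵀ * S * (g : Matrix I I ℂ) = S) {p w : I → ℤ} {Y : Matrix I I ℂ}
    (hfr : Frame p w S Y) {m : ℕ} (γ : (Fin m → I) → ℤ)
    (hH : ∀ g ∈ IdComp 𝒢, HodgeT p w ((g : Matrix I I ℂ) * Y) fun a => (γ a : ℂ)) :
    ∀ g ∈ IdComp 𝒢, rt (fun a => (γ a : ℂ)) (g : Matrix I I ℂ) = fun a => (γ a : ℂ) := by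
  classical
  obtain ⟨Z, T, M, hZ, hT, hM, hM', hS⟩ := hfr
  have hinv := frame_inv hS
  refine orbit_fixed hΓ hd _ ?_
  -- an inverse of the frame
  obtain ⟨W, hW⟩ : ∃ W, Z * W = 1 := by
    have h1 : (S * (Z.map (starRingEnd ℂ) * Matrix.diagonal (fun b => Complex.I ^ (-(w b - 2 * p b))))) * Zᵀ = 1 := by
      rw [← hinv]
      simp only [Matrix.mul_assoc]
    refine ⟨(S * (Z.map (starRingEnd ℂ) * Matrix.diagonal (fun b => Complex.I ^ (-(w b - 2 * p b)))))ᵀ, ?_⟩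
    have h2 := congrArg Matrix.transpose h1
    rw [Matrix.transpose_mul, Matrix.transpose_transpose, Matrix.transpose_one] at h2
    exact h2
  set B : ℝ := ‖qf S⁻¹ (fun a => (γ a : ℂ))‖ with hB
  refine ((bounded_finite hW m B).image fun δ a => (δ a : ℂ)).subset ?_
  rintro δ ⟨g, hgΓ, hgI, rfl⟩
  -- integrality
  have h3 : ∀ J, ∃ n : ℤ, rt (fun a => (γ a : ℂ)) (g : Matrix I I ℂ) J = n := by
    intro J
    choose N hN using hint g hgΓ
    refine ⟨∑ a, γ a * ∏ i, N (a i) (J i), ?_⟩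
    rw [rt_apply]
    push_cast
    simp only [hN]
  choose δ hδ using h3
  refine ⟨δ, ?_, funext fun J => (hδ J).symm⟩
  have hδ' : (fun a => (δ a : ℂ)) = rt (fun a => (γ a : ℂ)) (g : Matrix I I ℂ) := funext fun J => (hδ J).symm
  have hHδ : HodgeT p w Y fun a => (δ a : ℂ) := by
    intro J hJ
    rw [hδ', ← rt_mul]
    exact hH g hgI J hJ
  have hr : ∀ a, conj ((δ a : ℤ) : ℂ) = (δ a : ℂ) := fun a => by simp
  have h4 := norm_eq hZ hT hM hM' hS hr hHδ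
  rw [hδ', qf_inv (by rw [Matrix.inv_eq_right_inv hinv]; exact hinv) (hpres g hgΓ)] at h4
  change ∑ J, ‖rt (fun a => (δ a : ℂ)) Z J‖ ^ 2 ≤ B
  rw [hB, h4, Complex.norm_real, Real.norm_eq_abs, hδ']
  exact le_abs_self _

end Pool.Agent.V11273.PW
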