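import Mathlib

/-!
# Extension of points along dominant morphisms of affine varieties
-/

set_option autoImplicit false

namespace Pool.Agent.V11273.PV

/-- **Points of a generic fibre.** -/
theorem ext_point {A C : Type} [CommRing A] [IsDomain A] [Algebra ℂ A] [Algebra.FiniteType ℂ A] [CommRing C]
    [IsDomain C] [Algebra ℂ C] [Algebra.FiniteType ℂ C] (f : A →ₐ[ℂ] C) (hf : Function.Injective f) (γ : C)
    (hγ : γ ≠ 0) : ∃ a : A, a ≠ 0 ∧ ∀ φ : A →ₐ[ℂ] ℂ, φ a ≠ 0 → ∃ ψ : C →ₐ[ℂ] ℂ, (∀ x, ψ (f x) = φ x) ∧ ψ γ ≠ 0 := by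
  classical
  have hnoeth : IsNoetherianRing A := Algebra.FiniteType.isNoetherianRing ℂ A
  let g : A →+* C := f
  have hfp : g.FinitePresentation := by
    refine RingHom.FinitePresentation.of_finiteType.mp ?_
    have h1 : (algebraMap ℂ C).FiniteType := by
      rw [RingHom.finiteType_algebraMap]
      infer_instance
    have h2 : g.comp (algebraMap ℂ A) = algebraMap ℂ C := by
      ext x
      simp [g]
    rw [← h2] at h1
    exact RingHom.FiniteType.of_comp_finiteType h1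
  have hcon := PrimeSpectrum.isConstructible_comap_image hfp (PrimeSpectrum.isConstructible_basicOpen (f := γ))
  obtain ⟨S, hS⟩ := PrimeSpectrum.exists_constructibleSetData_iff.mpr hcon
  have hbot : (⊥ : PrimeSpectrum A) ∈ PrimeSpectrum.comap g '' (PrimeSpectrum.basicOpen γ : Set _) := by
    refine ⟨⊥, ?_, ?_⟩
    · simpa using hγ
    · apply PrimeSpectrum.ext
      change Ideal.comap g ⊥ = ⊥
      exact Ideal.comap_bot_of_injective g hf
  rw [← hS] at hbot
  simp only [PrimeSpectrum.ConstructibleSetData.toSet, Set.mem_iUnion] at hbot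
  obtain ⟨E, hC, hCb⟩ := hbot
  obtain ⟨hg, hf'⟩ := hCb
  have hg0 : ∀ i, E.g i = 0 := by
    intro i
    have := hg (Set.mem_range_self i)
    simpa using this
  have hf0 : E.f ≠ 0 := by
    intro h
    apply hf'
    rw [PrimeSpectrum.mem_zeroLocus, Set.singleton_subset_iff, h]
    exact Ideal.zero_mem _
  refine ⟨E.f, hf0, fun φ hφ => ?_⟩
  let m : PrimeSpectrum A := ⟨RingHom.ker (φ : A →+* ℂ), RingHom.ker_isPrime _⟩
  have hm : m ∈ S.toSet := by
    simp only [PrimeSpectrum.ConstructibleSetData.toSet, Set.mem_iUnion]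
    refine ⟨E, hC, ?_, ?_⟩
    · rw [PrimeSpectrum.mem_zeroLocus]
      rintro _ ⟨i, rfl⟩
      rw [hg0 i]
      exact Ideal.zero_mem _
    · rw [PrimeSpectrum.mem_zeroLocus, Set.singleton_subset_iff]
      intro h
      exact hφ h
  rw [hS] at hm
  obtain ⟨q, hq, hqm⟩ := hm
  have hDq : γ ∉ q.asIdeal := hq
  have hJac : IsJacobsonRing C := isJacobsonRing_of_finiteType (A := ℂ)
  have hjac : q.asIdeal.jacobson = q.asIdeal := IsJacobsonRing.out inferInstance q.isPrime.isRadical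
  rw [← hjac, Ideal.jacobson, Submodule.mem_sInf] at hDq
  push Not at hDq
  obtain ⟨n, ⟨hn1, hn2⟩, hn3⟩ := hDq
  have hft : Algebra.FiniteType ℂ (C ⧸ n) := inferInstance
  let _ : Field (C ⧸ n) := Ideal.Quotient.field n
  have hfin : Module.Finite ℂ (C ⧸ n) := finite_of_finite_type_of_isJacobsonRing ℂ (C ⧸ n)
  have hbij : Function.Bijective (algebraMap ℂ (C ⧸ n)) :=
    IsAlgClosed.algebraMap_bijective_of_isIntegral
  let e : (C ⧸ n) ≃ₐ[ℂ] ℂ := (AlgEquiv.ofBijective (Algebra.ofId ℂ (C ⧸ n)) hbij).symm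
  let ψ : C →ₐ[ℂ] ℂ := (e : (C ⧸ n) →ₐ[ℂ] ℂ).comp (Ideal.Quotient.mkₐ ℂ n)
  have hψ : ∀ c : C, ψ c = 0 ↔ c ∈ n := by
    intro c
    change e (Ideal.Quotient.mk n c) = 0 ↔ _
    rw [EmbeddingLike.map_eq_zero_iff, Ideal.Quotient.eq_zero_iff_mem]
  refine ⟨ψ, fun x => ?_, fun h => hn3 ((hψ γ).1 h)⟩
  have h1 : x - algebraMap ℂ A (φ x) ∈ m.asIdeal := by
    change φ (x - algebraMap ℂ A (φ x)) = 0
    rw [map_sub, AlgHom.commutes, Algebra.algebraMap_self, RingHom.id_apply, sub_self]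
  rw [← hqm] at h1
  have h2 : f (x - algebraMap ℂ A (φ x)) ∈ n := hn1 h1
  rw [← hψ, map_sub, AlgHom.commutes, map_sub, AlgHom.commutes, Algebra.algebraMap_self, RingHom.id_apply] at h2
  exact sub_eq_zero.1 h2

end Pool.Agent.V11273.PV
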