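import Pool.Agent.V11273.PV.E8

/-!
# The Galois group of a product of families
-/

set_option autoImplicit false
set_option linter.unusedSectionVars false

open Filter Topology

namespace Pool.Agent.V11273.PV

open Pool.Agent.Y890.MV (evX evM evM_eq evM_an poly_zero RegularM)

variable {κ : Type} [Fintype κ] [DecidableEq κ] {X ι : κ → Type} [∀ j, Fintype (X j)] [∀ j, DecidableEq (X j)]
  [∀ j, Fintype (ι j)] [∀ j, DecidableEq (ι j)]
  {U : ∀ j, Set (X j → ℂ)} {Y : ∀ j, (X j → ℂ) → Matrix (ι j) (ι j) ℂ}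

/-- one factor acts -/
theorem pres_one {j : κ} {h : Matrix (ι j) (ι j) ℂ} (hh : Pres (U j) (Y j) h) :
    Pres (UU U) (YY Y) (Matrix.blockDiagonal' (Function.update (fun l => (1 : Matrix (ι l) (ι l) ℂ)) j h)) := by
  classical
  intro p hp z hz
  -- the relation with the other variables fixed
  let F0 : ∀ l, X l → MvPolynomial (ι j × ι j) (MvPolynomial (X j) ℂ) :=
    Function.update (fun l i => MvPolynomial.C (MvPolynomial.C (z ⟨l, i⟩))) j
      (fun i => MvPolynomial.C (MvPolynomial.X i))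
  let f : MvPolynomial (Σ j, X j) ℂ →+* MvPolynomial (ι j × ι j) (MvPolynomial (X j) ℂ) :=
    MvPolynomial.eval₂Hom (MvPolynomial.C.comp MvPolynomial.C) fun s => F0 s.1 s.2
  let M0 : ∀ l, Matrix (ι l) (ι l) (MvPolynomial (ι j × ι j) (MvPolynomial (X j) ℂ)) :=
    Function.update (fun l => (Y l (pr z l)).map fun c => MvPolynomial.C (MvPolynomial.C c)) j
      (Matrix.of fun a b => MvPolynomial.X (a, b))
  set p' : MvPolynomial (ι j × ι j) (MvPolynomial (X j) ℂ) :=
    MvPolynomial.eval₂ f (fun v => Matrix.blockDiagonal' M0 v.1 v.2) p with hp'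
  have key : ∀ (x : X j → ℂ) (Z : Matrix (ι j) (ι j) ℂ), rv x Z p' = rv (un (Function.update (pr z) j x))
      (Matrix.blockDiagonal' (Function.update (fun l => Y l (pr z l)) j Z)) p := by
    intro x Z
    set Φ : MvPolynomial (ι j × ι j) (MvPolynomial (X j) ℂ) →+* ℂ :=
      MvPolynomial.eval₂Hom (MvPolynomial.eval x) (fun v => Z v.1 v.2) with hΦ
    have h1 : rv x Z p' = MvPolynomial.eval₂ (Φ.comp f) (Φ ∘ fun v => Matrix.blockDiagonal' M0 v.1 v.2) p := by
      rw [← MvPolynomial.eval₂_comp_left Φ f]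
      rfl
    rw [h1, rv]
    congr 1
    · refine MvPolynomial.ringHom_ext (fun a => ?_) fun s => ?_
      · rw [RingHom.comp_apply, MvPolynomial.eval_C]
        simp only [f, MvPolynomial.eval₂Hom_C, RingHom.comp_apply, hΦ, MvPolynomial.eval_C]
      · rw [RingHom.comp_apply, MvPolynomial.eval_X]
        simp only [f, MvPolynomial.eval₂Hom_X']
        obtain ⟨l, i⟩ := s
        by_cases hl : l = j
        · subst hl
          simp only [F0, un, Function.update_self, hΦ, MvPolynomial.eval₂Hom_C, MvPolynomial.eval_X]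
        · simp only [F0, un, Function.update_of_ne hl, hΦ, MvPolynomial.eval₂Hom_C, MvPolynomial.eval_C]
          rfl
    · funext v
      have h2 : ((Matrix.blockDiagonal' M0).map Φ) =
          Matrix.blockDiagonal' (Function.update (fun l => Y l (pr z l)) j Z) := by
        rw [Matrix.blockDiagonal'_map _ _ (map_zero _)]
        congr 1
        funext l
        by_cases hl : l = j
        · subst hl
          simp only [M0, Function.update_self]
          ext a b
          rw [Matrix.map_apply, Matrix.of_apply, hΦ, MvPolynomial.eval₂Hom_X']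
        · simp only [M0, Function.update_of_ne hl]
          ext a b
          rw [Matrix.map_apply, Matrix.map_apply, hΦ, MvPolynomial.eval₂Hom_C, MvPolynomial.eval_C]
      rw [← h2]
      rfl
  have hYY : ∀ x : X j → ℂ, YY Y (un (Function.update (pr z) j x)) =
      Matrix.blockDiagonal' (Function.update (fun l => Y l (pr z l)) j (Y j x)) := by
    intro x
    unfold YY
    congr 1
    funext l
    rw [pr_un]
    by_cases hl : l = j
    · subst hl
      rw [Function.update_self, Function.update_self]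
    · rw [Function.update_of_ne hl, Function.update_of_ne hl]
  have hrel : ∀ x ∈ U j, rv x (Y j x) p' = 0 := by
    intro x hx
    rw [key, ← hYY]
    refine hp _ fun l => ?_
    rw [pr_un]
    by_cases hl : l = j
    · subst hl
      rw [Function.update_self]
      exact hx
    · rw [Function.update_of_ne hl]
      exact hz l
  have h1 := hh p' hrel (pr z j) (hz j)
  rw [key, Function.update_eq_self, un_pr] at h1
  have h2 : Matrix.blockDiagonal' (Function.update (fun l => (1 : Matrix (ι l) (ι l) ℂ)) j h) * YY Y z =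
      Matrix.blockDiagonal' (Function.update (fun l => Y l (pr z l)) j (h * Y j (pr z j))) := by
    unfold YY
    rw [← Matrix.blockDiagonal'_mul]
    congr 1
    funext l
    by_cases hl : l = j
    · subst hl
      rw [Function.update_self, Function.update_self]
    · rw [Function.update_of_ne hl, Function.update_of_ne hl, one_mul]
  rw [h2]
  exact h1

/-- block diagonal elements of the general linear group -/
noncomputable def bd : (∀ j, GL (ι j) ℂ) →* GL (Σ j, ι j) ℂ :=
  (Units.map (Matrix.blockDiagonal'RingHom ι ℂ : (∀ j, Matrix (ι j) (ι j) ℂ) →+*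
    Matrix (Σ j, ι j) (Σ j, ι j) ℂ).toMonoidHom).comp
      (MulEquiv.piUnits (M := fun j => Matrix (ι j) (ι j) ℂ)).symm.toMonoidHom

theorem bd_val (w : ∀ j, GL (ι j) ℂ) : ((bd w : GL (Σ j, ι j) ℂ) : Matrix (Σ j, ι j) (Σ j, ι j) ℂ) =
    Matrix.blockDiagonal' fun j => (w j : Matrix (ι j) (ι j) ℂ) := rfl

theorem bd_single (j : κ) (h : GL (ι j) ℂ) :
    ((bd (Pi.mulSingle j h) : GL (Σ j, ι j) ℂ) : Matrix (Σ j, ι j) (Σ j, ι j) ℂ) =
      Matrix.blockDiagonal' (Function.update (fun l => (1 : Matrix (ι l) (ι l) ℂ)) j (h : Matrix (ι j) (ι j) ℂ)) := by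
  rw [bd_val]
  congr 1
  funext l
  by_cases hl : l = j
  · subst hl
    rw [Pi.mulSingle_eq_same, Function.update_self]
  · rw [Pi.mulSingle_eq_of_ne hl, Function.update_of_ne hl, Units.val_one]

/-- products of elements of the Galois groups -/
theorem bd_mem {w : ∀ j, GL (ι j) ℂ} (hw : ∀ j, w j ∈ Gal (U j) (Y j)) : bd w ∈ Gal (UU U) (YY Y) := by
  have h1 : w ∈ (Gal (UU U) (YY Y)).comap bd := by
    refine Subgroup.pi_mem_of_mulSingle_mem w fun j => ?_
    rw [Subgroup.mem_comap, mem_Gal, bd_single]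
    exact pres_one (hw j)
  exact h1

/-- elements of the Galois group of the product are block diagonal -/
theorem gal_block (hU : ∀ j, (U j).Nonempty) (hdet : ∀ j, ∀ x ∈ U j, (Y j x).det ≠ 0) {g : GL (Σ j, ι j) ℂ}
    (hg : g ∈ Gal (UU U) (YY Y)) :
    (g : Matrix (Σ j, ι j) (Σ j, ι j) ℂ) = Matrix.blockDiagonal' (Matrix.blockDiag' (g : Matrix (Σ j, ι j) (Σ j, ι j) ℂ)) := by
  obtain ⟨z, hz⟩ := UU_ne hU
  ext ⟨j, a⟩ ⟨j', b⟩
  by_cases h : j = j'
  · subst h
    rw [Matrix.blockDiagonal'_apply_eq]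
    rfl
  rw [Matrix.blockDiagonal'_apply_ne _ _ _ h]
  -- the product has zero entries
  have h1 : ∀ e : ι j', ((g : Matrix (Σ j, ι j) (Σ j, ι j) ℂ) * YY Y z) ⟨j, a⟩ ⟨j', e⟩ = 0 := by
    intro e
    have h2 := hg (MvPolynomial.X (⟨j, a⟩, ⟨j', e⟩)) (fun z _ => by
      rw [rv, MvPolynomial.eval₂_X]
      exact Matrix.blockDiagonal'_apply_ne _ _ _ h) z hz
    rw [rv, MvPolynomial.eval₂_X] at h2
    exact h2
  have h2 : (g : Matrix (Σ j, ι j) (Σ j, ι j) ℂ) =
      ((g : Matrix (Σ j, ι j) (Σ j, ι j) ℂ) * YY Y z) * Matrix.blockDiagonal' (fun j => (Y j (pr z j))⁻¹) := by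
    have h3 : YY Y z * Matrix.blockDiagonal' (fun j => (Y j (pr z j))⁻¹) = 1 := by
      unfold YY
      rw [← Matrix.blockDiagonal'_mul]
      have h2 : (fun j => Y j (pr z j) * (Y j (pr z j))⁻¹) = 1 := by
        funext j
        exact Matrix.mul_nonsing_inv _ (isUnit_iff_ne_zero.2 (hdet j _ (hz j)))
      rw [h2, Matrix.blockDiagonal'_one]
    rw [mul_assoc, h3, mul_one]
  rw [h2, Matrix.mul_apply, Fintype.sum_sigma]
  refine Finset.sum_eq_zero fun l _ => Finset.sum_eq_zero fun e _ => ?_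
  by_cases hl : l = j'
  · subst hl
    rw [h1, zero_mul]
  · rw [Matrix.blockDiagonal'_apply_ne _ _ _ hl, mul_zero]

/-- the blocks are in the Galois groups -/
theorem gal_exists (hU : ∀ j, (U j).Nonempty) (hdet : ∀ j, ∀ x ∈ U j, (Y j x).det ≠ 0) {g : GL (Σ j, ι j) ℂ}
    (hg : g ∈ Gal (UU U) (YY Y)) : ∃ w : ∀ j, GL (ι j) ℂ, (∀ j, w j ∈ Gal (U j) (Y j)) ∧ bd w = g := by
  classical
  have hb := gal_block hU hdet hg
  have hb' := gal_block hU hdet ((Gal (UU U) (YY Y)).inv_mem hg)
  set m := Matrix.blockDiag' (g : Matrix (Σ j, ι j) (Σ j, ι j) ℂ) with hm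
  set m' := Matrix.blockDiag' ((g⁻¹ : GL (Σ j, ι j) ℂ) : Matrix (Σ j, ι j) (Σ j, ι j) ℂ) with hm'
  have h1 : ∀ j, m j * m' j = 1 := by
    have h2 : (g : Matrix (Σ j, ι j) (Σ j, ι j) ℂ) * ((g⁻¹ : GL (Σ j, ι j) ℂ) : Matrix (Σ j, ι j) (Σ j, ι j) ℂ) = 1 := by
      rw [← Units.val_mul, mul_inv_cancel, Units.val_one]
    rw [hb, hb', ← Matrix.blockDiagonal'_mul, ← Matrix.blockDiagonal'_one] at h2
    have h3 := Matrix.blockDiagonal'_injective h2
    intro j
    exact congrFun h3 j
  let w : ∀ j, GL (ι j) ℂ := fun j => ⟨m j, m' j, h1 j, mul_eq_one_comm.1 (h1 j)⟩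
  refine ⟨w, fun j => ?_, Units.ext ?_⟩
  · rw [mem_Gal]
    intro p hp x hx
    obtain ⟨z₀, hz₀⟩ := UU_ne hU
    -- the relation on the product
    set p'' : MvPolynomial ((Σ j, ι j) × (Σ j, ι j)) (MvPolynomial (Σ j, X j) ℂ) :=
      MvPolynomial.rename (fun v : ι j × ι j => ((⟨j, v.1⟩, ⟨j, v.2⟩) : (Σ j, ι j) × (Σ j, ι j)))
        (MvPolynomial.map (MvPolynomial.rename (Sigma.mk j) : MvPolynomial (X j) ℂ →ₐ[ℂ]
          MvPolynomial (Σ j, X j) ℂ).toRingHom p) with hp''
    have hev : ∀ (z : (Σ j, X j) → ℂ) (M : Matrix (Σ j, ι j) (Σ j, ι j) ℂ), rv z M p'' =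
        rv (pr z j) (Matrix.blockDiag' M j) p := by
      intro z M
      rw [rv, hp'', MvPolynomial.eval₂_rename, MvPolynomial.eval₂_map, rv]
      congr 1
      refine RingHom.ext fun q => ?_
      rw [RingHom.comp_apply]
      exact ev_rename z j q
    have h2 := hg p'' (fun z hz => by
      rw [hev]
      have h3 : Matrix.blockDiag' (YY Y z) j = Y j (pr z j) := by
        ext a b
        exact YY_eq z j a b
      rw [h3]
      exact hp _ (hz j)) (un (Function.update (pr z₀) j x)) (fun l => by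
        rw [pr_un]
        by_cases hl : l = j
        · subst hl
          rw [Function.update_self]
          exact hx
        · rw [Function.update_of_ne hl]
          exact hz₀ l)
    rw [hev, pr_un, Function.update_self, hb] at h2
    unfold YY at h2
    rw [← Matrix.blockDiagonal'_mul, Matrix.blockDiag'_blockDiagonal'] at h2
    simp only [pr_un, Function.update_self] at h2
    exact h2
  · rw [bd_val]
    exact hb.symm

/-- a product of connected groups is connected -/
theorem conn_prod (hU : ∀ j, (U j).Nonempty) (hdet : ∀ j, ∀ x ∈ U j, (Y j x).det ≠ 0)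
    (hconn : ∀ j, Conn (Gal (U j) (Y j))) : Conn (Gal (UU U) (YY Y)) := by
  classical
  intro H hH hcl
  obtain ⟨E, hE⟩ := hcl
  -- the embeddings of the factors
  let e : ∀ j, Gal (U j) (Y j) →* Gal (UU U) (YY Y) := fun j =>
    { toFun := fun h => ⟨bd (Pi.mulSingle j (h : GL (ι j) ℂ)), by
        rw [mem_Gal, bd_single]
        exact pres_one h.2⟩
      map_one' := by
        apply Subtype.ext
        simp only [Subgroup.coe_one, Pi.mulSingle_one, map_one]
      map_mul' := by
        intro a b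
        apply Subtype.ext
        simp only [Subgroup.coe_mul, Pi.mulSingle_mul, map_mul] }
  have htop : ∀ j, H.comap (e j) = ⊤ := by
    intro j
    refine hconn j _ ?_ ?_
    · rw [Subgroup.finiteIndex_iff, Subgroup.index_comap]
      exact (Subgroup.isFiniteRelIndex_of_finiteIndex (H := H) (K := (e j).range)).relIndex_ne_zero
    · let vars : (Σ j, ι j) × (Σ j, ι j) → MvPolynomial (ι j × ι j) ℂ := fun v =>
        Matrix.blockDiagonal' (Function.update (fun l => (1 : Matrix (ι l) (ι l) (MvPolynomial (ι j × ι j) ℂ))) j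
          (Matrix.of fun a b => MvPolynomial.X (a, b))) v.1 v.2
      have hvars : ∀ (h : Gal (U j) (Y j)) (q : MvPolynomial ((Σ j, ι j) × (Σ j, ι j)) ℂ),
          MvPolynomial.eval (fun v => ((h : GL (ι j) ℂ) : Matrix (ι j) (ι j) ℂ) v.1 v.2) (MvPolynomial.bind₁ vars q) =
            MvPolynomial.eval (fun v => (((e j h : Gal (UU U) (YY Y)) : GL (Σ j, ι j) ℂ) :
              Matrix (Σ j, ι j) (Σ j, ι j) ℂ) v.1 v.2) q := by
        intro h q
        rw [← MvPolynomial.coe_aeval_eq_eval, ← MvPolynomial.coe_aeval_eq_eval, RingHom.coe_coe, RingHom.coe_coe,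
          MvPolynomial.aeval_bind₁]
        congr 2
        funext v
        have h2 : (((e j h : Gal (UU U) (YY Y)) : GL (Σ j, ι j) ℂ) : Matrix (Σ j, ι j) (Σ j, ι j) ℂ) =
            (Matrix.blockDiagonal' (Function.update
              (fun l => (1 : Matrix (ι l) (ι l) (MvPolynomial (ι j × ι j) ℂ))) j
              (Matrix.of fun a b => MvPolynomial.X (a, b)))).map
              (MvPolynomial.aeval (fun v => ((h : GL (ι j) ℂ) : Matrix (ι j) (ι j) ℂ) v.1 v.2)) := by
          rw [Matrix.blockDiagonal'_map _ _ (map_zero _)]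
          refine (bd_single j (h : GL (ι j) ℂ)).trans ?_
          congr 1
          funext l
          by_cases hl : l = j
          · subst hl
            rw [Function.update_self, Function.update_self]
            ext a b
            rw [Matrix.map_apply, Matrix.of_apply, MvPolynomial.aeval_X]
          · rw [Function.update_of_ne hl, Function.update_of_ne hl, Matrix.map_one _ (map_zero _) (map_one _)]
        rw [h2]
        rfl
      refine ⟨(MvPolynomial.bind₁ vars) '' E, fun h => ?_⟩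
      rw [Subgroup.mem_comap, hE]
      constructor
      · rintro h1 _ ⟨q, hq, rfl⟩
        rw [hvars]
        exact h1 q hq
      · intro h1 q hq
        rw [← hvars]
        exact h1 _ ⟨q, hq, rfl⟩
  rw [Subgroup.eq_top_iff']
  rintro ⟨g, hg⟩
  obtain ⟨w, hw, rfl⟩ := gal_exists hU hdet hg
  have h1 : w ∈ (H.map (Gal (UU U) (YY Y)).subtype).comap bd := by
    refine Subgroup.pi_mem_of_mulSingle_mem w fun j => ?_
    rw [Subgroup.mem_comap, Subgroup.mem_map]
    refine ⟨e j ⟨w j, hw j⟩, ?_, rfl⟩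
    have h2 : (⟨w j, hw j⟩ : Gal (U j) (Y j)) ∈ H.comap (e j) := by
      rw [htop]
      exact Subgroup.mem_top _
    exact h2
  rw [Subgroup.mem_comap, Subgroup.mem_map] at h1
  obtain ⟨y, hy, hy'⟩ := h1
  have h2 : y = ⟨bd w, hg⟩ := Subtype.ext hy'
  rw [← h2]
  exact hy

/-- **Regularity of products.** -/
theorem reg_prod (hU : ∀ j, IsPreconnected (U j)) (hUo : ∀ j, IsOpen (U j)) (hne : ∀ j, (U j).Nonempty)
    (hY : ∀ j a b, AnalyticOnNhd ℂ (fun x => Y j x a b) (U j)) (hdet : ∀ j, ∀ x ∈ U j, (Y j x).det ≠ 0)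
    {c : ∀ j, MvPolynomial (X j) ℂ} (hc0 : ∀ j, c j ≠ 0) {B : ∀ j, X j → Matrix (ι j) (ι j) (MvPolynomial (X j) ℂ)}
    (hc : ∀ j, Connection (U j) (Y j) (c j) (B j)) (hconn : ∀ j, Conn (Gal (U j) (Y j))) :
    RegularM (UU U) (fun (s : (Σ j, ι j) × (Σ j, ι j)) z => YY Y z s.1 s.2) :=
  reg (UU_preconn hU) (UU_open hUo) (YY_an hY) (YY_det hdet) (cc_ne hc0) (product_connection hY hc)
    (conn_prod hne hdet hconn)

end Pool.Agent.V11273.PV
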