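import Pool.Agent.V11273.PV.E7
import Pool.Agent.V11273.PV.E9

/-!
# The main theorems
-/

set_option autoImplicit false
set_option linter.unusedSectionVars false

open Filter Topology NumberField

namespace Pool.Agent.V11273.PV

open Pool.Agent.Y890.MV
open Pool.Agent.Y124 (Cov)

variable {κ : Type} [Fintype κ] [DecidableEq κ] {X ι : κ → Type} [∀ j, Fintype (X j)] [∀ j, DecidableEq (X j)]
  [∀ j, Fintype (ι j)] [∀ j, DecidableEq (ι j)]
  {U : ∀ j, Set (X j → ℂ)} {Y : ∀ j, (X j → ℂ) → Matrix (ι j) (ι j) ℂ}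

/-- all the entries -/
def fE (Y : ∀ j, (X j → ℂ) → Matrix (ι j) (ι j) ℂ) (s : Σ j, ι j × ι j) (z : (Σ j, X j) → ℂ) : ℂ :=
  Y s.1 (pr z s.1) s.2.1 s.2.2

theorem fE_an (hY : ∀ j a b, AnalyticOnNhd ℂ (fun x => Y j x a b) (U j)) (s : Σ j, ι j × ι j) :
    AnalyticOnNhd ℂ (fE Y s) (UU U) := by
  intro z hz
  have h1 : AnalyticAt ℂ (fun x => Y s.1 x s.2.1 s.2.2) (prL s.1 z) := hY s.1 s.2.1 s.2.2 (pr z s.1) (hz s.1)
  exact h1.comp ((prL s.1).analyticAt z)

/-- the relation does not hold on the product of the orbits -/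
def Bad1 (U : ∀ j, Set (X j → ℂ)) (Y : ∀ j, (X j → ℂ) → Matrix (ι j) (ι j) ℂ) (z : (Σ j, X j) → ℂ)
    (P : MvPolynomial (Σ j, ι j × ι j) ℂ) : Prop :=
  ∃ w : ∀ j, GL (ι j) ℂ, (∀ j, w j ∈ Gal (U j) (Y j)) ∧
    MvPolynomial.eval (fun s => ((w s.1 : Matrix (ι s.1) (ι s.1) ℂ) * Y s.1 (pr z s.1)) s.2.1 s.2.2) P ≠ 0

theorem bad1_not (z₀ : (Σ j, X j) → ℂ) (p : MvPolynomial (Σ j, ι j × ι j) (MvPolynomial (Σ j, X j) ℂ))
    (hz₀ : z₀ ∈ UU U) (hp : ∀ z ∈ UU U, evM (fE Y) z p = 0) : ¬ Bad1 U Y z₀ (p.map (MvPolynomial.eval z₀)) := by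
  rintro ⟨w, hw, hne⟩
  apply hne
  let e : (Σ j, ι j × ι j) → (Σ j, ι j) × (Σ j, ι j) := fun s => (⟨s.1, s.2.1⟩, ⟨s.1, s.2.2⟩)
  have h1 := bd_mem hw (MvPolynomial.rename e p) (fun z hz => by
    rw [rv, MvPolynomial.eval₂_rename, ← hp z hz]
    unfold evM
    congr 1
    funext s
    exact YY_eq z s.1 s.2.1 s.2.2) z₀ hz₀
  rw [rv, MvPolynomial.eval₂_rename, bd_val] at h1
  rw [MvPolynomial.eval_map, ← h1]
  congr 1
  funext s
  have h2 : (Matrix.blockDiagonal' (fun j => (w j : Matrix (ι j) (ι j) ℂ)) * YY Y z₀) =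
      Matrix.blockDiagonal' (fun j => (w j : Matrix (ι j) (ι j) ℂ) * Y j (pr z₀ j)) := by
    unfold YY
    rw [← Matrix.blockDiagonal'_mul]
  rw [Function.comp_apply, h2]
  exact (Matrix.blockDiagonal'_apply_eq (fun j => (w j : Matrix (ι j) (ι j) ℂ) * Y j (pr z₀ j)) s.1 s.2.1 s.2.2).symm

/-- **Main theorem, torsor form.** -/
theorem main1 [Nonempty (Σ j, X j)] (hU : ∀ j, IsPreconnected (U j)) (hUo : ∀ j, IsOpen (U j))
    (hne : ∀ j, (U j).Nonempty) (hY : ∀ j a b, AnalyticOnNhd ℂ (fun x => Y j x a b) (U j))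
    (hdet : ∀ j, ∀ x ∈ U j, (Y j x).det ≠ 0) {c : ∀ j, MvPolynomial (X j) ℂ} (hc0 : ∀ j, c j ≠ 0)
    {B : ∀ j, X j → Matrix (ι j) (ι j) (MvPolynomial (X j) ℂ)} (hc : ∀ j, Connection (U j) (Y j) (c j) (B j))
    (hconn : ∀ j, Conn (Gal (U j) (Y j))) :
    ∃ (ω : ℝ → ℕ) (T₀ : ℝ), Tendsto ω atTop atTop ∧ Monotone ω ∧ ∀ T, T₀ ≤ T → 0 < ω T ∧
      ∀ (K : Type) [Field K] [NumberField K], Module.finrank ℚ K ≤ ω T → ∀ (io : K →+* ℂ) (ξ : Fin (ω T) → ℂ),
        Cov ⌊T ^ ((ω T : ℝ)⁻¹)⌋₊ ⌊T ^ ((ω T : ℝ)⁻¹)⌋₊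
          ((fun (s : (Σ j, X j) → K) i => io (s i)) '' ExcB (UU U) (fE Y) (Bad1 U Y) K io (ω T) ξ T) ∧
        (ExcB (UU U) (fE Y) (Bad1 U Y) K io (ω T) ξ T).Finite ∧
        ((ExcB (UU U) (fE Y) (Bad1 U Y) K io (ω T) ξ T).ncard : ℝ) ≤
          T ^ ((ω T : ℝ)⁻¹) * ({x : K | Y120.HtLe K T x}.ncard : ℝ) ^ (Fintype.card (Σ j, X j) - 1) := by
  have hreg := reg_prod hU hUo hne hY hdet hc0 hc hconn
  have hreg' : RegularM (UU U) (fE Y) := by
    have h1 := RegularM_comp hreg (fun s : Σ j, ι j × ι j => (((⟨s.1, s.2.1⟩ : Σ j, ι j), (⟨s.1, s.2.2⟩ : Σ j, ι j))))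
    have h2 : (fun (s : Σ j, ι j × ι j) (z : (Σ j, X j) → ℂ) => YY Y z ⟨s.1, s.2.1⟩ ⟨s.1, s.2.2⟩) = fE Y := by
      funext s z
      exact YY_eq z s.1 s.2.1 s.2.2
    rw [← h2]
    exact h1
  exact excB_omega (UU_preconn hU) (UU_open hUo) (UU_ne hne) (fE_an hY) hreg' (Bad := Bad1 U Y)
    fun z₀ p hz₀ hp => bad1_not z₀ p hz₀ hp

section indep

variable {V : κ → Type} [∀ j, Fintype (V j)] [∀ j, DecidableEq (V j)]

/-- the chosen entries -/
def fV (Y : ∀ j, (X j → ℂ) → Matrix (ι j) (ι j) ℂ) (e : ∀ j, V j → ι j × ι j) (s : Σ j, V j)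
    (z : (Σ j, X j) → ℂ) : ℂ := Y s.1 (pr z s.1) (e s.1 s.2).1 (e s.1 s.2).2

/-- the chosen entries are algebraically independent over `ℂ(x)` -/
def Indep {X ι V : Type} (U : Set (X → ℂ)) (Y : (X → ℂ) → Matrix ι ι ℂ) (e : V → ι × ι) : Prop :=
  ∀ p : MvPolynomial V (MvPolynomial X ℂ),
    (∀ x ∈ U, MvPolynomial.eval₂ (MvPolynomial.eval x) (fun v => Y x (e v).1 (e v).2) p = 0) → p = 0

/-- independence in the product -/
theorem indep_prod {e : ∀ j, V j → ι j × ι j} (h : ∀ j, Indep (U j) (Y j) (e j))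
    (p : MvPolynomial (Σ j, V j) (MvPolynomial (Σ j, X j) ℂ)) (hp : ∀ z ∈ UU U, evM (fV Y e) z p = 0) : p = 0 := by
  classical
  -- replace the components one by one
  have key : ∀ A : Finset κ, ∀ (x : ∀ j, X j → ℂ) (W : ∀ j, V j → ℂ), (∀ j, j ∉ A → x j ∈ U j ∧
      ∀ v, W j v = Y j (x j) (e j v).1 (e j v).2) →
      MvPolynomial.eval₂ (MvPolynomial.eval (un x)) (fun s => W s.1 s.2) p = 0 := by
    intro A
    induction A using Finset.induction_on with
    | empty =>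
      intro x W hx
      have h1 := hp (un x) fun j => by
        rw [pr_un]
        exact (hx j (Finset.notMem_empty j)).1
      rw [← h1]
      unfold evM
      congr 1
      funext s
      exact (hx s.1 (Finset.notMem_empty _)).2 s.2
    | insert j A hj ih =>
      intro x W hx
      -- the polynomial in the variables of the factor `j`
      let F0 : ∀ l, X l → MvPolynomial (V j) (MvPolynomial (X j) ℂ) :=
        Function.update (fun l i => MvPolynomial.C (MvPolynomial.C (x l i))) j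
          (fun i => MvPolynomial.C (MvPolynomial.X i))
      let f : MvPolynomial (Σ j, X j) ℂ →+* MvPolynomial (V j) (MvPolynomial (X j) ℂ) :=
        MvPolynomial.eval₂Hom (MvPolynomial.C.comp MvPolynomial.C) fun s => F0 s.1 s.2
      let W0 : ∀ l, V l → MvPolynomial (V j) (MvPolynomial (X j) ℂ) :=
        Function.update (fun l v => MvPolynomial.C (MvPolynomial.C (W l v))) j (fun v => MvPolynomial.X v)
      set p' : MvPolynomial (V j) (MvPolynomial (X j) ℂ) := MvPolynomial.eval₂ f (fun s => W0 s.1 s.2) p with hp'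
      have hev : ∀ (x' : X j → ℂ) (w : V j → ℂ), MvPolynomial.eval₂ (MvPolynomial.eval x') w p' =
          MvPolynomial.eval₂ (MvPolynomial.eval (un (Function.update x j x')))
            (fun s => Function.update W j w s.1 s.2) p := by
        intro x' w
        set Φ : MvPolynomial (V j) (MvPolynomial (X j) ℂ) →+* ℂ :=
          MvPolynomial.eval₂Hom (MvPolynomial.eval x') w with hΦ
        have h1 : MvPolynomial.eval₂ (MvPolynomial.eval x') w p' =
            MvPolynomial.eval₂ (Φ.comp f) (Φ ∘ fun s => W0 s.1 s.2) p := by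
          rw [← MvPolynomial.eval₂_comp_left Φ f]
          rfl
        rw [h1]
        congr 1
        · refine MvPolynomial.ringHom_ext (fun a => ?_) fun s => ?_
          · rw [RingHom.comp_apply, MvPolynomial.eval_C]
            simp only [f, MvPolynomial.eval₂Hom_C, RingHom.comp_apply, hΦ, MvPolynomial.eval_C]
          · rw [RingHom.comp_apply, MvPolynomial.eval_X]
            simp only [f, MvPolynomial.eval₂Hom_X']
            obtain ⟨l, i⟩ := s
            by_cases hl : l = j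
            · subst hl
              simp only [F0, un, Function.update_self, hΦ, MvPolynomial.eval₂Hom_C, MvPolynomial.eval_X]
            · simp only [F0, un, Function.update_of_ne hl, hΦ, MvPolynomial.eval₂Hom_C, MvPolynomial.eval_C]
        · funext s
          obtain ⟨l, v⟩ := s
          by_cases hl : l = j
          · subst hl
            simp only [W0, Function.comp_apply, Function.update_self, hΦ, MvPolynomial.eval₂Hom_X']
          · simp only [W0, Function.comp_apply, Function.update_of_ne hl, hΦ, MvPolynomial.eval₂Hom_C,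
              MvPolynomial.eval_C]
      have hp0 : p' = 0 := by
        refine h j p' fun x' hx' => ?_
        rw [hev]
        refine ih _ _ fun l hl => ?_
        by_cases hlj : l = j
        · subst hlj
          rw [Function.update_self, Function.update_self]
          exact ⟨hx', fun v => rfl⟩
        · rw [Function.update_of_ne hlj, Function.update_of_ne hlj]
          exact hx l fun hmem => by
            rcases Finset.mem_insert.1 hmem with h2 | h2
            · exact hlj h2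
            · exact hl h2
      have h2 := hev (x j) (W j)
      rw [hp0, MvPolynomial.eval₂_zero, Function.update_eq_self, Function.update_eq_self] at h2
      exact h2.symm
  refine MvPolynomial.ext _ _ fun m => ?_
  rw [MvPolynomial.coeff_zero]
  refine MvPolynomial.funext fun z => ?_
  rw [map_zero]
  have h1 : p.map (MvPolynomial.eval z) = 0 := by
    refine MvPolynomial.funext fun W => ?_
    rw [MvPolynomial.eval_map, map_zero]
    have h2 := key Finset.univ (pr z) (fun j v => W ⟨j, v⟩) fun j hj => absurd (Finset.mem_univ j) hj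
    rw [un_pr] at h2
    exact h2
  rw [← MvPolynomial.coeff_map, h1, MvPolynomial.coeff_zero]

/-- **Main theorem, independence form.** -/
theorem main2 [Nonempty (Σ j, X j)] (hU : ∀ j, IsPreconnected (U j)) (hUo : ∀ j, IsOpen (U j))
    (hne : ∀ j, (U j).Nonempty) (hY : ∀ j a b, AnalyticOnNhd ℂ (fun x => Y j x a b) (U j))
    (hdet : ∀ j, ∀ x ∈ U j, (Y j x).det ≠ 0) {c : ∀ j, MvPolynomial (X j) ℂ} (hc0 : ∀ j, c j ≠ 0)
    {B : ∀ j, X j → Matrix (ι j) (ι j) (MvPolynomial (X j) ℂ)} (hc : ∀ j, Connection (U j) (Y j) (c j) (B j))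
    (hconn : ∀ j, Conn (Gal (U j) (Y j))) {e : ∀ j, V j → ι j × ι j} (hV : ∀ j, Indep (U j) (Y j) (e j)) :
    ∃ (ω : ℝ → ℕ) (T₀ : ℝ), Tendsto ω atTop atTop ∧ Monotone ω ∧ ∀ T, T₀ ≤ T → 0 < ω T ∧
      ∀ (K : Type) [Field K] [NumberField K], Module.finrank ℚ K ≤ ω T → ∀ (io : K →+* ℂ) (ξ : Fin (ω T) → ℂ),
        Cov ⌊T ^ ((ω T : ℝ)⁻¹)⌋₊ ⌊T ^ ((ω T : ℝ)⁻¹)⌋₊
          ((fun (s : (Σ j, X j) → K) i => io (s i)) '' ExcB (UU U) (fV Y e) (fun _ P => P ≠ 0) K io (ω T) ξ T) ∧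
        (ExcB (UU U) (fV Y e) (fun _ P => P ≠ 0) K io (ω T) ξ T).Finite ∧
        ((ExcB (UU U) (fV Y e) (fun _ P => P ≠ 0) K io (ω T) ξ T).ncard : ℝ) ≤
          T ^ ((ω T : ℝ)⁻¹) * ({x : K | Y120.HtLe K T x}.ncard : ℝ) ^ (Fintype.card (Σ j, X j) - 1) := by
  have hreg := reg_prod hU hUo hne hY hdet hc0 hc hconn
  have hreg' : RegularM (UU U) (fV Y e) := by
    have h1 := RegularM_comp hreg (fun s : Σ j, V j =>
      (((⟨s.1, (e s.1 s.2).1⟩ : Σ j, ι j), (⟨s.1, (e s.1 s.2).2⟩ : Σ j, ι j))))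
    have h2 : (fun (s : Σ j, V j) (z : (Σ j, X j) → ℂ) => YY Y z ⟨s.1, (e s.1 s.2).1⟩ ⟨s.1, (e s.1 s.2).2⟩) =
        fV Y e := by
      funext s z
      exact YY_eq z s.1 (e s.1 s.2).1 (e s.1 s.2).2
    rw [← h2]
    exact h1
  refine excB_omega (UU_preconn hU) (UU_open hUo) (UU_ne hne) (fun s => ?_) hreg' (Bad := fun _ P => P ≠ 0)
    fun z₀ p hz₀ hp => ?_
  · exact fE_an hY ⟨s.1, e s.1 s.2⟩
  · rw [indep_prod hV p hp, map_zero]
    exact fun h => h rfl

end indep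

end Pool.Agent.V11273.PV
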