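import Pool.Agent.V11273.PV.E1
import Pool.Agent.Y890.MV.Tor

/-!
# Algebraic elements of function fields take different values on generic fibres
-/

set_option autoImplicit false

namespace Pool.Agent.V11273.PV

open Pool.Agent.Y890.MV (evX)

/-- a monic polynomial over `ℂ` with only one root is a power -/
theorem one_root {m : Polynomial ℂ} (hm : m.Monic) {t : ℂ} (h : ∀ s, m.IsRoot s → s = t) :
    m = (Polynomial.X - Polynomial.C t) ^ m.natDegree := by
  classical
  have hs : m.Splits := IsAlgClosed.splits m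
  have hcard : m.roots.card = m.natDegree := hs.natDegree_eq_card_roots.symm
  have hrep : m.roots = Multiset.replicate m.natDegree t := by
    rw [Multiset.eq_replicate]
    exact ⟨hcard, fun s hs => h s (Polynomial.isRoot_of_mem_roots hs)⟩
  have h1 := hs.eq_prod_roots
  rw [hm.leadingCoeff, Polynomial.C_1, one_mul, hrep, Multiset.map_replicate, Multiset.prod_replicate] at h1
  exact h1

/-- two distinct roots -/
theorem two_roots {A : Type} [CommRing A] [Algebra ℚ A] {m : Polynomial A} (hm : m.Monic) (hN : 0 < m.natDegree)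
    {b : A} (hb : b = (algebraMap ℚ A ((m.natDegree : ℚ)⁻¹)) * m.coeff (m.natDegree - 1)) (φ : A →+* ℂ) {k : ℕ}
    (hk : φ ((m - (Polynomial.X + Polynomial.C b) ^ m.natDegree).coeff k) ≠ 0) :
    ∃ t₁ t₂ : ℂ, t₁ ≠ t₂ ∧ m.eval₂ φ t₁ = 0 ∧ m.eval₂ φ t₂ = 0 := by
  classical
  have hmm : (m.map φ).Monic := hm.map φ
  have hdeg : (m.map φ).natDegree = m.natDegree := hm.natDegree_map φ
  obtain ⟨t, ht⟩ : ∃ t, (m.map φ).IsRoot t := by
    refine IsAlgClosed.exists_root _ ?_
    rw [Polynomial.degree_eq_natDegree hmm.ne_zero, hdeg]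
    exact_mod_cast hN.ne'
  by_contra hcon
  push Not at hcon
  have h1 : ∀ s, (m.map φ).IsRoot s → s = t := by
    intro s hs
    by_contra hst
    refine hcon s t hst ?_ ?_
    · rw [← Polynomial.eval_map]
      exact hs
    · rw [← Polynomial.eval_map]
      exact ht
  have h2 := one_root hmm h1
  rw [hdeg] at h2
  apply hk
  have h3 : φ (m.coeff (m.natDegree - 1)) = -((m.natDegree : ℂ) * t) := by
    have h4 := congrArg (fun p => Polynomial.coeff p (m.natDegree - 1)) h2
    simp only [Polynomial.coeff_map] at h4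
    rw [h4]
    have h5 : Polynomial.X - Polynomial.C t = Polynomial.X + Polynomial.C (-t) := by
      rw [Polynomial.C_neg, sub_eq_add_neg]
    rw [h5, Polynomial.coeff_X_add_C_pow]
    have h6 : m.natDegree - (m.natDegree - 1) = 1 := by omega
    rw [h6, pow_one]
    have h7 : (m.natDegree).choose (m.natDegree - 1) = m.natDegree := by
      obtain ⟨n, hn⟩ : ∃ n, m.natDegree = n + 1 := ⟨m.natDegree - 1, by omega⟩
      rw [hn, Nat.add_sub_cancel, Nat.choose_succ_self_right]
    rw [h7]
    ring
  have h4 : φ b = -t := by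
    rw [hb, map_mul, h3]
    have h5 : φ (algebraMap ℚ A ((m.natDegree : ℚ)⁻¹)) = ((m.natDegree : ℂ))⁻¹ := by
      have h6 : (φ.comp (algebraMap ℚ A)) ((m.natDegree : ℚ)⁻¹) = ((((m.natDegree : ℚ)⁻¹ : ℚ)) : ℂ) :=
        map_ratCast (φ.comp (algebraMap ℚ A)) _ |> fun h => by
          rw [← h]
          norm_num
      rw [RingHom.comp_apply] at h6
      rw [h6]
      push_cast
      rfl
    rw [h5]
    have h6 : (m.natDegree : ℂ) ≠ 0 := by exact_mod_cast hN.ne'
    field_simp
  rw [← Polynomial.coeff_map, Polynomial.map_sub, Polynomial.map_pow, Polynomial.map_add, Polynomial.map_X,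
    Polynomial.map_C, h4]
  have h5 : (Polynomial.X : Polynomial ℂ) + Polynomial.C (-t) = Polynomial.X - Polynomial.C t := by
    rw [Polynomial.C_neg, sub_eq_add_neg]
  rw [h5, ← h2, sub_self, Polynomial.coeff_zero]

end Pool.Agent.V11273.PV
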