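import Pool.Agent.V11273.PV.E2

/-!
# Algebraic elements of function fields take different values on generic fibres
-/

set_option autoImplicit false

namespace Pool.Agent.V11273.PV

open Pool.Agent.Y890.MV (evX)

variable {X σ : Type} [Fintype X] [Fintype σ]

/-- **Two points.** -/
theorem two_points_field {F : Type} [Field F] [Algebra (MvPolynomial X ℂ) F] [Algebra ℂ F]
    [IsScalarTower ℂ (MvPolynomial X ℂ) F] (hinj : Function.Injective (algebraMap (MvPolynomial X ℂ) F)) (y : σ → F)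
    (P Q dt : MvPolynomial σ (MvPolynomial X ℂ)) (hQ : MvPolynomial.aeval y Q ≠ 0) (hdt : MvPolynomial.aeval y dt ≠ 0)
    (R : Polynomial (MvPolynomial X ℂ)) (hR : R ≠ 0)
    (hRy : Polynomial.aeval (MvPolynomial.aeval y P / MvPolynomial.aeval y Q) R = 0) :
    (∃ p q : MvPolynomial X ℂ, q ≠ 0 ∧
      algebraMap _ F q * MvPolynomial.aeval y P = algebraMap _ F p * MvPolynomial.aeval y Q) ∨
    ∃ a : MvPolynomial X ℂ, a ≠ 0 ∧ ∀ x0 : X → ℂ, MvPolynomial.eval x0 a ≠ 0 → ∃ Z₁ Z₂ : σ → ℂ,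
      (∀ p, MvPolynomial.aeval y p = 0 → evX x0 Z₁ p = 0) ∧ (∀ p, MvPolynomial.aeval y p = 0 → evX x0 Z₂ p = 0) ∧
      evX x0 Z₁ dt ≠ 0 ∧ evX x0 Z₂ dt ≠ 0 ∧ evX x0 Z₁ P * evX x0 Z₂ Q ≠ evX x0 Z₂ P * evX x0 Z₁ Q := by
  classical
  have hfaith : FaithfulSMul (MvPolynomial X ℂ) F := (faithfulSMul_iff_algebraMap_injective _ _).2 hinj
  have htf : Module.IsTorsionFree (MvPolynomial X ℂ) F := inferInstance
  set ζ : F := R.leadingCoeff • (MvPolynomial.aeval y P / MvPolynomial.aeval y Q) with hζ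
  have hint : IsIntegral (MvPolynomial X ℂ) ζ := isIntegral_leadingCoeff_smul R _ hRy
  have hζQ : ζ * MvPolynomial.aeval y Q = algebraMap _ F R.leadingCoeff * MvPolynomial.aeval y P := by
    rw [hζ, Algebra.smul_def, mul_assoc, div_mul_cancel₀ _ hQ]
  set m := minpoly (MvPolynomial X ℂ) ζ with hm
  have hmon : m.Monic := minpoly.monic hint
  have hNpos : 0 < m.natDegree := minpoly.natDegree_pos hint
  have hm0 : Polynomial.aeval ζ m = 0 := minpoly.aeval _ _
  -- elements of the base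
  have hbase : ∀ p : MvPolynomial X ℂ, ζ = algebraMap _ F p → ∃ p q : MvPolynomial X ℂ, q ≠ 0 ∧
      algebraMap _ F q * MvPolynomial.aeval y P = algebraMap _ F p * MvPolynomial.aeval y Q := by
    intro p hp
    exact ⟨p, R.leadingCoeff, Polynomial.leadingCoeff_ne_zero.2 hR, by rw [← hζQ, hp]⟩
  by_cases hN1 : m.natDegree = 1
  · left
    have h1 := hmon.eq_X_add_C hN1
    refine hbase (-m.coeff 0) ?_
    have h2 := hm0
    rw [h1, map_add, Polynomial.aeval_X, Polynomial.aeval_C] at h2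
    rw [map_neg]
    exact eq_neg_of_add_eq_zero_left h2
  right
  set N := m.natDegree with hN
  set b : MvPolynomial X ℂ := (algebraMap ℚ (MvPolynomial X ℂ) ((N : ℚ)⁻¹)) * m.coeff (N - 1) with hb
  have hne : m - (Polynomial.X + Polynomial.C b) ^ N ≠ 0 := by
    intro h0
    have h1 : Polynomial.aeval ζ ((Polynomial.X + Polynomial.C b) ^ N) = 0 := by
      rw [← sub_eq_zero.1 h0, hm0]
    rw [map_pow] at h1
    have h2 := eq_zero_of_pow_eq_zero h1
    have h3 := minpoly.min (MvPolynomial X ℂ) ζ (Polynomial.monic_X_add_C b) h2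
    rw [Polynomial.degree_X_add_C] at h3
    have h4 : m.natDegree ≤ 1 := Polynomial.natDegree_le_of_degree_le h3
    omega
  obtain ⟨k, hk⟩ : ∃ k, (m - (Polynomial.X + Polynomial.C b) ^ N).coeff k ≠ 0 := by
    by_contra hcon
    push Not at hcon
    exact hne (Polynomial.ext fun k => by rw [hcon k, Polynomial.coeff_zero])
  -- the rings
  have hprime : Prime m := minpoly.prime_of_isIntegrallyClosed hint
  have hdom : IsDomain (AdjoinRoot m) := AdjoinRoot.isDomain_of_prime hprime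
  have hftA : Algebra.FiniteType ℂ (AdjoinRoot m) := by
    have h1 : Module.Finite (MvPolynomial X ℂ) (AdjoinRoot m) := hmon.finite_adjoinRoot
    have h2 : Algebra.FiniteType (MvPolynomial X ℂ) (AdjoinRoot m) := inferInstance
    exact Algebra.FiniteType.trans (S := MvPolynomial X ℂ) inferInstance h2
  let C : Subalgebra (MvPolynomial X ℂ) F := Algebra.adjoin (MvPolynomial X ℂ) (Set.range y ∪ {ζ})
  have hyC : ∀ s, y s ∈ C := fun s => Algebra.subset_adjoin (Or.inl ⟨s, rfl⟩)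
  have hζC : ζ ∈ C := Algebra.subset_adjoin (Or.inr rfl)
  have hftC : Algebra.FiniteType ℂ C := by
    have h2 : Algebra.FiniteType (MvPolynomial X ℂ) C :=
      Algebra.FiniteType.adjoin_of_finite ((Set.finite_range y).union (Set.finite_singleton ζ))
    exact Algebra.FiniteType.trans (S := MvPolynomial X ℂ) inferInstance h2
  have hrootC : Polynomial.aeval (⟨ζ, hζC⟩ : C) m = 0 := by
    apply Subtype.ext
    have h1 := Polynomial.aeval_algHom_apply C.val (⟨ζ, hζC⟩ : C) m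
    have h2 : C.val (⟨ζ, hζC⟩ : C) = ζ := rfl
    rw [h2, hm0] at h1
    exact h1.symm
  let f₀ : AdjoinRoot m →ₐ[MvPolynomial X ℂ] C :=
    AdjoinRoot.liftAlgHom m (Algebra.ofId (MvPolynomial X ℂ) C) (⟨ζ, hζC⟩ : C) hrootC
  have hf₀mk : ∀ g, ((f₀ (AdjoinRoot.mk m g) : C) : F) = Polynomial.aeval ζ g := by
    intro g
    have h1 : f₀ (AdjoinRoot.mk m g) = Polynomial.aeval (⟨ζ, hζC⟩ : C) g := by
      simp only [f₀, AdjoinRoot.liftAlgHom_mk]
      rfl
    rw [h1]
    have h2 := Polynomial.aeval_algHom_apply C.val (⟨ζ, hζC⟩ : C) g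
    exact h2.symm
  have hf₀inj : Function.Injective f₀ := by
    rw [injective_iff_map_eq_zero]
    intro z hz
    obtain ⟨g, rfl⟩ := AdjoinRoot.mk_surjective z
    have h1 := hf₀mk g
    rw [hz] at h1
    have h2 : Polynomial.aeval ζ g = 0 := h1.symm
    exact AdjoinRoot.mk_eq_zero.2 (minpoly.isIntegrallyClosed_dvd hint h2)
  let f : AdjoinRoot m →ₐ[ℂ] C := f₀.restrictScalars ℂ
  have hf : Function.Injective f := hf₀inj
  -- the polynomials in `y` as elements of `C`
  let ρ : MvPolynomial σ (MvPolynomial X ℂ) →ₐ[MvPolynomial X ℂ] C := MvPolynomial.aeval fun s => (⟨y s, hyC s⟩ : C)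
  have hρ : ∀ p, ((ρ p : C) : F) = MvPolynomial.aeval y p := by
    intro p
    have h1 : (C.val.comp ρ) = MvPolynomial.aeval y := by
      refine MvPolynomial.algHom_ext fun s => ?_
      rw [AlgHom.comp_apply, MvPolynomial.aeval_X]
      simp only [ρ, MvPolynomial.aeval_X]
      rfl
    exact AlgHom.congr_fun h1 p
  set γ : C := ρ (Q * dt) with hγ
  have hγ0 : γ ≠ 0 := by
    intro h0
    have h1 := hρ (Q * dt)
    rw [← hγ, h0, map_mul] at h1
    exact mul_ne_zero hQ hdt h1.symm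
  obtain ⟨a', ha', hext⟩ := ext_point f hf γ hγ0
  -- descend to the base
  obtain ⟨a, ha0, c', hac⟩ : ∃ a : MvPolynomial X ℂ, a ≠ 0 ∧ ∃ c' : AdjoinRoot m,
      algebraMap _ (AdjoinRoot m) a = c' * a' := by
    have h1 : Module.Finite (MvPolynomial X ℂ) (AdjoinRoot m) := hmon.finite_adjoinRoot
    have h2 : IsIntegral (MvPolynomial X ℂ) a' := Algebra.IsIntegral.isIntegral a'
    have h3 := Ideal.comap_ne_bot_of_integral_mem ha' (Ideal.mem_span_singleton_self a') h2
    obtain ⟨a, ha1, ha2⟩ := Submodule.exists_mem_ne_zero_of_ne_bot h3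
    obtain ⟨c', hc'⟩ := Ideal.mem_span_singleton'.1 (Ideal.mem_comap.1 ha1)
    exact ⟨a, ha2, c', hc'.symm⟩
  refine ⟨a * ((m - (Polynomial.X + Polynomial.C b) ^ N).coeff k * R.leadingCoeff),
    mul_ne_zero ha0 (mul_ne_zero hk (Polynomial.leadingCoeff_ne_zero.2 hR)), fun x0 hx0 => ?_⟩
  rw [map_mul, map_mul, mul_ne_zero_iff, mul_ne_zero_iff] at hx0
  obtain ⟨hxa, hxk, hxR⟩ := hx0
  obtain ⟨t₁, t₂, ht, h₁, h₂⟩ := two_roots hmon hNpos hb (MvPolynomial.eval x0) hxk
  -- the point over a root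
  have hpt : ∀ t : ℂ, m.eval₂ (MvPolynomial.eval x0) t = 0 → ∃ Z : σ → ℂ,
      (∀ p, MvPolynomial.aeval y p = 0 → evX x0 Z p = 0) ∧ evX x0 Z Q ≠ 0 ∧ evX x0 Z dt ≠ 0 ∧
      t * evX x0 Z Q = MvPolynomial.eval x0 R.leadingCoeff * evX x0 Z P := by
    intro t ht
    let φ₀ : AdjoinRoot m →+* ℂ := AdjoinRoot.lift (MvPolynomial.eval x0) t ht
    have hφ₀ : ∀ c : ℂ, φ₀ (algebraMap ℂ (AdjoinRoot m) c) = c := by
      intro c
      have h1 : algebraMap ℂ (AdjoinRoot m) c = AdjoinRoot.of m (MvPolynomial.C c) := rfl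
      rw [h1]
      simp only [φ₀, AdjoinRoot.lift_of, MvPolynomial.eval_C]
    let φ : AdjoinRoot m →ₐ[ℂ] ℂ := { φ₀ with commutes' := hφ₀ }
    have hφ : ∀ z, φ z = φ₀ z := fun z => rfl
    have hφa : ∀ p : MvPolynomial X ℂ, φ (algebraMap _ (AdjoinRoot m) p) = MvPolynomial.eval x0 p := by
      intro p
      rw [hφ]
      have h1 : algebraMap (MvPolynomial X ℂ) (AdjoinRoot m) p = AdjoinRoot.of m p := rfl
      rw [h1]
      simp only [φ₀, AdjoinRoot.lift_of]
    have hφr : φ (AdjoinRoot.root m) = t := by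
      rw [hφ]
      simp only [φ₀, AdjoinRoot.lift_root]
    have hφa' : φ a' ≠ 0 := by
      intro h0
      apply hxa
      rw [← hφa a, hac, map_mul, h0, mul_zero]
    obtain ⟨ψ, hψ1, hψ2⟩ := hext φ hφa'
    have hψA : ∀ p : MvPolynomial X ℂ, ψ (algebraMap _ C p) = MvPolynomial.eval x0 p := by
      intro p
      rw [← hφa p, ← hψ1]
      congr 1
      exact (f₀.commutes p).symm
    set Z : σ → ℂ := fun s => ψ (⟨y s, hyC s⟩ : C) with hZ
    have hev : ∀ p, ψ (ρ p) = evX x0 Z p := by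
      intro p
      have h1 : ((ψ : C →+* ℂ).comp (ρ : MvPolynomial σ (MvPolynomial X ℂ) →+* C)) =
          MvPolynomial.eval₂Hom (MvPolynomial.eval x0) Z := by
        refine MvPolynomial.ringHom_ext (fun q => ?_) fun s => ?_
        · rw [MvPolynomial.eval₂Hom_C, RingHom.comp_apply]
          have h2 : (ρ : MvPolynomial σ (MvPolynomial X ℂ) →+* C) (MvPolynomial.C q) = algebraMap _ C q :=
            ρ.commutes q
          rw [h2]
          exact hψA q
        · rw [MvPolynomial.eval₂Hom_X', RingHom.comp_apply]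
          have h2 : (ρ : MvPolynomial σ (MvPolynomial X ℂ) →+* C) (MvPolynomial.X s) = ⟨y s, hyC s⟩ :=
            MvPolynomial.aeval_X _ _
          rw [h2]
          rfl
      exact RingHom.congr_fun h1 p
    refine ⟨Z, ?_, ?_, ?_, ?_⟩
    · intro p hp
      rw [← hev]
      have h1 : ρ p = 0 := Subtype.ext (by rw [hρ, hp]; rfl)
      rw [h1, map_zero]
    · intro h0
      apply hψ2
      rw [hγ, map_mul, map_mul, hev Q, h0, zero_mul]
    · intro h0
      apply hψ2
      rw [hγ, map_mul, map_mul, hev dt, h0, mul_zero]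
    · have h1 : (⟨ζ, hζC⟩ : C) * ρ Q = algebraMap _ C R.leadingCoeff * ρ P := by
        apply Subtype.ext
        rw [Subalgebra.coe_mul, Subalgebra.coe_mul, hρ, hρ]
        exact hζQ
      have h2 := congrArg ψ h1
      rw [map_mul, map_mul, hev, hev, hψA] at h2
      have h3 : ψ (⟨ζ, hζC⟩ : C) = t := by
        rw [← hφr, ← hψ1]
        congr 1
        apply Subtype.ext
        have h4 := hf₀mk Polynomial.X
        rw [AdjoinRoot.mk_X, Polynomial.aeval_X] at h4
        exact h4.symm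
      rw [h3] at h2
      exact h2
  obtain ⟨Z₁, hZ₁, hQ₁, hd₁, he₁⟩ := hpt t₁ h₁
  obtain ⟨Z₂, hZ₂, hQ₂, hd₂, he₂⟩ := hpt t₂ h₂
  refine ⟨Z₁, Z₂, hZ₁, hZ₂, hd₁, hd₂, fun h => ht ?_⟩
  have h3 : (t₁ - t₂) * (evX x0 Z₁ Q * evX x0 Z₂ Q) = 0 := by
    linear_combination (evX x0 Z₂ Q) * he₁ - (evX x0 Z₁ Q) * he₂ + (MvPolynomial.eval x0 R.leadingCoeff) * h
  rcases mul_eq_zero.1 h3 with h4 | h4
  · exact sub_eq_zero.1 h4
  · exact absurd h4 (mul_ne_zero hQ₁ hQ₂)

end Pool.Agent.V11273.PV
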