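import Mathlib

/-!
# Polynomial relations between solutions of a connection
-/

set_option autoImplicit false
set_option linter.unusedSectionVars false

open Filter Topology

namespace Pool.Agent.V11273.PV

/-- a set of analytic functions which vanish at `0` and is stable under derivation up to units consists of zeros -/
theorem order_top (Φ : Set (ℂ → ℂ)) (hΦ : ∀ φ ∈ Φ, AnalyticAt ℂ φ 0 ∧ φ 0 = 0 ∧ ∃ φ₂ ∈ Φ, ∃ c : ℂ → ℂ,
    AnalyticAt ℂ c 0 ∧ c 0 ≠ 0 ∧ (c * deriv φ) =ᶠ[𝓝 0] φ₂) : ∀ φ ∈ Φ, ∀ᶠ t in 𝓝 (0 : ℂ), φ t = 0 := by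
  have key : ∀ n : ℕ, ∀ φ ∈ Φ, analyticOrderAt φ 0 ≠ n := by
    intro n
    induction n with
    | zero =>
      intro φ hφ h
      obtain ⟨h1, h2, -⟩ := hΦ φ hφ
      rw [Nat.cast_zero, h1.analyticOrderAt_eq_zero] at h
      exact h h2
    | succ n ih =>
      intro φ hφ h
      obtain ⟨h1, h2, φ₂, hφ₂, c, h3, h4, h5⟩ := hΦ φ hφ
      have h6 : analyticOrderAt (deriv φ) 0 = n := analyticOrderAt_deriv_of_pos h1 (by rw [h]; push_cast; rfl)
      apply ih φ₂ hφ₂
      rw [← analyticOrderAt_congr h5, analyticOrderAt_mul h3 h1.deriv, h6, h3.analyticOrderAt_eq_zero.2 h4, zero_add]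
  intro φ hφ
  rw [← analyticOrderAt_eq_top]
  induction h : analyticOrderAt φ 0 with
  | top => rfl
  | coe n => exact absurd h (key n φ hφ)

section

variable {X τ : Type} [Fintype X] [Fintype τ]

theorem eval_diff {w : (X → ℂ) → τ → ℂ} {x : X → ℂ} (hw : ∀ s, DifferentiableAt ℂ (fun x => w x s) x)
    (p : MvPolynomial τ ℂ) : DifferentiableAt ℂ (fun x => MvPolynomial.eval (w x) p) x := by
  induction p using MvPolynomial.induction_on with
  | C a =>
    simp only [MvPolynomial.eval_C]
    exact differentiableAt_const _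
  | add p q hp hq =>
    simp only [map_add]
    exact hp.add hq
  | mul_X p s hp =>
    simp only [map_mul, MvPolynomial.eval_X]
    exact hp.mul (hw s)

theorem eval_an {w : (X → ℂ) → τ → ℂ} {x : X → ℂ} (hw : ∀ s, AnalyticAt ℂ (fun x => w x s) x)
    (p : MvPolynomial τ ℂ) : AnalyticAt ℂ (fun x => MvPolynomial.eval (w x) p) x := by
  induction p using MvPolynomial.induction_on with
  | C a =>
    simp only [MvPolynomial.eval_C]
    exact analyticAt_const
  | add p q hp hq =>
    simp only [map_add]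
    exact hp.add hq
  | mul_X p s hp =>
    simp only [map_mul, MvPolynomial.eval_X]
    exact hp.mul (hw s)

/-- the chain rule -/
theorem chain {w : (X → ℂ) → τ → ℂ} {x v : X → ℂ} (hw : ∀ s, DifferentiableAt ℂ (fun x => w x s) x)
    {c : MvPolynomial τ ℂ} {G : τ → MvPolynomial τ ℂ}
    (h : ∀ s, MvPolynomial.eval (w x) c * fderiv ℂ (fun x => w x s) x v = MvPolynomial.eval (w x) (G s))
    (p : MvPolynomial τ ℂ) : MvPolynomial.eval (w x) c * fderiv ℂ (fun x => MvPolynomial.eval (w x) p) x v =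
      MvPolynomial.eval (w x) (MvPolynomial.mkDerivation ℂ G p) := by
  induction p using MvPolynomial.induction_on with
  | C a =>
    simp only [MvPolynomial.eval_C]
    rw [MvPolynomial.derivation_C, map_zero]
    simp
  | add p q hp hq =>
    simp only [map_add]
    rw [fderiv_fun_add (eval_diff hw p) (eval_diff hw q), _root_.add_apply, mul_add, hp, hq]
  | mul_X p s hp =>
    simp only [map_mul, MvPolynomial.eval_X]
    rw [fderiv_fun_mul (eval_diff hw p) (hw s), Derivation.leibniz, MvPolynomial.mkDerivation_X,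
      _root_.add_apply, _root_.smul_apply, _root_.smul_apply, smul_eq_mul,
      smul_eq_mul, smul_eq_mul, smul_eq_mul, map_add, map_mul, map_mul, MvPolynomial.eval_X, ← h s, ← hp]
    ring

/-- **Relations at one point.** -/
theorem transfer {U : Set (X → ℂ)} (hU : IsPreconnected U) (hUo : IsOpen U) {w w' : (X → ℂ) → τ → ℂ}
    (hw : ∀ s, AnalyticOnNhd ℂ (fun x => w x s) U) (hw' : ∀ s, AnalyticOnNhd ℂ (fun x => w' x s) U)
    (c : MvPolynomial τ ℂ) (hG : ∀ v : X → ℂ, ∃ G : τ → MvPolynomial τ ℂ,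
      (∀ x ∈ U, ∀ s, MvPolynomial.eval (w x) c * fderiv ℂ (fun x => w x s) x v = MvPolynomial.eval (w x) (G s)) ∧
      ∀ x ∈ U, ∀ s, MvPolynomial.eval (w' x) c * fderiv ℂ (fun x => w' x s) x v = MvPolynomial.eval (w' x) (G s))
    {x₀ : X → ℂ} (hx₀ : x₀ ∈ U) (hc : MvPolynomial.eval (w' x₀) c ≠ 0)
    (h0 : ∀ p : MvPolynomial τ ℂ, (∀ x ∈ U, MvPolynomial.eval (w x) p = 0) → MvPolynomial.eval (w' x₀) p = 0) :
    ∀ p : MvPolynomial τ ℂ, (∀ x ∈ U, MvPolynomial.eval (w x) p = 0) → ∀ x ∈ U, MvPolynomial.eval (w' x) p = 0 := by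
  obtain ⟨r, hr, hball⟩ := Metric.isOpen_iff.1 hUo x₀ hx₀
  -- on the ball
  have hloc : ∀ p : MvPolynomial τ ℂ, (∀ x ∈ U, MvPolynomial.eval (w x) p = 0) → ∀ y ∈ Metric.ball x₀ r,
      MvPolynomial.eval (w' y) p = 0 := by
    intro p hp y hy
    set v : X → ℂ := y - x₀ with hv
    set l : ℂ → X → ℂ := fun t => x₀ + t • v with hl
    obtain ⟨G, hG1, hG2⟩ := hG v
    have hld : ∀ t, HasDerivAt l v t := by
      intro t
      have h1 : HasDerivAt (fun t : ℂ => t • v) ((1 : ℂ) • v) t := (hasDerivAt_id t).smul_const v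
      rw [one_smul] at h1
      exact h1.const_add x₀
    have hla : ∀ t, AnalyticAt ℂ l t := by
      intro t
      exact analyticAt_const.add (analyticAt_id.smul analyticAt_const)
    set O : Set ℂ := l ⁻¹' Metric.ball x₀ r with hO
    have hlc : Continuous l := by
      refine continuous_iff_continuousAt.2 fun t => (hld t).continuousAt
    have hOo : IsOpen O := Metric.isOpen_ball.preimage hlc
    have hOc : Convex ℝ O := by
      intro s hs t ht a b ha hb hab
      have h1 : l (a • s + b • t) = a • l s + b • l t := by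
        simp only [hl]
        funext i
        simp only [Pi.add_apply, Pi.smul_apply, smul_eq_mul, Complex.real_smul]
        have h2 : ((a : ℂ) + (b : ℂ)) = 1 := by exact_mod_cast hab
        linear_combination (-(x₀ i)) * h2
      change l (a • s + b • t) ∈ Metric.ball x₀ r
      rw [h1]
      exact convex_ball x₀ r hs ht ha hb hab
    have h0O : (0 : ℂ) ∈ O := by
      change l 0 ∈ Metric.ball x₀ r
      simp only [hl, zero_smul, add_zero]
      exact Metric.mem_ball_self hr
    have h1O : (1 : ℂ) ∈ O := by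
      change l 1 ∈ Metric.ball x₀ r
      have h2 : l 1 = y := by
        simp only [hl, one_smul, hv]
        abel
      rw [h2]
      exact hy
    have hwl : ∀ t ∈ O, ∀ s, AnalyticAt ℂ (fun x => w' x s) (l t) := fun t ht s => hw' s _ (hball ht)
    have hφa : ∀ q : MvPolynomial τ ℂ, ∀ t ∈ O, AnalyticAt ℂ (fun t => MvPolynomial.eval (w' (l t)) q) t := by
      intro q t ht
      exact (eval_an (hwl t ht) q).fun_comp (hla t)
    have hφd : ∀ q : MvPolynomial τ ℂ, ∀ t ∈ O, MvPolynomial.eval (w' (l t)) c *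
        deriv (fun t => MvPolynomial.eval (w' (l t)) q) t =
          MvPolynomial.eval (w' (l t)) (MvPolynomial.mkDerivation ℂ G q) := by
      intro q t ht
      have h1 := (eval_diff (fun s => (hwl t ht s).differentiableAt) q).hasFDerivAt.comp_hasDerivAt t (hld t)
      have h2 : deriv (fun t => MvPolynomial.eval (w' (l t)) q) t =
          fderiv ℂ (fun x => MvPolynomial.eval (w' x) q) (l t) v := h1.deriv
      rw [h2]
      exact chain (fun s => (hwl t ht s).differentiableAt) (hG2 (l t) (hball ht)) q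
    have hDI : ∀ q : MvPolynomial τ ℂ, (∀ x ∈ U, MvPolynomial.eval (w x) q = 0) →
        ∀ x ∈ U, MvPolynomial.eval (w x) (MvPolynomial.mkDerivation ℂ G q) = 0 := by
      intro q hq x hx
      rw [← chain (fun s => (hw s x hx).differentiableAt) (hG1 x hx) q]
      have h1 : (fun x => MvPolynomial.eval (w x) q) =ᶠ[𝓝 x] fun _ => (0 : ℂ) := by
        filter_upwards [hUo.mem_nhds hx] with z hz
        exact hq z hz
      rw [h1.fderiv_eq]
      simp
    have hev := order_top {φ | ∃ q : MvPolynomial τ ℂ, (∀ x ∈ U, MvPolynomial.eval (w x) q = 0) ∧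
        φ = fun t => MvPolynomial.eval (w' (l t)) q} (by
      rintro φ ⟨q, hq, rfl⟩
      refine ⟨hφa q 0 h0O, ?_, _, ⟨MvPolynomial.mkDerivation ℂ G q, hDI q hq, rfl⟩,
        fun t => MvPolynomial.eval (w' (l t)) c, hφa c 0 h0O, ?_, ?_⟩
      · have h1 : l 0 = x₀ := by simp [hl]
        simp only [h1]
        exact h0 q hq
      · have h1 : l 0 = x₀ := by simp [hl]
        simp only [h1]
        exact hc
      · filter_upwards [hOo.mem_nhds h0O] with t ht
        exact hφd q t ht) _ ⟨p, hp, rfl⟩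
    have h1 := AnalyticOnNhd.eqOn_zero_of_preconnected_of_eventuallyEq_zero (𝕜 := ℂ)
      (f := fun t => MvPolynomial.eval (w' (l t)) p) (U := O) (fun t ht => hφa p t ht) hOc.isPreconnected h0O hev h1O
    have h2 : l 1 = y := by
      simp only [hl, one_smul, hv]
      abel
    simp only [h2] at h1
    exact h1
  intro p hp
  have h1 : AnalyticOnNhd ℂ (fun x => MvPolynomial.eval (w' x) p) U := fun x hx => eval_an (fun s => hw' s x hx) p
  exact h1.eqOn_zero_of_preconnected_of_eventuallyEq_zero hU hx₀ (by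
    filter_upwards [Metric.ball_mem_nhds x₀ hr] with y hy
    exact hloc p hp y hy)

end

end Pool.Agent.V11273.PV
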