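import Pool.Agent.V11273.PV.E3
import Pool.Agent.V11273.PV.E4

/-!
# The Galois group of a fundamental matrix of an algebraic connection
-/

set_option autoImplicit false
set_option linter.unusedSectionVars false

open Filter Topology

namespace Pool.Agent.V11273.PV

open Pool.Agent.Y890.MV (evX evM evM_eq evM_an poly_zero RegularM)

variable {X ι : Type} [Fintype X] [DecidableEq X] [Fintype ι] [DecidableEq ι]

/-- value of a polynomial in the entries of a matrix with coefficients in `ℂ[x]` -/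
noncomputable def rv (x : X → ℂ) (Z : Matrix ι ι ℂ) (p : MvPolynomial (ι × ι) (MvPolynomial X ℂ)) : ℂ :=
  MvPolynomial.eval₂ (MvPolynomial.eval x) (fun v => Z v.1 v.2) p

theorem rv_hom (x : X → ℂ) (Z : Matrix ι ι ℂ) (p : MvPolynomial (ι × ι) (MvPolynomial X ℂ)) :
    rv x Z p = MvPolynomial.eval₂Hom (MvPolynomial.eval x) (fun v => Z v.1 v.2) p := rfl

/-- all polynomial relations over `ℂ[x]` between the entries of `Y` hold for `g Y` -/
def Pres (U : Set (X → ℂ)) (Y : (X → ℂ) → Matrix ι ι ℂ) (g : Matrix ι ι ℂ) : Prop :=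
  ∀ p : MvPolynomial (ι × ι) (MvPolynomial X ℂ), (∀ x ∈ U, rv x (Y x) p = 0) → ∀ x ∈ U, rv x (g * Y x) p = 0

/-- substitution -/
noncomputable def lsub (g : Matrix ι ι ℂ) (p : MvPolynomial (ι × ι) (MvPolynomial X ℂ)) :
    MvPolynomial (ι × ι) (MvPolynomial X ℂ) :=
  MvPolynomial.aeval (fun v : ι × ι => ∑ e, MvPolynomial.C (MvPolynomial.C (g v.1 e)) * MvPolynomial.X (e, v.2)) p

theorem rv_lsub (x : X → ℂ) (Z g : Matrix ι ι ℂ) (p : MvPolynomial (ι × ι) (MvPolynomial X ℂ)) :
    rv x Z (lsub g p) = rv x (g * Z) p := by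
  have h1 : ((MvPolynomial.eval₂Hom (MvPolynomial.eval x) (fun v : ι × ι => Z v.1 v.2)).comp
      ((MvPolynomial.aeval (R := MvPolynomial X ℂ) (fun v : ι × ι => ∑ e, MvPolynomial.C (MvPolynomial.C (g v.1 e)) *
        MvPolynomial.X (e, v.2)) : MvPolynomial (ι × ι) (MvPolynomial X ℂ) →ₐ[MvPolynomial X ℂ]
          MvPolynomial (ι × ι) (MvPolynomial X ℂ)) : MvPolynomial (ι × ι) (MvPolynomial X ℂ) →+*
          MvPolynomial (ι × ι) (MvPolynomial X ℂ))) =
      MvPolynomial.eval₂Hom (MvPolynomial.eval x) (fun v : ι × ι => (g * Z) v.1 v.2) := by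
    refine MvPolynomial.ringHom_ext (fun q => ?_) fun v => ?_
    · rw [RingHom.comp_apply, RingHom.coe_coe, MvPolynomial.algHom_C, MvPolynomial.algebraMap_eq,
        MvPolynomial.eval₂Hom_C, MvPolynomial.eval₂Hom_C]
    · rw [RingHom.comp_apply, RingHom.coe_coe, MvPolynomial.aeval_X, MvPolynomial.eval₂Hom_X', map_sum,
        Matrix.mul_apply]
      refine Finset.sum_congr rfl fun e _ => ?_
      rw [map_mul, MvPolynomial.eval₂Hom_C, MvPolynomial.eval₂Hom_X', MvPolynomial.eval_C]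
  exact RingHom.congr_fun h1 p

/-- the ideal of the relations -/
def relI (U : Set (X → ℂ)) (W : (X → ℂ) → Matrix ι ι ℂ) : Ideal (MvPolynomial (ι × ι) (MvPolynomial X ℂ)) where
  carrier := {p | ∀ x ∈ U, rv x (W x) p = 0}
  zero_mem' := by
    intro x _
    rw [rv_hom, map_zero]
  add_mem' := by
    intro p q hp hq x hx
    rw [rv_hom, map_add, ← rv_hom, ← rv_hom, hp x hx, hq x hx, add_zero]
  smul_mem' := by
    intro c p hp x hx
    rw [rv_hom, smul_eq_mul, map_mul, ← rv_hom, ← rv_hom, hp x hx, mul_zero]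

theorem mem_relI {U : Set (X → ℂ)} {W : (X → ℂ) → Matrix ι ι ℂ} {p : MvPolynomial (ι × ι) (MvPolynomial X ℂ)} :
    p ∈ relI U W ↔ ∀ x ∈ U, rv x (W x) p = 0 := Iff.rfl

theorem Pres.one (U : Set (X → ℂ)) (Y : (X → ℂ) → Matrix ι ι ℂ) : Pres U Y 1 := by
  intro p hp x hx
  rw [one_mul]
  exact hp x hx

theorem Pres.mul {U : Set (X → ℂ)} {Y : (X → ℂ) → Matrix ι ι ℂ} {g h : Matrix ι ι ℂ} (hg : Pres U Y g)
    (hh : Pres U Y h) : Pres U Y (g * h) := by
  intro p hp x hx
  have h1 := hh (lsub g p) (fun x hx => by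
    rw [rv_lsub]
    exact hg p hp x hx) x hx
  rw [rv_lsub, ← mul_assoc] at h1
  exact h1

theorem Pres.pow {U : Set (X → ℂ)} {Y : (X → ℂ) → Matrix ι ι ℂ} {g : Matrix ι ι ℂ} (hg : Pres U Y g) (n : ℕ) :
    Pres U Y (g ^ n) := by
  induction n with
  | zero =>
    rw [pow_zero]
    exact Pres.one U Y
  | succ n ih =>
    rw [pow_succ]
    exact ih.mul hg

/-- the inverse also preserves the relations, since the polynomial ring is noetherian -/
theorem Pres.inv {U : Set (X → ℂ)} {Y : (X → ℂ) → Matrix ι ι ℂ} {g : GL ι ℂ} (hg : Pres U Y (g : Matrix ι ι ℂ)) :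
    Pres U Y ((g⁻¹ : GL ι ℂ) : Matrix ι ι ℂ) := by
  let J : ℕ →o Ideal (MvPolynomial (ι × ι) (MvPolynomial X ℂ)) :=
    { toFun := fun n => relI U fun x => (g : Matrix ι ι ℂ) ^ n * Y x
      monotone' := by
        refine monotone_nat_of_le_succ fun n => ?_
        intro q hq
        rw [mem_relI] at hq ⊢
        intro x hx
        have h1 := hg (lsub ((g : Matrix ι ι ℂ) ^ n) q) (fun x hx => by
          rw [rv_lsub]
          exact hq x hx) x hx
        rw [rv_lsub, ← mul_assoc, ← pow_succ] at h1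
        exact h1 }
  obtain ⟨n, hn⟩ := monotone_stabilizes_iff_noetherian.2 (inferInstance :
    IsNoetherian (MvPolynomial (ι × ι) (MvPolynomial X ℂ)) (MvPolynomial (ι × ι) (MvPolynomial X ℂ))) J
  intro p hp x hx
  have h1 : lsub (((g⁻¹ : GL ι ℂ) : Matrix ι ι ℂ) ^ (n + 1)) p ∈ J (n + 1) := by
    change _ ∈ relI U fun x => (g : Matrix ι ι ℂ) ^ (n + 1) * Y x
    rw [mem_relI]
    intro x hx
    rw [rv_lsub, ← mul_assoc, ← Units.val_pow_eq_pow_val, ← Units.val_pow_eq_pow_val, ← Units.val_mul, inv_pow,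
      inv_mul_cancel, Units.val_one, one_mul]
    exact hp x hx
  rw [← hn (n + 1) (Nat.le_succ n)] at h1
  change _ ∈ relI U fun x => (g : Matrix ι ι ℂ) ^ n * Y x at h1
  have h2 := mem_relI.1 h1 x hx
  rw [rv_lsub, ← mul_assoc, ← Units.val_pow_eq_pow_val, ← Units.val_pow_eq_pow_val, ← Units.val_mul] at h2
  have h3 : g⁻¹ ^ (n + 1) * g ^ n = g⁻¹ := by
    rw [pow_succ', mul_assoc, inv_pow, inv_mul_cancel, mul_one]
  rw [h3] at h2
  exact h2

/-- the Galois group -/
def Gal (U : Set (X → ℂ)) (Y : (X → ℂ) → Matrix ι ι ℂ) : Subgroup (GL ι ℂ) where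
  carrier := {g | Pres U Y (g : Matrix ι ι ℂ)}
  mul_mem' := by
    intro a b ha hb
    change Pres U Y ((a * b : GL ι ℂ) : Matrix ι ι ℂ)
    rw [Units.val_mul]
    exact Pres.mul ha hb
  one_mem' := by
    change Pres U Y ((1 : GL ι ℂ) : Matrix ι ι ℂ)
    rw [Units.val_one]
    exact Pres.one U Y
  inv_mem' := by
    intro a ha
    exact Pres.inv ha

theorem mem_Gal {U : Set (X → ℂ)} {Y : (X → ℂ) → Matrix ι ι ℂ} {g : GL ι ℂ} :
    g ∈ Gal U Y ↔ Pres U Y (g : Matrix ι ι ℂ) := Iff.rfl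

/-- `Y` is a fundamental matrix of an algebraic connection: `c ∂_i Y = Y B_i` -/
def Connection (U : Set (X → ℂ)) (Y : (X → ℂ) → Matrix ι ι ℂ) (c : MvPolynomial X ℂ)
    (B : X → Matrix ι ι (MvPolynomial X ℂ)) : Prop :=
  ∀ x ∈ U, ∀ i a b, MvPolynomial.eval x c * fderiv ℂ (fun x => Y x a b) x (Pi.single i 1) =
    ∑ e, Y x a e * MvPolynomial.eval x (B i e b)

/-- flat polynomials -/
theorem rv_flat (x : X → ℂ) (Z : Matrix ι ι ℂ) (q : MvPolynomial ((ι × ι) ⊕ X) ℂ) :
    rv x Z (MvPolynomial.sumAlgEquiv ℂ (ι × ι) X q) =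
      MvPolynomial.eval (Sum.elim (fun v : ι × ι => Z v.1 v.2) x) q := by
  have h1 : ((MvPolynomial.eval₂Hom (MvPolynomial.eval x) (fun v : ι × ι => Z v.1 v.2)).comp
      (MvPolynomial.sumRingEquiv ℂ (ι × ι) X : MvPolynomial ((ι × ι) ⊕ X) ℂ →+*
        MvPolynomial (ι × ι) (MvPolynomial X ℂ))) = MvPolynomial.eval (Sum.elim (fun v : ι × ι => Z v.1 v.2) x) := by
    refine MvPolynomial.ringHom_ext (fun a => ?_) fun s => ?_
    · rw [RingHom.comp_apply, RingHom.coe_coe, MvPolynomial.sumRingEquiv_C, MvPolynomial.eval₂Hom_C, MvPolynomial.eval_C,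
        MvPolynomial.eval_C]
    · rcases s with s | s
      · rw [RingHom.comp_apply, RingHom.coe_coe, MvPolynomial.sumRingEquiv_X_inl, MvPolynomial.eval₂Hom_X', MvPolynomial.eval_X,
          Sum.elim_inl]
      · rw [RingHom.comp_apply, RingHom.coe_coe, MvPolynomial.sumRingEquiv_X_inr, MvPolynomial.eval₂Hom_C, MvPolynomial.eval_X,
          MvPolynomial.eval_X, Sum.elim_inr]
  have h2 := RingHom.congr_fun h1 q
  rw [← h2]
  rfl

theorem fd_single (f : (X → ℂ) → ℂ) (x v : X → ℂ) :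
    fderiv ℂ f x v = ∑ i, v i * fderiv ℂ f x (Pi.single i 1) := by
  have h1 : v = ∑ i, v i • (Pi.single i (1 : ℂ) : X → ℂ) := by
    funext j
    simp [Finset.sum_apply, Pi.single_apply]
  conv_lhs => rw [h1]
  rw [map_sum]
  refine Finset.sum_congr rfl fun i _ => ?_
  rw [map_smul, smul_eq_mul]

/-- **The torsor property.** -/
theorem torsor {U : Set (X → ℂ)} (hU : IsPreconnected U) (hUo : IsOpen U) {Y : (X → ℂ) → Matrix ι ι ℂ}
    (hY : ∀ a b, AnalyticOnNhd ℂ (fun x => Y x a b) U) {c : MvPolynomial X ℂ}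
    {B : X → Matrix ι ι (MvPolynomial X ℂ)} (hc : Connection U Y c B) {x₀ : X → ℂ} (hx₀ : x₀ ∈ U)
    (hcx : MvPolynomial.eval x₀ c ≠ 0) {g : Matrix ι ι ℂ}
    (h0 : ∀ p : MvPolynomial (ι × ι) (MvPolynomial X ℂ), (∀ x ∈ U, rv x (Y x) p = 0) → rv x₀ (g * Y x₀) p = 0) :
    Pres U Y g := by
  classical
  set cc : MvPolynomial ((ι × ι) ⊕ X) ℂ := MvPolynomial.rename Sum.inr c with hcc
  have hcce : ∀ (Z : ι × ι → ℂ) (x : X → ℂ), MvPolynomial.eval (Sum.elim Z x) cc = MvPolynomial.eval x c := by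
    intro Z x
    rw [hcc, MvPolynomial.eval_rename]
    rfl
  let w : (X → ℂ) → ((ι × ι) ⊕ X) → ℂ := fun x => Sum.elim (fun v : ι × ι => Y x v.1 v.2) x
  let w' : (X → ℂ) → ((ι × ι) ⊕ X) → ℂ := fun x => Sum.elim (fun v : ι × ι => (g * Y x) v.1 v.2) x
  have hxan : ∀ i : X, AnalyticOnNhd ℂ (fun x : X → ℂ => x i) U := fun i x _ =>
    (ContinuousLinearMap.proj (R := ℂ) (φ := fun _ : X => ℂ) i).analyticAt x
  have hgY : ∀ a b, AnalyticOnNhd ℂ (fun x => (g * Y x) a b) U := by
    intro a b x hx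
    simp only [Matrix.mul_apply]
    exact Finset.analyticAt_fun_sum _ fun e _ => analyticAt_const.mul (hY e b x hx)
  have hw : ∀ s, AnalyticOnNhd ℂ (fun x => w x s) U := by
    intro s
    rcases s with s | s
    · exact hY s.1 s.2
    · exact hxan s
  have hw' : ∀ s, AnalyticOnNhd ℂ (fun x => w' x s) U := by
    intro s
    rcases s with s | s
    · exact hgY s.1 s.2
    · exact hxan s
  have hfx : ∀ (i : X) (x v : X → ℂ), fderiv ℂ (fun x : X → ℂ => x i) x v = v i := by
    intro i x v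
    have h1 : fderiv ℂ (fun x : X → ℂ => x i) x = ContinuousLinearMap.proj i :=
      (ContinuousLinearMap.proj (R := ℂ) (φ := fun _ : X => ℂ) i).fderiv
    rw [h1]
    rfl
  -- derivatives in all directions
  have hdir : ∀ (v : X → ℂ), ∀ x ∈ U, ∀ a b, MvPolynomial.eval x c * fderiv ℂ (fun x => Y x a b) x v =
      ∑ e, Y x a e * ∑ i, v i * MvPolynomial.eval x (B i e b) := by
    intro v x hx a b
    rw [fd_single, Finset.mul_sum]
    calc ∑ i, MvPolynomial.eval x c * (v i * fderiv ℂ (fun x => Y x a b) x (Pi.single i 1))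
        = ∑ i, v i * ∑ e, Y x a e * MvPolynomial.eval x (B i e b) := by
          refine Finset.sum_congr rfl fun i _ => ?_
          rw [← hc x hx i a b]
          ring
      _ = _ := by
          simp only [Finset.mul_sum]
          rw [Finset.sum_comm]
          refine Finset.sum_congr rfl fun e _ => Finset.sum_congr rfl fun i _ => ?_
          ring
  have hdir' : ∀ (v : X → ℂ), ∀ x ∈ U, ∀ a b, MvPolynomial.eval x c * fderiv ℂ (fun x => (g * Y x) a b) x v =
      ∑ e, (g * Y x) a e * ∑ i, v i * MvPolynomial.eval x (B i e b) := by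
    intro v x hx a b
    have h1 : fderiv ℂ (fun x => (g * Y x) a b) x v = ∑ f, g a f * fderiv ℂ (fun x => Y x f b) x v := by
      have h2 : (fun x => (g * Y x) a b) = fun x => ∑ f, g a f * Y x f b := by
        funext x
        rw [Matrix.mul_apply]
      rw [h2]
      rw [fderiv_fun_sum fun f _ => ((hY f b x hx).differentiableAt.const_mul (g a f))]
      rw [_root_.sum_apply]
      refine Finset.sum_congr rfl fun f _ => ?_
      rw [fderiv_const_mul (hY f b x hx).differentiableAt]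
      rfl
    rw [h1, Finset.mul_sum]
    calc ∑ f, MvPolynomial.eval x c * (g a f * fderiv ℂ (fun x => Y x f b) x v)
        = ∑ f, g a f * ∑ e, Y x f e * ∑ i, v i * MvPolynomial.eval x (B i e b) := by
          refine Finset.sum_congr rfl fun f _ => ?_
          rw [← hdir v x hx f b]
          ring
      _ = _ := by
          simp only [Matrix.mul_apply, Finset.mul_sum, Finset.sum_mul]
          rw [Finset.sum_comm]
          refine Finset.sum_congr rfl fun e _ => ?_
          rw [Finset.sum_comm]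
          refine Finset.sum_congr rfl fun i _ => Finset.sum_congr rfl fun f _ => ?_
          ring
  have key := transfer hU hUo hw hw' cc (fun v => ⟨fun s => Sum.casesOn (motive := fun _ => MvPolynomial ((ι × ι) ⊕ X) ℂ) s
      (fun s => ∑ e, MvPolynomial.X (Sum.inl (s.1, e)) * ∑ i, MvPolynomial.C (v i) *
        MvPolynomial.rename Sum.inr (B i e s.2))
      (fun i => cc * MvPolynomial.C (v i)), by
        intro x hx s
        rcases s with s | s
        · simp only [w, Sum.elim_inl, hcce, map_sum, map_mul, MvPolynomial.eval_X, MvPolynomial.eval_C,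
            MvPolynomial.eval_rename]
          exact hdir v x hx s.1 s.2
        · simp only [w, Sum.elim_inr, hcce, map_mul, MvPolynomial.eval_C]
          rw [hfx], by
        intro x hx s
        rcases s with s | s
        · simp only [w', Sum.elim_inl, hcce, map_sum, map_mul, MvPolynomial.eval_X, MvPolynomial.eval_C,
            MvPolynomial.eval_rename]
          exact hdir' v x hx s.1 s.2
        · simp only [w', Sum.elim_inr, hcce, map_mul, MvPolynomial.eval_C]
          rw [hfx]⟩) hx₀ (by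
      simp only [w', hcce]
      exact hcx) (by
      intro q hq
      rw [← rv_flat]
      refine h0 _ fun x hx => ?_
      rw [rv_flat]
      exact hq x hx)
  intro p hp x hx
  have h1 := key ((MvPolynomial.sumAlgEquiv ℂ (ι × ι) X).symm p) (fun x hx => by
    rw [← rv_flat, AlgEquiv.apply_symm_apply]
    exact hp x hx) x hx
  rw [← rv_flat, AlgEquiv.apply_symm_apply] at h1
  exact h1

end Pool.Agent.V11273.PV
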