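import Pool.Agent.V11273.PV.E5

/-!
# Connected Galois groups and algebraic elements
-/

set_option autoImplicit false
set_option linter.unusedSectionVars false

open Filter Topology

namespace Pool.Agent.V11273.PV

open Pool.Agent.Y890.MV (evX evM evM_eq evM_an poly_zero RegularM)

variable {X ι : Type} [Fintype X] [DecidableEq X] [Fintype ι] [DecidableEq ι]

/-- all subgroups of finite index which are defined by polynomial equations are the whole group -/
def Conn (𝒢 : Subgroup (GL ι ℂ)) : Prop :=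
  ∀ H : Subgroup 𝒢, H.FiniteIndex → (∃ E : Set (MvPolynomial (ι × ι) ℂ), ∀ h : 𝒢, h ∈ H ↔
    ∀ e ∈ E, MvPolynomial.eval (fun v => ((h : GL ι ℂ) : Matrix ι ι ℂ) v.1 v.2) e = 0) → H = ⊤

theorem rv_an {U : Set (X → ℂ)} {Y : (X → ℂ) → Matrix ι ι ℂ}
    (hY : ∀ a b, AnalyticOnNhd ℂ (fun x => Y x a b) U) (g : Matrix ι ι ℂ)
    (p : MvPolynomial (ι × ι) (MvPolynomial X ℂ)) : AnalyticOnNhd ℂ (fun x => rv x (g * Y x) p) U := by
  have h1 := evM_an (f := fun (s : ι × ι) x => (g * Y x) s.1 s.2) (U := U) (fun s x hx => by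
    simp only [Matrix.mul_apply]
    exact Finset.analyticAt_fun_sum _ fun e _ => analyticAt_const.mul (hY e s.2 x hx)) p
  exact h1

theorem zero_cases {U : Set (X → ℂ)} (hU : IsPreconnected U) {f g : (X → ℂ) → ℂ} (hf : AnalyticOnNhd ℂ f U)
    (hg : AnalyticOnNhd ℂ g U) (hUo : IsOpen U) (h : ∀ x ∈ U, f x * g x = 0) :
    (∀ x ∈ U, f x = 0) ∨ ∀ x ∈ U, g x = 0 := by
  by_cases hf0 : ∀ x ∈ U, f x = 0
  · exact Or.inl hf0
  right
  push Not at hf0
  obtain ⟨x₁, hx₁, hfx⟩ := hf0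
  refine hg.eqOn_zero_of_preconnected_of_eventuallyEq_zero hU hx₁ ?_
  have h1 : ∀ᶠ x in 𝓝 x₁, f x ≠ 0 := (hf x₁ hx₁).continuousAt.eventually_ne hfx
  filter_upwards [h1, hUo.mem_nhds hx₁] with x h2 h3
  exact (mul_eq_zero.1 (h x h3)).resolve_left h2

/-- a polynomial in the entries of `g` whose value is `rv x (g * Y) p` -/
theorem exists_entry (x : X → ℂ) (Z : Matrix ι ι ℂ) (p : MvPolynomial (ι × ι) (MvPolynomial X ℂ)) :
    ∃ e : MvPolynomial (ι × ι) ℂ, ∀ g : Matrix ι ι ℂ, MvPolynomial.eval (fun v => g v.1 v.2) e = rv x (g * Z) p := by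
  refine ⟨MvPolynomial.eval₂ (MvPolynomial.C.comp (MvPolynomial.eval x))
    (fun v : ι × ι => ∑ e, MvPolynomial.X (v.1, e) * MvPolynomial.C (Z e v.2)) p, fun g => ?_⟩
  have h1 := MvPolynomial.eval₂_comp_left (MvPolynomial.eval (fun v : ι × ι => g v.1 v.2))
    (MvPolynomial.C.comp (MvPolynomial.eval x))
    (fun v : ι × ι => ∑ e, MvPolynomial.X (v.1, e) * MvPolynomial.C (Z e v.2)) p
  rw [h1, rv]
  congr 1
  · refine RingHom.ext fun q => ?_
    rw [RingHom.comp_apply, RingHom.comp_apply, MvPolynomial.eval_C]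
  · funext v
    simp only [Function.comp_apply, map_sum, map_mul, MvPolynomial.eval_X, MvPolynomial.eval_C, Matrix.mul_apply]

theorem exists_field' {σ D : Type} [CommRing D] [IsDomain D] [Algebra (MvPolynomial X ℂ) D] [Algebra ℂ D]
    [IsScalarTower ℂ (MvPolynomial X ℂ) D] (q : MvPolynomial σ (MvPolynomial X ℂ) →ₐ[MvPolynomial X ℂ] D) :
    ∃ (F : Type) (_ : Field F) (_ : Algebra (MvPolynomial X ℂ) F) (_ : Algebra ℂ F)
      (_ : IsScalarTower ℂ (MvPolynomial X ℂ) F) (y : σ → F), ∀ p : MvPolynomial σ (MvPolynomial X ℂ),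
        MvPolynomial.aeval y p = 0 ↔ q p = 0 := by
  refine ⟨FractionRing D, inferInstance, inferInstance, inferInstance, inferInstance,
    fun s => algebraMap D (FractionRing D) (q (MvPolynomial.X s)), fun p => ?_⟩
  have h1 : (MvPolynomial.aeval (fun s => algebraMap D (FractionRing D) (q (MvPolynomial.X s))) :
      MvPolynomial σ (MvPolynomial X ℂ) →ₐ[MvPolynomial X ℂ] FractionRing D) =
      (IsScalarTower.toAlgHom (MvPolynomial X ℂ) D (FractionRing D)).comp q := by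
    refine MvPolynomial.algHom_ext fun s => ?_
    rw [MvPolynomial.aeval_X]
    rfl
  rw [h1]
  have h2 : (IsScalarTower.toAlgHom (MvPolynomial X ℂ) D (FractionRing D)).comp q p =
      algebraMap D (FractionRing D) (q p) := rfl
  rw [h2, map_eq_zero_iff _ (IsFractionRing.injective D (FractionRing D))]

/-- the function field -/
theorem exists_field {σ : Type} (I : Ideal (MvPolynomial σ (MvPolynomial X ℂ))) [I.IsPrime] :
    ∃ (F : Type) (_ : Field F) (_ : Algebra (MvPolynomial X ℂ) F) (_ : Algebra ℂ F)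
      (_ : IsScalarTower ℂ (MvPolynomial X ℂ) F) (y : σ → F), ∀ p : MvPolynomial σ (MvPolynomial X ℂ),
        MvPolynomial.aeval y p = 0 ↔ p ∈ I := by
  let q : MvPolynomial σ (MvPolynomial X ℂ) →ₐ[MvPolynomial X ℂ] (MvPolynomial σ (MvPolynomial X ℂ) ⧸ I) :=
    { Ideal.Quotient.mk I with commutes' := fun _ => rfl }
  obtain ⟨F, h1, h2, h3, h4, y, hy⟩ := exists_field' (X := X) (σ := σ) (D := MvPolynomial σ (MvPolynomial X ℂ) ⧸ I) q
  refine ⟨F, h1, h2, h3, h4, y, fun p => ?_⟩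
  rw [hy]
  exact Ideal.Quotient.eq_zero_iff_mem

/-- **`ℂ(x)` is algebraically closed in the field generated by the entries of a fundamental matrix if the Galois group
is connected.** -/
theorem reg {U : Set (X → ℂ)} (hU : IsPreconnected U) (hUo : IsOpen U) {Y : (X → ℂ) → Matrix ι ι ℂ}
    (hY : ∀ a b, AnalyticOnNhd ℂ (fun x => Y x a b) U) (hdet : ∀ x ∈ U, (Y x).det ≠ 0) {c : MvPolynomial X ℂ}
    (hc0 : c ≠ 0) {B : X → Matrix ι ι (MvPolynomial X ℂ)} (hc : Connection U Y c B) (hconn : Conn (Gal U Y)) :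
    RegularM U (fun (s : ι × ι) x => Y x s.1 s.2) := by
  classical
  intro V g P Q R hVo hVne hVU hg hR hQ hPQ hRg
  have hev : ∀ x (p : MvPolynomial (ι × ι) (MvPolynomial X ℂ)),
      evM (fun (s : ι × ι) x => Y x s.1 s.2) x p = rv x (Y x) p := fun _ _ => rfl
  simp only [hev] at hQ hPQ
  have hVne' := hVne
  obtain ⟨x₁, hx₁⟩ := hVne
  have hx₁U := hVU hx₁
  have hone : ∀ p : MvPolynomial (ι × ι) (MvPolynomial X ℂ), AnalyticOnNhd ℂ (fun x => rv x (Y x) p) U := by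
    intro p
    have h1 := rv_an hY (1 : Matrix ι ι ℂ) p
    simpa only [one_mul] using h1
  -- relations are determined on `V`
  have hVrel : ∀ p : MvPolynomial (ι × ι) (MvPolynomial X ℂ), (∀ x ∈ V, rv x (Y x) p = 0) →
      ∀ x ∈ U, rv x (Y x) p = 0 := by
    intro p hp
    refine (hone p).eqOn_zero_of_preconnected_of_eventuallyEq_zero hU hx₁U ?_
    filter_upwards [hVo.mem_nhds hx₁] with x hx
    exact hp x hx
  have hrmul : ∀ x (Z : Matrix ι ι ℂ) (p q : MvPolynomial (ι × ι) (MvPolynomial X ℂ)),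
      rv x Z (p * q) = rv x Z p * rv x Z q := by
    intro x Z p q
    rw [rv_hom, map_mul]
    rfl
  have hrsub : ∀ x (Z : Matrix ι ι ℂ) (p q : MvPolynomial (ι × ι) (MvPolynomial X ℂ)),
      rv x Z (p - q) = rv x Z p - rv x Z q := by
    intro x Z p q
    rw [rv_hom, map_sub]
    rfl
  have hrC : ∀ x (Z : Matrix ι ι ℂ) (q : MvPolynomial X ℂ), rv x Z (MvPolynomial.C q) = MvPolynomial.eval x q := by
    intro x Z q
    rw [rv_hom, MvPolynomial.eval₂Hom_C]
  -- the homogenized relation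
  set N := R.natDegree with hN
  set W : MvPolynomial (ι × ι) (MvPolynomial X ℂ) :=
    ∑ k ∈ Finset.range (N + 1), MvPolynomial.C (R.coeff k) * P ^ k * Q ^ (N - k) with hW
  have hWe : ∀ x (Z : Matrix ι ι ℂ), rv x Z W =
      ∑ k ∈ Finset.range (N + 1), MvPolynomial.eval x (R.coeff k) * rv x Z P ^ k * rv x Z Q ^ (N - k) := by
    intro x Z
    simp only [rv_hom, hW, map_sum, map_mul, map_pow, MvPolynomial.eval₂Hom_C]
  have hWU : ∀ x ∈ U, rv x (Y x) W = 0 := by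
    refine hVrel W fun x hx => ?_
    have h2 := hRg x hx
    rw [Polynomial.eval_map, Polynomial.eval₂_eq_sum_range] at h2
    rw [hWe]
    calc ∑ k ∈ Finset.range (N + 1), MvPolynomial.eval x (R.coeff k) * rv x (Y x) P ^ k * rv x (Y x) Q ^ (N - k)
        = rv x (Y x) Q ^ N * ∑ k ∈ Finset.range (N + 1), MvPolynomial.eval x (R.coeff k) * g x ^ k := by
          rw [Finset.mul_sum]
          refine Finset.sum_congr rfl fun k hk => ?_
          have hk' : k ≤ N := Nat.lt_succ_iff.1 (Finset.mem_range.1 hk)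
          have h3 : rv x (Y x) Q ^ N = rv x (Y x) Q ^ (N - k) * rv x (Y x) Q ^ k := by
            rw [← pow_add, Nat.sub_add_cancel hk']
          rw [← hPQ x hx, h3, mul_pow]
          ring
      _ = 0 := by rw [h2, mul_zero]
  -- the ideal
  set I := relI U Y with hI
  have hprime : I.IsPrime := by
    refine Ideal.IsPrime.mk ?_ ?_
    · intro h0
      have h1 : (1 : MvPolynomial (ι × ι) (MvPolynomial X ℂ)) ∈ I := by
        rw [h0]
        exact Submodule.mem_top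
      have h2 := h1 x₁ hx₁U
      rw [rv_hom, map_one] at h2
      exact one_ne_zero h2
    · intro p q hpq
      exact zero_cases hU (hone p) (hone q) hUo fun x hx => by
        rw [← hrmul]
        exact hpq x hx
  obtain ⟨F, _, _, _, _, y, hyI⟩ := exists_field I
  have haev0 : ∀ p, MvPolynomial.aeval y p = 0 ↔ ∀ x ∈ U, rv x (Y x) p = 0 := by
    intro p
    rw [hyI, hI, mem_relI]
  have hQI : MvPolynomial.aeval y Q ≠ 0 := fun h => hQ x₁ hx₁ ((haev0 Q).1 h x₁ hx₁U)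
  set dt : MvPolynomial (ι × ι) (MvPolynomial X ℂ) := Matrix.det (fun a b => MvPolynomial.X (a, b)) with hdt
  have hdte : ∀ x (Z : Matrix ι ι ℂ), rv x Z dt = Z.det := by
    intro x Z
    rw [rv_hom, hdt, RingHom.map_det]
    congr 1
    ext a b
    rw [RingHom.mapMatrix_apply, Matrix.map_apply]
    exact MvPolynomial.eval₂Hom_X' _ _ _
  have hdtI : MvPolynomial.aeval y dt ≠ 0 := by
    intro h
    have h1 := (haev0 dt).1 h x₁ hx₁U
    rw [hdte] at h1
    exact hdet x₁ hx₁U h1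
  have hAinj : Function.Injective (algebraMap (MvPolynomial X ℂ) F) := by
    rw [injective_iff_map_eq_zero]
    intro q hq
    have h1 : MvPolynomial.aeval y (MvPolynomial.C q : MvPolynomial (ι × ι) (MvPolynomial X ℂ)) = 0 := by
      rw [MvPolynomial.aeval_C]
      exact hq
    rw [haev0] at h1
    refine poly_zero hUo ⟨x₁, hx₁U⟩ q fun x hx => ?_
    rw [← hrC x (Y x)]
    exact h1 x hx
  -- roots
  have hroot : ∀ P' Q' : MvPolynomial (ι × ι) (MvPolynomial X ℂ), MvPolynomial.aeval y Q' ≠ 0 →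
      (∀ x ∈ U, ∑ k ∈ Finset.range (N + 1), MvPolynomial.eval x (R.coeff k) * rv x (Y x) P' ^ k *
        rv x (Y x) Q' ^ (N - k) = 0) →
      Polynomial.aeval (MvPolynomial.aeval y P' / MvPolynomial.aeval y Q') R = 0 := by
    intro P' Q' hQ' h
    have h1 : MvPolynomial.aeval y (∑ k ∈ Finset.range (N + 1), MvPolynomial.C (R.coeff k) * P' ^ k * Q' ^ (N - k) :
        MvPolynomial (ι × ι) (MvPolynomial X ℂ)) = 0 := by
      rw [haev0]
      intro x hx
      rw [← h x hx]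
      simp only [rv_hom, map_sum, map_mul, map_pow, MvPolynomial.eval₂Hom_C]
    rw [Polynomial.aeval_eq_sum_range, ← hN]
    have h2 : MvPolynomial.aeval y Q' ^ N * ∑ k ∈ Finset.range (N + 1), R.coeff k •
        (MvPolynomial.aeval y P' / MvPolynomial.aeval y Q') ^ k = 0 := by
      rw [← h1, map_sum, Finset.mul_sum]
      refine Finset.sum_congr rfl fun k hk => ?_
      have hk' : k ≤ N := Nat.lt_succ_iff.1 (Finset.mem_range.1 hk)
      have h3 : MvPolynomial.aeval y Q' ^ N = MvPolynomial.aeval y Q' ^ (N - k) * MvPolynomial.aeval y Q' ^ k := by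
        rw [← pow_add, Nat.sub_add_cancel hk']
      rw [map_mul, map_mul, map_pow, map_pow, MvPolynomial.aeval_C, Algebra.smul_def, h3, div_pow]
      have h4 : MvPolynomial.aeval y Q' ^ k ≠ 0 := pow_ne_zero _ hQ'
      field_simp
    exact (mul_eq_zero.1 h2).resolve_left (pow_ne_zero _ hQ')
  have hRy := hroot P Q hQI (fun x hx => by
    rw [← hWe]
    exact hWU x hx)
  rcases two_points_field hAinj y P Q dt hQI hdtI R hR hRy with ⟨p, q, hq, hpq⟩ | ⟨a, ha, htwo⟩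
  · refine ⟨p, q, hq, fun x hx => ?_⟩
    have h1 : MvPolynomial.aeval y (MvPolynomial.C q * P - MvPolynomial.C p * Q :
        MvPolynomial (ι × ι) (MvPolynomial X ℂ)) = 0 := by
      rw [map_sub, map_mul, map_mul, MvPolynomial.aeval_C, MvPolynomial.aeval_C, hpq, sub_self]
    have h2 := (haev0 _).1 h1 x (hVU hx)
    rw [hrsub, hrmul, hrmul, hrC, hrC, ← hPQ x hx] at h2
    have h3 : rv x (Y x) Q * (MvPolynomial.eval x q * g x - MvPolynomial.eval x p) = 0 := by linear_combination h2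
    exact sub_eq_zero.1 ((mul_eq_zero.1 h3).resolve_left (hQ x hx))
  exfalso
  -- nonvanishing
  have hnz : ∀ h : Gal U Y, ¬ ∀ x ∈ U, rv x (((h : GL ι ℂ) : Matrix ι ι ℂ) * Y x) Q = 0 := by
    intro h hcon
    have h1 := (h⁻¹).2 (lsub ((h : GL ι ℂ) : Matrix ι ι ℂ) Q) (fun x hx => by
      rw [rv_lsub]
      exact hcon x hx) x₁ hx₁U
    rw [rv_lsub, ← mul_assoc] at h1
    have h2 : ((h : GL ι ℂ) : Matrix ι ι ℂ) * (((h⁻¹ : Gal U Y) : GL ι ℂ) : Matrix ι ι ℂ) = 1 := by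
      rw [← Units.val_mul, Subgroup.coe_inv, mul_inv_cancel, Units.val_one]
    rw [h2, one_mul] at h1
    exact hQ x₁ hx₁ h1
  -- relations for group elements
  have happly : ∀ (k : Gal U Y) (h h' : Matrix ι ι ℂ) (P₁ P₂ P₃ P₄ : MvPolynomial (ι × ι) (MvPolynomial X ℂ)),
      (∀ x ∈ U, rv x (h * Y x) P₁ * rv x (h' * Y x) P₂ = rv x (h * Y x) P₄ * rv x (h' * Y x) P₃) →
      ∀ x ∈ U, rv x (h * ((k : GL ι ℂ) : Matrix ι ι ℂ) * Y x) P₁ * rv x (h' * ((k : GL ι ℂ) : Matrix ι ι ℂ) * Y x) P₂ =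
        rv x (h * ((k : GL ι ℂ) : Matrix ι ι ℂ) * Y x) P₄ * rv x (h' * ((k : GL ι ℂ) : Matrix ι ι ℂ) * Y x) P₃ := by
    intro k h h' P₁ P₂ P₃ P₄ hrel x hx
    have h1 := k.2 (lsub h P₁ * lsub h' P₂ - lsub h P₄ * lsub h' P₃) (fun x hx => by
      rw [hrsub, hrmul, hrmul, rv_lsub, rv_lsub, rv_lsub, rv_lsub, hrel x hx, sub_self]) x hx
    rw [hrsub, hrmul, hrmul, rv_lsub, rv_lsub, rv_lsub, rv_lsub, ← mul_assoc, ← mul_assoc] at h1
    exact sub_eq_zero.1 h1
  -- the stabilizer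
  let H : Subgroup (Gal U Y) :=
    { carrier := {h | ∀ x ∈ U, rv x (((h : GL ι ℂ) : Matrix ι ι ℂ) * Y x) P * rv x (Y x) Q =
        rv x (((h : GL ι ℂ) : Matrix ι ι ℂ) * Y x) Q * rv x (Y x) P}
      one_mem' := by
        intro x _
        rw [Subgroup.coe_one, Units.val_one, one_mul, mul_comm]
      mul_mem' := by
        intro h k hh hk
        have h1 := happly k ((h : GL ι ℂ) : Matrix ι ι ℂ) 1 P Q P Q (fun x hx => by
          rw [one_mul]
          exact hh x hx)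
        simp only [one_mul] at h1
        have h2 : ∀ x ∈ U, rv x (((k : GL ι ℂ) : Matrix ι ι ℂ) * Y x) Q *
            (rv x (((h : GL ι ℂ) : Matrix ι ι ℂ) * ((k : GL ι ℂ) : Matrix ι ι ℂ) * Y x) P * rv x (Y x) Q -
              rv x (((h : GL ι ℂ) : Matrix ι ι ℂ) * ((k : GL ι ℂ) : Matrix ι ι ℂ) * Y x) Q * rv x (Y x) P) = 0 := by
          intro x hx
          linear_combination (rv x (Y x) Q) * h1 x hx +
            (rv x (((h : GL ι ℂ) : Matrix ι ι ℂ) * ((k : GL ι ℂ) : Matrix ι ι ℂ) * Y x) Q) * hk x hx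
        have h3 := zero_cases hU (rv_an hY _ Q) (((rv_an hY _ P).mul (hone Q)).sub ((rv_an hY _ Q).mul (hone P))) hUo h2
        rcases h3 with h3 | h3
        · exact absurd h3 (hnz k)
        · intro x hx
          rw [Subgroup.coe_mul, Units.val_mul]
          exact sub_eq_zero.1 (h3 x hx)
      inv_mem' := by
        intro h hh x hx
        have h1 := happly h⁻¹ ((h : GL ι ℂ) : Matrix ι ι ℂ) 1 P Q P Q (fun x hx => by
          rw [one_mul]
          exact hh x hx) x hx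
        have h2 : ((h : GL ι ℂ) : Matrix ι ι ℂ) * (((h⁻¹ : Gal U Y) : GL ι ℂ) : Matrix ι ι ℂ) = 1 := by
          rw [← Units.val_mul, Subgroup.coe_inv, mul_inv_cancel, Units.val_one]
        rw [h2, one_mul, one_mul] at h1
        linear_combination -h1 }
  have hHmem : ∀ h : Gal U Y, h ∈ H ↔ ∀ x ∈ U, rv x (((h : GL ι ℂ) : Matrix ι ι ℂ) * Y x) P * rv x (Y x) Q =
        rv x (((h : GL ι ℂ) : Matrix ι ι ℂ) * Y x) Q * rv x (Y x) P := fun h => Iff.rfl
  -- it has finite index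
  have hWg : ∀ h : Gal U Y, ∀ x ∈ U, ∑ k ∈ Finset.range (N + 1), MvPolynomial.eval x (R.coeff k) *
      rv x (((h : GL ι ℂ) : Matrix ι ι ℂ) * Y x) P ^ k * rv x (((h : GL ι ℂ) : Matrix ι ι ℂ) * Y x) Q ^ (N - k) = 0 := by
    intro h x hx
    rw [← hWe]
    exact h.2 W hWU x hx
  have haevQ : ∀ h : Gal U Y, MvPolynomial.aeval y (lsub ((h : GL ι ℂ) : Matrix ι ι ℂ) Q) ≠ 0 := by
    intro h h0
    rw [haev0] at h0
    refine hnz h fun x hx => ?_
    rw [← rv_lsub]
    exact h0 x hx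
  let θ : Gal U Y → F := fun h => MvPolynomial.aeval y (lsub (((h⁻¹ : Gal U Y) : GL ι ℂ) : Matrix ι ι ℂ) P) /
    MvPolynomial.aeval y (lsub (((h⁻¹ : Gal U Y) : GL ι ℂ) : Matrix ι ι ℂ) Q)
  have hθr : ∀ h, θ h ∈ (R.map (algebraMap (MvPolynomial X ℂ) F)).roots.toFinset := by
    intro h
    have hR' : R.map (algebraMap (MvPolynomial X ℂ) F) ≠ 0 := (Polynomial.map_ne_zero_iff hAinj).2 hR
    rw [Multiset.mem_toFinset, Polynomial.mem_roots hR', Polynomial.IsRoot.def, Polynomial.eval_map,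
      ← Polynomial.aeval_def]
    refine hroot _ _ (haevQ h⁻¹) fun x hx => ?_
    simp only [rv_lsub]
    exact hWg h⁻¹ x hx
  have hθH : ∀ h k : Gal U Y, θ h = θ k → h⁻¹ * k ∈ H := by
    intro h k hhk
    rw [hHmem]
    have h1 : MvPolynomial.aeval y (lsub (((h⁻¹ : Gal U Y) : GL ι ℂ) : Matrix ι ι ℂ) P *
        lsub (((k⁻¹ : Gal U Y) : GL ι ℂ) : Matrix ι ι ℂ) Q -
        lsub (((h⁻¹ : Gal U Y) : GL ι ℂ) : Matrix ι ι ℂ) Q * lsub (((k⁻¹ : Gal U Y) : GL ι ℂ) : Matrix ι ι ℂ) P) = 0 := by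
      rw [map_sub, map_mul, map_mul]
      have h2 := (div_eq_div_iff (haevQ h⁻¹) (haevQ k⁻¹)).1 hhk
      rw [h2]
      ring
    rw [haev0] at h1
    have h3 := happly k (((h⁻¹ : Gal U Y) : GL ι ℂ) : Matrix ι ι ℂ) (((k⁻¹ : Gal U Y) : GL ι ℂ) : Matrix ι ι ℂ) P Q P Q
      (fun x hx => by
        have h4 := h1 x hx
        rw [hrsub, hrmul, hrmul, rv_lsub, rv_lsub, rv_lsub, rv_lsub] at h4
        exact sub_eq_zero.1 h4)
    have h5 : (((k⁻¹ : Gal U Y) : GL ι ℂ) : Matrix ι ι ℂ) * ((k : GL ι ℂ) : Matrix ι ι ℂ) = 1 := by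
      rw [← Units.val_mul, Subgroup.coe_inv, inv_mul_cancel, Units.val_one]
    intro x hx
    have h6 := h3 x hx
    rw [h5, one_mul] at h6
    rw [Subgroup.coe_mul, Units.val_mul]
    exact h6
  have hfin : Finite (Gal U Y ⧸ H) := by
    refine Finite.of_injective (β := {z // z ∈ (R.map (algebraMap (MvPolynomial X ℂ) F)).roots.toFinset})
      (fun q => ⟨θ q.out, hθr _⟩) fun q q' h => ?_
    have h1 : θ q.out = θ q'.out := congrArg Subtype.val h
    have h2 := hθH _ _ h1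
    rw [← QuotientGroup.eq, QuotientGroup.out_eq', QuotientGroup.out_eq'] at h2
    exact h2
  have hFI : H.FiniteIndex := Subgroup.finiteIndex_of_finite_quotient
  -- it is closed
  choose e he using fun (x : X → ℂ) (p : MvPolynomial (ι × ι) (MvPolynomial X ℂ)) => exists_entry (ι := ι) x (Y x) p
  have hclosed : ∃ E : Set (MvPolynomial (ι × ι) ℂ), ∀ h : Gal U Y, h ∈ H ↔
      ∀ e ∈ E, MvPolynomial.eval (fun v => ((h : GL ι ℂ) : Matrix ι ι ℂ) v.1 v.2) e = 0 := by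
    refine ⟨{z | ∃ x ∈ U, z = e x P * MvPolynomial.C (rv x (Y x) Q) - e x Q * MvPolynomial.C (rv x (Y x) P)},
      fun h => ?_⟩
    rw [hHmem]
    constructor
    · rintro h1 z ⟨x, hx, rfl⟩
      rw [map_sub, map_mul, map_mul, he, he, MvPolynomial.eval_C, MvPolynomial.eval_C, h1 x hx, sub_self]
    · intro h1 x hx
      have h2 := h1 _ ⟨x, hx, rfl⟩
      rw [map_sub, map_mul, map_mul, he, he, MvPolynomial.eval_C, MvPolynomial.eval_C] at h2
      exact sub_eq_zero.1 h2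
  have hHtop := hconn H hFI hclosed
  -- two points
  obtain ⟨x₀, hx₀, hx₀c⟩ : ∃ x ∈ V, MvPolynomial.eval x (a * c) ≠ 0 := by
    by_contra hcon
    push Not at hcon
    exact mul_ne_zero ha hc0 (poly_zero hVo hVne' _ hcon)
  rw [map_mul, mul_ne_zero_iff] at hx₀c
  have hx₀U := hVU hx₀
  obtain ⟨Z₁, Z₂, hZ₁, hZ₂, hd₁, hd₂, hne⟩ := htwo x₀ hx₀c.1
  have hpoint : ∀ Z : ι × ι → ℂ, (∀ p, MvPolynomial.aeval y p = 0 → evX x₀ Z p = 0) → evX x₀ Z dt ≠ 0 →
      evX x₀ Z P * rv x₀ (Y x₀) Q = evX x₀ Z Q * rv x₀ (Y x₀) P := by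
    intro Z hZ hd
    let M : Matrix ι ι ℂ := Matrix.of fun a b => Z (a, b)
    have hevM : ∀ p, evX x₀ Z p = rv x₀ M p := fun p => rfl
    have hYu : IsUnit (Y x₀).det := isUnit_iff_ne_zero.2 (hdet x₀ hx₀U)
    have hMd : M.det ≠ 0 := by
      rw [hevM, hdte] at hd
      exact hd
    have hgd : (M * (Y x₀)⁻¹).det ≠ 0 := by
      rw [Matrix.det_mul, Matrix.det_nonsing_inv]
      exact mul_ne_zero hMd (IsUnit.ne_zero (by simpa using hYu.ringInverse))
    have hgY : (M * (Y x₀)⁻¹) * Y x₀ = M := by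
      rw [mul_assoc, Matrix.nonsing_inv_mul _ hYu, mul_one]
    have hpres : Pres U Y (M * (Y x₀)⁻¹) := by
      refine torsor hU hUo hY hc hx₀U hx₀c.2 fun p hp => ?_
      rw [hgY, ← hevM]
      exact hZ p ((haev0 p).2 hp)
    let h : GL ι ℂ := Matrix.GeneralLinearGroup.mkOfDetNeZero (M * (Y x₀)⁻¹) hgd
    have hh : h ∈ Gal U Y := hpres
    have h1 : (⟨h, hh⟩ : Gal U Y) ∈ H := by
      rw [hHtop]
      exact Subgroup.mem_top _
    have h2 := (hHmem _).1 h1 x₀ hx₀U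
    have h3 : ((h : GL ι ℂ) : Matrix ι ι ℂ) * Y x₀ = M := hgY
    simp only at h2
    rw [h3] at h2
    exact h2
  have e1 := hpoint Z₁ hZ₁ hd₁
  have e2 := hpoint Z₂ hZ₂ hd₂
  apply hne
  have hQ0 : rv x₀ (Y x₀) Q ≠ 0 := hQ x₀ hx₀
  have h3 : rv x₀ (Y x₀) Q * (evX x₀ Z₁ P * evX x₀ Z₂ Q - evX x₀ Z₂ P * evX x₀ Z₁ Q) = 0 := by
    linear_combination (evX x₀ Z₂ Q) * e1 - (evX x₀ Z₁ Q) * e2
  exact sub_eq_zero.1 ((mul_eq_zero.1 h3).resolve_left hQ0)

end Pool.Agent.V11273.PV
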