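import Pool.Agent.V11273.PV.E6
import Pool.Agent.Y890.MV.Main

/-!
# Relations at algebraic points come from the Galois group
-/

set_option autoImplicit false
set_option linter.unusedSectionVars false

open Filter Topology NumberField

namespace Pool.Agent.V11273.PV

open Pool.Agent.Y890.MV
open Pool.Agent.Y890.SP (Qbar exists_omega)
open Pool.Agent.Y124 (Cov)

variable {X ι : Type} [Fintype X] [DecidableEq X] [Fintype ι] [DecidableEq ι]

/-- the sum over the exponents -/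
theorem sum_exp {σ : Type} [Fintype σ] [DecidableEq σ] {k : ℕ} {P : MvPolynomial σ ℂ} (hdeg : ∀ y, P.degreeOf y ≤ k)
    (w : σ → ℂ) :
    ∑ l : σ → Fin (k + 1), P.coeff (Finsupp.equivFunOnFinite.symm fun y => (l y : ℕ)) * ∏ y, w y ^ (l y : ℕ) =
      MvPolynomial.eval w P := by
  classical
  rw [MvPolynomial.eval_eq']
  symm
  set e : (σ →₀ ℕ) → σ → Fin (k + 1) := fun m y => ⟨min (m y) k, Nat.lt_succ_of_le (min_le_right _ _)⟩ with he
  have hle : ∀ m ∈ P.support, ∀ y, m y ≤ k := by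
    intro m hm y
    exact (MvPolynomial.monomial_le_degreeOf y hm).trans (hdeg y)
  have hev : ∀ m ∈ P.support, ∀ y, ((e m y : Fin (k + 1)) : ℕ) = m y := by
    intro m hm y
    exact min_eq_left (hle m hm y)
  refine Finset.sum_of_injOn e ?_ (fun _ _ => Finset.mem_coe.2 (Finset.mem_univ _)) ?_ ?_
  · intro m hm m' hm' h
    ext y
    rw [← hev m hm y, ← hev m' hm' y, h]
  · intro l _ hl
    have h0 : P.coeff (Finsupp.equivFunOnFinite.symm fun y => (l y : ℕ)) = 0 := by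
      by_contra h0
      apply hl
      refine ⟨_, MvPolynomial.mem_support_iff.2 h0, ?_⟩
      funext y
      apply Fin.ext
      simp only [he, Finsupp.equivFunOnFinite_symm_apply_apply]
      exact min_eq_left (Nat.lt_succ_iff.1 (l y).2)
    rw [h0, zero_mul]
  · intro m hm
    have h1 : (Finsupp.equivFunOnFinite.symm fun y => ((e m y : Fin (k + 1)) : ℕ)) = m := by
      ext y
      rw [Finsupp.equivFunOnFinite_symm_apply_apply]
      exact hev m hm y
    rw [h1]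
    congr 1
    refine Finset.prod_congr rfl fun y _ => ?_
    rw [hev m hm y]

/-- the polynomial `P` has partial degrees at most `k` and its coefficients are `∑ ξ i * c i` with integers `c i` of `K`
of size at most `T ^ k` -/
def Small {σ : Type} (K : Type) [Field K] [NumberField K] (io : K →+* ℂ) (k : ℕ) (ξ : Fin k → ℂ) (T : ℝ)
    (P : MvPolynomial σ ℂ) : Prop :=
  (∀ y, P.degreeOf y ≤ k) ∧ ∀ m, ∃ c : Fin k → 𝓞 K, (∀ i (φ : K →+* ℂ), ‖φ (c i : K)‖ ≤ T ^ (k : ℝ)) ∧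
    P.coeff m = ∑ i, ξ i * io (c i : K)

/-- points with a small relation with the property `Bad` -/
def ExcB {σ : Type} (U : Set (X → ℂ)) (f : σ → (X → ℂ) → ℂ) (Bad : (X → ℂ) → MvPolynomial σ ℂ → Prop)
    (K : Type) [Field K] [NumberField K] (io : K →+* ℂ) (k : ℕ) (ξ : Fin k → ℂ) (T : ℝ) : Set (X → K) :=
  {s | (∀ j, Y120.HtLe K T (s j)) ∧ (fun j => io (s j)) ∈ InnerM U k ∧ ∃ P : MvPolynomial σ ℂ,
    Small K io k ξ T P ∧ MvPolynomial.eval (fun y => f y fun j => io (s j)) P = 0 ∧ Bad (fun j => io (s j)) P}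

/-- the coefficients of the system attached to a relation -/
noncomputable def Xi (σ : Type) [Fintype σ] [DecidableEq σ] (k : ℕ) (ξ : Fin k → ℂ) (_ : Unit) (l : σ → Fin (k + 1))
    (p : (σ → Fin (k + 1)) × Fin k) : ℂ := if p.1 = l then ξ p.2 else 0

theorem Xi_sum {σ : Type} [Fintype σ] [DecidableEq σ] {k : ℕ} (ξ : Fin k → ℂ) (u : Unit) (l : σ → Fin (k + 1))
    (c : (σ → Fin (k + 1)) × Fin k → ℂ) : ∑ p, Xi σ k ξ u l p * c p = ∑ i, ξ i * c (l, i) := by
  rw [Fintype.sum_prod_type, Finset.sum_eq_single l]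
  · simp [Xi]
  · intro b _ hb
    simp [Xi, hb]
  · simp

/-- a relation between the functions whose value at `x₀` is `P` has the property that it vanishes on `U`: if this
excludes `Bad` the bad points are exceptional -/
theorem excB_sub {σ : Type} [Fintype σ] [DecidableEq σ] {U : Set (X → ℂ)} {f : σ → (X → ℂ) → ℂ}
    {Bad : (X → ℂ) → MvPolynomial σ ℂ → Prop}
    (hBad : ∀ (x₀ : X → ℂ) (p : MvPolynomial σ (MvPolynomial X ℂ)), x₀ ∈ U → (∀ x ∈ U, evM f x p = 0) →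
      ¬ Bad x₀ (p.map (MvPolynomial.eval x₀)))
    {K : Type} [Field K] [NumberField K] (io : K →+* ℂ) {k : ℕ} (hk : 0 < k) (ξ : Fin k → ℂ) {T : ℝ} :
    ExcB U f Bad K io k ξ T ⊆ ExcM U f (InnerM U k) K io (Xi σ k ξ) k T := by
  classical
  rintro s ⟨hs, hin, P, ⟨hdeg, hcoef⟩, hzero, hbad⟩
  choose c hc hc' using hcoef
  have hsU : (fun i => io (s i)) ∈ U := innerM_sub U hk hin
  refine ⟨hs, hin, fun p => c (Finsupp.equivFunOnFinite.symm fun y => (p.1 y : ℕ)) p.2, fun p φ => hc _ _ φ, ?_, ?_⟩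
  · intro u
    have h1 := sum_exp hdeg (fun y => f y fun i => io (s i))
    rw [hzero] at h1
    rw [← h1]
    refine Finset.sum_congr rfl fun l _ => ?_
    rw [Xi_sum, hc']
  · rintro ⟨G, hG1, hG2⟩
    set x0 : X → ℂ := fun i => io (s i) with hx0
    -- the relation as a polynomial
    set B : MvPolynomial σ (MvPolynomial X ℂ) :=
      ∑ l : σ → Fin (k + 1), MvPolynomial.C (∑ i, MvPolynomial.C (ξ i) *
        MvPolynomial.map (algebraMap Qbar ℂ) (G (l, i))) * ∏ y, MvPolynomial.X y ^ (l y : ℕ) with hB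
    have hBe : ∀ x, evM f x B = ∑ l : σ → Fin (k + 1), (∑ i, ξ i * MvPolynomial.aeval x (G (l, i))) *
        ∏ y, f y x ^ (l y : ℕ) := by
      intro x
      have h6 : evM f x B = MvPolynomial.eval₂Hom (MvPolynomial.eval x) (fun y => f y x) B := rfl
      rw [h6, hB]
      simp only [map_sum, map_mul, map_prod, map_pow, MvPolynomial.eval₂Hom_C, MvPolynomial.eval₂Hom_X',
        MvPolynomial.eval_C, MvPolynomial.eval_map]
      rfl
    have hBU : ∀ x ∈ U, evM f x B = 0 := by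
      intro x hx
      rw [hBe]
      refine Eq.trans ?_ (hG2 x hx ())
      refine Finset.sum_congr rfl fun l _ => ?_
      rw [Xi_sum]
    refine hBad x0 B hsU hBU ?_
    have hBP : B.map (MvPolynomial.eval x0) = P := by
      refine MvPolynomial.funext fun w => ?_
      rw [← sum_exp hdeg w, MvPolynomial.eval_map]
      have h6 : MvPolynomial.eval₂ (MvPolynomial.eval x0) w B =
          MvPolynomial.eval₂Hom (MvPolynomial.eval x0) w B := rfl
      rw [h6, hB]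
      simp only [map_sum, map_mul, map_prod, map_pow, MvPolynomial.eval₂Hom_C, MvPolynomial.eval₂Hom_X',
        MvPolynomial.eval_C, MvPolynomial.eval_map]
      refine Finset.sum_congr rfl fun l _ => ?_
      congr 1
      rw [hc']
      refine Finset.sum_congr rfl fun i _ => ?_
      have h7 := hG1 (l, i)
      rw [MvPolynomial.aeval_def] at h7
      rw [h7]
    rw [hBP]
    exact hbad

/-- **Sparsity.** -/
theorem excB_omega {σ : Type} [Fintype σ] [DecidableEq σ] [Nonempty X] {U : Set (X → ℂ)} {f : σ → (X → ℂ) → ℂ}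
    (hU : IsPreconnected U) (hUo : IsOpen U) (hne : U.Nonempty) (hf : ∀ i, AnalyticOnNhd ℂ (f i) U)
    (hreg : RegularM U f) {Bad : (X → ℂ) → MvPolynomial σ ℂ → Prop}
    (hBad : ∀ (x₀ : X → ℂ) (p : MvPolynomial σ (MvPolynomial X ℂ)), x₀ ∈ U → (∀ x ∈ U, evM f x p = 0) →
      ¬ Bad x₀ (p.map (MvPolynomial.eval x₀))) :
    ∃ (ω : ℝ → ℕ) (T₀ : ℝ), Tendsto ω atTop atTop ∧ Monotone ω ∧ ∀ T, T₀ ≤ T → 0 < ω T ∧
      ∀ (K : Type) [Field K] [NumberField K], Module.finrank ℚ K ≤ ω T → ∀ (io : K →+* ℂ) (ξ : Fin (ω T) → ℂ),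
        Cov ⌊T ^ ((ω T : ℝ)⁻¹)⌋₊ ⌊T ^ ((ω T : ℝ)⁻¹)⌋₊
          ((fun (s : X → K) i => io (s i)) '' ExcB U f Bad K io (ω T) ξ T) ∧
        (ExcB U f Bad K io (ω T) ξ T).Finite ∧
        ((ExcB U f Bad K io (ω T) ξ T).ncard : ℝ) ≤
          T ^ ((ω T : ℝ)⁻¹) * ({x : K | Y120.HtLe K T x}.ncard : ℝ) ^ (Fintype.card X - 1) := by
  classical
  let S : ℕ → ℝ → Prop := fun k T => ∀ (K : Type) [Field K] [NumberField K], Module.finrank ℚ K ≤ k →
    ∀ (io : K →+* ℂ) (ξ : Fin k → ℂ),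
      Cov ⌊T ^ ((k : ℝ)⁻¹)⌋₊ ⌊T ^ ((k : ℝ)⁻¹)⌋₊
          ((fun (s : X → K) i => io (s i)) '' ExcB U f Bad K io k ξ T) ∧
        (ExcB U f Bad K io k ξ T).Finite ∧
        ((ExcB U f Bad K io k ξ T).ncard : ℝ) ≤
          T ^ ((k : ℝ)⁻¹) * ({x : K | Y120.HtLe K T x}.ncard : ℝ) ^ (Fintype.card X - 1)
  refine exists_omega S fun k => ?_
  set τ : ℝ := ((k + 1 : ℕ) : ℝ)⁻¹ with hτ
  have hτ0 : 0 < τ := by positivity
  obtain ⟨D, C, T₀, hC, hT₀, H⟩ := excM_cov stmZ stmClose stmCharts hU hUo hne hf hreg (InnerM U (k + 1))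
    (innerM_compact _ _) (innerM_sub _ (Nat.succ_pos k)) (k + 1) ((σ → Fin (k + 1 + 1)) × Fin (k + 1)) Unit (k + 1)
    ((k + 1 : ℕ) : ℝ) (τ / 3) (by positivity)
  -- constants are powers of `T`
  have hpow : ∀ C : ℝ, 0 ≤ C → ∃ T₁ : ℝ, ∀ T, 1 ≤ T → T₁ ≤ T → C ≤ T ^ (τ / 3) := by
    intro C hC
    refine ⟨C ^ (3 * (k + 1)), fun T hT hT1 => ?_⟩
    have h4 : C = (C ^ (3 * (k + 1))) ^ (τ / 3) := by
      rw [← Real.rpow_natCast, ← Real.rpow_mul hC]
      have : ((3 * (k + 1) : ℕ) : ℝ) * (τ / 3) = 1 := by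
        rw [hτ]
        push_cast
        have : ((k : ℝ) + 1) ≠ 0 := by positivity
        field_simp
      rw [this, Real.rpow_one]
    rw [h4]
    exact Real.rpow_le_rpow (by positivity) hT1 (by positivity)
  obtain ⟨T₁, hT₁⟩ := hpow C hC
  obtain ⟨T₂, hT₂⟩ := hpow D (Nat.cast_nonneg _)
  refine ⟨max T₀ (max T₁ T₂), fun T hT K _ _ hK io ξ => ?_⟩
  have h0 : T₀ ≤ T := (le_max_left _ _).trans hT
  have h1 : T₁ ≤ T := ((le_max_left _ _).trans (le_max_right _ _)).trans hT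
  have h2 : T₂ ≤ T := ((le_max_right _ _).trans (le_max_right _ _)).trans hT
  have hT1 : 1 ≤ T := by linarith
  have hTp : 0 < T := by linarith
  have h3 := hT₁ T hT1 h1
  have h4 := hT₂ T hT1 h2
  have hcov0 := H K hK io (Xi σ (k + 1) ξ) T h0
  have hsub := excB_sub (U := U) (f := f) hBad io (Nat.succ_pos k) ξ (T := T)
  have hcov := hcov0.mono le_rfl le_rfl (Set.image_mono hsub)
  have h5 : T ^ (τ / 3) * T ^ (τ / 3) ≤ T ^ τ := by
    rw [← Real.rpow_add hTp]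
    exact Real.rpow_le_rpow_of_exponent_le hT1 (by linarith)
  have h6 : T ^ (τ / 3) ≤ T ^ τ := Real.rpow_le_rpow_of_exponent_le hT1 (by linarith)
  have hm : C * T ^ (τ / 3) ≤ T ^ (τ / 3) * T ^ (τ / 3) := mul_le_mul_of_nonneg_right h3 (by positivity)
  refine ⟨hcov.mono ?_ ?_ (Set.Subset.refl _), ?_⟩
  · exact Nat.le_floor (h4.trans h6)
  · exact Nat.floor_mono (hm.trans h5)
  obtain ⟨h7, h8⟩ := cov_count io {x : K | Y120.HtLe K T x} (Y120.HtLe_fin K T) _ (fun s hs => hs.1) hcov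
  refine ⟨h7, ?_⟩
  have h9 : ((⌊C * T ^ (τ / 3)⌋₊ : ℕ) : ℝ) ≤ T ^ (τ / 3) * T ^ (τ / 3) :=
    (Nat.floor_le (by positivity)).trans hm
  have h10 : ((ExcB U f Bad K io (k + 1) ξ T).ncard : ℝ) ≤
      (⌊C * T ^ (τ / 3)⌋₊ : ℝ) * (D * ({x : K | Y120.HtLe K T x}.ncard : ℝ) ^ (Fintype.card X - 1)) := by
    exact_mod_cast h8
  refine h10.trans ?_
  rw [← mul_assoc]
  refine mul_le_mul_of_nonneg_right ?_ (by positivity)
  calc (⌊C * T ^ (τ / 3)⌋₊ : ℝ) * (D : ℝ) ≤ (T ^ (τ / 3) * T ^ (τ / 3)) * T ^ (τ / 3) :=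
        mul_le_mul h9 h4 (Nat.cast_nonneg _) (by positivity)
    _ = T ^ τ := by
        rw [← Real.rpow_add hTp, ← Real.rpow_add hTp]
        congr 1
        ring

end Pool.Agent.V11273.PV
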