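import Pool.Agent.V11273.PV.E6

/-!
# Products of families
-/

set_option autoImplicit false
set_option linter.unusedSectionVars false

open Filter Topology

namespace Pool.Agent.V11273.PV

open Pool.Agent.Y890.MV (evX evM evM_eq evM_an poly_zero RegularM)

section regmono

theorem RegularM_comp {X σ σ' : Type} [Fintype X] {U : Set (X → ℂ)} {f : σ → (X → ℂ) → ℂ} (h : RegularM U f)
    (e : σ' → σ) : RegularM U (fun s => f (e s)) := by
  intro V g P Q R hVo hVne hVU hg hR hQ hPQ hRg
  have hev : ∀ x p, evM f x (MvPolynomial.rename e p) = evM (fun s => f (e s)) x p := by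
    intro x p
    unfold evM
    rw [MvPolynomial.eval₂_rename]
    rfl
  refine h V g (MvPolynomial.rename e P) (MvPolynomial.rename e Q) R hVo hVne hVU hg hR (fun x hx => ?_)
    (fun x hx => ?_) hRg
  · rw [hev]
    exact hQ x hx
  · rw [hev, hev]
    exact hPQ x hx

end regmono

variable {κ : Type} [Fintype κ] [DecidableEq κ] {X ι : κ → Type} [∀ j, Fintype (X j)] [∀ j, DecidableEq (X j)]
  [∀ j, Fintype (ι j)] [∀ j, DecidableEq (ι j)]

/-- the points of the factors -/
def pr (z : (Σ j, X j) → ℂ) (j : κ) : X j → ℂ := fun i => z ⟨j, i⟩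

/-- the point with given components -/
def un (w : ∀ j, X j → ℂ) : (Σ j, X j) → ℂ := fun s => w s.1 s.2

theorem pr_un (w : ∀ j, X j → ℂ) (j : κ) : pr (un w) j = w j := rfl

theorem un_pr (z : (Σ j, X j) → ℂ) : un (pr z) = z := rfl

/-- the projections are continuous linear maps -/
noncomputable def prL (j : κ) : ((Σ j, X j) → ℂ) →L[ℂ] (X j → ℂ) :=
  ContinuousLinearMap.pi fun i => ContinuousLinearMap.proj (R := ℂ) (φ := fun _ : Σ j, X j => ℂ) ⟨j, i⟩

theorem prL_apply (j : κ) (z : (Σ j, X j) → ℂ) : prL j z = pr z j := rfl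

/-- the product of the domains -/
def UU (U : ∀ j, Set (X j → ℂ)) : Set ((Σ j, X j) → ℂ) := {z | ∀ j, pr z j ∈ U j}

/-- the block diagonal matrix -/
noncomputable def YY (Y : ∀ j, (X j → ℂ) → Matrix (ι j) (ι j) ℂ) (z : (Σ j, X j) → ℂ) :
    Matrix (Σ j, ι j) (Σ j, ι j) ℂ := Matrix.blockDiagonal' fun j => Y j (pr z j)

variable {U : ∀ j, Set (X j → ℂ)} {Y : ∀ j, (X j → ℂ) → Matrix (ι j) (ι j) ℂ}

theorem UU_open (hUo : ∀ j, IsOpen (U j)) : IsOpen (UU U) := by
  have h1 : UU U = ⋂ j, (prL j) ⁻¹' (U j) := by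
    ext z
    rw [Set.mem_iInter]
    rfl
  rw [h1]
  exact isOpen_iInter_of_finite fun j => (hUo j).preimage (prL j).continuous

theorem UU_preconn (hU : ∀ j, IsPreconnected (U j)) : IsPreconnected (UU U) := by
  have h1 : UU U = un '' (Set.univ.pi U) := by
    ext z
    constructor
    · intro hz
      exact ⟨pr z, fun j _ => hz j, un_pr z⟩
    · rintro ⟨w, hw, rfl⟩ j
      exact hw j (Set.mem_univ j)
  rw [h1]
  refine (isPreconnected_univ_pi hU).image un (Continuous.continuousOn ?_)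
  refine continuous_pi fun s => ?_
  exact (continuous_apply s.2).comp (continuous_apply s.1)

theorem UU_ne (hne : ∀ j, (U j).Nonempty) : (UU U).Nonempty := by
  choose w hw using hne
  exact ⟨un w, hw⟩

theorem YY_eq (z : (Σ j, X j) → ℂ) (j : κ) (a b : ι j) : YY Y z ⟨j, a⟩ ⟨j, b⟩ = Y j (pr z j) a b :=
  Matrix.blockDiagonal'_apply_eq _ _ _ _

theorem YY_an (hY : ∀ j a b, AnalyticOnNhd ℂ (fun x => Y j x a b) (U j)) :
    ∀ a b, AnalyticOnNhd ℂ (fun z => YY Y z a b) (UU U) := by
  rintro ⟨j, a⟩ ⟨j', b⟩ z hz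
  by_cases h : j = j'
  · subst h
    simp only [YY_eq]
    exact (hY j a b (pr z j) (hz j)).fun_comp ((prL j).analyticAt z)
  · have h1 : (fun z => YY Y z ⟨j, a⟩ ⟨j', b⟩) = fun _ => (0 : ℂ) := by
      funext z
      exact Matrix.blockDiagonal'_apply_ne _ _ _ h
    rw [h1]
    exact analyticAt_const

theorem YY_det (hdet : ∀ j, ∀ x ∈ U j, (Y j x).det ≠ 0) : ∀ z ∈ UU U, (YY Y z).det ≠ 0 := by
  intro z hz
  have h1 : YY Y z * Matrix.blockDiagonal' (fun j => (Y j (pr z j))⁻¹) = 1 := by
    unfold YY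
    rw [← Matrix.blockDiagonal'_mul]
    have h2 : (fun j => Y j (pr z j) * (Y j (pr z j))⁻¹) = 1 := by
      funext j
      exact Matrix.mul_nonsing_inv _ (isUnit_iff_ne_zero.2 (hdet j _ (hz j)))
    rw [h2, Matrix.blockDiagonal'_one]
  intro h0
  have h2 := congrArg Matrix.det h1
  rw [Matrix.det_mul, h0, zero_mul, Matrix.det_one] at h2
  exact zero_ne_one h2

/-- the connection of the product -/
noncomputable def cc (c : ∀ j, MvPolynomial (X j) ℂ) : MvPolynomial (Σ j, X j) ℂ :=
  ∏ j, MvPolynomial.rename (Sigma.mk j) (c j)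

noncomputable def BB (c : ∀ j, MvPolynomial (X j) ℂ) (B : ∀ j, X j → Matrix (ι j) (ι j) (MvPolynomial (X j) ℂ))
    (s : Σ j, X j) : Matrix (Σ j, ι j) (Σ j, ι j) (MvPolynomial (Σ j, X j) ℂ) :=
  Matrix.blockDiagonal' (Function.update 0 s.1 ((B s.1 s.2).map fun q =>
    (∏ l ∈ Finset.univ.erase s.1, MvPolynomial.rename (Sigma.mk l) (c l)) * MvPolynomial.rename (Sigma.mk s.1) q))

theorem ev_rename (z : (Σ j, X j) → ℂ) (j : κ) (q : MvPolynomial (X j) ℂ) :
    MvPolynomial.eval z (MvPolynomial.rename (Sigma.mk j) q) = MvPolynomial.eval (pr z j) q := by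
  rw [MvPolynomial.eval_rename]
  rfl

theorem cc_ne {c : ∀ j, MvPolynomial (X j) ℂ} (hc : ∀ j, c j ≠ 0) : cc c ≠ 0 := by
  refine Finset.prod_ne_zero_iff.2 fun j _ => ?_
  rw [Ne, (MvPolynomial.rename_injective _ sigma_mk_injective).eq_iff' (map_zero _)]
  exact hc j

theorem product_connection {c : ∀ j, MvPolynomial (X j) ℂ} {B : ∀ j, X j → Matrix (ι j) (ι j) (MvPolynomial (X j) ℂ)}
    (hY : ∀ j a b, AnalyticOnNhd ℂ (fun x => Y j x a b) (U j)) (hc : ∀ j, Connection (U j) (Y j) (c j) (B j)) :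
    Connection (UU U) (YY Y) (cc c) (BB c B) := by
  rintro z hz ⟨j', i⟩ ⟨j, a⟩ ⟨j'', b⟩
  have hR : ∑ e, YY Y z ⟨j, a⟩ e * MvPolynomial.eval z (BB c B ⟨j', i⟩ e ⟨j'', b⟩) =
      (Matrix.blockDiagonal' fun l => Y l (pr z l) * (Function.update (fun l => (0 : Matrix (ι l) (ι l) ℂ)) j'
        ((B j' i).map fun q => (∏ l ∈ Finset.univ.erase j', MvPolynomial.eval (pr z l) (c l)) *
          MvPolynomial.eval (pr z j') q) l)) ⟨j, a⟩ ⟨j'', b⟩ := by
    rw [Matrix.blockDiagonal'_mul, Matrix.mul_apply]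
    refine Finset.sum_congr rfl fun e _ => ?_
    have h1 : (BB c B ⟨j', i⟩).map (MvPolynomial.eval z) = Matrix.blockDiagonal' (Function.update
        (fun l => (0 : Matrix (ι l) (ι l) ℂ)) j' ((B j' i).map fun q =>
          (∏ l ∈ Finset.univ.erase j', MvPolynomial.eval (pr z l) (c l)) * MvPolynomial.eval (pr z j') q)) := by
      unfold BB
      rw [Matrix.blockDiagonal'_map _ _ (map_zero _)]
      congr 1
      funext l
      by_cases hl : l = j'
      · subst hl
        rw [Function.update_self, Function.update_self]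
        ext x y
        simp only [Matrix.map_apply, map_mul, map_prod, ev_rename]
      · rw [Function.update_of_ne hl, Function.update_of_ne hl]
        ext x y
        simp
    have h2 : MvPolynomial.eval z (BB c B ⟨j', i⟩ e ⟨j'', b⟩) =
        ((BB c B ⟨j', i⟩).map (MvPolynomial.eval z)) e ⟨j'', b⟩ := rfl
    rw [h2, h1]
    rfl
  rw [hR]
  by_cases h : j = j''
  · subst h
    rw [Matrix.blockDiagonal'_apply_eq]
    simp only [YY_eq]
    have hfd : fderiv ℂ (fun z => Y j (pr z j) a b) z (Pi.single ⟨j', i⟩ 1) =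
        fderiv ℂ (fun x => Y j x a b) (pr z j) (pr (Pi.single ⟨j', i⟩ 1) j) := by
      have h0 : HasFDerivAt (fun x => Y j x a b) (fderiv ℂ (fun x => Y j x a b) (prL j z)) (prL j z) :=
        (hY j a b (pr z j) (hz j)).differentiableAt.hasFDerivAt
      have h1 : HasFDerivAt (fun z => Y j (pr z j) a b)
          ((fderiv ℂ (fun x => Y j x a b) (prL j z)).comp (prL j)) z :=
        h0.comp z (prL j).hasFDerivAt
      rw [h1.fderiv]
      rfl
    rw [hfd]
    by_cases hj : j = j'
    · subst hj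
      rw [Function.update_self]
      have h2 : pr (Pi.single (⟨j, i⟩ : Σ j, X j) (1 : ℂ)) j = Pi.single i 1 := by
        funext l
        unfold pr
        by_cases hl : l = i
        · subst hl
          rw [Pi.single_eq_same, Pi.single_eq_same]
        · rw [Pi.single_eq_of_ne hl, Pi.single_eq_of_ne]
          intro h3
          exact hl (by simpa using h3)
      rw [h2]
      have h3 : MvPolynomial.eval z (cc c) = (∏ l ∈ Finset.univ.erase j, MvPolynomial.eval (pr z l) (c l)) *
          MvPolynomial.eval (pr z j) (c j) := by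
        unfold cc
        rw [map_prod, ← Finset.mul_prod_erase _ _ (Finset.mem_univ j), mul_comm]
        simp only [ev_rename]
      rw [h3, mul_assoc, hc j (pr z j) (hz j) i a b, Finset.mul_sum, Matrix.mul_apply]
      refine Finset.sum_congr rfl fun e _ => ?_
      rw [Matrix.map_apply]
      ring
    · rw [Function.update_of_ne hj]
      have h2 : pr (Pi.single (⟨j', i⟩ : Σ j, X j) (1 : ℂ)) j = 0 := by
        funext l
        unfold pr
        rw [Pi.single_eq_of_ne]
        · rfl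
        · intro h3
          exact hj (congrArg Sigma.fst h3)
      rw [h2, map_zero, mul_zero, Matrix.mul_zero]
      rfl
  · rw [Matrix.blockDiagonal'_apply_ne _ _ _ h]
    have h1 : (fun z => YY Y z ⟨j, a⟩ ⟨j'', b⟩) = fun _ => (0 : ℂ) := by
      funext z
      exact Matrix.blockDiagonal'_apply_ne _ _ _ h
    rw [h1]
    simp

end Pool.Agent.V11273.PV
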