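import Pool.Agent.V11273.PV.G10

/-!
# Relations at algebraic points are specializations of functional relations over the algebraic numbers
-/

set_option autoImplicit false
set_option linter.unusedSectionVars false

open Filter Topology NumberField

namespace Pool.Agent.V11273.PV

open Pool.Agent.Y890.MV
open Pool.Agent.Y890.SP (exists_omega Qbar)
open Pool.Agent.Y124 (Cov)

section one

variable {X : Type} [Fintype X] [DecidableEq X]

/-- `P` is the specialization at `x₀` of a polynomial relation over `Qbar[x]` between the functions `f`, of partial degrees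
at most `k` -/
def SpecQ {σ : Type} (U : Set (X → ℂ)) (f : σ → (X → ℂ) → ℂ) (k : ℕ) (x₀ : X → ℂ) (P : MvPolynomial σ ℂ) : Prop :=
  ∃ R : MvPolynomial σ (MvPolynomial X Qbar), (∀ y, R.degreeOf y ≤ k) ∧
    (∀ x ∈ U, MvPolynomial.eval₂ (MvPolynomial.aeval x : MvPolynomial X Qbar →ₐ[Qbar] ℂ).toRingHom (fun y => f y x) R = 0) ∧
    R.map (MvPolynomial.aeval x₀ : MvPolynomial X Qbar →ₐ[Qbar] ℂ).toRingHom = P

/-- points with a small relation over `K` which is not the specialization of a functional relation -/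
def ExcQ {σ : Type} (U : Set (X → ℂ)) (f : σ → (X → ℂ) → ℂ) (K : Type) [Field K] [NumberField K] (io : K →+* ℂ) (k : ℕ)
    (T : ℝ) : Set (X → K) :=
  {s | (∀ j, Y120.HtLe K T (s j)) ∧ (fun j => io (s j)) ∈ InnerM U k ∧ ∃ P : MvPolynomial σ (𝓞 K),
    (∀ y, P.degreeOf y ≤ k) ∧ (∀ m (φ : K →+* ℂ), ‖φ ((P.coeff m : 𝓞 K) : K)‖ ≤ T ^ (k : ℝ)) ∧
    MvPolynomial.eval₂ (io.comp (algebraMap (𝓞 K) K)) (fun y => f y fun j => io (s j)) P = 0 ∧
    ¬ SpecQ U f k (fun j => io (s j)) (P.map (io.comp (algebraMap (𝓞 K) K)))}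

/-- the system of one relation -/
noncomputable def XiQ (σ : Type) [Fintype σ] [DecidableEq σ] (k : ℕ) (_ : Unit) (l : σ → Fin (k + 1))
    (p : σ → Fin (k + 1)) : ℂ := if p = l then 1 else 0

theorem XiQ_sum {σ : Type} [Fintype σ] [DecidableEq σ] {k : ℕ} (u : Unit) (l : σ → Fin (k + 1))
    (c : (σ → Fin (k + 1)) → ℂ) : ∑ p, XiQ σ k u l p * c p = c l := by
  rw [Finset.sum_eq_single l]
  · simp [XiQ]
  · intro b _ hb
    simp [XiQ, hb]
  · simp

theorem degreeOf_map_le' {σ R S : Type} [CommSemiring R] [CommSemiring S] (g : R →+* S) (P : MvPolynomial σ R) (y : σ) :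
    (P.map g).degreeOf y ≤ P.degreeOf y := by
  classical
  rw [MvPolynomial.degreeOf_def, MvPolynomial.degreeOf_def]
  exact Multiset.count_le_of_le y MvPolynomial.degrees_map_le

theorem excQ_sub {σ : Type} [Fintype σ] [DecidableEq σ] {U : Set (X → ℂ)} {f : σ → (X → ℂ) → ℂ}
    {K : Type} [Field K] [NumberField K] (io : K →+* ℂ) {k : ℕ} {T : ℝ} :
    ExcQ U f K io k T ⊆ ExcM U f (InnerM U k) K io (XiQ σ k) k T := by
  classical
  rintro s ⟨hs, hin, P, hdeg, hcoef, hzero, hbad⟩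
  set io' : 𝓞 K →+* ℂ := io.comp (algebraMap (𝓞 K) K) with hio'
  have hdeg' : ∀ y, (P.map io').degreeOf y ≤ k := fun y => (degreeOf_map_le' io' P y).trans (hdeg y)
  refine ⟨hs, hin, fun p => P.coeff (Finsupp.equivFunOnFinite.symm fun y => (p y : ℕ)), fun p φ => hcoef _ φ, ?_, ?_⟩
  · intro u
    have h1 := sum_exp hdeg' (fun y => f y fun i => io (s i))
    rw [MvPolynomial.eval_map, hzero] at h1
    rw [← h1]
    refine Finset.sum_congr rfl fun l _ => ?_
    rw [XiQ_sum, MvPolynomial.coeff_map]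
    rfl
  · rintro ⟨G, hG1, hG2⟩
    set x0 : X → ℂ := fun i => io (s i) with hx0
    set B : MvPolynomial σ (MvPolynomial X Qbar) :=
      ∑ l : σ → Fin (k + 1), MvPolynomial.C (G l) * ∏ y, MvPolynomial.X y ^ (l y : ℕ) with hB
    have hBm : ∀ (x : X → ℂ) (w : σ → ℂ), MvPolynomial.eval₂
        (MvPolynomial.aeval x : MvPolynomial X Qbar →ₐ[Qbar] ℂ).toRingHom w B =
        ∑ l : σ → Fin (k + 1), MvPolynomial.aeval x (G l) * ∏ y, w y ^ (l y : ℕ) := by
      intro x w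
      have h6 : MvPolynomial.eval₂ (MvPolynomial.aeval x : MvPolynomial X Qbar →ₐ[Qbar] ℂ).toRingHom w B =
        MvPolynomial.eval₂Hom (MvPolynomial.aeval x : MvPolynomial X Qbar →ₐ[Qbar] ℂ).toRingHom w B := rfl
      rw [h6, hB]
      simp only [map_sum, map_mul, map_prod, map_pow, MvPolynomial.eval₂Hom_C, MvPolynomial.eval₂Hom_X']
      rfl
    apply hbad
    refine ⟨B, fun y => ?_, fun x hx => ?_, ?_⟩
    · rw [hB]
      refine (MvPolynomial.degreeOf_sum_le y Finset.univ _).trans (Finset.sup_le fun l _ => ?_)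
      refine (MvPolynomial.degreeOf_C_mul_le _ y _).trans ?_
      have h7 : (∏ y, (MvPolynomial.X y : MvPolynomial σ (MvPolynomial X Qbar)) ^ (l y : ℕ)) =
          MvPolynomial.monomial (Finsupp.equivFunOnFinite.symm fun y => (l y : ℕ)) 1 := by
        rw [MvPolynomial.monomial_eq, map_one, one_mul, Finsupp.prod_fintype _ _ fun i => pow_zero _]
        rfl
      rw [h7, MvPolynomial.degreeOf_monomial_eq _ _ one_ne_zero]
      exact Nat.lt_succ_iff.1 (l y).2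
    · rw [hBm]
      refine Eq.trans ?_ (hG2 x hx ())
      refine Finset.sum_congr rfl fun l _ => ?_
      rw [XiQ_sum]
    · refine MvPolynomial.funext fun w => ?_
      rw [← sum_exp hdeg' w, MvPolynomial.eval_map, hBm]
      refine Finset.sum_congr rfl fun l _ => ?_
      rw [hG1 l, MvPolynomial.coeff_map]
      rfl

theorem excQ_omega {σ : Type} [Fintype σ] [DecidableEq σ] [Nonempty X] {U : Set (X → ℂ)} {f : σ → (X → ℂ) → ℂ}
    (hU : IsPreconnected U) (hUo : IsOpen U) (hne : U.Nonempty) (hf : ∀ i, AnalyticOnNhd ℂ (f i) U)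
    (hreg : RegularM U f) :
    OmegaStm (fun k K [Field K] [NumberField K] io (_ : Fin k → ℂ) T => ExcQ U f K io k T) := by
  classical
  refine omega_of_cov (fun k K _ _ io ξ T s hs => hs.1) fun k ε hε => ?_
  obtain ⟨D, C, T₀, hC, hT₀, H⟩ := excM_cov stmZ stmClose stmCharts hU hUo hne hf hreg (InnerM U (k + 1))
    (innerM_compact _ _) (innerM_sub _ (Nat.succ_pos k)) (k + 1) (σ → Fin (k + 1 + 1)) Unit (k + 1)
    ((k + 1 : ℕ) : ℝ) ε hε
  refine ⟨D, C, T₀, hC, hT₀, fun K _ _ hK io ξ T hT => ?_⟩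
  exact (H K hK io (XiQ σ (k + 1)) T hT).mono le_rfl le_rfl (Set.image_mono (excQ_sub io))

end one

variable {κ : Type} [Fintype κ] [DecidableEq κ] {X ι : κ → Type} [∀ j, Fintype (X j)] [∀ j, DecidableEq (X j)]
  [∀ j, Fintype (ι j)] [∀ j, DecidableEq (ι j)]
  {U : ∀ j, Set (X j → ℂ)} {Y : ∀ j, (X j → ℂ) → Matrix (ι j) (ι j) ℂ}

/-- **All small relations are specializations of functional relations over the algebraic numbers.** -/
theorem main_Q [Nonempty (Σ j, X j)] (hU : ∀ j, IsPreconnected (U j)) (hUo : ∀ j, IsOpen (U j))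
    (hne : ∀ j, (U j).Nonempty) (hY : ∀ j a b, AnalyticOnNhd ℂ (fun x => Y j x a b) (U j))
    (hdet : ∀ j, ∀ x ∈ U j, (Y j x).det ≠ 0) {c : ∀ j, MvPolynomial (X j) ℂ} (hc0 : ∀ j, c j ≠ 0)
    {B : ∀ j, X j → Matrix (ι j) (ι j) (MvPolynomial (X j) ℂ)} (hc : ∀ j, Connection (U j) (Y j) (c j) (B j))
    (hconn : ∀ j, Conn (Gal (U j) (Y j))) :
    ∃ (ω : ℝ → ℕ) (T₀ : ℝ), Tendsto ω atTop atTop ∧ Monotone ω ∧ ∀ T, T₀ ≤ T → 0 < ω T ∧
      ∀ (K : Type) [Field K] [NumberField K], Module.finrank ℚ K ≤ ω T → ∀ (io : K →+* ℂ),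
        Cov ⌊T ^ ((ω T : ℝ)⁻¹)⌋₊ ⌊T ^ ((ω T : ℝ)⁻¹)⌋₊
          ((fun (s : (Σ j, X j) → K) i => io (s i)) '' ExcQ (UU U) (fE Y) K io (ω T) T) ∧
        (ExcQ (UU U) (fE Y) K io (ω T) T).Finite ∧
        ((ExcQ (UU U) (fE Y) K io (ω T) T).ncard : ℝ) ≤
          T ^ ((ω T : ℝ)⁻¹) * ({x : K | Y120.HtLe K T x}.ncard : ℝ) ^ (Fintype.card (Σ j, X j) - 1) := by
  have hreg := reg_prod hU hUo hne hY hdet hc0 hc hconn
  have hreg' : RegularM (UU U) (fE Y) := by
    have h1 := RegularM_comp hreg (fun s : Σ j, ι j × ι j => (((⟨s.1, s.2.1⟩ : Σ j, ι j), (⟨s.1, s.2.2⟩ : Σ j, ι j))))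
    have h2 : (fun (s : Σ j, ι j × ι j) (z : (Σ j, X j) → ℂ) => YY Y z ⟨s.1, s.2.1⟩ ⟨s.1, s.2.2⟩) = fE Y := by
      funext s z
      exact YY_eq z s.1 s.2.1 s.2.2
    rw [← h2]
    exact h1
  obtain ⟨ω, T₀, h1, h2, h3⟩ := excQ_omega (UU_preconn hU) (UU_open hUo) (UU_ne hne) (fE_an hY) hreg'
  exact ⟨ω, T₀, h1, h2, fun T hT => ⟨(h3 T hT).1, fun K _ _ hK io => (h3 T hT).2 K hK io fun _ => 0⟩⟩

end Pool.Agent.V11273.PV
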