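import Pool.Agent.V11273.PV.G10

/-!
# Independent periods at arbitrary base points
-/

set_option autoImplicit false
set_option linter.unusedSectionVars false

open Filter Topology NumberField

namespace Pool.Agent.V11273.PV

open Pool.Agent.Y890.MV
open Pool.Agent.Y124 (Cov)

/-- exchange in the matroid of algebraic independence -/
theorem exchange {L : Type} [Field L] [Algebra ℂ L] {Z S : Type} [Fintype Z] [Fintype S] [DecidableEq S] {z : Z → L}
    {F : S → L} (hz : AlgebraicIndependent ℂ z) (hF : AlgebraicIndependent ℂ F) (n : ℕ)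
    (hn : n + Fintype.card Z ≤ Fintype.card S) :
    ∃ A : Finset S, A.card = n ∧ AlgebraicIndependent ℂ (Sum.elim (fun a : A => F a) z) := by
  classical
  let M := AlgebraicIndependent.matroid ℂ L
  have hI : M.Indep (Set.range z) := hz.coe_range
  have hJ : M.Indep (Set.range F) := hF.coe_range
  obtain ⟨B, hB, hIB⟩ := hI.subset_isBasis_of_subset (X := Set.range z ∪ Set.range F) Set.subset_union_left
  obtain ⟨B', hB', hJB'⟩ := hJ.subset_isBasis_of_subset (X := Set.range z ∪ Set.range F) Set.subset_union_right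
  have h1 : B.encard = B'.encard := hB.encard_eq_encard hB'
  have h2 : (Set.range F).encard ≤ B.encard := h1 ▸ Set.encard_le_encard hJB'
  let A₀ : Finset S := Finset.univ.filter fun s => F s ∈ B \ Set.range z
  have h3 : B \ Set.range z = F '' (A₀ : Set S) := by
    ext y
    constructor
    · rintro ⟨hy, hyz⟩
      rcases hB.subset hy with h | ⟨s, rfl⟩
      · exact absurd h hyz
      · exact ⟨s, by simp [A₀, hy]; simpa using hyz, rfl⟩
    · rintro ⟨s, hs, rfl⟩
      simp only [A₀, Finset.coe_filter, Finset.mem_univ, true_and, Set.mem_ofPred_eq] at hs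
      exact hs
  have hzi : Function.Injective z := hz.injective
  have hFi : Function.Injective F := hF.injective
  have h4 : (Set.range F).encard = Fintype.card S := by
    rw [← Set.image_univ, hFi.encard_image, Set.encard_univ, ENat.card_eq_coe_fintype_card]
  have h5 : (Set.range z).encard = Fintype.card Z := by
    rw [← Set.image_univ, hzi.encard_image, Set.encard_univ, ENat.card_eq_coe_fintype_card]
  have h6 : (B \ Set.range z).encard = A₀.card := by
    rw [h3, hFi.encard_image, Set.encard_coe_eq_coe_finsetCard]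
  have h7 : (B \ Set.range z).encard + (Set.range z).encard = B.encard := Set.encard_sdiff_add_encard_of_subset hIB
  rw [h4, ← h7, h5, h6] at h2
  have h8 : Fintype.card S ≤ A₀.card + Fintype.card Z := by exact_mod_cast h2
  obtain ⟨A, hA, hAc⟩ := Finset.exists_subset_card_eq (show n ≤ A₀.card by omega)
  refine ⟨A, hAc, ?_⟩
  have hBi : AlgebraicIndependent ℂ ((↑) : B → L) := hB.indep
  have hmem : ∀ s : A ⊕ Z, Sum.elim (fun a : A => F a) z s ∈ B := by
    rintro (a | i)
    · have h9 : F a ∈ B \ Set.range z := by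
        rw [h3]
        exact ⟨a, hA a.2, rfl⟩
      exact h9.1
    · exact hIB ⟨i, rfl⟩
  have hni : ∀ a : A, F a ∉ Set.range z := by
    intro a
    have h9 : F a ∈ B \ Set.range z := by
      rw [h3]
      exact ⟨a, hA a.2, rfl⟩
    exact h9.2
  refine hBi.comp (fun s : A ⊕ Z => (⟨Sum.elim (fun a : A => F a) z s, hmem s⟩ : B)) ?_
  rintro (a | i) (a' | i') h
  · have := hFi (congrArg Subtype.val h)
    exact congrArg Sum.inl (Subtype.ext this)
  · exact absurd ⟨i', (congrArg Subtype.val h).symm⟩ (hni a)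
  · exact absurd ⟨i, congrArg Subtype.val h⟩ (hni a')
  · exact congrArg Sum.inr (hzi (congrArg Subtype.val h))

theorem eval_sumAlg {V X : Type} (p : MvPolynomial (V ⊕ X) ℂ) (w : V → ℂ) (x : X → ℂ) :
    MvPolynomial.eval₂ (MvPolynomial.eval x) w (MvPolynomial.sumAlgEquiv ℂ V X p) = MvPolynomial.eval (Sum.elim w x) p := by
  have h : (MvPolynomial.eval₂Hom (MvPolynomial.eval x) w).comp
      ((MvPolynomial.sumAlgEquiv ℂ V X).toAlgHom : MvPolynomial (V ⊕ X) ℂ →+* _) =
      MvPolynomial.eval (Sum.elim w x) := by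
    refine MvPolynomial.ringHom_ext (fun a => ?_) fun s => ?_
    · simp
    · rcases s with v | i
      · simp
      · simp
  exact congrArg (fun f : MvPolynomial (V ⊕ X) ℂ →+* ℂ => f p) h

/-- **Independent functions composed with a map with open image.** -/
theorem exists_pull {X V : Type} [Fintype X] [DecidableEq X] [Fintype V] [DecidableEq V] {U U' : Set (X → ℂ)}
    {f : V → (X → ℂ) → ℂ} (hU : IsPreconnected U) (hf : ∀ v, AnalyticOnNhd ℂ (f v) U)
    (hind : ∀ p : MvPolynomial V (MvPolynomial X ℂ), (∀ x ∈ U, evM f x p = 0) → p = 0)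
    (hU' : IsPreconnected U') (hUo' : IsOpen U') (hne' : U'.Nonempty) {h : (X → ℂ) → X → ℂ}
    (hh : AnalyticOnNhd ℂ h U') (hmap : Set.MapsTo h U' U) (hint : (interior (h '' U')).Nonempty) :
    ∃ A : Finset (V ⊕ X), A.card = Fintype.card V ∧ ∀ p : MvPolynomial A (MvPolynomial X ℂ),
      (∀ z ∈ U', evM (fun (a : A) z => Sum.elim (fun v => f v (h z)) (h z) a.1) z p = 0) → p = 0 := by
  classical
  set g : V ⊕ X → (X → ℂ) → ℂ := fun s z => Sum.elim (fun v => f v (h z)) (h z) s with hg
  have hgan : ∀ s, AnalyticOnNhd ℂ (g s) U' := by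
    rintro (v | i)
    · exact fun z hz => (hf v (h z) (hmap hz)).comp (hh z hz)
    · intro z hz
      exact ((ContinuousLinearMap.proj (R := ℂ) (φ := fun _ : X => ℂ) i).analyticAt (h z)).comp (hh z hz)
  obtain ⟨L, _, _, _, F, hz, hfrac⟩ := exists_fieldM hU' hUo' hne' hgan
  letI : Algebra ℂ L := ((algebraMap (MvPolynomial X ℂ) L).comp MvPolynomial.C).toAlgebra
  haveI : IsScalarTower ℂ (MvPolynomial X ℂ) L := IsScalarTower.of_algebraMap_eq fun _ => rfl
  have hinj : Function.Injective (algebraMap (MvPolynomial X ℂ) L) := FaithfulSMul.algebraMap_injective _ _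
  -- the coordinates are independent
  have hzz : AlgebraicIndependent ℂ (fun i : X => algebraMap (MvPolynomial X ℂ) L (MvPolynomial.X i)) := by
    rw [algebraicIndependent_iff]
    intro p hp
    have h1 : MvPolynomial.aeval (fun i : X => algebraMap (MvPolynomial X ℂ) L (MvPolynomial.X i)) p =
        algebraMap (MvPolynomial X ℂ) L p := by
      have h0 : (MvPolynomial.aeval fun i : X => algebraMap (MvPolynomial X ℂ) L (MvPolynomial.X i)) =
          IsScalarTower.toAlgHom ℂ (MvPolynomial X ℂ) L := by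
        refine MvPolynomial.algHom_ext fun i => ?_
        simp
      rw [h0]
      rfl
    rw [h1] at hp
    exact hinj (hp.trans (map_zero _).symm)
  -- the functions are independent over the constants
  have hFF : AlgebraicIndependent ℂ F := by
    rw [algebraicIndependent_iff]
    intro p hp
    have h1 : MvPolynomial.aeval F (p.map (MvPolynomial.C : ℂ →+* MvPolynomial X ℂ)) = 0 := by
      rw [← hp, MvPolynomial.aeval_def, MvPolynomial.eval₂_map, MvPolynomial.aeval_def]
      rfl
    have h2 := (hz _).1 h1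
    have h3 : ∀ z ∈ U', MvPolynomial.eval (Sum.elim (fun v => f v (h z)) (h z)) p = 0 := by
      intro z hzU
      have h4 := h2 z hzU
      unfold evM at h4
      rw [MvPolynomial.eval₂_map] at h4
      have h5 : (MvPolynomial.eval z).comp (MvPolynomial.C : ℂ →+* MvPolynomial X ℂ) = RingHom.id ℂ := by
        ext a
        simp
      rw [h5] at h4
      exact h4
    set q := MvPolynomial.sumAlgEquiv ℂ V X p with hq
    have h4 : ∀ z ∈ U', evM f (h z) q = 0 := by
      intro z hzU
      unfold evM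
      rw [hq, eval_sumAlg]
      exact h3 z hzU
    obtain ⟨y, hy⟩ := hint
    have hyU : y ∈ U := by
      obtain ⟨z, hzU, rfl⟩ := interior_subset hy
      exact hmap hzU
    have h5 : Set.EqOn (fun x => evM f x q) 0 U := by
      refine (evM_an hf q).eqOn_zero_of_preconnected_of_eventuallyEq_zero hU hyU ?_
      filter_upwards [isOpen_interior.mem_nhds hy] with x hx
      obtain ⟨z, hzU, rfl⟩ := interior_subset hx
      exact h4 z hzU
    have h6 : q = 0 := hind q fun x hx => h5 hx
    exact (map_eq_zero_iff _ (MvPolynomial.sumAlgEquiv ℂ V X).injective).1 h6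
  obtain ⟨A, hA, hAi⟩ := exchange hzz hFF (Fintype.card V) (by rw [Fintype.card_sum])
  refine ⟨A, hA, fun p hp => ?_⟩
  have h1 : MvPolynomial.aeval F (MvPolynomial.rename (fun a : A => a.1) p) = 0 := by
    rw [hz]
    intro z hzU
    have h2 := hp z hzU
    unfold evM at h2 ⊢
    rw [MvPolynomial.eval₂_rename]
    exact h2
  rw [MvPolynomial.aeval_rename] at h1
  have h3 : MvPolynomial.aeval (Sum.elim (fun a : A => F a) fun i : X => algebraMap (MvPolynomial X ℂ) L (MvPolynomial.X i))
      ((MvPolynomial.sumAlgEquiv ℂ A X).symm p) = MvPolynomial.aeval (F ∘ fun a : A => a.1) p := by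
    obtain ⟨r, rfl⟩ := (MvPolynomial.sumAlgEquiv ℂ A X).surjective p
    rw [AlgEquiv.symm_apply_apply]
    have h4 : ((MvPolynomial.aeval (F ∘ fun a : A => a.1) : MvPolynomial A (MvPolynomial X ℂ) →ₐ[MvPolynomial X ℂ] L).restrictScalars
        ℂ).comp (MvPolynomial.sumAlgEquiv ℂ A X).toAlgHom =
        MvPolynomial.aeval (Sum.elim (fun a : A => F a) fun i : X => algebraMap (MvPolynomial X ℂ) L (MvPolynomial.X i)) := by
      refine MvPolynomial.algHom_ext fun s => ?_
      rcases s with a | i
      · simp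
      · simp
    exact congrArg (fun f : MvPolynomial (A ⊕ X) ℂ →ₐ[ℂ] L => f r) h4.symm
  rw [h1] at h3
  have h5 := hAi (h3.trans (map_zero _).symm)
  exact (map_eq_zero_iff _ (MvPolynomial.sumAlgEquiv ℂ A X).symm.injective).1 h5

/-- the coordinates of the point `h z` and the entries of the matrix at this point -/
noncomputable def vh {X ι : Type} (Y : (X → ℂ) → Matrix ι ι ℂ) (h : (X → ℂ) → X → ℂ) (z : X → ℂ) : (ι × ι) ⊕ X → ℂ :=
  Sum.elim (fun v => Y (h z) v.1 v.2) (h z)

theorem exists_pull' {X ι : Type} [Fintype X] [DecidableEq X] [Fintype ι] [DecidableEq ι] {U U' : Set (X → ℂ)}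
    {Y : (X → ℂ) → Matrix ι ι ℂ} (hU : IsPreconnected U) (hY : ∀ a b, AnalyticOnNhd ℂ (fun x => Y x a b) U)
    {V : Finset (ι × ι)} (hind : Indep U Y (fun v : V => v.1))
    (hU' : IsPreconnected U') (hUo' : IsOpen U') (hne' : U'.Nonempty) {h : (X → ℂ) → X → ℂ}
    (hh : AnalyticOnNhd ℂ h U') (hmap : Set.MapsTo h U' U) (hint : (interior (h '' U')).Nonempty) :
    ∃ A : Finset ((ι × ι) ⊕ X), A.card = V.card ∧
      Indep U' (fun z (a _ : (ι × ι) ⊕ X) => vh Y h z a) (fun a : A => (a.1, a.1)) := by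
  classical
  obtain ⟨A, hA, hAi⟩ := exists_pull (f := fun (v : V) x => Y x v.1.1 v.1.2) hU (fun v => hY v.1.1 v.1.2) hind
    hU' hUo' hne' hh hmap hint
  let φ : V ⊕ X ↪ (ι × ι) ⊕ X := ⟨Sum.map Subtype.val id, Sum.map_injective.2 ⟨Subtype.val_injective, Function.injective_id⟩⟩
  refine ⟨A.map φ, by rw [Finset.card_map, hA, Fintype.card_coe], fun p hp => ?_⟩
  let e : {a // a ∈ A.map φ} → A := fun a =>
    ⟨(Finset.mem_map.1 a.2).choose, (Finset.mem_map.1 a.2).choose_spec.1⟩
  have he : ∀ a, φ (e a).1 = a.1 := fun a => (Finset.mem_map.1 a.2).choose_spec.2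
  have hei : Function.Injective e := by
    intro a b hab
    refine Subtype.ext ?_
    rw [← he a, ← he b, hab]
  have h1 : MvPolynomial.rename e p = 0 := by
    refine hAi _ fun z hz => ?_
    rw [← hp z hz]
    unfold evM
    rw [MvPolynomial.eval₂_rename]
    congr 1
    funext a
    change Sum.elim (fun v : V => Y (h z) v.1.1 v.1.2) (h z) (e a).1 = vh Y h z a.1
    rw [← he a]
    generalize (e a).1 = b
    rcases b with v | i <;> rfl
  exact (map_eq_zero_iff _ (MvPolynomial.rename_injective e hei)).1 h1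

variable {κ : Type} [Fintype κ] [DecidableEq κ] {X ι : κ → Type} [∀ j, Fintype (X j)] [∀ j, DecidableEq (X j)]
  [∀ j, Fintype (ι j)] [∀ j, DecidableEq (ι j)]
  {U U' : ∀ j, Set (X j → ℂ)} {Y : ∀ j, (X j → ℂ) → Matrix (ι j) (ι j) ℂ}

/-- **As many independent numbers as the dimension of the Galois groups, at arbitrary base points.** -/
theorem main_pull [Nonempty (Σ j, X j)] (hU : ∀ j, IsPreconnected (U j)) (hUo : ∀ j, IsOpen (U j))
    (hne : ∀ j, (U j).Nonempty) (hY : ∀ j a b, AnalyticOnNhd ℂ (fun x => Y j x a b) (U j))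
    (hdet : ∀ j, ∀ x ∈ U j, (Y j x).det ≠ 0) {c : ∀ j, MvPolynomial (X j) ℂ} (hc0 : ∀ j, c j ≠ 0)
    {B : ∀ j, X j → Matrix (ι j) (ι j) (MvPolynomial (X j) ℂ)} (hc : ∀ j, Connection (U j) (Y j) (c j) (B j))
    (hU' : ∀ j, IsPreconnected (U' j)) (hUo' : ∀ j, IsOpen (U' j)) (hne' : ∀ j, (U' j).Nonempty)
    {h : ∀ j, (X j → ℂ) → X j → ℂ} (hh : ∀ j, AnalyticOnNhd ℂ (h j) (U' j))
    (hmap : ∀ j, Set.MapsTo (h j) (U' j) (U j)) (hint : ∀ j, (interior (h j '' U' j)).Nonempty) :
    ∃ A : ∀ j, Finset ((ι j × ι j) ⊕ X j), (∀ j, (A j).card = gdim (Gal (U j) (Y j))) ∧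
      OmegaStm (fun k K [Field K] [NumberField K] io ξ T =>
        ExcB (UU U') (fV (fun j z (a _ : (ι j × ι j) ⊕ X j) => vh (Y j) (h j) z a) (V := fun j => A j)
          fun _ a => (a.1, a.1)) (fun _ P => P ≠ 0) K io k ξ T) := by
  classical
  choose V' hV'c hV' using fun j => gdim_exists (Gal (U j) (Y j))
  choose V hVc hV using fun j => exists_indep (hU j) (hUo j) (hne j) (hY j) (hdet j) (hc0 j) (hc j) (V' j) (hV' j)
  choose A hAc hA using fun j => exists_pull' (hU j) (hY j) (hV j) (hU' j) (hUo' j) (hne' j) (hh j) (hmap j) (hint j)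
  refine ⟨A, fun j => (hAc j).trans ((hVc j).trans (hV'c j)), ?_⟩
  refine main_indep (V := fun j => A j) (e := fun _ a => (a.1, a.1)) hU' hUo' hne' (fun j a b => ?_) hA
  rcases a with v | i
  · exact fun z hz => (hY j v.1 v.2 (h j z) (hmap j hz)).comp (hh j z hz)
  · intro z hz
    exact ((ContinuousLinearMap.proj (R := ℂ) (φ := fun _ : X j => ℂ) i).analyticAt (h j z)).comp (hh j z hz)

end Pool.Agent.V11273.PV
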