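import Pool.Agent.V11273.PV.G15

/-!
# Restriction to generic lines
-/

set_option autoImplicit false
set_option linter.unusedSectionVars false

open Filter Topology NumberField

namespace Pool.Agent.V11273.PV

open Pool.Agent.Y890.MV
open Pool.Agent.Y124 (Cov)

variable {X : Type} [Fintype X] [DecidableEq X]

theorem exists_fderiv_ne {U : Set (X → ℂ)} (hU : IsPreconnected U) (hUo : IsOpen U) (hne : U.Nonempty)
    {g : (X → ℂ) → ℂ} (hg : AnalyticOnNhd ℂ g U) (hnc : ∀ c : ℂ, ∃ z ∈ U, g z ≠ c) : ∃ z ∈ U, fderiv ℂ g z ≠ 0 := by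
  by_contra hcon
  push Not at hcon
  obtain ⟨z₀, hz₀⟩ := hne
  obtain ⟨z, hz, hzn⟩ := hnc (g z₀)
  exact hzn (hUo.is_const_of_fderiv_eq_zero hU hg.differentiableOn (fun x hx => hcon x hx) hz hz₀)

/-- a direction in which countably many functions are not constant -/
theorem exists_direction {U : Set (X → ℂ)} (hU : IsPreconnected U) (hUo : IsOpen U) (hne : U.Nonempty)
    {I : Type} [Countable I] {g : I → (X → ℂ) → ℂ} (hg : ∀ i, AnalyticOnNhd ℂ (g i) U)
    (hnc : ∀ i, ∀ c : ℂ, ∃ z ∈ U, g i z ≠ c) : ∃ v : X → ℂ, ∀ i, ∃ z ∈ U, fderiv ℂ (g i) z v ≠ 0 := by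
  choose z hz hz' using fun i => exists_fderiv_ne hU hUo hne (hg i) (hnc i)
  have h1 : ∀ i, IsOpen {v : X → ℂ | fderiv ℂ (g i) (z i) v ≠ 0} := fun i =>
    isOpen_ne_fun (fderiv ℂ (g i) (z i)).continuous continuous_const
  have h2 : ∀ i, Dense {v : X → ℂ | fderiv ℂ (g i) (z i) v ≠ 0} := by
    intro i
    have h3 : interior ((LinearMap.ker (fderiv ℂ (g i) (z i)).toLinearMap : Submodule ℂ (X → ℂ)) : Set (X → ℂ)) = ∅ := by
      by_contra hcon
      have h4 := Submodule.eq_top_of_nonempty_interior' _ (Set.nonempty_iff_ne_empty.2 hcon)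
      apply hz' i
      ext v
      have h5 : v ∈ LinearMap.ker (fderiv ℂ (g i) (z i)).toLinearMap := by
        rw [h4]
        exact Submodule.mem_top
      simpa using h5
    rw [interior_eq_empty_iff_dense_compl] at h3
    exact h3
  obtain ⟨v, hv⟩ := (dense_iInter_of_isOpen h1 h2).nonempty
  exact ⟨v, fun i => ⟨z i, hz i, Set.mem_iInter.1 hv i⟩⟩

/-- a common point at which countably many nonzero functions do not vanish -/
theorem exists_point {U : Set (X → ℂ)} (hU : IsPreconnected U) (hUo : IsOpen U) (hne : U.Nonempty)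
    {I : Type} [Countable I] {G : I → (X → ℂ) → ℂ} (hG : ∀ i, AnalyticOnNhd ℂ (G i) U)
    (hnz : ∀ i, ∃ z ∈ U, G i z ≠ 0) : ∃ z ∈ U, ∀ i, G i z ≠ 0 := by
  have h1 : ∀ i, IsOpen ((closure U)ᶜ ∪ {z | z ∈ U ∧ G i z ≠ 0}) := by
    intro i
    refine isClosed_closure.isOpen_compl.union ?_
    have h2 : {z | z ∈ U ∧ G i z ≠ 0} = U ∩ (G i) ⁻¹' {0}ᶜ := rfl
    rw [h2]
    exact (hG i).continuousOn.isOpen_inter_preimage hUo isOpen_compl_singleton
  have h2 : ∀ i, Dense ((closure U)ᶜ ∪ {z | z ∈ U ∧ G i z ≠ 0}) := by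
    intro i
    have h3 : U ⊆ closure {z | z ∈ U ∧ G i z ≠ 0} := by
      intro y hy
      by_contra hcon
      obtain ⟨z, hz, hzn⟩ := hnz i
      apply hzn
      refine (hG i).eqOn_zero_of_preconnected_of_eventuallyEq_zero hU hy ?_ hz
      filter_upwards [isClosed_closure.isOpen_compl.mem_nhds hcon, hUo.mem_nhds hy] with x hx hxU
      by_contra hx0
      exact hx (subset_closure ⟨hxU, hx0⟩)
    intro y
    by_cases hy : y ∈ closure U
    · have h4 := closure_mono h3 hy
      rw [closure_closure] at h4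
      exact closure_mono Set.subset_union_right h4
    · exact subset_closure (Or.inl hy)
  obtain ⟨z, hz, hzU⟩ := (dense_iInter_of_isOpen h1 h2).exists_mem_open hUo hne
  refine ⟨z, hzU, fun i => ?_⟩
  rcases Set.mem_iInter.1 hz i with h | h
  · exact absurd (subset_closure hzU) h
  · exact h.2

/-- **a generic line** -/
theorem exists_line {U : Set (X → ℂ)} (hU : IsPreconnected U) (hUo : IsOpen U) (hne : U.Nonempty)
    {I : Type} [Countable I] {g : I → (X → ℂ) → ℂ} (hg : ∀ i, AnalyticOnNhd ℂ (g i) U)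
    (hnc : ∀ i, ∀ c : ℂ, ∃ z ∈ U, g i z ≠ c) (c : MvPolynomial X ℂ) (hc : c ≠ 0) :
    ∃ (v z₀ : X → ℂ) (r : ℝ), 0 < r ∧ (∀ t ∈ Metric.ball (0 : ℂ) r, z₀ + t • v ∈ U) ∧ MvPolynomial.eval z₀ c ≠ 0 ∧
      ∀ i, ∀ a : ℂ, ∃ t ∈ Metric.ball (0 : ℂ) r, g i (z₀ + t • v) ≠ a := by
  obtain ⟨v, hv⟩ := exists_direction hU hUo hne hg hnc
  let G : Option I → (X → ℂ) → ℂ := fun o z => o.elim (MvPolynomial.eval z c) fun i => fderiv ℂ (g i) z v
  have hGan : ∀ o, AnalyticOnNhd ℂ (G o) U := by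
    rintro (_ | i)
    · intro z _
      have h1 := AnalyticAt.aeval_mvPolynomial (𝕜 := ℂ) (f := fun z : X → ℂ => z) (z := z)
        (fun i => (ContinuousLinearMap.proj (R := ℂ) (φ := fun _ : X => ℂ) i).analyticAt z) c
      have h2 : (fun x : X → ℂ => MvPolynomial.aeval x c) = fun x => MvPolynomial.eval x c := by
        funext x
        rw [MvPolynomial.aeval_def, MvPolynomial.eval₂_eq_eval_map]
        simp
      change AnalyticAt ℂ (fun x => MvPolynomial.eval x c) z
      rw [← h2]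
      exact h1
    · intro z hz
      exact ((ContinuousLinearMap.apply ℂ ℂ v).analyticAt _).comp ((hg i).fderiv z hz)
  obtain ⟨z₀, hz₀, hz₀'⟩ := exists_point (G := G) hU hUo hne hGan (by
    rintro (_ | i)
    · by_contra hcon
      push Not at hcon
      exact hc (poly_zero hUo hne c fun z hz => hcon z hz)
    · exact hv i)
  have hcont : Continuous fun t : ℂ => z₀ + t • v := by fun_prop
  have hpre : IsOpen ((fun t : ℂ => z₀ + t • v) ⁻¹' U) := hUo.preimage hcont
  obtain ⟨r, hr, hrU⟩ := Metric.isOpen_iff.1 hpre 0 (by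
    change z₀ + (0 : ℂ) • v ∈ U
    rw [zero_smul, add_zero]
    exact hz₀)
  refine ⟨v, z₀, r, hr, fun t ht => hrU ht, hz₀' none, fun i a => ?_⟩
  by_contra hcon
  push Not at hcon
  have h1 : HasDerivAt (fun t : ℂ => z₀ + t • v) v 0 := by
    have h2 := ((hasDerivAt_id (0 : ℂ)).smul_const v).const_add z₀
    simpa using h2
  have h2 : HasFDerivAt (g i) (fderiv ℂ (g i) z₀) (z₀ + (0 : ℂ) • v) := by
    rw [zero_smul, add_zero]
    exact ((hg i) z₀ hz₀).differentiableAt.hasFDerivAt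
  have h3 : HasDerivAt (fun t : ℂ => g i (z₀ + t • v)) (fderiv ℂ (g i) z₀ v) 0 := h2.comp_hasDerivAt 0 h1
  have h4 : HasDerivAt (fun t : ℂ => g i (z₀ + t • v)) 0 0 := by
    refine (hasDerivAt_const (0 : ℂ) a).congr_of_eventuallyEq ?_
    filter_upwards [Metric.ball_mem_nhds (0 : ℂ) hr] with t ht
    exact hcon t ht
  exact hz₀' (some i) (h3.unique h4)

/-- **Choosing independent functions of several variables.** -/
theorem choose_multi {N : Type} [Fintype N] [DecidableEq N] {U : Set (X → ℂ)} {f : N → (X → ℂ) → ℂ} {m : ℕ}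
    (H : ∀ c : MvPolynomial X ℂ, c ≠ 0 → ∃ (v z₀ : X → ℂ) (r : ℝ), 0 < r ∧ (∀ t ∈ Metric.ball (0 : ℂ) r, z₀ + t • v ∈ U) ∧
      MvPolynomial.eval z₀ c ≠ 0 ∧ ∃ e : Fin m → N, Function.Injective e ∧
        Y124.LocInd (fun k (t : ℂ) => f (e k) (z₀ + t • v)) 0) :
    ∃ A : Finset N, A.card = m ∧ ∀ p : MvPolynomial A (MvPolynomial X ℂ),
      (∀ x ∈ U, evM (fun a : A => f a.1) x p = 0) → p = 0 := by
  classical
  by_contra hcon
  push Not at hcon
  choose p hp hp0 using hcon
  have hmon : ∀ A (hA : A.card = m), ∃ μ, (p A hA).coeff μ ≠ 0 := fun A hA => MvPolynomial.ne_zero_iff.1 (hp0 A hA)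
  choose μ hμ using hmon
  let cA : Finset N → MvPolynomial X ℂ := fun A => if hA : A.card = m then (p A hA).coeff (μ A hA) else 1
  have hcA : ∀ A, cA A ≠ 0 := by
    intro A
    by_cases hA : A.card = m
    · simp only [cA, dif_pos hA]
      exact hμ A hA
    · simp only [cA, dif_neg hA]
      exact one_ne_zero
  obtain ⟨v, z₀, r, hr, hrU, hz₀, e, he, hL⟩ := H (∏ A : Finset N, cA A) (Finset.prod_ne_zero_iff.2 fun A _ => hcA A)
  rw [map_prod] at hz₀
  set A : Finset N := Finset.univ.map ⟨e, he⟩ with hAdef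
  have hA : A.card = m := by rw [hAdef, Finset.card_map, Finset.card_univ, Fintype.card_fin]
  have hzA : MvPolynomial.eval z₀ ((p A hA).coeff (μ A hA)) ≠ 0 := by
    have h1 := Finset.prod_ne_zero_iff.1 hz₀ A (Finset.mem_univ A)
    simp only [cA, dif_pos hA] at h1
    exact h1
  have hmem : ∀ a : A, ∃ k, e k = a.1 := fun a => by
    have h1 : (a.1 : N) ∈ Finset.univ.map (⟨e, he⟩ : Fin m ↪ N) := a.2
    obtain ⟨k, -, hk⟩ := Finset.mem_map.1 h1
    exact ⟨k, hk⟩
  choose g hg using hmem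
  have hgi : Function.Injective g := by
    intro a b hab
    refine Subtype.ext ?_
    rw [← hg a, ← hg b, hab]
  let ℓ : MvPolynomial X ℂ →+* MvPolynomial (Option (Fin m)) ℂ :=
    MvPolynomial.eval₂Hom MvPolynomial.C fun i => MvPolynomial.C (z₀ i) + MvPolynomial.C (v i) * MvPolynomial.X none
  let P : MvPolynomial (Option (Fin m)) ℂ := MvPolynomial.eval₂ ℓ (fun a => MvPolynomial.X (some (g a))) (p A hA)
  have hP : ∀ (t : ℂ) (w : Fin m → ℂ), MvPolynomial.eval (fun o : Option (Fin m) => o.elim t w) P =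
      MvPolynomial.eval₂ (MvPolynomial.eval (z₀ + t • v)) (fun a => w (g a)) (p A hA) := by
    intro t w
    change (MvPolynomial.eval fun o : Option (Fin m) => o.elim t w) (MvPolynomial.eval₂ ℓ _ (p A hA)) = _
    rw [MvPolynomial.eval₂_comp_left]
    congr 1
    · refine MvPolynomial.ringHom_ext (fun a => ?_) fun i => ?_
      · simp [ℓ]
      · simp [ℓ, mul_comm]
    · funext a
      simp
  have hP0 : P = 0 := by
    refine hL P ?_
    filter_upwards [Metric.ball_mem_nhds (0 : ℂ) hr] with t ht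
    have h1 := hP t fun k => f (e k) (z₀ + t • v)
    have h2 : (fun o : Option (Fin m) => o.elim t fun k => f (e k) (z₀ + t • v)) =
        fun o : Option (Fin m) => o.elim t fun k => (fun k (t : ℂ) => f (e k) (z₀ + t • v)) k t := rfl
    rw [← h2, h1]
    have h3 := hp A hA (z₀ + t • v) (hrU t ht)
    rw [← h3]
    unfold evM
    congr 1
    funext a
    rw [hg a]
  have h1 : (p A hA).map (MvPolynomial.eval z₀) = 0 := by
    refine MvPolynomial.funext fun w => ?_
    rw [MvPolynomial.eval_map, map_zero]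
    -- extend `w`
    let w' : Fin m → ℂ := fun k => if h : ∃ a, g a = k then w h.choose else 0
    have hw' : ∀ a, w' (g a) = w a := by
      intro a
      have h2 : ∃ b, g b = g a := ⟨a, rfl⟩
      simp only [w', dif_pos h2]
      exact congrArg w (hgi h2.choose_spec)
    have h2 := hP 0 w'
    rw [hP0, map_zero, zero_smul, add_zero] at h2
    simp only [hw'] at h2
    exact h2.symm
  have h2 := congrArg (MvPolynomial.coeff (μ A hA)) h1
  rw [MvPolynomial.coeff_map, MvPolynomial.coeff_zero] at h2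
  exact hzA h2

end Pool.Agent.V11273.PV
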