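import Pool.Agent.V11273.PV.G11

/-!
# Relations with coefficients in the span of arbitrary constants are specializations of functional relations
-/

set_option autoImplicit false
set_option linter.unusedSectionVars false

open Filter Topology NumberField

namespace Pool.Agent.V11273.PV

open Pool.Agent.Y890.MV
open Pool.Agent.Y890.SP (exists_omega Qbar)
open Pool.Agent.Y124 (Cov)

section one

variable {X : Type} [Fintype X] [DecidableEq X]

/-- the tuple `P` of polynomials is the specialization at `x₀` of a tuple `R` over `Qbar[x]` with `∑ ξ i * R i (x, f x) = 0` -/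
def SpecX {σ : Type} (U : Set (X → ℂ)) (f : σ → (X → ℂ) → ℂ) (k : ℕ) {n : ℕ} (ξ : Fin n → ℂ) (x₀ : X → ℂ)
    (P : Fin n → MvPolynomial σ ℂ) : Prop :=
  ∃ R : Fin n → MvPolynomial σ (MvPolynomial X Qbar), (∀ i y, (R i).degreeOf y ≤ k) ∧
    (∀ x ∈ U, ∑ i, ξ i * MvPolynomial.eval₂ (MvPolynomial.aeval x : MvPolynomial X Qbar →ₐ[Qbar] ℂ).toRingHom
      (fun y => f y x) (R i) = 0) ∧
    ∀ i, (R i).map (MvPolynomial.aeval x₀ : MvPolynomial X Qbar →ₐ[Qbar] ℂ).toRingHom = P i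

/-- points with a small relation over the span of the `ξ i` over `K` which is not the specialization of a functional
relation -/
def ExcX {σ : Type} (U : Set (X → ℂ)) (f : σ → (X → ℂ) → ℂ) (K : Type) [Field K] [NumberField K] (io : K →+* ℂ) (k : ℕ)
    (ξ : Fin k → ℂ) (T : ℝ) : Set (X → K) :=
  {s | (∀ j, Y120.HtLe K T (s j)) ∧ (fun j => io (s j)) ∈ InnerM U k ∧ ∃ P : Fin k → MvPolynomial σ (𝓞 K),
    (∀ i y, (P i).degreeOf y ≤ k) ∧
    (∀ i m (φ : K →+* ℂ), ‖φ (((P i).coeff m : 𝓞 K) : K)‖ ≤ T ^ (k : ℝ)) ∧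
    ∑ i, ξ i * MvPolynomial.eval₂ (io.comp (algebraMap (𝓞 K) K)) (fun y => f y fun j => io (s j)) (P i) = 0 ∧
    ¬ SpecX U f k ξ (fun j => io (s j)) fun i => (P i).map (io.comp (algebraMap (𝓞 K) K))}

/-- the system of one relation -/
noncomputable def XiX (σ : Type) [Fintype σ] [DecidableEq σ] (k : ℕ) {n : ℕ} (ξ : Fin n → ℂ) (_ : Unit)
    (l : σ → Fin (k + 1)) (p : (σ → Fin (k + 1)) × Fin n) : ℂ := if p.1 = l then ξ p.2 else 0

theorem XiX_sum {σ : Type} [Fintype σ] [DecidableEq σ] {k n : ℕ} (ξ : Fin n → ℂ) (u : Unit) (l : σ → Fin (k + 1))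
    (c : (σ → Fin (k + 1)) × Fin n → ℂ) : ∑ p, XiX σ k ξ u l p * c p = ∑ i, ξ i * c (l, i) := by
  rw [Fintype.sum_prod_type, Finset.sum_eq_single l]
  · simp [XiX]
  · intro b _ hb
    simp [XiX, hb]
  · simp

/-- evaluation of the sum of monomials -/
theorem mon_eval {σ : Type} [Fintype σ] [DecidableEq σ] {k : ℕ} (G : (σ → Fin (k + 1)) → MvPolynomial X Qbar) (x : X → ℂ)
    (w : σ → ℂ) : MvPolynomial.eval₂ (MvPolynomial.aeval x : MvPolynomial X Qbar →ₐ[Qbar] ℂ).toRingHom w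
      (∑ l : σ → Fin (k + 1), MvPolynomial.C (G l) * ∏ y, MvPolynomial.X y ^ (l y : ℕ)) =
      ∑ l : σ → Fin (k + 1), MvPolynomial.aeval x (G l) * ∏ y, w y ^ (l y : ℕ) := by
  have h6 : ∀ B : MvPolynomial σ (MvPolynomial X Qbar), MvPolynomial.eval₂
      (MvPolynomial.aeval x : MvPolynomial X Qbar →ₐ[Qbar] ℂ).toRingHom w B =
    MvPolynomial.eval₂Hom (MvPolynomial.aeval x : MvPolynomial X Qbar →ₐ[Qbar] ℂ).toRingHom w B := fun _ => rfl
  rw [h6]
  simp only [map_sum, map_mul, map_prod, map_pow, MvPolynomial.eval₂Hom_C, MvPolynomial.eval₂Hom_X']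
  rfl

theorem mon_deg {σ : Type} [Fintype σ] [DecidableEq σ] {k : ℕ} (G : (σ → Fin (k + 1)) → MvPolynomial X Qbar) (y : σ) :
    (∑ l : σ → Fin (k + 1), MvPolynomial.C (G l) * ∏ y, (MvPolynomial.X y : MvPolynomial σ (MvPolynomial X Qbar)) ^
      (l y : ℕ)).degreeOf y ≤ k := by
  refine (MvPolynomial.degreeOf_sum_le y Finset.univ _).trans (Finset.sup_le fun l _ => ?_)
  refine (MvPolynomial.degreeOf_C_mul_le _ y _).trans ?_
  have h7 : (∏ y, (MvPolynomial.X y : MvPolynomial σ (MvPolynomial X Qbar)) ^ (l y : ℕ)) =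
      MvPolynomial.monomial (Finsupp.equivFunOnFinite.symm fun y => (l y : ℕ)) 1 := by
    rw [MvPolynomial.monomial_eq, map_one, one_mul, Finsupp.prod_fintype _ _ fun i => pow_zero _]
    rfl
  rw [h7, MvPolynomial.degreeOf_monomial_eq _ _ one_ne_zero]
  exact Nat.lt_succ_iff.1 (l y).2

theorem excX_sub {σ : Type} [Fintype σ] [DecidableEq σ] {U : Set (X → ℂ)} {f : σ → (X → ℂ) → ℂ}
    {K : Type} [Field K] [NumberField K] (io : K →+* ℂ) {k : ℕ} {T : ℝ} {ξ : Fin k → ℂ} :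
    ExcX U f K io k ξ T ⊆ ExcM U f (InnerM U k) K io (XiX σ k ξ) k T := by
  classical
  rintro s ⟨hs, hin, P, hdeg, hcoef, hzero, hbad⟩
  set io' : 𝓞 K →+* ℂ := io.comp (algebraMap (𝓞 K) K) with hio'
  have hdeg' : ∀ i y, ((P i).map io').degreeOf y ≤ k := fun i y => (degreeOf_map_le' io' (P i) y).trans (hdeg i y)
  refine ⟨hs, hin, fun p => (P p.2).coeff (Finsupp.equivFunOnFinite.symm fun y => (p.1 y : ℕ)),
    fun p φ => hcoef _ _ φ, ?_, ?_⟩
  · intro u
    have h1 : ∀ i, ∑ l : σ → Fin (k + 1), ((P i).map io').coeff (Finsupp.equivFunOnFinite.symm fun y => (l y : ℕ)) *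
        ∏ y, f y (fun i => io (s i)) ^ (l y : ℕ) =
        MvPolynomial.eval₂ io' (fun y => f y fun j => io (s j)) (P i) := by
      intro i
      rw [sum_exp (hdeg' i) (fun y => f y fun i => io (s i)), MvPolynomial.eval_map]
    rw [← hzero]
    simp only [← h1, Finset.mul_sum]
    rw [Finset.sum_comm]
    refine Finset.sum_congr rfl fun l _ => ?_
    rw [XiX_sum, Finset.sum_mul]
    refine Finset.sum_congr rfl fun i _ => ?_
    rw [MvPolynomial.coeff_map]
    simp only [hio', RingHom.comp_apply]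
    ring
  · rintro ⟨G, hG1, hG2⟩
    set x0 : X → ℂ := fun i => io (s i) with hx0
    apply hbad
    refine ⟨fun i => ∑ l : σ → Fin (k + 1), MvPolynomial.C (G (l, i)) * ∏ y, MvPolynomial.X y ^ (l y : ℕ),
      fun i y => mon_deg (fun l => G (l, i)) y, fun x hx => ?_, fun i => ?_⟩
    · have h2 := hG2 x hx ()
      simp only [XiX_sum] at h2
      rw [← h2]
      simp only [mon_eval (fun l => G (l, _)) x]
      simp only [Finset.mul_sum, Finset.sum_mul]
      rw [Finset.sum_comm]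
      refine Finset.sum_congr rfl fun l _ => Finset.sum_congr rfl fun i _ => ?_
      ring
    · refine MvPolynomial.funext fun w => ?_
      rw [← sum_exp (hdeg' i) w, MvPolynomial.eval_map, mon_eval (fun l => G (l, i))]
      refine Finset.sum_congr rfl fun l _ => ?_
      rw [hG1 (l, i), MvPolynomial.coeff_map]
      rfl

theorem excX_omega {σ : Type} [Fintype σ] [DecidableEq σ] [Nonempty X] {U : Set (X → ℂ)} {f : σ → (X → ℂ) → ℂ}
    (hU : IsPreconnected U) (hUo : IsOpen U) (hne : U.Nonempty) (hf : ∀ i, AnalyticOnNhd ℂ (f i) U)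
    (hreg : RegularM U f) :
    OmegaStm (fun k K [Field K] [NumberField K] io (ξ : Fin k → ℂ) T => ExcX U f K io k ξ T) := by
  classical
  refine omega_of_cov (fun k K _ _ io ξ T s hs => hs.1) fun k ε hε => ?_
  obtain ⟨D, C, T₀, hC, hT₀, H⟩ := excM_cov stmZ stmClose stmCharts hU hUo hne hf hreg (InnerM U (k + 1))
    (innerM_compact _ _) (innerM_sub _ (Nat.succ_pos k)) (k + 1) ((σ → Fin (k + 1 + 1)) × Fin (k + 1)) Unit (k + 1)
    ((k + 1 : ℕ) : ℝ) ε hε
  refine ⟨D, C, T₀, hC, hT₀, fun K _ _ hK io ξ T hT => ?_⟩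
  exact (H K hK io (XiX σ (k + 1) ξ) T hT).mono le_rfl le_rfl (Set.image_mono (excX_sub io))

end one

variable {κ : Type} [Fintype κ] [DecidableEq κ] {X ι : κ → Type} [∀ j, Fintype (X j)] [∀ j, DecidableEq (X j)]
  [∀ j, Fintype (ι j)] [∀ j, DecidableEq (ι j)]
  {U : ∀ j, Set (X j → ℂ)} {Y : ∀ j, (X j → ℂ) → Matrix (ι j) (ι j) ℂ}

/-- **All small relations with coefficients in the span of the `ξ i` are specializations of functional relations.** -/
theorem main_X [Nonempty (Σ j, X j)] (hU : ∀ j, IsPreconnected (U j)) (hUo : ∀ j, IsOpen (U j))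
    (hne : ∀ j, (U j).Nonempty) (hY : ∀ j a b, AnalyticOnNhd ℂ (fun x => Y j x a b) (U j))
    (hdet : ∀ j, ∀ x ∈ U j, (Y j x).det ≠ 0) {c : ∀ j, MvPolynomial (X j) ℂ} (hc0 : ∀ j, c j ≠ 0)
    {B : ∀ j, X j → Matrix (ι j) (ι j) (MvPolynomial (X j) ℂ)} (hc : ∀ j, Connection (U j) (Y j) (c j) (B j))
    (hconn : ∀ j, Conn (Gal (U j) (Y j))) :
    OmegaStm (fun k K [Field K] [NumberField K] io (ξ : Fin k → ℂ) T => ExcX (UU U) (fE Y) K io k ξ T) := by
  have hreg := reg_prod hU hUo hne hY hdet hc0 hc hconn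
  have hreg' : RegularM (UU U) (fE Y) := by
    have h1 := RegularM_comp hreg (fun s : Σ j, ι j × ι j => (((⟨s.1, s.2.1⟩ : Σ j, ι j), (⟨s.1, s.2.2⟩ : Σ j, ι j))))
    have h2 : (fun (s : Σ j, ι j × ι j) (z : (Σ j, X j) → ℂ) => YY Y z ⟨s.1, s.2.1⟩ ⟨s.1, s.2.2⟩) = fE Y := by
      funext s z
      exact YY_eq z s.1 s.2.1 s.2.2
    rw [← h2]
    exact h1
  exact excX_omega (UU_preconn hU) (UU_open hUo) (UU_ne hne) (fE_an hY) hreg'

end Pool.Agent.V11273.PV
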