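import Pool.Agent.V11273.PV.G4
import Pool.Agent.V11273.PV.E7

/-!
# Sparsity of the relations which do not come from the identity component of the Galois group
-/

set_option autoImplicit false
set_option linter.unusedSectionVars false

open Filter Topology NumberField

namespace Pool.Agent.V11273.PV

open Pool.Agent.Y890.MV
open Pool.Agent.Y890.SP (exists_omega)
open Pool.Agent.Y124 (Cov)

variable {X ι : Type} [Fintype X] [DecidableEq X] [Fintype ι] [DecidableEq ι]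

/-- points with a small relation which does not hold on the orbit of the identity component -/
def BadI (δ : ℕ) (U : Set (X → ℂ)) (Y : (X → ℂ) → Matrix ι ι ℂ) (Lc : Set (X → ℂ)) {h : Type} [Fintype h] (K : Type)
    [Field K] [NumberField K] (io : K →+* ℂ) (ξ : h → ℂ) (A T : ℝ) : Set (X → K) :=
  {s | (∀ i, Y120.HtLe K T (s i)) ∧ (fun i => io (s i)) ∈ Lc ∧ ∃ c : (ι × ι → Fin (δ + 1)) → h → 𝓞 K,
    (∀ l i (φ : K →+* ℂ), ‖φ (c l i : K)‖ ≤ T ^ A) ∧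
    ∑ l, (∑ i, ξ i * io (c l i : K)) * ∏ y : ι × ι, Y (fun i => io (s i)) y.1 y.2 ^ (l y : ℕ) = 0 ∧
    ∃ g ∈ IdComp (Gal U Y), ∑ l, (∑ i, ξ i * io (c l i : K)) *
      ∏ y : ι × ι, ((g : Matrix ι ι ℂ) * Y (fun i => io (s i))) y.1 y.2 ^ (l y : ℕ) ≠ 0}

theorem excI_cov [Nonempty X] {U : Set (X → ℂ)} (hU : IsPreconnected U) (hUo : IsOpen U) (hne : U.Nonempty)
    {Y : (X → ℂ) → Matrix ι ι ℂ}
    (hY : ∀ a b, AnalyticOnNhd ℂ (fun x => Y x a b) U) (hdet : ∀ x ∈ U, (Y x).det ≠ 0) {c : MvPolynomial X ℂ}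
    (hc0 : c ≠ 0) {B : X → Matrix ι ι (MvPolynomial X ℂ)} (hc : Connection U Y c B) (Lc : Set (X → ℂ))
    (hLc : IsCompact Lc) (hLU : Lc ⊆ U) (δ : ℕ) (h : Type) [Fintype h] [DecidableEq h] (m : ℕ) (A ε : ℝ)
    (hε : 0 < ε) :
    ∃ (D : ℕ) (C T₀ : ℝ), 0 ≤ C ∧ 2 ≤ T₀ ∧ ∀ (K : Type) [Field K] [NumberField K], Module.finrank ℚ K ≤ m →
      ∀ (io : K →+* ℂ) (ξ : h → ℂ) (T : ℝ), T₀ ≤ T →
        Cov D ⌊C * T ^ ε⌋₊ ((fun (s : X → K) i => io (s i)) '' BadI δ U Y Lc K io ξ A T) := by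
  classical
  obtain ⟨I, fI, dI, ι₀, e, 𝒢, a, ha, hind, hspec⟩ := bad_spec hU hUo hne hY hdet hc0 hc δ
  choose D C T₀ hC hT₀ H using fun k : ℕ => covG (fun (i : I) x => Y x (ι₀ i).1 (ι₀ i).2) Lc hLc
    (fun i t ht => hY _ _ t (hLU ht)) (fun t ht => hind t (hLU ht)) (𝒢 k) h m A ε hε
  set R := Finset.range (e + 1) with hR
  set Ds := ∑ k ∈ R, D k with hDs
  set Cs := ∑ k ∈ R, C k with hCs
  have hCs0 : 0 ≤ Cs := Finset.sum_nonneg fun k _ => hC k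
  have hT0' : ∀ k ∈ R, 0 ≤ T₀ k := fun k _ => by linarith [hT₀ k]
  refine ⟨max Ds a.totalDegree, (e + 1 : ℕ) * Cs + 1, 2 + ∑ k ∈ R, T₀ k, by positivity,
    by linarith [Finset.sum_nonneg hT0'], ?_⟩
  intro K _ _ hm io ξ T hT
  have hTk : ∀ k ∈ R, T₀ k ≤ T := by
    intro k hk
    have h1 := Finset.single_le_sum hT0' hk
    linarith
  have hT1 : 1 ≤ T := by linarith [Finset.sum_nonneg hT0']
  set Z : Set (X → ℂ) := {t | MvPolynomial.eval t a = 0} with hZ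
  have hZcov : Cov a.totalDegree 1 Z := by
    refine ⟨{a}, by simp, ?_, ?_⟩
    · intro P hP
      rw [Finset.mem_singleton] at hP
      subst hP
      exact ⟨ha, le_rfl⟩
    · intro t ht
      exact ⟨a, Finset.mem_singleton_self _, ht⟩
  set S : ℕ → Set (X → ℂ) := fun k => (fun (s : X → K) i => io (s i)) ''
    BadG (fun (i : I) x => Y x (ι₀ i).1 (ι₀ i).2) Lc (𝒢 k) K io ξ A T with hS
  have hcov : Cov (max Ds a.totalDegree) (R.card * ⌊Cs * T ^ ε⌋₊) (⋃ k ∈ R, S k) := by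
    refine Cov.biUnion R S fun k hk => (H k K hm io ξ T (hTk k hk)).mono ?_ ?_ (Set.Subset.refl _)
    · exact (Finset.single_le_sum (f := D) (fun _ _ => Nat.zero_le _) hk).trans (le_max_left _ _)
    · apply Nat.floor_le_floor
      exact mul_le_mul_of_nonneg_right (Finset.single_le_sum (f := C) (fun k _ => hC k) hk) (by positivity)
  have hsub : (fun (s : X → K) i => io (s i)) '' BadI δ U Y Lc K io ξ A T ⊆ (⋃ k ∈ R, S k) ∪ Z := by
    rintro _ ⟨s, ⟨hs1, hs2, c', hc1, hzero, hbad⟩, rfl⟩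
    by_cases hsZ : (fun i => io (s i)) ∈ Z
    · exact Or.inr hsZ
    left
    obtain ⟨k, hk, h1, h2⟩ := hspec _ (hLU hs2) hsZ (fun l => ∑ i, ξ i * io (c' l i : K)) hzero hbad
    exact Set.mem_biUnion hk ⟨s, ⟨hs1, hs2, c', hc1, h1, h2⟩, rfl⟩
  refine (hcov.union (hZcov.mono (le_max_right Ds a.totalDegree) le_rfl (Set.Subset.refl _))).mono le_rfl ?_ hsub
  have h6 : (1 : ℝ) ≤ T ^ ε := Real.one_le_rpow hT1 hε.le
  have h7 : 0 ≤ Cs * T ^ ε := by positivity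
  have h8 : (⌊Cs * T ^ ε⌋₊ : ℝ) ≤ Cs * T ^ ε := Nat.floor_le h7
  rw [hR, Finset.card_range]
  refine Nat.le_floor ?_
  push_cast
  nlinarith [h8, h6]

/-- the relation does not hold on the orbit of the identity component -/
def BadC (U : Set (X → ℂ)) (Y : (X → ℂ) → Matrix ι ι ℂ) (x : X → ℂ) (P : MvPolynomial (ι × ι) ℂ) : Prop :=
  ∃ g ∈ IdComp (Gal U Y), MvPolynomial.eval (fun v => ((g : Matrix ι ι ℂ) * Y x) v.1 v.2) P ≠ 0

theorem excC_sub {U : Set (X → ℂ)} {Y : (X → ℂ) → Matrix ι ι ℂ} {K : Type} [Field K] [NumberField K] (io : K →+* ℂ)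
    {k : ℕ} (ξ : Fin k → ℂ) {T : ℝ} :
    ExcB U (fun (v : ι × ι) x => Y x v.1 v.2) (BadC U Y) K io k ξ T ⊆ BadI k U Y (InnerM U k) K io ξ k T := by
  classical
  rintro s ⟨hs, hin, P, ⟨hdeg, hcoef⟩, hzero, g, hg, hbad⟩
  choose c hc hc' using hcoef
  refine ⟨hs, hin, fun l i => c (Finsupp.equivFunOnFinite.symm fun y => (l y : ℕ)) i, fun l i φ => hc _ _ φ, ?_, g, hg, ?_⟩
  · rw [← hzero, ← sum_exp hdeg (fun y : ι × ι => Y (fun i => io (s i)) y.1 y.2)]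
    refine Finset.sum_congr rfl fun l _ => ?_
    rw [hc']
  · intro h0
    apply hbad
    rw [← sum_exp hdeg (fun y : ι × ι => ((g : Matrix ι ι ℂ) * Y (fun i => io (s i))) y.1 y.2), ← h0]
    refine Finset.sum_congr rfl fun l _ => ?_
    rw [hc']

/-- **Sparsity for one family.** -/
theorem excC_omega [Nonempty X] {U : Set (X → ℂ)} (hU : IsPreconnected U) (hUo : IsOpen U) (hne : U.Nonempty)
    {Y : (X → ℂ) → Matrix ι ι ℂ}
    (hY : ∀ a b, AnalyticOnNhd ℂ (fun x => Y x a b) U) (hdet : ∀ x ∈ U, (Y x).det ≠ 0) {c : MvPolynomial X ℂ}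
    (hc0 : c ≠ 0) {B : X → Matrix ι ι (MvPolynomial X ℂ)} (hc : Connection U Y c B) :
    ∃ (ω : ℝ → ℕ) (T₀ : ℝ), Tendsto ω atTop atTop ∧ Monotone ω ∧ ∀ T, T₀ ≤ T → 0 < ω T ∧
      ∀ (K : Type) [Field K] [NumberField K], Module.finrank ℚ K ≤ ω T → ∀ (io : K →+* ℂ) (ξ : Fin (ω T) → ℂ),
        Cov ⌊T ^ ((ω T : ℝ)⁻¹)⌋₊ ⌊T ^ ((ω T : ℝ)⁻¹)⌋₊
          ((fun (s : X → K) i => io (s i)) ''
            ExcB U (fun (v : ι × ι) x => Y x v.1 v.2) (BadC U Y) K io (ω T) ξ T) ∧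
        (ExcB U (fun (v : ι × ι) x => Y x v.1 v.2) (BadC U Y) K io (ω T) ξ T).Finite ∧
        ((ExcB U (fun (v : ι × ι) x => Y x v.1 v.2) (BadC U Y) K io (ω T) ξ T).ncard : ℝ) ≤
          T ^ ((ω T : ℝ)⁻¹) * ({x : K | Y120.HtLe K T x}.ncard : ℝ) ^ (Fintype.card X - 1) := by
  classical
  let E : (k : ℕ) → (K : Type) → [Field K] → [NumberField K] → (K →+* ℂ) → (Fin k → ℂ) → ℝ → Set (X → K) :=
    fun k K _ _ io ξ T => ExcB U (fun (v : ι × ι) x => Y x v.1 v.2) (BadC U Y) K io k ξ T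
  let S : ℕ → ℝ → Prop := fun k T => ∀ (K : Type) [Field K] [NumberField K], Module.finrank ℚ K ≤ k →
    ∀ (io : K →+* ℂ) (ξ : Fin k → ℂ),
      Cov ⌊T ^ ((k : ℝ)⁻¹)⌋₊ ⌊T ^ ((k : ℝ)⁻¹)⌋₊
          ((fun (s : X → K) i => io (s i)) '' E k K io ξ T) ∧
        (E k K io ξ T).Finite ∧
        ((E k K io ξ T).ncard : ℝ) ≤
          T ^ ((k : ℝ)⁻¹) * ({x : K | Y120.HtLe K T x}.ncard : ℝ) ^ (Fintype.card X - 1)
  refine exists_omega S fun k => ?_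
  set τ : ℝ := ((k + 1 : ℕ) : ℝ)⁻¹ with hτ
  have hτ0 : 0 < τ := by positivity
  obtain ⟨D, C, T₀, hC, hT₀, H⟩ := excI_cov hU hUo hne hY hdet hc0 hc (InnerM U (k + 1))
    (innerM_compact _ _) (innerM_sub _ (Nat.succ_pos k)) (k + 1) (Fin (k + 1)) (k + 1)
    ((k + 1 : ℕ) : ℝ) (τ / 3) (by positivity)
  -- constants are powers of `T`
  have hpow : ∀ C : ℝ, 0 ≤ C → ∃ T₁ : ℝ, ∀ T, 1 ≤ T → T₁ ≤ T → C ≤ T ^ (τ / 3) := by
    intro C hC
    refine ⟨C ^ (3 * (k + 1)), fun T hT hT1 => ?_⟩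
    have h4 : C = (C ^ (3 * (k + 1))) ^ (τ / 3) := by
      rw [← Real.rpow_natCast, ← Real.rpow_mul hC]
      have : ((3 * (k + 1) : ℕ) : ℝ) * (τ / 3) = 1 := by
        rw [hτ]
        push_cast
        have : ((k : ℝ) + 1) ≠ 0 := by positivity
        field_simp
      rw [this, Real.rpow_one]
    rw [h4]
    exact Real.rpow_le_rpow (by positivity) hT1 (by positivity)
  obtain ⟨T₁, hT₁⟩ := hpow C hC
  obtain ⟨T₂, hT₂⟩ := hpow D (Nat.cast_nonneg _)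
  refine ⟨max T₀ (max T₁ T₂), fun T hT K _ _ hK io ξ => ?_⟩
  have h0 : T₀ ≤ T := (le_max_left _ _).trans hT
  have h1 : T₁ ≤ T := ((le_max_left _ _).trans (le_max_right _ _)).trans hT
  have h2 : T₂ ≤ T := ((le_max_right _ _).trans (le_max_right _ _)).trans hT
  have hT1 : 1 ≤ T := by linarith
  have hTp : 0 < T := by linarith
  have h3 := hT₁ T hT1 h1
  have h4 := hT₂ T hT1 h2
  have hcov0 := H K hK io ξ T h0
  have hsub : E (k + 1) K io ξ T ⊆ BadI (k + 1) U Y (InnerM U (k + 1)) K io ξ ((k + 1 : ℕ) : ℝ) T :=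
    excC_sub (U := U) (Y := Y) io ξ (T := T)
  have hcov := hcov0.mono le_rfl le_rfl (Set.image_mono hsub)
  have h5 : T ^ (τ / 3) * T ^ (τ / 3) ≤ T ^ τ := by
    rw [← Real.rpow_add hTp]
    exact Real.rpow_le_rpow_of_exponent_le hT1 (by linarith)
  have h6 : T ^ (τ / 3) ≤ T ^ τ := Real.rpow_le_rpow_of_exponent_le hT1 (by linarith)
  have hm : C * T ^ (τ / 3) ≤ T ^ (τ / 3) * T ^ (τ / 3) := mul_le_mul_of_nonneg_right h3 (by positivity)
  refine ⟨hcov.mono ?_ ?_ (Set.Subset.refl _), ?_⟩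
  · exact Nat.le_floor (h4.trans h6)
  · exact Nat.floor_mono (hm.trans h5)
  obtain ⟨h7, h8⟩ := cov_count io {x : K | Y120.HtLe K T x} (Y120.HtLe_fin K T) _ (fun s hs => hs.1) hcov
  refine ⟨h7, ?_⟩
  have h9 : ((⌊C * T ^ (τ / 3)⌋₊ : ℕ) : ℝ) ≤ T ^ (τ / 3) * T ^ (τ / 3) :=
    (Nat.floor_le (by positivity)).trans hm
  have h10 : ((E (k + 1) K io ξ T).ncard : ℝ) ≤
      (⌊C * T ^ (τ / 3)⌋₊ : ℝ) * (D * ({x : K | Y120.HtLe K T x}.ncard : ℝ) ^ (Fintype.card X - 1)) := by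
    exact_mod_cast h8
  refine h10.trans ?_
  rw [← mul_assoc]
  refine mul_le_mul_of_nonneg_right ?_ (by positivity)
  calc (⌊C * T ^ (τ / 3)⌋₊ : ℝ) * (D : ℝ) ≤ (T ^ (τ / 3) * T ^ (τ / 3)) * T ^ (τ / 3) :=
        mul_le_mul h9 h4 (Nat.cast_nonneg _) (by positivity)
    _ = T ^ τ := by
        rw [← Real.rpow_add hTp, ← Real.rpow_add hTp]
        congr 1
        ring

end Pool.Agent.V11273.PV
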