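import Pool.Agent.V11273.PV.G5
import Pool.Agent.V11273.PV.E10

/-!
# Products of families
-/

set_option autoImplicit false
set_option linter.unusedSectionVars false

open Filter Topology NumberField

namespace Pool.Agent.V11273.PV

open Pool.Agent.Y890.MV
open Pool.Agent.Y124 (Cov)

variable {κ : Type} [Fintype κ] [DecidableEq κ] {X ι : κ → Type} [∀ j, Fintype (X j)] [∀ j, DecidableEq (X j)]
  [∀ j, Fintype (ι j)] [∀ j, DecidableEq (ι j)]
  {U : ∀ j, Set (X j → ℂ)} {Y : ∀ j, (X j → ℂ) → Matrix (ι j) (ι j) ℂ}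

/-- products of elements of the identity components -/
theorem idComp_bd {w : ∀ j, GL (ι j) ℂ} (hw : ∀ j, w j ∈ IdComp (Gal (U j) (Y j))) :
    bd w ∈ IdComp (Gal (UU U) (YY Y)) := by
  classical
  have hwG : ∀ j, w j ∈ Gal (U j) (Y j) := fun j => (hw j).1
  refine ⟨bd_mem hwG, fun H hH hcl => ?_⟩
  obtain ⟨E, hE⟩ := hcl
  -- the embeddings of the factors
  let e : ∀ j, Gal (U j) (Y j) →* Gal (UU U) (YY Y) := fun j =>
    { toFun := fun h => ⟨bd (Pi.mulSingle j (h : GL (ι j) ℂ)), by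
        rw [mem_Gal, bd_single]
        exact pres_one h.2⟩
      map_one' := by
        apply Subtype.ext
        simp only [Subgroup.coe_one, Pi.mulSingle_one, map_one]
      map_mul' := by
        intro a b
        apply Subtype.ext
        simp only [Subgroup.coe_mul, Pi.mulSingle_mul, map_mul] }
  have hmem : ∀ j, (⟨w j, hwG j⟩ : Gal (U j) (Y j)) ∈ H.comap (e j) := by
    intro j
    obtain ⟨hj, hj'⟩ := hw j
    refine hj' _ ?_ ?_
    · rw [Subgroup.finiteIndex_iff, Subgroup.index_comap]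
      exact (Subgroup.isFiniteRelIndex_of_finiteIndex (H := H) (K := (e j).range)).relIndex_ne_zero
    · let vars : (Σ j, ι j) × (Σ j, ι j) → MvPolynomial (ι j × ι j) ℂ := fun v =>
        Matrix.blockDiagonal' (Function.update (fun l => (1 : Matrix (ι l) (ι l) (MvPolynomial (ι j × ι j) ℂ))) j
          (Matrix.of fun a b => MvPolynomial.X (a, b))) v.1 v.2
      have hvars : ∀ (h : Gal (U j) (Y j)) (q : MvPolynomial ((Σ j, ι j) × (Σ j, ι j)) ℂ),
          MvPolynomial.eval (fun v => ((h : GL (ι j) ℂ) : Matrix (ι j) (ι j) ℂ) v.1 v.2) (MvPolynomial.bind₁ vars q) =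
            MvPolynomial.eval (fun v => (((e j h : Gal (UU U) (YY Y)) : GL (Σ j, ι j) ℂ) :
              Matrix (Σ j, ι j) (Σ j, ι j) ℂ) v.1 v.2) q := by
        intro h q
        rw [← MvPolynomial.coe_aeval_eq_eval, ← MvPolynomial.coe_aeval_eq_eval, RingHom.coe_coe, RingHom.coe_coe,
          MvPolynomial.aeval_bind₁]
        congr 2
        funext v
        have h2 : (((e j h : Gal (UU U) (YY Y)) : GL (Σ j, ι j) ℂ) : Matrix (Σ j, ι j) (Σ j, ι j) ℂ) =
            (Matrix.blockDiagonal' (Function.update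
              (fun l => (1 : Matrix (ι l) (ι l) (MvPolynomial (ι j × ι j) ℂ))) j
              (Matrix.of fun a b => MvPolynomial.X (a, b)))).map
              (MvPolynomial.aeval (fun v => ((h : GL (ι j) ℂ) : Matrix (ι j) (ι j) ℂ) v.1 v.2)) := by
          rw [Matrix.blockDiagonal'_map _ _ (map_zero _)]
          refine (bd_single j (h : GL (ι j) ℂ)).trans ?_
          congr 1
          funext l
          by_cases hl : l = j
          · subst hl
            rw [Function.update_self, Function.update_self]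
            ext a b
            rw [Matrix.map_apply, Matrix.of_apply, MvPolynomial.aeval_X]
          · rw [Function.update_of_ne hl, Function.update_of_ne hl, Matrix.map_one _ (map_zero _) (map_one _)]
        rw [h2]
        rfl
      refine ⟨(MvPolynomial.bind₁ vars) '' E, fun h => ?_⟩
      rw [Subgroup.mem_comap, hE]
      constructor
      · rintro h1 _ ⟨q, hq, rfl⟩
        rw [hvars]
        exact h1 q hq
      · intro h1 q hq
        rw [← hvars]
        exact h1 _ ⟨q, hq, rfl⟩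
  have h1 : w ∈ (H.map (Gal (UU U) (YY Y)).subtype).comap bd := by
    refine Subgroup.pi_mem_of_mulSingle_mem w fun j => ?_
    rw [Subgroup.mem_comap, Subgroup.mem_map]
    exact ⟨e j ⟨w j, hwG j⟩, hmem j, rfl⟩
  rw [Subgroup.mem_comap, Subgroup.mem_map] at h1
  obtain ⟨y, hy, hy'⟩ := h1
  have h2 : y = ⟨bd w, bd_mem hwG⟩ := Subtype.ext hy'
  rw [← h2]
  exact hy

theorem small_rename {σ τ : Type} {K : Type} [Field K] [NumberField K] {io : K →+* ℂ} {k : ℕ} {ξ : Fin k → ℂ} {T : ℝ}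
    (hT : 0 ≤ T) {P : MvPolynomial σ ℂ} (hP : Small K io k ξ T P) {e : σ → τ} (he : Function.Injective e) :
    Small K io k ξ T (MvPolynomial.rename e P) := by
  classical
  refine ⟨fun y => ?_, fun m => ?_⟩
  · rw [MvPolynomial.degreeOf_le_iff]
    intro m hm
    rw [MvPolynomial.mem_support_iff] at hm
    obtain ⟨u, hu, hu'⟩ := MvPolynomial.coeff_rename_ne_zero e P m hm
    by_cases hy : ∃ x, e x = y
    · obtain ⟨x, rfl⟩ := hy
      rw [← hu, Finsupp.mapDomain_apply he]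
      exact (MvPolynomial.monomial_le_degreeOf x (MvPolynomial.mem_support_iff.2 hu')).trans (hP.1 x)
    · rw [← hu, Finsupp.mapDomain_of_notMem_range u y fun ⟨x, hx⟩ => hy ⟨x, hx⟩]
      exact Nat.zero_le _
  · by_cases hm : (MvPolynomial.rename e P).coeff m = 0
    · refine ⟨fun _ => 0, fun i φ => ?_, ?_⟩
      · simp only [map_zero, norm_zero]
        exact Real.rpow_nonneg hT _
      · simp [hm]
    · obtain ⟨u, hu, hu'⟩ := MvPolynomial.coeff_rename_ne_zero e P m hm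
      obtain ⟨c, hc1, hc2⟩ := hP.2 u
      refine ⟨c, hc1, ?_⟩
      rw [← hc2, ← hu, MvPolynomial.coeff_rename_mapDomain e he]

/-- the relation does not hold on the product of the orbits of the identity components -/
def Bad3 (U : ∀ j, Set (X j → ℂ)) (Y : ∀ j, (X j → ℂ) → Matrix (ι j) (ι j) ℂ) (z : (Σ j, X j) → ℂ)
    (P : MvPolynomial (Σ j, ι j × ι j) ℂ) : Prop :=
  ∃ w : ∀ j, GL (ι j) ℂ, (∀ j, w j ∈ IdComp (Gal (U j) (Y j))) ∧
    MvPolynomial.eval (fun s => ((w s.1 : Matrix (ι s.1) (ι s.1) ℂ) * Y s.1 (pr z s.1)) s.2.1 s.2.2) P ≠ 0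

/-- **Main theorem for all families.** -/
theorem main3 [Nonempty (Σ j, X j)] (hU : ∀ j, IsPreconnected (U j)) (hUo : ∀ j, IsOpen (U j))
    (hne : ∀ j, (U j).Nonempty) (hY : ∀ j a b, AnalyticOnNhd ℂ (fun x => Y j x a b) (U j))
    (hdet : ∀ j, ∀ x ∈ U j, (Y j x).det ≠ 0) {c : ∀ j, MvPolynomial (X j) ℂ} (hc0 : ∀ j, c j ≠ 0)
    {B : ∀ j, X j → Matrix (ι j) (ι j) (MvPolynomial (X j) ℂ)} (hc : ∀ j, Connection (U j) (Y j) (c j) (B j)) :
    ∃ (ω : ℝ → ℕ) (T₀ : ℝ), Tendsto ω atTop atTop ∧ Monotone ω ∧ ∀ T, T₀ ≤ T → 0 < ω T ∧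
      ∀ (K : Type) [Field K] [NumberField K], Module.finrank ℚ K ≤ ω T → ∀ (io : K →+* ℂ) (ξ : Fin (ω T) → ℂ),
        Cov ⌊T ^ ((ω T : ℝ)⁻¹)⌋₊ ⌊T ^ ((ω T : ℝ)⁻¹)⌋₊
          ((fun (s : (Σ j, X j) → K) i => io (s i)) '' ExcB (UU U) (fE Y) (Bad3 U Y) K io (ω T) ξ T) ∧
        (ExcB (UU U) (fE Y) (Bad3 U Y) K io (ω T) ξ T).Finite ∧
        ((ExcB (UU U) (fE Y) (Bad3 U Y) K io (ω T) ξ T).ncard : ℝ) ≤
          T ^ ((ω T : ℝ)⁻¹) * ({x : K | Y120.HtLe K T x}.ncard : ℝ) ^ (Fintype.card (Σ j, X j) - 1) := by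
  classical
  obtain ⟨ω, T₀, h1, h2, h3⟩ := excC_omega (UU_preconn hU) (UU_open hUo) (UU_ne hne) (YY_an hY) (YY_det hdet)
    (cc_ne hc0) (product_connection hY hc)
  refine ⟨ω, max T₀ 0, h1, h2, fun T hT => ?_⟩
  have hT0 : 0 ≤ T := (le_max_right _ _).trans hT
  obtain ⟨h4, h5⟩ := h3 T ((le_max_left _ _).trans hT)
  refine ⟨h4, fun K _ _ hK io ξ => ?_⟩
  obtain ⟨h6, h7, h8⟩ := h5 K hK io ξ
  have hsub : ExcB (UU U) (fE Y) (Bad3 U Y) K io (ω T) ξ T ⊆
      ExcB (UU U) (fun (v : (Σ j, ι j) × (Σ j, ι j)) x => YY Y x v.1 v.2) (BadC (UU U) (YY Y)) K io (ω T) ξ T := by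
    rintro s ⟨hs1, hs2, P, hP, hzero, w, hw, hwne⟩
    let e : (Σ j, ι j × ι j) → (Σ j, ι j) × (Σ j, ι j) := fun s => (⟨s.1, s.2.1⟩, ⟨s.1, s.2.2⟩)
    have he : Function.Injective e := by
      rintro ⟨j, a, b⟩ ⟨j', a', b'⟩ h
      simp only [e, Prod.mk.injEq, Sigma.mk.injEq] at h
      obtain ⟨⟨rfl, ha⟩, ⟨_, hb⟩⟩ := h
      rw [eq_of_heq ha, eq_of_heq hb]
    refine ⟨hs1, hs2, MvPolynomial.rename e P, small_rename hT0 hP he, ?_, bd w, idComp_bd hw, ?_⟩
    · rw [MvPolynomial.eval_rename, ← hzero]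
      congr 2
      funext s'
      exact YY_eq _ s'.1 s'.2.1 s'.2.2
    · rw [MvPolynomial.eval_rename]
      intro h0
      apply hwne
      rw [← h0]
      congr 2
      funext s'
      have h2 : (((bd w : GL (Σ j, ι j) ℂ) : Matrix (Σ j, ι j) (Σ j, ι j) ℂ) * YY Y fun j => io (s j)) =
          Matrix.blockDiagonal' (fun j => (w j : Matrix (ι j) (ι j) ℂ) * Y j (pr (fun j => io (s j)) j)) := by
        rw [bd_val]
        unfold YY
        rw [← Matrix.blockDiagonal'_mul]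
      rw [Function.comp_apply, h2]
      exact (Matrix.blockDiagonal'_apply_eq
        (fun j => (w j : Matrix (ι j) (ι j) ℂ) * Y j (pr (fun j => io (s j)) j)) s'.1 s'.2.1 s'.2.2).symm
  refine ⟨h6.mono le_rfl le_rfl (Set.image_mono hsub), h7.subset hsub, le_trans ?_ h8⟩
  exact_mod_cast Set.ncard_le_ncard hsub h7

end Pool.Agent.V11273.PV
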