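import Pool.Agent.V11273.PV.G6

/-!
# De Rham-Betti homomorphisms between tensor powers
-/

set_option autoImplicit false
set_option linter.unusedSectionVars false

open Filter Topology NumberField

namespace Pool.Agent.V11273.PV

open Pool.Agent.Y890.MV
open Pool.Agent.Y124 (Cov)

/-- sparsity of the sets `E` -/
def OmegaStm {X : Type} [Fintype X]
    (E : ∀ (k : ℕ) (K : Type) [Field K] [NumberField K], (K →+* ℂ) → (Fin k → ℂ) → ℝ → Set (X → K)) : Prop :=
  ∃ (ω : ℝ → ℕ) (T₀ : ℝ), Tendsto ω atTop atTop ∧ Monotone ω ∧ ∀ T, T₀ ≤ T → 0 < ω T ∧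
    ∀ (K : Type) [Field K] [NumberField K], Module.finrank ℚ K ≤ ω T → ∀ (io : K →+* ℂ) (ξ : Fin (ω T) → ℂ),
      Cov ⌊T ^ ((ω T : ℝ)⁻¹)⌋₊ ⌊T ^ ((ω T : ℝ)⁻¹)⌋₊ ((fun (s : X → K) i => io (s i)) '' E (ω T) K io ξ T) ∧
      (E (ω T) K io ξ T).Finite ∧
      ((E (ω T) K io ξ T).ncard : ℝ) ≤
        T ^ ((ω T : ℝ)⁻¹) * ({x : K | Y120.HtLe K T x}.ncard : ℝ) ^ (Fintype.card X - 1)

theorem omega_transfer {X : Type} [Fintype X]
    {E E' : ∀ (k : ℕ) (K : Type) [Field K] [NumberField K], (K →+* ℂ) → (Fin k → ℂ) → ℝ → Set (X → K)}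
    (hE : OmegaStm E) (T₁ : ℝ) (h : ∀ (T : ℝ), T₁ ≤ T → ∀ k k' : ℕ, 0 < k → 2 * k + 1 ≤ k' →
      ∀ (K : Type) [Field K] [NumberField K] (io : K →+* ℂ) (ξ : Fin k → ℂ), ∃ ξ' : Fin k' → ℂ,
        E' k K io ξ T ⊆ E k' K io ξ' T) : OmegaStm E' := by
  obtain ⟨ω, T₀, h1, h2, h3⟩ := hE
  have hd : Tendsto (fun n : ℕ => (n - 1) / 2) atTop atTop := by
    refine tendsto_atTop_atTop.2 fun b => ⟨2 * b + 1, fun a ha => ?_⟩
    omega
  obtain ⟨T₂, hT₂⟩ := Filter.eventually_atTop.1 ((tendsto_atTop.1 h1) 3)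
  refine ⟨fun T => (ω T - 1) / 2, max (max T₀ T₁) (max T₂ 1), hd.comp h1, ?_, fun T hT => ?_⟩
  · intro a b hab
    have h4 := h2 hab
    change (ω a - 1) / 2 ≤ (ω b - 1) / 2
    omega
  have hT0 : T₀ ≤ T := ((le_max_left _ _).trans (le_max_left _ _)).trans hT
  have hT1 : T₁ ≤ T := ((le_max_right _ _).trans (le_max_left _ _)).trans hT
  have hT2 : T₂ ≤ T := ((le_max_left _ _).trans (le_max_right _ _)).trans hT
  have hT3 : 1 ≤ T := ((le_max_right _ _).trans (le_max_right _ _)).trans hT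
  have hω : 3 ≤ ω T := hT₂ T hT2
  set k' := ω T with hk'
  set k := (k' - 1) / 2 with hk
  have hk0 : 0 < k := by omega
  have hkk : 2 * k + 1 ≤ k' := by omega
  refine ⟨hk0, fun K _ _ hK io ξ => ?_⟩
  obtain ⟨ξ', hsub⟩ := h T hT1 k k' hk0 hkk K io ξ
  obtain ⟨-, h4⟩ := h3 T hT0
  have hK' : Module.finrank ℚ K ≤ k := hK
  obtain ⟨h5, h6, h7⟩ := h4 K (by omega) io ξ'
  have hpow : T ^ ((k' : ℝ)⁻¹) ≤ T ^ ((k : ℝ)⁻¹) := by
    refine Real.rpow_le_rpow_of_exponent_le hT3 ?_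
    refine inv_anti₀ (by exact_mod_cast hk0) ?_
    have : k ≤ k' := by omega
    exact_mod_cast this
  refine ⟨h5.mono (Nat.floor_mono hpow) (Nat.floor_mono hpow) (Set.image_mono hsub), h6.subset hsub, ?_⟩
  have h8 : ((E' k K io ξ T).ncard : ℝ) ≤ ((E k' K io ξ' T).ncard : ℝ) := by
    exact_mod_cast Set.ncard_le_ncard hsub h6
  exact h8.trans (h7.trans (mul_le_mul_of_nonneg_right hpow (by positivity)))

theorem innerM_mono {X : Type} [Fintype X] (U : Set (X → ℂ)) {k k' : ℕ} (hk : 0 < k) (h : k ≤ k') :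
    InnerM U k ⊆ InnerM U k' := by
  rintro z ⟨h1, h2⟩
  refine ⟨h1.trans (by exact_mod_cast h), fun w hw => h2 ?_⟩
  rw [Metric.mem_ball] at hw ⊢
  refine lt_of_lt_of_le hw (inv_anti₀ (by exact_mod_cast hk) ?_)
  exact_mod_cast h

section tensor

variable {I : Type} [Fintype I] [DecidableEq I]

/-- the tensor power of a matrix -/
noncomputable def tp (n : ℕ) (Z : Matrix I I ℂ) : Matrix (Fin n → I) (Fin n → I) ℂ :=
  Matrix.of fun a b => ∏ i, Z (a i) (b i)

theorem tp_mul (n : ℕ) (Z W : Matrix I I ℂ) : tp n (Z * W) = tp n Z * tp n W := by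
  ext a b
  rw [Matrix.mul_apply]
  simp only [tp, Matrix.of_apply, Matrix.mul_apply]
  rw [Finset.prod_univ_sum, Fintype.piFinset_univ]
  exact Finset.sum_congr rfl fun c _ => Finset.prod_mul_distrib

theorem tp_one (n : ℕ) : tp n (1 : Matrix I I ℂ) = 1 := by
  ext a b
  simp only [tp, Matrix.of_apply, Matrix.one_apply]
  by_cases h : a = b
  · subst h
    simp
  · rw [if_neg h]
    obtain ⟨i, hi⟩ := Function.ne_iff.1 h
    exact Finset.prod_eq_zero (Finset.mem_univ i) (if_neg hi)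

/-- the polynomial expressing one entry of `Z^{⊗n} φ - Φ Z^{⊗m}` -/
noncomputable def tpol {n m : ℕ} (φ Φ : Matrix (Fin n → I) (Fin m → I) ℂ) (a : Fin n → I) (b : Fin m → I) :
    MvPolynomial (I × I) ℂ :=
  ∑ e, MvPolynomial.monomial (∑ i, Finsupp.single (a i, e i) 1) (φ e b) -
    ∑ e, MvPolynomial.monomial (∑ j, Finsupp.single (e j, b j) 1) (Φ a e)

theorem tpol_eval {n m : ℕ} (φ Φ : Matrix (Fin n → I) (Fin m → I) ℂ) (a : Fin n → I) (b : Fin m → I)
    (Z : Matrix I I ℂ) :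
    MvPolynomial.eval (fun v => Z v.1 v.2) (tpol φ Φ a b) = (tp n Z * φ) a b - (Φ * tp m Z) a b := by
  have h1 : ∀ {q : ℕ} (u : Fin q → I × I) (c : ℂ), MvPolynomial.eval (fun v => Z v.1 v.2)
      (MvPolynomial.monomial (∑ i, Finsupp.single (u i) 1) c) = c * ∏ i, Z (u i).1 (u i).2 := by
    intro q u c
    rw [MvPolynomial.monomial_eq]
    simp only [map_mul, MvPolynomial.eval_C]
    congr 1
    rw [← Finsupp.prod_finsetSum_index (fun _ => pow_zero _) (fun _ _ _ => pow_add _ _ _), map_prod]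
    refine Finset.prod_congr rfl fun i _ => ?_
    have h2 : (Finsupp.single (u i) 1).prod (fun n e => (MvPolynomial.X n : MvPolynomial (I × I) ℂ) ^ e) =
        MvPolynomial.X (u i) := by
      simp [Finsupp.prod_single_index]
    refine (congrArg (MvPolynomial.eval fun v : I × I => Z v.1 v.2) h2).trans ?_
    rw [MvPolynomial.eval_X]
  rw [tpol, map_sub, map_sum, map_sum, Matrix.mul_apply, Matrix.mul_apply]
  congr 1
  · refine Finset.sum_congr rfl fun e _ => ?_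
    rw [h1 (fun i => (a i, e i)), mul_comm]
    rfl
  · refine Finset.sum_congr rfl fun e _ => ?_
    rw [h1 (fun j => (e j, b j))]
    rfl

theorem deg_single {q : ℕ} (u : Fin q → I × I) (y : I × I) : (∑ i, Finsupp.single (u i) 1 : I × I →₀ ℕ) y ≤ q := by
  rw [Finsupp.finsetSum_apply]
  calc ∑ i, (Finsupp.single (u i) 1 : I × I →₀ ℕ) y ≤ ∑ _i : Fin q, 1 := by
        refine Finset.sum_le_sum fun i _ => ?_
        rw [Finsupp.single_apply]
        split <;> omega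
    _ = q := by simp

theorem tpol_deg {n m : ℕ} (φ Φ : Matrix (Fin n → I) (Fin m → I) ℂ) (a : Fin n → I) (b : Fin m → I) {k : ℕ}
    (hn : n ≤ k) (hm : m ≤ k) (y : I × I) : (tpol φ Φ a b).degreeOf y ≤ k := by
  classical
  rw [MvPolynomial.degreeOf_le_iff]
  intro w hw
  rw [MvPolynomial.mem_support_iff] at hw
  by_contra hcon
  push Not at hcon
  apply hw
  rw [tpol, MvPolynomial.coeff_sub, MvPolynomial.coeff_sum, MvPolynomial.coeff_sum]
  rw [Finset.sum_eq_zero, Finset.sum_eq_zero, sub_zero]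
  · intro e _
    rw [MvPolynomial.coeff_monomial, if_neg]
    rintro rfl
    have := deg_single (fun j => (e j, b j)) y
    omega
  · intro e _
    rw [MvPolynomial.coeff_monomial, if_neg]
    rintro rfl
    have := deg_single (fun i => (a i, e i)) y
    omega

end tensor

end Pool.Agent.V11273.PV
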