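import Pool.Agent.V11273.PV.G7

/-!
# De Rham-Betti homomorphisms between tensor powers: sparsity of those which are not invariant
-/

set_option autoImplicit false
set_option linter.unusedSectionVars false

open Filter Topology NumberField

namespace Pool.Agent.V11273.PV

open Pool.Agent.Y890.MV
open Pool.Agent.Y124 (Cov)

variable {κ : Type} [Fintype κ] [DecidableEq κ] {X ι : κ → Type} [∀ j, Fintype (X j)] [∀ j, DecidableEq (X j)]
  [∀ j, Fintype (ι j)] [∀ j, DecidableEq (ι j)]
  {U : ∀ j, Set (X j → ℂ)} {Y : ∀ j, (X j → ℂ) → Matrix (ι j) (ι j) ℂ}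

/-- the complex matrix with coefficients `∑ ξ i * β i` -/
noncomputable def comb {A B : Type} {K : Type} [Field K] [NumberField K] (io : K →+* ℂ) {k : ℕ} (ξ : Fin k → ℂ)
    (β : Fin k → Matrix A B (𝓞 K)) : Matrix A B ℂ := Matrix.of fun a b => ∑ i, ξ i * io (β i a b : K)

/-- points with a small de Rham-Betti homomorphism between tensor powers which is not invariant -/
def ExcT (U : ∀ j, Set (X j → ℂ)) (Y : ∀ j, (X j → ℂ) → Matrix (ι j) (ι j) ℂ) (k : ℕ) (K : Type) [Field K]
    [NumberField K] (io : K →+* ℂ) (ξ : Fin k → ℂ) (T : ℝ) : Set ((Σ j, X j) → K) :=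
  {s | (∀ i, Y120.HtLe K T (s i)) ∧ (fun i => io (s i)) ∈ InnerM (UU U) k ∧ ∃ n m : ℕ, n ≤ k ∧ m ≤ k ∧
    ∃ (φ : Matrix (Fin n → Σ j, ι j) (Fin m → Σ j, ι j) (𝓞 K))
      (β : Fin k → Matrix (Fin n → Σ j, ι j) (Fin m → Σ j, ι j) (𝓞 K)),
      (∀ a b (ψ : K →+* ℂ), ‖ψ (φ a b : K)‖ ≤ T ^ (k : ℝ)) ∧
      (∀ i a b (ψ : K →+* ℂ), ‖ψ (β i a b : K)‖ ≤ T ^ (k : ℝ)) ∧
      tp n (YY Y fun i => io (s i)) * φ.map (fun x => io (x : K)) = comb io ξ β * tp m (YY Y fun i => io (s i)) ∧
      ∃ w : ∀ j, GL (ι j) ℂ, (∀ j, w j ∈ IdComp (Gal (U j) (Y j))) ∧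
        tp n (Matrix.blockDiagonal' fun j => (w j : Matrix (ι j) (ι j) ℂ)) * comb io ξ β ≠
          comb io ξ β * tp m (Matrix.blockDiagonal' fun j => (w j : Matrix (ι j) (ι j) ℂ))}

theorem excT_sub (hdet : ∀ j, ∀ x ∈ U j, (Y j x).det ≠ 0) {T : ℝ}
    (hT : max (Fintype.card (Σ j, ι j) : ℝ) 1 ≤ T) {k k' : ℕ} (hk : 0 < k)
    (hkk : 2 * k + 1 ≤ k') (K : Type) [Field K] [NumberField K] (io : K →+* ℂ) (ξ : Fin k → ℂ) :
    ∃ ξ' : Fin k' → ℂ, ExcT U Y k K io ξ T ⊆
      ExcB (UU U) (fun (v : (Σ j, ι j) × (Σ j, ι j)) x => YY Y x v.1 v.2) (BadC (UU U) (YY Y)) K io k' ξ' T := by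
  classical
  have hT1 : 1 ≤ T := (le_max_right _ _).trans hT
  have hTp : 0 < T := by linarith
  obtain ⟨e⟩ : Nonempty (Option (Fin k) ↪ Fin k') := by
    refine Function.Embedding.nonempty_of_card_le ?_
    rw [Fintype.card_option, Fintype.card_fin, Fintype.card_fin]
    omega
  refine ⟨Function.extend e (fun o => o.elim 1 ξ) 0, ?_⟩
  rintro s ⟨hs1, hs2, n, m, hn, hm, φ, β, hφ, hβ, heq, w, hw, hne⟩
  set z : (Σ j, X j) → ℂ := fun i => io (s i) with hz
  have hzU : z ∈ UU U := innerM_sub _ hk hs2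
  set g : Matrix (Σ j, ι j) (Σ j, ι j) ℂ := Matrix.blockDiagonal' fun j => (w j : Matrix (ι j) (ι j) ℂ) with hg
  set Φ := comb io ξ β with hΦ
  set φ' : Matrix (Fin n → Σ j, ι j) (Fin m → Σ j, ι j) ℂ := φ.map (fun x => io (x : K)) with hφ'
  -- an entry which does not vanish
  obtain ⟨a, b, hab⟩ : ∃ a b, MvPolynomial.eval (fun v => (g * YY Y z) v.1 v.2) (tpol φ' Φ a b) ≠ 0 := by
    by_contra hcon
    push Not at hcon
    have h1 : tp n (g * YY Y z) * φ' = Φ * tp m (g * YY Y z) := by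
      ext a b
      have h2 := hcon a b
      rw [tpol_eval] at h2
      exact sub_eq_zero.1 h2
    rw [tp_mul, tp_mul, Matrix.mul_assoc, heq, ← Matrix.mul_assoc, ← Matrix.mul_assoc] at h1
    have h3 : tp m (YY Y z) * tp m (YY Y z)⁻¹ = 1 := by
      rw [← tp_mul, Matrix.mul_nonsing_inv _ (isUnit_iff_ne_zero.2 (YY_det hdet z hzU)), tp_one]
    apply hne
    have h4 := congrArg (fun M => M * tp m (YY Y z)⁻¹) h1
    simp only [Matrix.mul_assoc, h3, Matrix.mul_one] at h4
    exact h4
  refine ⟨hs1, innerM_mono _ hk (by omega) hs2, tpol φ' Φ a b, ⟨?_, ?_⟩, ?_, bd w, idComp_bd hw, hab⟩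
  · exact fun y => (tpol_deg φ' Φ a b hn hm y).trans (by omega)
  · intro mm
    -- the integral coordinates of the coefficients
    let c₀ : 𝓞 K := ∑ e, if (∑ i, Finsupp.single (a i, e i) 1 : (Σ j, ι j) × (Σ j, ι j) →₀ ℕ) = mm then φ e b else 0
    let c₁ : Fin k → 𝓞 K := fun i =>
      -∑ e, if (∑ j, Finsupp.single (e j, b j) 1 : (Σ j, ι j) × (Σ j, ι j) →₀ ℕ) = mm then β i a e else 0
    have hcard : ∀ q : ℕ, q ≤ k → (Fintype.card (Fin q → Σ j, ι j) : ℝ) * T ^ (k : ℝ) ≤ T ^ (k' : ℝ) := by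
      intro q hq
      rw [Fintype.card_fun, Fintype.card_fin]
      push_cast
      have h1 : (Fintype.card (Σ j, ι j) : ℝ) ^ q ≤ T ^ k := by
        calc (Fintype.card (Σ j, ι j) : ℝ) ^ q ≤ T ^ q :=
              pow_le_pow_left₀ (Nat.cast_nonneg _) ((le_max_left _ _).trans hT) q
          _ ≤ T ^ k := pow_le_pow_right₀ hT1 hq
      have h2 : (T ^ k : ℝ) * T ^ (k : ℝ) ≤ T ^ (k' : ℝ) := by
        rw [Real.rpow_natCast, Real.rpow_natCast, ← pow_add]
        exact pow_le_pow_right₀ hT1 (by omega)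
      exact (mul_le_mul_of_nonneg_right h1 (by positivity)).trans h2
    have hc₀ : ∀ ψ : K →+* ℂ, ‖ψ (c₀ : K)‖ ≤ T ^ (k' : ℝ) := by
      intro ψ
      refine le_trans ?_ (hcard n hn)
      have h1 : ψ (c₀ : K) = ∑ e, if (∑ i, Finsupp.single (a i, e i) 1 : (Σ j, ι j) × (Σ j, ι j) →₀ ℕ) = mm then
          ψ (φ e b : K) else 0 := by
        simp only [c₀]
        push_cast
        rw [map_sum]
        refine Finset.sum_congr rfl fun e _ => ?_
        split <;> simp
      rw [h1]
      refine (norm_sum_le _ _).trans ?_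
      calc _ ≤ ∑ _e : Fin n → Σ j, ι j, T ^ (k : ℝ) := by
            refine Finset.sum_le_sum fun e _ => ?_
            split
            · exact hφ e b ψ
            · rw [norm_zero]
              positivity
        _ = _ := by rw [Finset.sum_const, Finset.card_univ, nsmul_eq_mul]
    have hc₁ : ∀ i, ∀ ψ : K →+* ℂ, ‖ψ (c₁ i : K)‖ ≤ T ^ (k' : ℝ) := by
      intro i ψ
      refine le_trans ?_ (hcard m hm)
      have h1 : ψ (c₁ i : K) = -∑ e, if (∑ j, Finsupp.single (e j, b j) 1 : (Σ j, ι j) × (Σ j, ι j) →₀ ℕ) = mm then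
          ψ (β i a e : K) else 0 := by
        simp only [c₁]
        push_cast
        rw [map_neg, map_sum]
        congr 1
        refine Finset.sum_congr rfl fun e _ => ?_
        split <;> simp
      rw [h1, norm_neg]
      refine (norm_sum_le _ _).trans ?_
      calc _ ≤ ∑ _e : Fin m → Σ j, ι j, T ^ (k : ℝ) := by
            refine Finset.sum_le_sum fun e _ => ?_
            split
            · exact hβ i a e ψ
            · rw [norm_zero]
              positivity
        _ = _ := by rw [Finset.sum_const, Finset.card_univ, nsmul_eq_mul]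
    refine ⟨Function.extend e (fun o => o.elim c₀ c₁) 0, ?_, ?_⟩
    · intro i ψ
      by_cases hi : ∃ o, e o = i
      · obtain ⟨o, rfl⟩ := hi
        rw [e.injective.extend_apply]
        rcases o with _ | i
        · exact hc₀ ψ
        · exact hc₁ i ψ
      · rw [Function.extend_apply' _ _ _ hi]
        simp only [Pi.zero_apply, map_zero, norm_zero]
        positivity
    · have h1 : ∑ i, Function.extend e (fun o => o.elim 1 ξ) 0 i *
          io ((Function.extend e (fun o => o.elim c₀ c₁) 0 i : 𝓞 K) : K) =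
          ∑ o : Option (Fin k), (o.elim 1 ξ) * io ((o.elim c₀ c₁ : 𝓞 K) : K) := by
        symm
        refine Finset.sum_of_injOn e e.injective.injOn (fun _ _ => Finset.mem_coe.2 (Finset.mem_univ _)) ?_ ?_
        · intro i _ hi
          have hi' : ¬ ∃ o, e o = i := fun ⟨o, ho⟩ => hi ⟨o, Finset.mem_coe.2 (Finset.mem_univ _), ho⟩
          rw [Function.extend_apply' _ _ _ hi', Pi.zero_apply, zero_mul]
        · intro o _
          rw [e.injective.extend_apply, e.injective.extend_apply]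
      rw [h1, Fintype.sum_option]
      simp only [Option.elim_none, Option.elim_some, one_mul]
      rw [tpol, MvPolynomial.coeff_sub, MvPolynomial.coeff_sum, MvPolynomial.coeff_sum]
      simp only [MvPolynomial.coeff_monomial]
      rw [sub_eq_add_neg]
      congr 1
      · simp only [c₀]
        push_cast
        rw [map_sum]
        refine Finset.sum_congr rfl fun e _ => ?_
        split
        · rfl
        · simp
      · have h2 : ∀ i, io ((c₁ i : 𝓞 K) : K) = -∑ e, if (∑ j, Finsupp.single (e j, b j) 1 :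
            (Σ j, ι j) × (Σ j, ι j) →₀ ℕ) = mm then io (β i a e : K) else 0 := by
          intro i
          simp only [c₁]
          push_cast
          rw [map_neg, map_sum]
          congr 1
          refine Finset.sum_congr rfl fun e _ => ?_
          split <;> simp
        simp only [h2, mul_neg, Finset.sum_neg_distrib, Finset.mul_sum]
        congr 1
        rw [Finset.sum_comm]
        refine Finset.sum_congr rfl fun e _ => ?_
        by_cases h3 : (∑ j, Finsupp.single (e j, b j) 1 : (Σ j, ι j) × (Σ j, ι j) →₀ ℕ) = mm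
        · simp only [h3, if_true]
          rfl
        · simp only [h3, if_false, mul_zero, Finset.sum_const_zero]
  · have h1 := tpol_eval φ' Φ a b (YY Y z)
    rw [heq, sub_self] at h1
    exact h1

/-- **De Rham-Betti homomorphisms.** -/
theorem main_tensor [Nonempty (Σ j, X j)] (hU : ∀ j, IsPreconnected (U j)) (hUo : ∀ j, IsOpen (U j))
    (hne : ∀ j, (U j).Nonempty) (hY : ∀ j a b, AnalyticOnNhd ℂ (fun x => Y j x a b) (U j))
    (hdet : ∀ j, ∀ x ∈ U j, (Y j x).det ≠ 0) {c : ∀ j, MvPolynomial (X j) ℂ} (hc0 : ∀ j, c j ≠ 0)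
    {B : ∀ j, X j → Matrix (ι j) (ι j) (MvPolynomial (X j) ℂ)} (hc : ∀ j, Connection (U j) (Y j) (c j) (B j)) :
    OmegaStm (fun k K [Field K] [NumberField K] io ξ T => ExcT U Y k K io ξ T) := by
  have h1 := excC_omega (UU_preconn hU) (UU_open hUo) (UU_ne hne) (YY_an hY) (YY_det hdet)
    (cc_ne hc0) (product_connection hY hc)
  refine omega_transfer (E := fun k K [Field K] [NumberField K] io ξ T =>
    ExcB (UU U) (fun (v : (Σ j, ι j) × (Σ j, ι j)) x => YY Y x v.1 v.2) (BadC (UU U) (YY Y)) K io k ξ T) h1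
    (max (Fintype.card (Σ j, ι j) : ℝ) 1) ?_
  intro T hT k k' hk hkk K _ _ io ξ
  exact excT_sub hdet hT hk hkk K io ξ

end Pool.Agent.V11273.PV
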