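import Pool.Agent.V11273.PV.G8

/-!
# The transcendence degree of the solutions is at least the dimension of the Galois group
-/

set_option autoImplicit false
set_option linter.unusedSectionVars false

open Filter Topology NumberField

namespace Pool.Agent.V11273.PV

open Pool.Agent.Y890.MV (evX evM evM_eq evM_an poly_zero relM relM_prime exists_fieldM LocIndM locIndM_of)
open Pool.Agent.Y890.SP (evI evI_rename)

variable {X ι : Type} [Fintype X] [DecidableEq X] [Fintype ι] [DecidableEq ι]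

/-- the entries `V` of the matrices in `G` are algebraically independent functions -/
def IndOn (G : Subgroup (GL ι ℂ)) (V : Finset (ι × ι)) : Prop :=
  ∀ p : MvPolynomial V ℂ, (∀ g ∈ G, MvPolynomial.eval (fun v => (g : Matrix ι ι ℂ) v.1.1 v.1.2) p = 0) → p = 0

theorem exists_indep {U : Set (X → ℂ)} (hU : IsPreconnected U) (hUo : IsOpen U) (hne : U.Nonempty)
    {Y : (X → ℂ) → Matrix ι ι ℂ}
    (hY : ∀ a b, AnalyticOnNhd ℂ (fun x => Y x a b) U) (hdet : ∀ x ∈ U, (Y x).det ≠ 0) {c : MvPolynomial X ℂ}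
    (hc0 : c ≠ 0) {B : X → Matrix ι ι (MvPolynomial X ℂ)} (hc : Connection U Y c B) (V' : Finset (ι × ι))
    (hV' : IndOn (Gal U Y) V') : ∃ V : Finset (ι × ι), V.card = V'.card ∧ Indep U Y (fun v : V => v.1) := by
  classical
  obtain ⟨H₀, hfi, hcl, hmin, hirr⟩ := exists_idc (Gal U Y)
  have hfinq : Finite (Gal U Y ⧸ H₀) := Subgroup.finite_quotient_of_finiteIndex
  let fq : Fintype (Gal U Y ⧸ H₀) := Fintype.ofFinite _
  -- independence on a coset of the identity component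
  obtain ⟨g₀, hg₀⟩ : ∃ g₀ : Gal U Y, ∀ p : MvPolynomial V' ℂ, (∀ h ∈ H₀, MvPolynomial.eval
      (fun v => (((g₀ * h : Gal U Y) : GL ι ℂ) : Matrix ι ι ℂ) v.1.1 v.1.2) p = 0) → p = 0 := by
    by_contra hcon
    push Not at hcon
    choose p hp hp0 using hcon
    have h1 : ∏ q : Gal U Y ⧸ H₀, p q.out = 0 := by
      refine hV' _ fun g hg => ?_
      rw [map_prod]
      let q : Gal U Y ⧸ H₀ := QuotientGroup.mk (⟨g, hg⟩ : Gal U Y)
      refine Finset.prod_eq_zero (Finset.mem_univ q) ?_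
      have h2 := hp q.out (q.out⁻¹ * ⟨g, hg⟩) (QuotientGroup.eq.1 (QuotientGroup.out_eq' q))
      rw [mul_inv_cancel_left] at h2
      exact h2
    exact Finset.prod_ne_zero_iff.2 (fun q _ => hp0 _) h1
  set f : ι × ι → (X → ℂ) → ℂ := fun v x => Y x v.1 v.2 with hf
  have hfan : ∀ i, AnalyticOnNhd ℂ (f i) U := fun i => hY i.1 i.2
  obtain ⟨L, _, _, _, F, hz, hfrac⟩ := exists_fieldM hU hUo hne hfan
  have hz' : ∀ p : MvPolynomial (ι × ι) (MvPolynomial X ℂ), MvPolynomial.aeval F p = 0 ↔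
      ∀ x ∈ U, rv x (Y x) p = 0 := hz
  obtain ⟨I, fI, dI, ι₀, D, e, N, hind, hD, hN⟩ := exists_mult F hfrac F
  let Nu : ι × ι → Matrix (Fin e) (Fin e) (MvPolynomial I (MvPolynomial X ℂ)) := fun u =>
    ∑ l, (MvPolynomial.C ((Pi.single u 1 : ι × ι → MvPolynomial X ℂ) l) : MvPolynomial I (MvPolynomial X ℂ)) • N l
  let Dσ : MvPolynomial (ι × ι) (MvPolynomial X ℂ) := MvPolynomial.rename ι₀ D
  have hDσ : MvPolynomial.aeval F Dσ ≠ 0 := by
    intro h0
    rw [MvPolynomial.aeval_rename] at h0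
    exact hD (hind (h0.trans (map_zero _).symm))
  let ρ : ι × ι → MvPolynomial (ι × ι) (MvPolynomial X ℂ) := fun u =>
    ∑ k ∈ Finset.range (e + 1), MvPolynomial.rename ι₀ ((Nu u).charpoly.coeff k) * (Dσ * MvPolynomial.X u) ^ k
  have hρ : ∀ u, MvPolynomial.aeval F (ρ u) = 0 := by
    intro u
    have h1 := hN (Pi.single u 1)
    have hdeg : (Nu u).charpoly.natDegree < e + 1 := by
      rw [Matrix.charpoly_natDegree_eq_dim, Fintype.card_fin]
      exact Nat.lt_succ_self e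
    have h2 : (∑ l, (MvPolynomial.C ((Pi.single u 1 : ι × ι → MvPolynomial X ℂ) l) :
        MvPolynomial I (MvPolynomial X ℂ)) • N l) = Nu u := rfl
    have h3 : ∑ l, algebraMap (MvPolynomial X ℂ) L ((Pi.single u 1 : ι × ι → MvPolynomial X ℂ) l) * F l = F u := by
      rw [Finset.sum_eq_single u]
      · rw [Pi.single_eq_same, map_one, one_mul]
      · intro l _ hl
        rw [Pi.single_eq_of_ne hl, map_zero, zero_mul]
      · intro h
        exact absurd (Finset.mem_univ u) h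
    rw [h2, h3, Polynomial.eval₂_eq_sum_range' _ hdeg] at h1
    rw [← h1]
    simp only [ρ]
    rw [map_sum]
    refine Finset.sum_congr rfl fun k _ => ?_
    rw [map_mul, map_pow, map_mul, evI_rename, evI_rename, MvPolynomial.aeval_X]
  have hlsub0 : ∀ (g : Gal U Y) (p : MvPolynomial (ι × ι) (MvPolynomial X ℂ)), MvPolynomial.aeval F p ≠ 0 →
      MvPolynomial.aeval F (lsub ((g : GL ι ℂ) : Matrix ι ι ℂ) p) ≠ 0 := by
    intro g p hp h0
    apply hp
    rw [hz'] at h0 ⊢
    intro x hx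
    have h1 := (g⁻¹).2 (lsub ((g : GL ι ℂ) : Matrix ι ι ℂ) p) h0 x hx
    rw [rv_lsub, ← mul_assoc] at h1
    have h2 : ((g : GL ι ℂ) : Matrix ι ι ℂ) * (((g⁻¹ : Gal U Y) : GL ι ℂ) : Matrix ι ι ℂ) = 1 := by
      rw [← Units.val_mul, Subgroup.coe_inv, mul_inv_cancel, Units.val_one]
    rwa [h2, one_mul] at h1
  set dt : MvPolynomial (ι × ι) (MvPolynomial X ℂ) := Matrix.det (fun a b => MvPolynomial.X (a, b)) with hdt
  have hdte : ∀ x (Z : Matrix ι ι ℂ), rv x Z dt = Z.det := by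
    intro x Z
    rw [rv_hom, hdt, RingHom.map_det]
    congr 1
    ext a b
    rw [RingHom.mapMatrix_apply, Matrix.map_apply]
    exact MvPolynomial.eval₂Hom_X' _ _ _
  have hne' := hne
  obtain ⟨x₁, hx₁⟩ := hne
  have hdtF : MvPolynomial.aeval F dt ≠ 0 := by
    intro h
    have h1 := (hz' dt).1 h x₁ hx₁
    rw [hdte] at h1
    exact hdet x₁ hx₁ h1
  let Δ : MvPolynomial (ι × ι) (MvPolynomial X ℂ) :=
    dt * ∏ q : Gal U Y ⧸ H₀, lsub (((q.out⁻¹ : Gal U Y) : GL ι ℂ) : Matrix ι ι ℂ) Dσ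
  have hΔ : MvPolynomial.aeval F Δ ≠ 0 := by
    simp only [Δ]
    rw [map_mul, map_prod]
    exact mul_ne_zero hdtF (Finset.prod_ne_zero_iff.2 fun q _ => hlsub0 _ _ hDσ)
  obtain ⟨a₁, ha₁, hpt⟩ := one_point hU hUo ⟨x₁, hx₁⟩ hfan Δ (fun h => hΔ ((hz Δ).2 h))
  obtain ⟨x₀, hx₀, ha⟩ : ∃ x₀ ∈ U, MvPolynomial.eval x₀ (a₁ * c) ≠ 0 := by
    by_contra hcon
    push Not at hcon
    exact mul_ne_zero ha₁ hc0 (poly_zero hUo hne' _ hcon)
  rw [map_mul, mul_ne_zero_iff] at ha
  have hYu : IsUnit (Y x₀).det := isUnit_iff_ne_zero.2 (hdet x₀ hx₀)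
  -- a point of the orbit of the identity component where the denominator is not zero
  obtain ⟨h, hh, hDh⟩ : ∃ h ∈ H₀, rv x₀ (((h : GL ι ℂ) : Matrix ι ι ℂ) * Y x₀) Dσ ≠ 0 := by
    obtain ⟨Z, hZ, hZΔ⟩ := hpt x₀ ha.1
    let M : Matrix ι ι ℂ := Matrix.of fun a b => Z (a, b)
    have hevM : ∀ p, evX x₀ Z p = rv x₀ M p := fun p => rfl
    have hΔe : rv x₀ M Δ = M.det * ∏ q : Gal U Y ⧸ H₀,
        rv x₀ ((((q.out⁻¹ : Gal U Y) : GL ι ℂ) : Matrix ι ι ℂ) * M) Dσ := by
      simp only [Δ]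
      rw [rv_hom, map_mul, map_prod, ← rv_hom, hdte]
      congr 1
      refine Finset.prod_congr rfl fun q _ => ?_
      rw [← rv_hom, rv_lsub]
    rw [hevM, hΔe] at hZΔ
    have hMd : M.det ≠ 0 := left_ne_zero_of_mul hZΔ
    have hprod := Finset.prod_ne_zero_iff.1 (right_ne_zero_of_mul hZΔ)
    have hgd : (M * (Y x₀)⁻¹).det ≠ 0 := by
      rw [Matrix.det_mul, Matrix.det_nonsing_inv]
      exact mul_ne_zero hMd (IsUnit.ne_zero (by simpa using hYu.ringInverse))
    have hgY : (M * (Y x₀)⁻¹) * Y x₀ = M := by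
      rw [mul_assoc, Matrix.nonsing_inv_mul _ hYu, mul_one]
    have hpres : Pres U Y (M * (Y x₀)⁻¹) := by
      refine torsor hU hUo hY hc hx₀ ha.2 fun p hp => ?_
      rw [hgY, ← hevM]
      exact hZ p hp
    let g : Gal U Y := ⟨Matrix.GeneralLinearGroup.mkOfDetNeZero (M * (Y x₀)⁻¹) hgd, hpres⟩
    have hgM : ((g : GL ι ℂ) : Matrix ι ι ℂ) * Y x₀ = M := hgY
    let q : Gal U Y ⧸ H₀ := QuotientGroup.mk g
    refine ⟨q.out⁻¹ * g, QuotientGroup.eq.1 (QuotientGroup.out_eq' q), ?_⟩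
    rw [Subgroup.coe_mul, Units.val_mul, mul_assoc, hgM]
    exact hprod q (Finset.mem_univ q)
  -- the coordinate ring of the orbit of the identity component
  let 𝔭 : Ideal (MvPolynomial (ι × ι) ℂ) :=
    { carrier := {p | ∀ h ∈ H₀, me (((h : GL ι ℂ) : Matrix ι ι ℂ) * Y x₀) p = 0}
      zero_mem' := fun h _ => map_zero _
      add_mem' := fun {a b} ha hb h hh => by rw [map_add, ha h hh, hb h hh, add_zero]
      smul_mem' := fun c x hx h hh => by rw [smul_eq_mul, map_mul, hx h hh, mul_zero] }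
  have hmem : ∀ p, p ∈ 𝔭 ↔ ∀ h ∈ H₀, me (((h : GL ι ℂ) : Matrix ι ι ℂ) * Y x₀) p = 0 := fun p => Iff.rfl
  have hprime : 𝔭.IsPrime := by
    refine Ideal.IsPrime.mk ?_ ?_
    · intro h0
      have h1 : (1 : MvPolynomial (ι × ι) ℂ) ∈ 𝔭 := by
        rw [h0]
        exact Submodule.mem_top
      have h2 := h1 1 H₀.one_mem
      rw [map_one] at h2
      exact one_ne_zero h2
    · intro p q hpq
      rcases hirr (rtr (Y x₀) p) (rtr (Y x₀) q) (fun h hh => by
        rw [← map_mul, me_rtr]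
        exact hpq h hh) with h1 | h1
      · left
        intro h hh
        have h2 := h1 h hh
        rwa [me_rtr] at h2
      · right
        intro h hh
        have h2 := h1 h hh
        rwa [me_rtr] at h2
  have hdom : IsDomain (MvPolynomial (ι × ι) ℂ ⧸ 𝔭) := Ideal.Quotient.isDomain 𝔭
  let z : ι × ι → MvPolynomial (ι × ι) ℂ ⧸ 𝔭 := fun u => Ideal.Quotient.mk 𝔭 (MvPolynomial.X u)
  let s : Set (MvPolynomial (ι × ι) ℂ ⧸ 𝔭) := Set.range fun i : I => z (ι₀ i)
  let R' := Algebra.adjoin ℂ s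
  let s' : I → R' := fun i => ⟨z (ι₀ i), Algebra.subset_adjoin ⟨i, rfl⟩⟩
  have hmk : ∀ g : MvPolynomial I ℂ, Ideal.Quotient.mk 𝔭 (MvPolynomial.rename ι₀ g) =
      ((MvPolynomial.aeval s' g : R') : MvPolynomial (ι × ι) ℂ ⧸ 𝔭) := by
    intro g
    have h1 : (Ideal.Quotient.mkₐ ℂ 𝔭).comp (MvPolynomial.rename ι₀) = R'.val.comp (MvPolynomial.aeval s') := by
      refine MvPolynomial.algHom_ext fun i => ?_
      rw [AlgHom.comp_apply, AlgHom.comp_apply, MvPolynomial.rename_X, MvPolynomial.aeval_X]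
      rfl
    exact AlgHom.congr_fun h1 g
  let pD : MvPolynomial I ℂ := MvPolynomial.map (MvPolynomial.eval x₀) D
  have hmer : ∀ (p : MvPolynomial I (MvPolynomial X ℂ)) (Z : Matrix ι ι ℂ),
      me Z (MvPolynomial.rename ι₀ (MvPolynomial.map (MvPolynomial.eval x₀) p)) =
        rv x₀ Z (MvPolynomial.rename ι₀ p) := by
    intro p Z
    rw [me, rv, MvPolynomial.eval₂_rename, MvPolynomial.eval_rename, MvPolynomial.eval_map]
  have hpD0 : (MvPolynomial.aeval s' pD : R') ≠ 0 := by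
    intro h0
    have h1 := hmk pD
    rw [h0, ZeroMemClass.coe_zero, Ideal.Quotient.eq_zero_iff_mem] at h1
    have h2 := h1 h hh
    rw [hmer] at h2
    exact hDh h2
  -- all coordinates are algebraic over the chosen ones
  have hzalg : ∀ u, IsAlgebraic R' (z u) := by
    intro u
    let q : Polynomial R' := ∑ k ∈ Finset.range (e + 1), Polynomial.C
      (MvPolynomial.aeval s' (MvPolynomial.map (MvPolynomial.eval x₀) ((Nu u).charpoly.coeff k)) *
        (MvPolynomial.aeval s' pD) ^ k) * Polynomial.X ^ k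
    refine ⟨q, ?_, ?_⟩
    · intro h0
      have h1 := congrArg (fun r => Polynomial.coeff r e) h0
      simp only [q, Polynomial.finsetSum_coeff, Polynomial.coeff_C_mul, Polynomial.coeff_X_pow,
        Polynomial.coeff_zero] at h1
      rw [Finset.sum_eq_single e] at h1
      · rw [if_pos rfl, mul_one] at h1
        have h2 : (Nu u).charpoly.coeff e = 1 := by
          have h3 := (Nu u).charpoly_monic
          rw [Polynomial.Monic, Polynomial.leadingCoeff, Matrix.charpoly_natDegree_eq_dim, Fintype.card_fin] at h3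
          exact h3
        rw [h2, map_one, map_one, one_mul] at h1
        exact hpD0 (eq_zero_of_pow_eq_zero h1)
      · intro k _ hk
        rw [if_neg (Ne.symm hk), mul_zero]
      · intro hk
        exact absurd (Finset.mem_range.2 (Nat.lt_succ_self e)) hk
    · let PP : MvPolynomial (ι × ι) ℂ := ∑ k ∈ Finset.range (e + 1),
        MvPolynomial.rename ι₀ (MvPolynomial.map (MvPolynomial.eval x₀) ((Nu u).charpoly.coeff k)) *
          (MvPolynomial.rename ι₀ pD * MvPolynomial.X u) ^ k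
      have hPP : PP ∈ 𝔭 := by
        rw [hmem]
        intro h' hh'
        have h1 := h'.2 (ρ u) ((hz' _).1 (hρ u)) x₀ hx₀
        rw [← h1]
        simp only [PP, ρ]
        rw [map_sum, rv_hom, map_sum]
        refine Finset.sum_congr rfl fun k _ => ?_
        rw [map_mul, map_pow, map_mul, map_mul, map_pow, map_mul, hmer, hmer, MvPolynomial.eval₂Hom_X']
        simp only [me, MvPolynomial.eval_X]
        rfl
      have h1 : Polynomial.aeval (z u) q = Ideal.Quotient.mk 𝔭 PP := by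
        simp only [q, PP]
        rw [map_sum, map_sum]
        refine Finset.sum_congr rfl fun k _ => ?_
        rw [map_mul (Polynomial.aeval (z u)), Polynomial.aeval_C, map_pow (Polynomial.aeval (z u)), Polynomial.aeval_X,
          map_mul (Ideal.Quotient.mk 𝔭) (MvPolynomial.rename ι₀ _), map_pow (Ideal.Quotient.mk 𝔭),
          map_mul (Ideal.Quotient.mk 𝔭) (MvPolynomial.rename ι₀ pD), hmk, hmk, map_mul, map_pow, mul_pow, mul_assoc]
        rfl
      rw [h1]
      exact Ideal.Quotient.eq_zero_iff_mem.2 hPP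
  have halg : Algebra.IsAlgebraic R' (MvPolynomial (ι × ι) ℂ ⧸ 𝔭) := by
    refine ⟨fun y => ?_⟩
    obtain ⟨p, rfl⟩ := Ideal.Quotient.mk_surjective y
    induction p using MvPolynomial.induction_on with
    | C a =>
      exact isAlgebraic_algebraMap (R := R') (algebraMap ℂ R' a)
    | add p q hp hq =>
      rw [map_add]
      exact hp.add hq
    | mul_X p u hp =>
      rw [map_mul]
      exact hp.mul (hzalg u)
  -- independent functions
  let φ : V' → MvPolynomial (ι × ι) ℂ := fun v =>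
    ∑ a, ∑ b, MvPolynomial.C (((g₀ : GL ι ℂ) : Matrix ι ι ℂ) v.1.1 a * (Y x₀)⁻¹ b v.1.2) * MvPolynomial.X (a, b)
  have hφ : ∀ (v : V') (Z : Matrix ι ι ℂ), me Z (φ v) =
      (((g₀ : GL ι ℂ) : Matrix ι ι ℂ) * Z * (Y x₀)⁻¹) v.1.1 v.1.2 := by
    intro v Z
    simp only [φ, me, map_sum, map_mul, MvPolynomial.eval_C, MvPolynomial.eval_X, Matrix.mul_apply, Finset.sum_mul]
    rw [Finset.sum_comm]
    refine Finset.sum_congr rfl fun b _ => Finset.sum_congr rfl fun a _ => ?_
    ring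
  have hφind : AlgebraicIndependent ℂ (fun v : V' => Ideal.Quotient.mk 𝔭 (φ v)) := by
    rw [algebraicIndependent_iff]
    intro p hp
    refine hg₀ p fun h' hh' => ?_
    have h1 : MvPolynomial.aeval (fun v : V' => Ideal.Quotient.mk 𝔭 (φ v)) p =
        Ideal.Quotient.mk 𝔭 (MvPolynomial.bind₁ φ p) := by
      have h2 : (MvPolynomial.aeval (fun v : V' => Ideal.Quotient.mk 𝔭 (φ v)) :
          MvPolynomial V' ℂ →ₐ[ℂ] MvPolynomial (ι × ι) ℂ ⧸ 𝔭) =
          (Ideal.Quotient.mkₐ ℂ 𝔭).comp (MvPolynomial.bind₁ φ) := by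
        refine MvPolynomial.algHom_ext fun v => ?_
        rw [AlgHom.comp_apply, MvPolynomial.aeval_X, MvPolynomial.bind₁_X_right]
        rfl
      exact AlgHom.congr_fun h2 p
    rw [h1, Ideal.Quotient.eq_zero_iff_mem] at hp
    have h2 := hp h' hh'
    have h3 : me (((h' : GL ι ℂ) : Matrix ι ι ℂ) * Y x₀) (MvPolynomial.bind₁ φ p) = MvPolynomial.eval
        (fun v => (((g₀ * h' : Gal U Y) : GL ι ℂ) : Matrix ι ι ℂ) v.1.1 v.1.2) p := by
      have h4 : me (((h' : GL ι ℂ) : Matrix ι ι ℂ) * Y x₀) (MvPolynomial.bind₁ φ p) =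
          MvPolynomial.eval (fun v => me (((h' : GL ι ℂ) : Matrix ι ι ℂ) * Y x₀) (φ v)) p := by
        have h5 := MvPolynomial.aeval_bind₁ (R := ℂ) (fun v : ι × ι => (((h' : GL ι ℂ) : Matrix ι ι ℂ) * Y x₀) v.1 v.2)
          φ p
        exact h5
      rw [h4]
      congr 2
      funext v
      rw [hφ, ← mul_assoc, mul_assoc _ (Y x₀), Matrix.mul_nonsing_inv _ hYu, mul_one]
      rfl
    rw [← h3]
    exact h2
  have hcard : V'.card ≤ Fintype.card I := by
    have h1 := hφind.cardinalMk_le_trdeg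
    have h2 : Algebra.trdeg ℂ (MvPolynomial (ι × ι) ℂ ⧸ 𝔭) ≤ Cardinal.mk s := Algebra.IsAlgebraic.trdeg_le_cardinalMk ℂ s (alg := halg)
    have h3 : Cardinal.mk s ≤ Cardinal.mk I := Cardinal.mk_range_le
    have h4 := (h1.trans h2).trans h3
    rw [Cardinal.mk_fintype, Cardinal.mk_fintype, Fintype.card_coe] at h4
    exact_mod_cast h4
  -- the entries
  have hinj : Function.Injective ι₀ := by
    have h1 := hind.injective
    exact h1.of_comp
  obtain ⟨V, hV, hVc⟩ := Finset.exists_subset_card_eq (s := Finset.univ.map ⟨ι₀, hinj⟩) (n := V'.card) (by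
    rw [Finset.card_map, Finset.card_univ]
    exact hcard)
  refine ⟨V, hVc, ?_⟩
  have hVj : ∀ v : V, ∃ i, ι₀ i = v.1 := by
    intro v
    obtain ⟨i, -, hi⟩ := Finset.mem_map.1 (hV v.2)
    exact ⟨i, hi⟩
  choose j hj using hVj
  have hjinj : Function.Injective j := by
    intro v w hvw
    apply Subtype.ext
    rw [← hj v, ← hj w, hvw]
  intro p hp
  have h1 : MvPolynomial.aeval F (MvPolynomial.rename (fun v : V => v.1) p) = 0 := by
    rw [hz']
    intro x hx
    rw [rv, MvPolynomial.eval₂_rename]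
    exact hp x hx
  rw [MvPolynomial.aeval_rename] at h1
  have h2 : F ∘ (fun v : V => v.1) = (F ∘ ι₀) ∘ j := by
    funext v
    simp only [Function.comp_apply]
    rw [hj]
  rw [h2] at h1
  exact (algebraicIndependent_iff.1 (hind.comp j hjinj)) p h1

end Pool.Agent.V11273.PV
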