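import Pool.Agent.V11273.PV.G7

/-!
# Hodge tensors and adapted unitary frames
-/

set_option autoImplicit false
set_option linter.unusedSectionVars false

open Filter Topology NumberField
open scoped ComplexConjugate Matrix

namespace Pool.Agent.V11273.PV

variable {I : Type} [Fintype I] [DecidableEq I]

/-- row tensor times tensor power of a matrix -/
noncomputable def rt {m : ℕ} (γ : (Fin m → I) → ℂ) (Z : Matrix I I ℂ) : (Fin m → I) → ℂ := γ ᵥ* tp m Z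

theorem rt_apply {m : ℕ} (γ : (Fin m → I) → ℂ) (Z : Matrix I I ℂ) (J : Fin m → I) :
    rt γ Z J = ∑ a, γ a * ∏ i, Z (a i) (J i) := rfl

theorem rt_mul {m : ℕ} (γ : (Fin m → I) → ℂ) (Z W : Matrix I I ℂ) : rt γ (Z * W) = rt (rt γ Z) W := by
  rw [rt, rt, rt, tp_mul, Matrix.vecMul_vecMul]

theorem rt_one {m : ℕ} (γ : (Fin m → I) → ℂ) : rt γ (1 : Matrix I I ℂ) = γ := by
  rw [rt, tp_one, Matrix.vecMul_one]

theorem rt_conj {m : ℕ} {γ : (Fin m → I) → ℂ} (hγ : ∀ a, conj (γ a) = γ a) (Z : Matrix I I ℂ) (J : Fin m → I) :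
    rt γ (Z.map (starRingEnd ℂ)) J = conj (rt γ Z J) := by
  rw [rt_apply, rt_apply, map_sum]
  refine Finset.sum_congr rfl fun a _ => ?_
  rw [map_mul, hγ, map_prod]
  rfl

/-- an adapted unitary frame of the Hodge decomposition -/
def Frame (p : I → ℤ) (w : ℤ) (S Y : Matrix I I ℂ) : Prop :=
  ∃ Z T M : Matrix I I ℂ, Z = Y * T ∧ (∀ a b, T a b ≠ 0 → p b ≤ p a) ∧
    Z.map (starRingEnd ℂ) = Z * M ∧ (∀ a b, M a b ≠ 0 → p a + p b = w) ∧
    Zᵀ * S * Z.map (starRingEnd ℂ) = Matrix.diagonal fun b => Complex.I ^ (w - 2 * p b)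

/-- the tensor is orthogonal to the part of the Hodge filtration of level more than half of the weight -/
def HodgeT (p : I → ℤ) (w : ℤ) (Y : Matrix I I ℂ) {m : ℕ} (γ : (Fin m → I) → ℂ) : Prop :=
  ∀ J : Fin m → I, (m : ℤ) * w < 2 * ∑ i, p (J i) → rt γ Y J = 0

theorem supp1 {p : I → ℤ} {w : ℤ} {Y Z T : Matrix I I ℂ} (hZ : Z = Y * T) (hT : ∀ a b, T a b ≠ 0 → p b ≤ p a) {m : ℕ}
    {γ : (Fin m → I) → ℂ} (hγ : HodgeT p w Y γ) (J : Fin m → I) (hJ : (m : ℤ) * w < 2 * ∑ i, p (J i)) :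
    rt γ Z J = 0 := by
  rw [hZ, rt_mul, rt_apply]
  refine Finset.sum_eq_zero fun a _ => ?_
  by_cases h : ∀ i, T (a i) (J i) ≠ 0
  · have h1 : ∑ i, p (J i) ≤ ∑ i, p (a i) := Finset.sum_le_sum fun i _ => hT _ _ (h i)
    rw [hγ a (by linarith), zero_mul]
  · push Not at h
    obtain ⟨i, hi⟩ := h
    rw [Finset.prod_eq_zero (Finset.mem_univ i) hi, mul_zero]

theorem supp2 {p : I → ℤ} {w : ℤ} {Y Z T M : Matrix I I ℂ} (hZ : Z = Y * T) (hT : ∀ a b, T a b ≠ 0 → p b ≤ p a)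
    (hM : Z.map (starRingEnd ℂ) = Z * M) (hM' : ∀ a b, M a b ≠ 0 → p a + p b = w) {m : ℕ}
    {γ : (Fin m → I) → ℂ} (hr : ∀ a, conj (γ a) = γ a) (hγ : HodgeT p w Y γ) (J : Fin m → I) (hJ : rt γ Z J ≠ 0) :
    2 * ∑ i, p (J i) = (m : ℤ) * w := by
  by_contra hne
  rcases lt_or_gt_of_ne hne with h | h
  · apply hJ
    have h1 : conj (rt γ Z J) = 0 := by
      rw [← rt_conj hr, hM, rt_mul, rt_apply]
      refine Finset.sum_eq_zero fun a _ => ?_
      by_cases h2 : ∀ i, M (a i) (J i) ≠ 0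
      · have h3 : ∑ i, p (a i) + ∑ i, p (J i) = (m : ℤ) * w := by
          rw [← Finset.sum_add_distrib, Finset.sum_congr rfl fun i _ => hM' _ _ (h2 i)]
          simp
        rw [supp1 hZ hT hγ a (by linarith), zero_mul]
      · push Not at h2
        obtain ⟨i, hi⟩ := h2
        rw [Finset.prod_eq_zero (Finset.mem_univ i) hi, mul_zero]
    exact (map_eq_zero _).1 h1
  · exact hJ (supp1 hZ hT hγ J h)

theorem tp_diag (m : ℕ) (d : I → ℂ) : tp m (Matrix.diagonal d) = Matrix.diagonal fun J : Fin m → I => ∏ i, d (J i) := by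
  ext a b
  simp only [tp, Matrix.of_apply]
  by_cases h : a = b
  · subst h
    simp
  · rw [Matrix.diagonal_apply_ne _ h]
    obtain ⟨i, hi⟩ := Function.ne_iff.1 h
    exact Finset.prod_eq_zero (Finset.mem_univ i) (Matrix.diagonal_apply_ne _ hi)

theorem tp_transpose (m : ℕ) (Z : Matrix I I ℂ) : tp m Zᵀ = (tp m Z)ᵀ := by
  ext a b
  simp [tp]

/-- the frame gives the inverse of the polarization -/
theorem frame_inv {p : I → ℤ} {w : ℤ} {S Z : Matrix I I ℂ}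
    (h : Zᵀ * S * Z.map (starRingEnd ℂ) = Matrix.diagonal fun b => Complex.I ^ (w - 2 * p b)) :
    S * (Z.map (starRingEnd ℂ) * Matrix.diagonal (fun b => Complex.I ^ (-(w - 2 * p b))) * Zᵀ) = 1 := by
  have h1 : (Matrix.diagonal fun b => Complex.I ^ (w - 2 * p b)) * Matrix.diagonal (fun b => Complex.I ^ (-(w - 2 * p b))) =
      (1 : Matrix I I ℂ) := by
    rw [Matrix.diagonal_mul_diagonal]
    rw [← Matrix.diagonal_one]
    congr 1
    funext b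
    rw [← zpow_add₀ Complex.I_ne_zero, add_neg_cancel, zpow_zero]
  rw [← h] at h1
  have h2 : Zᵀ * (S * Z.map (starRingEnd ℂ) * Matrix.diagonal (fun b => Complex.I ^ (-(w - 2 * p b)))) = 1 := by
    rw [← h1]
    simp only [Matrix.mul_assoc]
  have h3 := mul_eq_one_comm.1 h2
  rw [← h3]
  simp only [Matrix.mul_assoc]

theorem prod_zpow' {x : ℂ} (hx : x ≠ 0) {m : ℕ} (s : Finset (Fin m)) (f : Fin m → ℤ) :
    ∏ i ∈ s, x ^ f i = x ^ ∑ i ∈ s, f i := by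
  induction s using Finset.induction_on with
  | empty => simp
  | insert a s ha ih => rw [Finset.prod_insert ha, Finset.sum_insert ha, zpow_add₀ hx, ih]

/-- the form of a tensor -/
noncomputable def qf {m : ℕ} (S' : Matrix I I ℂ) (γ : (Fin m → I) → ℂ) : ℂ := γ ⬝ᵥ (tp m S' *ᵥ γ)

/-- **Hodge tensors: the norm is the form.** -/
theorem norm_eq {p : I → ℤ} {w : ℤ} {S Y Z T M : Matrix I I ℂ} (hZ : Z = Y * T) (hT : ∀ a b, T a b ≠ 0 → p b ≤ p a)
    (hM : Z.map (starRingEnd ℂ) = Z * M) (hM' : ∀ a b, M a b ≠ 0 → p a + p b = w)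
    (hS : Zᵀ * S * Z.map (starRingEnd ℂ) = Matrix.diagonal fun b => Complex.I ^ (w - 2 * p b)) {m : ℕ}
    {γ : (Fin m → I) → ℂ} (hr : ∀ a, conj (γ a) = γ a) (hγ : HodgeT p w Y γ) :
    qf S⁻¹ γ = ((∑ J, ‖rt γ Z J‖ ^ 2 : ℝ) : ℂ) := by
  rw [Matrix.inv_eq_right_inv (frame_inv hS), qf, tp_mul, tp_mul, tp_diag, tp_transpose]
  have h1 : ((tp m (Z.map (starRingEnd ℂ)) * Matrix.diagonal (fun J : Fin m → I => ∏ i, Complex.I ^ (-(w - 2 * p (J i)))) *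
      (tp m Z)ᵀ) *ᵥ γ) = tp m (Z.map (starRingEnd ℂ)) *ᵥ
        (Matrix.diagonal (fun J : Fin m → I => ∏ i, Complex.I ^ (-(w - 2 * p (J i)))) *ᵥ rt γ Z) := by
    rw [← Matrix.mulVec_mulVec, ← Matrix.mulVec_mulVec, Matrix.mulVec_transpose]
    rfl
  rw [h1, Matrix.dotProduct_mulVec]
  have h2 : γ ᵥ* tp m (Z.map (starRingEnd ℂ)) = fun J => conj (rt γ Z J) := by
    funext J
    exact rt_conj hr Z J
  rw [h2, dotProduct, Complex.ofReal_sum]
  refine Finset.sum_congr rfl fun J _ => ?_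
  rw [Matrix.mulVec_diagonal]
  by_cases hJ : rt γ Z J = 0
  · rw [hJ]
    simp
  · have h3 := supp2 hZ hT hM hM' hr hγ J hJ
    have h4 : ∏ i, Complex.I ^ (-(w - 2 * p (J i))) = 1 := by
      rw [prod_zpow' Complex.I_ne_zero]
      have h5 : ∑ i, -(w - 2 * p (J i)) = 0 := by
        rw [Finset.sum_neg_distrib, Finset.sum_sub_distrib, ← Finset.mul_sum, h3]
        simp
      rw [h5, zpow_zero]
    rw [h4, one_mul, Complex.conj_mul']
    push_cast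
    rfl

/-- the form is invariant -/
theorem qf_inv {S : Matrix I I ℂ} {R : Matrix I I ℂ} (hR : S * R = 1) {g : Matrix I I ℂ} (hg : gᵀ * S * g = S) {m : ℕ}
    (γ : (Fin m → I) → ℂ) : qf R (rt γ g) = qf R γ := by
  have h1 : g * R * gᵀ = R := by
    have h2 : (R * gᵀ * S) * g = 1 := by
      have h3 : R * S = 1 := mul_eq_one_comm.1 hR
      calc (R * gᵀ * S) * g = R * (gᵀ * S * g) := by simp only [Matrix.mul_assoc]
        _ = 1 := by rw [hg, h3]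
    have h4 : g * (R * gᵀ * S) = 1 := mul_eq_one_comm.1 h2
    calc g * R * gᵀ = g * (R * gᵀ * S) * R := by
          simp only [Matrix.mul_assoc, hR, Matrix.mul_one]
      _ = R := by rw [h4, one_mul]
  have h5 : tp m R *ᵥ rt γ g = (tp m R * (tp m g)ᵀ) *ᵥ γ := by
    rw [← Matrix.mulVec_mulVec, Matrix.mulVec_transpose]
    rfl
  rw [qf, h5, rt, ← Matrix.dotProduct_mulVec, Matrix.mulVec_mulVec, ← tp_transpose, ← Matrix.mul_assoc, ← tp_mul,
    ← tp_mul, h1]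
  rfl

/-- integral tensors of bounded norm -/
theorem bounded_finite {Z W : Matrix I I ℂ} (hZW : Z * W = 1) (m : ℕ) (B : ℝ) :
    {δ : (Fin m → I) → ℤ | ∑ J, ‖rt (fun a => (δ a : ℂ)) Z J‖ ^ 2 ≤ B}.Finite := by
  classical
  set R : ℝ := ∑ J : Fin m → I, ∑ a : Fin m → I, (|B| + 1) * ‖tp m W J a‖ with hR
  refine (Set.finite_Icc (fun _ : Fin m → I => -⌈R⌉) (fun _ : Fin m → I => ⌈R⌉)).subset fun δ hδ => ?_
  change ∑ J, ‖rt (fun a => (δ a : ℂ)) Z J‖ ^ 2 ≤ B at hδ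
  have h1 : ∀ J, ‖rt (fun a => (δ a : ℂ)) Z J‖ ≤ |B| + 1 := by
    intro J
    have h2 : ‖rt (fun a => (δ a : ℂ)) Z J‖ ^ 2 ≤ B :=
      (Finset.single_le_sum (f := fun J => ‖rt (fun a => (δ a : ℂ)) Z J‖ ^ 2) (fun _ _ => by positivity)
        (Finset.mem_univ J)).trans hδ
    have h3 := le_abs_self B
    nlinarith [norm_nonneg (rt (fun a => (δ a : ℂ)) Z J), abs_nonneg B,
      sq_nonneg (‖rt (fun a => (δ a : ℂ)) Z J‖ - 1)]
  have h4 : ∀ a, |(δ a : ℝ)| ≤ R := by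
    intro a
    have h5 : (δ a : ℂ) = rt (rt (fun a => (δ a : ℂ)) Z) W a := by
      rw [← rt_mul, hZW, rt_one]
    have h6 : |(δ a : ℝ)| = ‖(δ a : ℂ)‖ := by
      rw [← Complex.ofReal_intCast, Complex.norm_real, Real.norm_eq_abs]
    rw [h6, h5, rt_apply]
    refine (norm_sum_le _ _).trans (Finset.sum_le_sum fun J _ => ?_)
    rw [norm_mul]
    have h7 : ‖∏ i, W (J i) (a i)‖ = ‖tp m W J a‖ := rfl
    rw [h7]
    refine (mul_le_mul_of_nonneg_right (h1 J) (norm_nonneg _)).trans ?_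
    exact Finset.single_le_sum (f := fun a => (|B| + 1) * ‖tp m W J a‖) (fun _ _ => by positivity) (Finset.mem_univ a)
  rw [Set.mem_Icc]
  refine ⟨fun a => ?_, fun a => ?_⟩
  · have h8 := (abs_le.1 (h4 a)).1
    have h9 : (-⌈R⌉ : ℝ) ≤ (δ a : ℝ) := by linarith [Int.le_ceil R]
    exact_mod_cast h9
  · have h8 := (abs_le.1 (h4 a)).2
    have h9 : (δ a : ℝ) ≤ (⌈R⌉ : ℝ) := by linarith [Int.le_ceil R]
    exact_mod_cast h9

/-- the polynomials which express the action -/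
noncomputable def apol {m : ℕ} (γ : (Fin m → I) → ℂ) (J : Fin m → I) : MvPolynomial (I × I) ℂ :=
  ∑ a, MvPolynomial.monomial (∑ i, Finsupp.single (a i, J i) 1) (γ a)

theorem apol_eval {m : ℕ} (γ : (Fin m → I) → ℂ) (J : Fin m → I) (Z : Matrix I I ℂ) :
    MvPolynomial.eval (fun v => Z v.1 v.2) (apol γ J) = rt γ Z J := by
  have h1 : ∀ {q : ℕ} (u : Fin q → I × I) (c : ℂ), MvPolynomial.eval (fun v => Z v.1 v.2)
      (MvPolynomial.monomial (∑ i, Finsupp.single (u i) 1) c) = c * ∏ i, Z (u i).1 (u i).2 := by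
    intro q u c
    rw [MvPolynomial.monomial_eq]
    simp only [map_mul, MvPolynomial.eval_C]
    congr 1
    rw [← Finsupp.prod_finsetSum_index (fun _ => pow_zero _) (fun _ _ _ => pow_add _ _ _), map_prod]
    refine Finset.prod_congr rfl fun i _ => ?_
    have h2 : (Finsupp.single (u i) 1).prod (fun n e => (MvPolynomial.X n : MvPolynomial (I × I) ℂ) ^ e) =
        MvPolynomial.X (u i) := by
      simp [Finsupp.prod_single_index]
    refine (congrArg (MvPolynomial.eval fun v : I × I => Z v.1 v.2) h2).trans ?_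
    rw [MvPolynomial.eval_X]
  rw [apol, map_sum, rt_apply]
  refine Finset.sum_congr rfl fun a _ => ?_
  rw [h1 (fun i => (a i, J i))]

/-- **A finite orbit of a Zariski dense subgroup**: the tensor is fixed by the identity component. -/
theorem orbit_fixed {𝒢 Γ : Subgroup (GL I ℂ)} (hΓ : Γ ≤ 𝒢)
    (hd : ∀ P : MvPolynomial (I × I) ℂ, (∀ g ∈ Γ, MvPolynomial.eval (fun v => (g : Matrix I I ℂ) v.1 v.2) P = 0) →
      ∀ g ∈ 𝒢, MvPolynomial.eval (fun v => (g : Matrix I I ℂ) v.1 v.2) P = 0) {m : ℕ} (γ : (Fin m → I) → ℂ)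
    (hfin : {δ | ∃ g ∈ Γ, g ∈ IdComp 𝒢 ∧ δ = rt γ (g : Matrix I I ℂ)}.Finite) :
    ∀ g ∈ IdComp 𝒢, rt γ (g : Matrix I I ℂ) = γ := by
  classical
  obtain ⟨H₀, hH₀f, hH₀c, hmin, -⟩ := exists_idc 𝒢
  have hmem : ∀ (g : GL I ℂ) (hg : g ∈ 𝒢), (⟨g, hg⟩ : 𝒢) ∈ H₀ → g ∈ IdComp 𝒢 :=
    fun g hg h => ⟨hg, fun H hf hc => hmin H hf hc h⟩
  haveI := hH₀f
  haveI : Finite (𝒢 ⧸ H₀) := Subgroup.finite_quotient_of_finiteIndex
  have hΓfin : {δ | ∃ g ∈ Γ, δ = rt γ (g : Matrix I I ℂ)}.Finite := by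
    let cl : Γ → 𝒢 ⧸ H₀ := fun g => QuotientGroup.mk (⟨((g : GL I ℂ)⁻¹ : GL I ℂ), 𝒢.inv_mem (hΓ g.2)⟩ : 𝒢)
    let rep : 𝒢 ⧸ H₀ → Γ := fun q => if h : ∃ g, cl g = q then h.choose else 1
    refine (Set.finite_iUnion fun q : 𝒢 ⧸ H₀ => hfin.image fun δ => rt δ ((rep q : GL I ℂ) : Matrix I I ℂ)).subset ?_
    rintro δ ⟨g, hg, rfl⟩
    have h1 : ∃ g', cl g' = cl ⟨g, hg⟩ := ⟨_, rfl⟩
    have h2 : cl (rep (cl ⟨g, hg⟩)) = cl ⟨g, hg⟩ := by
      simp only [rep, dif_pos h1]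
      exact h1.choose_spec
    set b : Γ := rep (cl ⟨g, hg⟩) with hb
    refine Set.mem_iUnion.2 ⟨cl ⟨g, hg⟩, rt γ ((g * (b : GL I ℂ)⁻¹ : GL I ℂ) : Matrix I I ℂ), ?_, ?_⟩
    · refine ⟨g * (b : GL I ℂ)⁻¹, Γ.mul_mem hg (Γ.inv_mem b.2), ?_, rfl⟩
      refine hmem _ (𝒢.mul_mem (hΓ hg) (𝒢.inv_mem (hΓ b.2))) ?_
      have h3 := QuotientGroup.eq.1 h2.symm
      have h4 : (⟨g * (b : GL I ℂ)⁻¹, 𝒢.mul_mem (hΓ hg) (𝒢.inv_mem (hΓ b.2))⟩ : 𝒢) =
          (⟨(g⁻¹ : GL I ℂ), 𝒢.inv_mem (hΓ hg)⟩ : 𝒢)⁻¹ * ⟨((b : GL I ℂ)⁻¹ : GL I ℂ), 𝒢.inv_mem (hΓ b.2)⟩ := by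
        apply Subtype.ext
        simp
      rw [h4]
      exact h3
    · change rt (rt γ ((g * (b : GL I ℂ)⁻¹ : GL I ℂ) : Matrix I I ℂ)) ((b : GL I ℂ) : Matrix I I ℂ) = _
      rw [← rt_mul, ← Units.val_mul, inv_mul_cancel_right]
  have hall : ∀ g ∈ 𝒢, rt γ (g : Matrix I I ℂ) ∈ {δ | ∃ g ∈ Γ, δ = rt γ (g : Matrix I I ℂ)} := by
    intro g₀ hg₀
    by_contra hn
    have hJ : ∀ a : {δ | ∃ g ∈ Γ, δ = rt γ (g : Matrix I I ℂ)}, ∃ J, rt γ (g₀ : Matrix I I ℂ) J ≠ a.1 J := by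
      intro a
      by_contra hc
      push Not at hc
      apply hn
      have h1 : rt γ (g₀ : Matrix I I ℂ) = a.1 := funext hc
      rw [h1]
      exact a.2
    choose J hJ using hJ
    haveI := hΓfin.fintype
    have h0 := hd (∏ a : {δ | ∃ g ∈ Γ, δ = rt γ (g : Matrix I I ℂ)}, (apol γ (J a) - MvPolynomial.C (a.1 (J a)))) (by
      intro g hg
      rw [map_prod]
      refine Finset.prod_eq_zero (Finset.mem_univ (⟨rt γ (g : Matrix I I ℂ), g, hg, rfl⟩ :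
        {δ | ∃ g ∈ Γ, δ = rt γ (g : Matrix I I ℂ)})) ?_
      rw [map_sub, apol_eval, MvPolynomial.eval_C, sub_self]) g₀ hg₀
    rw [map_prod, Finset.prod_eq_zero_iff] at h0
    obtain ⟨a, -, ha⟩ := h0
    rw [map_sub, apol_eval, MvPolynomial.eval_C, sub_eq_zero] at ha
    exact hJ a ha
  let H : Subgroup 𝒢 :=
    { carrier := {g | rt γ ((g : GL I ℂ) : Matrix I I ℂ) = γ}
      mul_mem' := by
        intro a b ha hb
        change rt γ (((a * b : 𝒢) : GL I ℂ) : Matrix I I ℂ) = γ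
        rw [Subgroup.coe_mul, Units.val_mul, rt_mul, show rt γ ((a : GL I ℂ) : Matrix I I ℂ) = γ from ha]
        exact hb
      one_mem' := by
        change rt γ (((1 : 𝒢) : GL I ℂ) : Matrix I I ℂ) = γ
        rw [Subgroup.coe_one, Units.val_one, rt_one]
      inv_mem' := by
        intro a ha
        change rt γ (((a⁻¹ : 𝒢) : GL I ℂ) : Matrix I I ℂ) = γ
        have h1 : rt (rt γ ((a : GL I ℂ) : Matrix I I ℂ)) (((a⁻¹ : 𝒢) : GL I ℂ) : Matrix I I ℂ) = γ := by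
          rw [← rt_mul, ← Units.val_mul, ← Subgroup.coe_mul, mul_inv_cancel, Subgroup.coe_one, Units.val_one, rt_one]
        rwa [show rt γ ((a : GL I ℂ) : Matrix I I ℂ) = γ from ha] at h1 }
  have hHc : ClosedIn H := by
    refine ⟨{e | ∃ J, e = apol γ J - MvPolynomial.C (γ J)}, fun h => ⟨fun hh e he => ?_, fun hh => ?_⟩⟩
    · obtain ⟨J, rfl⟩ := he
      rw [map_sub, apol_eval, MvPolynomial.eval_C, show rt γ ((h : GL I ℂ) : Matrix I I ℂ) = γ from hh, sub_self]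
    · change rt γ ((h : GL I ℂ) : Matrix I I ℂ) = γ
      funext J
      have h1 := hh _ ⟨J, rfl⟩
      rw [map_sub, apol_eval, MvPolynomial.eval_C, sub_eq_zero] at h1
      exact h1
  have hHf : H.FiniteIndex := by
    haveI := hΓfin.to_subtype
    haveI : Finite (𝒢 ⧸ H) := by
      refine Finite.of_injective (fun q : 𝒢 ⧸ H => (⟨rt γ (((q.out⁻¹ : 𝒢) : GL I ℂ) : Matrix I I ℂ), hall _ (q.out⁻¹ : 𝒢).2⟩ :
        {δ | ∃ g ∈ Γ, δ = rt γ (g : Matrix I I ℂ)})) fun q q' hqq => ?_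
      have h1 : rt γ (((q.out⁻¹ : 𝒢) : GL I ℂ) : Matrix I I ℂ) = rt γ (((q'.out⁻¹ : 𝒢) : GL I ℂ) : Matrix I I ℂ) :=
        congrArg Subtype.val hqq
      have h2 : q.out⁻¹ * q'.out ∈ H := by
        change rt γ (((q.out⁻¹ * q'.out : 𝒢) : GL I ℂ) : Matrix I I ℂ) = γ
        rw [Subgroup.coe_mul, Units.val_mul, rt_mul, h1, ← rt_mul, ← Units.val_mul, ← Subgroup.coe_mul, inv_mul_cancel,
          Subgroup.coe_one, Units.val_one, rt_one]
      have h3 := QuotientGroup.eq.2 h2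
      rw [QuotientGroup.out_eq', QuotientGroup.out_eq'] at h3
      exact h3
    exact Subgroup.finiteIndex_of_finite_quotient
  intro g hg
  obtain ⟨hg1, hg2⟩ := hg
  exact hg2 H hHf hHc

/-- **A tensor which is a Hodge tensor after all translations by the identity component is fixed by it.** -/
theorem hodge_fixed {𝒢 Γ : Subgroup (GL I ℂ)} (hΓ : Γ ≤ 𝒢)
    (hd : ∀ P : MvPolynomial (I × I) ℂ, (∀ g ∈ Γ, MvPolynomial.eval (fun v => (g : Matrix I I ℂ) v.1 v.2) P = 0) →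
      ∀ g ∈ 𝒢, MvPolynomial.eval (fun v => (g : Matrix I I ℂ) v.1 v.2) P = 0)
    (hint : ∀ g ∈ Γ, ∀ a b, ∃ n : ℤ, (g : Matrix I I ℂ) a b = n) {S : Matrix I I ℂ}
    (hpres : ∀ g ∈ Γ, (g : Matrix I I ℂ)ᵀ * S * (g : Matrix I I ℂ) = S) {p : I → ℤ} {w : ℤ} {Y : Matrix I I ℂ}
    (hfr : Frame p w S Y) {m : ℕ} (γ : (Fin m → I) → ℤ)
    (hH : ∀ g ∈ IdComp 𝒢, HodgeT p w ((g : Matrix I I ℂ) * Y) fun a => (γ a : ℂ)) :
    ∀ g ∈ IdComp 𝒢, rt (fun a => (γ a : ℂ)) (g : Matrix I I ℂ) = fun a => (γ a : ℂ) := by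
  classical
  obtain ⟨Z, T, M, hZ, hT, hM, hM', hS⟩ := hfr
  have hinv := frame_inv hS
  refine orbit_fixed hΓ hd _ ?_
  -- an inverse of the frame
  obtain ⟨W, hW⟩ : ∃ W, Z * W = 1 := by
    have h1 : (S * (Z.map (starRingEnd ℂ) * Matrix.diagonal (fun b => Complex.I ^ (-(w - 2 * p b))))) * Zᵀ = 1 := by
      rw [← hinv]
      simp only [Matrix.mul_assoc]
    refine ⟨(S * (Z.map (starRingEnd ℂ) * Matrix.diagonal (fun b => Complex.I ^ (-(w - 2 * p b)))))ᵀ, ?_⟩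
    have h2 := congrArg Matrix.transpose h1
    rw [Matrix.transpose_mul, Matrix.transpose_transpose, Matrix.transpose_one] at h2
    exact h2
  set B : ℝ := ‖qf S⁻¹ (fun a => (γ a : ℂ))‖ with hB
  refine ((bounded_finite hW m B).image fun δ a => (δ a : ℂ)).subset ?_
  rintro δ ⟨g, hgΓ, hgI, rfl⟩
  -- integrality
  have h3 : ∀ J, ∃ n : ℤ, rt (fun a => (γ a : ℂ)) (g : Matrix I I ℂ) J = n := by
    intro J
    choose N hN using hint g hgΓ
    refine ⟨∑ a, γ a * ∏ i, N (a i) (J i), ?_⟩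
    rw [rt_apply]
    push_cast
    simp only [hN]
  choose δ hδ using h3
  refine ⟨δ, ?_, funext fun J => (hδ J).symm⟩
  have hδ' : (fun a => (δ a : ℂ)) = rt (fun a => (γ a : ℂ)) (g : Matrix I I ℂ) := funext fun J => (hδ J).symm
  have hHδ : HodgeT p w Y fun a => (δ a : ℂ) := by
    intro J hJ
    rw [hδ', ← rt_mul]
    exact hH g hgI J hJ
  have hr : ∀ a, conj ((δ a : ℤ) : ℂ) = (δ a : ℂ) := fun a => by simp
  have h4 := norm_eq hZ hT hM hM' hS hr hHδ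
  rw [hδ', qf_inv (by rw [Matrix.inv_eq_right_inv hinv]; exact hinv) (hpres g hgΓ)] at h4
  change ∑ J, ‖rt (fun a => (δ a : ℂ)) Z J‖ ^ 2 ≤ B
  rw [hB, h4, Complex.norm_real, Real.norm_eq_abs, hδ']
  exact le_abs_self _

end Pool.Agent.V11273.PV
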