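import Pool.Agent.V11273.PV.H1

/-!
# Algebraic points of bounded height on the Hodge locus
-/

set_option autoImplicit false
set_option linter.unusedSectionVars false

open Filter Topology NumberField
open scoped ComplexConjugate Matrix

namespace Pool.Agent.V11273.PV

open Pool.Agent.Y890.MV
open Pool.Agent.Y890.SP (exists_omega Qbar)
open Pool.Agent.Y124 (Cov)

variable {X I : Type} [Fintype X] [DecidableEq X] [Fintype I] [DecidableEq I]

/-- points with a small integral Hodge tensor which is not fixed by the identity component -/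
def ExcH (U : Set (X → ℂ)) (Y : (X → ℂ) → Matrix I I ℂ) (p : I → ℤ) (w : ℤ) (K : Type) [Field K] [NumberField K]
    (io : K →+* ℂ) (k : ℕ) (T : ℝ) : Set (X → K) :=
  {s | (∀ j, Y120.HtLe K T (s j)) ∧ (fun j => io (s j)) ∈ InnerM U k ∧ ∃ m ≤ k, ∃ γ : (Fin m → I) → ℤ,
    ((∑ a, |γ a| : ℤ) : ℝ) ≤ T ^ (k : ℝ) ∧ HodgeT p w (Y fun j => io (s j)) (fun a => (γ a : ℂ)) ∧
    ∃ g ∈ IdComp (Gal U Y), rt (fun a => (γ a : ℂ)) (g : Matrix I I ℂ) ≠ fun a => (γ a : ℂ)}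

theorem apol_small {K : Type} [Field K] [NumberField K] (io : K →+* ℂ) {k : ℕ} (hk : 0 < k) {T : ℝ} {m : ℕ} (hm : m ≤ k)
    {γ : (Fin m → I) → ℤ} (hγ : ((∑ a, |γ a| : ℤ) : ℝ) ≤ T ^ (k : ℝ)) (J : Fin m → I) :
    Small K io k (fun i : Fin k => if (i : ℕ) = 0 then 1 else 0) T (apol (fun a => (γ a : ℂ)) J) := by
  classical
  refine ⟨fun y => ?_, fun u => ?_⟩
  · rw [MvPolynomial.degreeOf_le_iff]
    intro u hu
    rw [MvPolynomial.mem_support_iff] at hu
    by_contra hcon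
    push Not at hcon
    apply hu
    rw [apol, MvPolynomial.coeff_sum]
    refine Finset.sum_eq_zero fun a _ => ?_
    rw [MvPolynomial.coeff_monomial, if_neg]
    rintro rfl
    have := deg_single (fun i => (a i, J i)) y
    omega
  · set c : ℤ := ∑ a, if (∑ i, Finsupp.single (a i, J i) 1 : I × I →₀ ℕ) = u then γ a else 0 with hc
    have h1 : (apol (fun a => (γ a : ℂ)) J).coeff u = (c : ℂ) := by
      rw [apol, MvPolynomial.coeff_sum, hc]
      push_cast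
      refine Finset.sum_congr rfl fun a _ => ?_
      rw [MvPolynomial.coeff_monomial]
    have h2 : |(c : ℝ)| ≤ T ^ (k : ℝ) := by
      refine le_trans ?_ hγ
      have h3 : |c| ≤ ∑ a, |γ a| := by
        refine (Finset.abs_sum_le_sum_abs _ _).trans (Finset.sum_le_sum fun a _ => ?_)
        split_ifs
        · exact le_rfl
        · simp
      exact_mod_cast h3
    refine ⟨fun i => if (i : ℕ) = 0 then (c : 𝓞 K) else 0, fun i φ => ?_, ?_⟩
    · by_cases hi : (i : ℕ) = 0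
      · simp only [hi, if_true]
        have h4 : φ (((c : 𝓞 K)) : K) = (c : ℂ) := by simp
        rw [h4, ← Complex.ofReal_intCast, Complex.norm_real, Real.norm_eq_abs]
        exact h2
      · simp only [hi, if_false]
        have h4 : φ (((0 : 𝓞 K)) : K) = 0 := by simp
        rw [h4, norm_zero]
        exact (abs_nonneg _).trans h2
    · rw [h1, Finset.sum_eq_single (⟨0, hk⟩ : Fin k)]
      · simp
      · intro b _ hb
        have h5 : (b : ℕ) ≠ 0 := fun h => hb (Fin.ext h)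
        simp [h5]
      · simp

/-- **Few algebraic points of bounded height on the Hodge locus.** -/
theorem main_H [Nonempty X] {U : Set (X → ℂ)} (hU : IsPreconnected U) (hUo : IsOpen U) (hne : U.Nonempty)
    {Y : (X → ℂ) → Matrix I I ℂ} (hY : ∀ a b, AnalyticOnNhd ℂ (fun x => Y x a b) U) (hdet : ∀ x ∈ U, (Y x).det ≠ 0)
    {c : MvPolynomial X ℂ} (hc0 : c ≠ 0) {B : X → Matrix I I (MvPolynomial X ℂ)} (hc : Connection U Y c B)
    {Γ : Subgroup (GL I ℂ)} (hΓ : Γ ≤ Gal U Y)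
    (hd : ∀ P : MvPolynomial (I × I) ℂ, (∀ g ∈ Γ, MvPolynomial.eval (fun v => (g : Matrix I I ℂ) v.1 v.2) P = 0) →
      ∀ g ∈ Gal U Y, MvPolynomial.eval (fun v => (g : Matrix I I ℂ) v.1 v.2) P = 0)
    (hint : ∀ g ∈ Γ, ∀ a b, ∃ n : ℤ, (g : Matrix I I ℂ) a b = n) {S : Matrix I I ℂ}
    (hpres : ∀ g ∈ Γ, (g : Matrix I I ℂ)ᵀ * S * (g : Matrix I I ℂ) = S) {p : I → ℤ} {w : ℤ}
    (hfr : ∀ x ∈ U, Frame p w S (Y x)) :
    ∃ (ω : ℝ → ℕ) (T₀ : ℝ), Tendsto ω atTop atTop ∧ Monotone ω ∧ ∀ T, T₀ ≤ T → 0 < ω T ∧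
      ∀ (K : Type) [Field K] [NumberField K], Module.finrank ℚ K ≤ ω T → ∀ (io : K →+* ℂ),
        Cov ⌊T ^ ((ω T : ℝ)⁻¹)⌋₊ ⌊T ^ ((ω T : ℝ)⁻¹)⌋₊
          ((fun (s : X → K) i => io (s i)) '' ExcH U Y p w K io (ω T) T) ∧
        (ExcH U Y p w K io (ω T) T).Finite ∧
        ((ExcH U Y p w K io (ω T) T).ncard : ℝ) ≤
          T ^ ((ω T : ℝ)⁻¹) * ({x : K | Y120.HtLe K T x}.ncard : ℝ) ^ (Fintype.card X - 1) := by
  classical
  obtain ⟨ω, T₀, h1, h2, h3⟩ := excC_omega hU hUo hne hY hdet hc0 hc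
  refine ⟨ω, T₀, h1, h2, fun T hT => ⟨(h3 T hT).1, fun K _ _ hK io => ?_⟩⟩
  have hω := (h3 T hT).1
  obtain ⟨h6, h7, h8⟩ := (h3 T hT).2 K hK io (fun i : Fin (ω T) => if (i : ℕ) = 0 then 1 else 0)
  have hsub : ExcH U Y p w K io (ω T) T ⊆ ExcB U (fun (v : I × I) x => Y x v.1 v.2) (BadC U Y) K io (ω T)
      (fun i : Fin (ω T) => if (i : ℕ) = 0 then 1 else 0) T := by
    rintro s ⟨hs, hin, m, hm, γ, hγ, hHodge, g₀, hg₀, hne₀⟩
    have hxU : (fun j => io (s j)) ∈ U := innerM_sub U hω hin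
    have h9 : ¬ ∀ g ∈ IdComp (Gal U Y), HodgeT p w ((g : Matrix I I ℂ) * Y fun j => io (s j)) fun a => (γ a : ℂ) :=
      fun h => hne₀ (hodge_fixed hΓ hd hint hpres (hfr _ hxU) γ h g₀ hg₀)
    push Not at h9
    obtain ⟨g, hg, h10⟩ := h9
    unfold HodgeT at h10
    push Not at h10
    obtain ⟨J, hJ, h11⟩ := h10
    refine ⟨hs, hin, apol (fun a => (γ a : ℂ)) J, apol_small io hω hm hγ J, ?_, g, hg, ?_⟩
    · rw [apol_eval]
      exact hHodge J hJ
    · rw [apol_eval]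
      exact h11
  refine ⟨h6.mono le_rfl le_rfl (Set.image_mono hsub), h7.subset hsub, le_trans ?_ h8⟩
  exact_mod_cast Set.ncard_le_ncard hsub h7

end Pool.Agent.V11273.PV
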